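import Pool.Agent.Run7.h208.WT.PlaneFin

/-!
# Directed polymers in dimension one: the typical wandering exponent is that of the end point
-/

set_option autoImplicit false

open MeasureTheory ProbabilityTheory Filter Topology
open scoped ENNReal

namespace Pool.Agent.Run7.h208.WT

open TH967.DP
open Pool.Agent.N662.SE hiding vis res part_eq_zz energy_eq zz site site_inj law win
  measurable_zz

/-- The wandering exponent of the end point around the line of slope `v`: the infimum of the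
`b > 0` such that `E P_n (‖S_n - n v‖ > n^b) → 0`. -/
noncomputable def wanderEnd {d : ℕ} {Ω : Type} [MeasurableSpace Ω] (P : Measure Ω)
    (ω : ℕ → (Fin d → ℤ) → Ω → ℝ) (β : ℝ) (h v : Fin d → ℝ) : ℝ :=
  sInf {b : ℝ | 0 < b ∧ Tendsto (fun n : ℕ => ∫ x, polymer β h (fun i y => ω i y x) n
    {w | (n : ℝ) ^ b < dev v w n} ∂P) atTop (𝓝 0)}

variable {Ω : Type} [MeasurableSpace Ω] {P : Measure Ω} [IsProbabilityMeasure P]
  {ω : ℕ → (Fin 1 → ℤ) → Ω → ℝ}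

omit [IsProbabilityMeasure P] in
lemma typ_sub_end (β : ℝ) (h v : Fin 1 → ℝ) {b : ℝ} (hb : 0 < b ∧ ∀ ε : ℝ, 0 < ε →
    ∃ N : ℕ, ∀ n : ℕ, N ≤ n → ∀ i : ℕ, i ≤ n →
    ∫ x, polymer β h (fun i y => ω i y x) n {w | (n : ℝ) ^ b < dev v w i} ∂P ≤ ε) :
    0 < b ∧ Tendsto (fun n : ℕ => ∫ x, polymer β h (fun i y => ω i y x) n
      {w | (n : ℝ) ^ b < dev v w n} ∂P) atTop (𝓝 0) := by
  refine ⟨hb.1, ?_⟩
  rw [Metric.tendsto_atTop]
  intro ε hε
  obtain ⟨N, hN⟩ := hb.2 (ε / 2) (by positivity)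
  refine ⟨N, fun n hn => ?_⟩
  have h1 := hN n hn n le_rfl
  have h2 : 0 ≤ ∫ x, polymer β h (fun i y => ω i y x) n {w | (n : ℝ) ^ b < dev v w n} ∂P := by
    apply integral_nonneg
    intro x
    simp only [Pi.zero_apply]
    rw [polymer_eq]
    exact prob_nonneg _ _ _ _
  rw [Real.dist_eq, sub_zero, abs_of_nonneg h2]
  linarith

/-- the exponent of the end point is the exponent of all times -/
theorem end_eq_typ (he : IsEnv P ω) (β : ℝ) (h v : Fin 1 → ℝ) :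
    wanderEnd P ω β h v = wanderTyp P ω β h v := by
  apply le_antisymm
  · apply csInf_le_csInf ⟨0, fun _ hb => hb.1.le⟩ ⟨2, two_mem_typ β h v⟩
    intro b hb
    exact typ_sub_end β h v hb
  · apply le_csInf ⟨2, typ_sub_end β h v (two_mem_typ β h v)⟩
    rintro b' ⟨hb'0, hb'⟩
    apply le_of_forall_gt_imp_ge_of_dense
    intro b hb
    exact csInf_le ⟨0, fun _ hb => hb.1.le⟩
      ⟨by linarith, loc_all he β h v hb (by linarith) hb'⟩

/-- in every dimension: the end point under the lower tail -/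
theorem end_low {d : ℕ} {Ω : Type} [MeasurableSpace Ω] {P : Measure Ω} [IsProbabilityMeasure P]
    {ω : ℕ → (Fin d → ℤ) → Ω → ℝ} (mgf : S_MGF) (hd : 1 ≤ d) (he : IsEnv P ω)
    (hexp : ∀ b : ℝ, Integrable (fun x => Real.exp (b * ω 1 0 x)) P) (β : ℝ)
    {φ : (Fin d → ℝ) → ℝ}
    (hφ : ∀ h, Tendsto (fun n : ℕ => (∫ x, logZ β h (fun i y => ω i y x) n ∂P) / n) atTop
      (𝓝 (φ h))) :
    ∀ᵐ h : Fin d → ℝ, ∃ v : Fin d → ℝ,
      2 * wanderEnd P ω β h v - 1 ≤ expLowLoc P ω β φ h := by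
  obtain ⟨φ2, g1, -, g3⟩ := lower (P := P) (ω := ω) mgf hd he hexp β
  have h0 : φ2 = φ := by
    funext h
    exact tendsto_nhds_unique (g1 h) (hφ h)
  subst h0
  filter_upwards [g3] with h hh
  obtain ⟨v, hv⟩ := hh
  refine ⟨v, ?_⟩
  have hbE : BddBelow {b : ℝ | 0 < b ∧ Tendsto (fun n : ℕ => ∫ x, polymer β h
      (fun i y => ω i y x) n {w | (n : ℝ) ^ b < dev v w n} ∂P) atTop (𝓝 0)} :=
    ⟨0, fun _ hb => hb.1.le⟩
  have hhalf : expLowLoc P ω β φ2 h ≤ 1 / 2 := by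
    apply le_of_forall_gt_imp_ge_of_dense
    intro ζ hζ
    exact csInf_le ⟨0, fun _ hξ => hξ.1.le⟩ ⟨by linarith, Set.univ, isOpen_univ, Set.mem_univ _,
      exists_low mgf hd he hexp β g1 hζ _⟩
  have hne : {ξ : ℝ | 0 < ξ ∧ ∃ U : Set (Fin d → ℝ), IsOpen U ∧ h ∈ U ∧
      LowTail P ω β φ2 U ξ}.Nonempty :=
    ⟨1, one_pos, Set.univ, isOpen_univ, Set.mem_univ _,
      exists_low mgf hd he hexp β g1 (by norm_num) _⟩
  have main : ∀ ξ : ℝ, 0 < ξ → ξ < 1 → (∃ U : Set (Fin d → ℝ), IsOpen U ∧ h ∈ U ∧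
      LowTail P ω β φ2 U ξ) → 2 * wanderEnd P ω β h v - 1 ≤ ξ := by
    rintro ξ hξ0 hξ1 ⟨U, hU, hhU, hξ⟩
    suffices hs : wanderEnd P ω β h v ≤ (1 + ξ) / 2 by linarith
    apply le_of_forall_gt_imp_ge_of_dense
    intro b hb
    exact csInf_le hbE ⟨by linarith, hv U ξ hU hhU hξ0 hξ1 hξ b hb⟩
  apply le_csInf hne
  rintro ξ ⟨hξ0, hξ⟩
  rcases lt_or_ge ξ 1 with hx | hx
  · exact main ξ hξ0 hx hξ
  · obtain ⟨ξ', ⟨hξ'0, hξ'⟩, hlt⟩ :=
      exists_lt_of_csInf_lt hne (show sInf {ξ : ℝ | 0 < ξ ∧ ∃ U : Set (Fin d → ℝ), IsOpen U ∧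
        h ∈ U ∧ LowTail P ω β φ2 U ξ} < 1 from lt_of_le_of_lt hhalf (by norm_num))
    exact (main ξ' hξ'0 hlt hξ').trans (by linarith)

end Pool.Agent.Run7.h208.WT
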