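import Pool.Agent.Run7.h208.WT.Mom

/-!
# Directed polymers: almost sure bounds
-/

set_option autoImplicit false

open MeasureTheory ProbabilityTheory Filter Topology
open scoped ENNReal

namespace Pool.Agent.Run7.h208.WT

open TH967.DP
open Pool.Agent.N662.SE

variable {d : ℕ}

/-- the error terms -/
lemma err_le (d : ℕ) {α ζ1 ζ : ℝ} (hα : 0 < α) (h1 : ζ1 < ζ) :
    ∃ K' : ℝ, 0 ≤ K' ∧ ∀ L : ℕ, 1 ≤ L →
      (L + 1 : ℝ) * (3 * Real.exp (-(α * (L : ℝ) ^ (-ζ1) * (L : ℝ) ^ ζ))) +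
        (L + 1) * ((2 * L + 1) ^ d * (3 * Real.exp (-(α * (L : ℝ) ^ (-ζ1) * (L : ℝ) ^ ζ)))) ≤
        K' * (L : ℝ) ^ (-(1 : ℝ)) := by
  obtain ⟨K, hK0, hK⟩ := exp_small (q := (d : ℝ) + 2) hα (by linarith : 0 < ζ - ζ1)
  refine ⟨12 * K * 3 ^ d, by positivity, fun L h5 => ?_⟩
  have hL1 : (1 : ℝ) ≤ L := by exact_mod_cast h5
  have hLp : (0 : ℝ) < L := by linarith
  have e1 : α * (L : ℝ) ^ (-ζ1) * (L : ℝ) ^ ζ = α * (L : ℝ) ^ (ζ - ζ1) := by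
    rw [mul_assoc, ← Real.rpow_add hLp]
    congr 2
    ring
  rw [e1]
  have h6 := hK L h5
  have h7 : (L + 1 : ℝ) ≤ 2 * L := by linarith
  have h8 : ((2 : ℝ) * L + 1) ^ d ≤ (3 * L) ^ d :=
    pow_le_pow_left₀ (by positivity) (by linarith) d
  have h9 : (1 : ℝ) ≤ (3 * L) ^ d := one_le_pow₀ (by linarith)
  have hKL : 0 ≤ K * (L : ℝ) ^ (-((d : ℝ) + 2)) :=
    mul_nonneg hK0 (Real.rpow_nonneg hLp.le _)
  calc (L + 1 : ℝ) * (3 * Real.exp (-(α * (L : ℝ) ^ (ζ - ζ1)))) +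
        (L + 1) * ((2 * L + 1) ^ d * (3 * Real.exp (-(α * (L : ℝ) ^ (ζ - ζ1)))))
      ≤ (2 * L) * (3 * (K * (L : ℝ) ^ (-((d : ℝ) + 2)))) +
        (2 * L) * ((3 * L) ^ d * (3 * (K * (L : ℝ) ^ (-((d : ℝ) + 2))))) := by gcongr
    _ ≤ (2 * L) * ((3 * L) ^ d * (3 * (K * (L : ℝ) ^ (-((d : ℝ) + 2))))) +
        (2 * L) * ((3 * L) ^ d * (3 * (K * (L : ℝ) ^ (-((d : ℝ) + 2))))) := by
        have h10 : 3 * (K * (L : ℝ) ^ (-((d : ℝ) + 2))) ≤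
            (3 * L) ^ d * (3 * (K * (L : ℝ) ^ (-((d : ℝ) + 2)))) :=
          le_mul_of_one_le_left (by positivity) h9
        exact add_le_add (mul_le_mul_of_nonneg_left h10 (by positivity)) le_rfl
    _ = 12 * K * 3 ^ d * (L * (L : ℝ) ^ d * (L : ℝ) ^ (-((d : ℝ) + 2))) := by
        rw [mul_pow]
        ring
    _ = 12 * K * 3 ^ d * (L : ℝ) ^ (-(1 : ℝ)) := by
        congr 1
        nth_rewrite 1 [← Real.rpow_one (L : ℝ)]
        rw [← Real.rpow_natCast (L : ℝ) d, ← Real.rpow_add hLp, ← Real.rpow_add hLp]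
        congr 1
        ring

lemma summable_two_pow {a : ℝ} (ha : a < 0) : Summable fun k : ℕ => ((2 ^ k : ℕ) : ℝ) ^ a := by
  have h1 : ∀ k : ℕ, ((2 ^ k : ℕ) : ℝ) ^ a = ((2 : ℝ) ^ a) ^ k := by
    intro k
    push_cast
    rw [← Real.rpow_natCast 2 k, ← Real.rpow_natCast ((2 : ℝ) ^ a) k,
      ← Real.rpow_mul (by norm_num), ← Real.rpow_mul (by norm_num), mul_comm]
  simp_rw [h1]
  apply summable_geometric_of_lt_one (Real.rpow_nonneg (by norm_num) _)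
  exact Real.rpow_lt_one_of_one_lt_of_neg (by norm_num) ha

section
variable {Ω : Type} [mΩ : MeasurableSpace Ω] {P : Measure Ω} [IsProbabilityMeasure P]
  {ω : ℕ → (Fin d → ℤ) → Ω → ℝ}

/-- the almost sure bound -/
theorem as_bound (hi' : S_ID) (hd : 1 ≤ d) (he : IsEnv P ω)
    (hm : ∀ (β : ℝ) (h : Fin d → ℝ) (n : ℕ), Measurable (lw ω β h 0 0 n))
    (β : ℝ) (h : Fin d → ℝ) (φ : ℝ) {α ζ1 ζ2 ζ C : ℝ} (hα : 0 < α)
    (hζ1 : 0 < ζ1) (hζ2 : ζ1 < ζ2) (hζ : ζ2 < ζ)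
    (hLL : ∀ n : ℕ, 1 ≤ n → LL P ω β h φ (α * (n : ℝ) ^ (-ζ1)) n ≤ ENNReal.ofReal 3)
    (hC : ∀ n : ℕ, 1 ≤ n → ∀ s : ℝ, 0 < s →
      P.real {x | n * φ + s ≤ lw ω β h 0 0 n x} ≤ C * n * s ^ (-(1 / ζ2))) :
    ∀ᵐ x ∂P, ∀ᶠ n : ℕ in atTop, |lw ω β h 0 0 n x - n * φ| ≤ (n : ℝ) ^ ζ := by
  obtain ⟨ζ', hζ'1, hζ'2⟩ := exists_between hζ
  have hζ20 : 0 < ζ2 := by linarith
  have hζ'0 : 0 < ζ' := by linarith
  obtain ⟨K', hK'0, hK'⟩ := err_le d hα (by linarith : ζ1 < ζ')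
  set E1 : ℕ → Set Ω := fun L => ⋃ t ∈ Finset.range (L + 1),
    {x | lw ω β h 0 0 t x < t * φ - (L : ℝ) ^ ζ'} with hE1
  set E2 : ℕ → Set Ω := fun L => ⋃ t ∈ Finset.range (L + 1), ⋃ z ∈ Box d L,
      {x | lw ω β h t z (L - t) x < (L - t : ℕ) * φ - (L : ℝ) ^ ζ'} with hE2
  set G : ℕ → Set Ω := fun L => {x | L * φ + (L : ℝ) ^ ζ' ≤ lw ω β h 0 0 L x} with hG
  set Bd : ℕ → Set Ω := fun k => (E1 (2 ^ k) ∪ E2 (2 ^ k)) ∪ G (2 ^ k) with hBd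
  have hBle : ∀ k : ℕ, P (Bd k) ≤ ENNReal.ofReal (K' * ((2 ^ k : ℕ) : ℝ) ^ (-(1 : ℝ)) +
      |C| * ((2 ^ k : ℕ) : ℝ) ^ (-(ζ' / ζ2 - 1))) := by
    intro k
    set L : ℕ := 2 ^ k with hL
    have hL1 : 1 ≤ L := Nat.one_le_two_pow
    have hLp : (0 : ℝ) < L := by exact_mod_cast hL1
    have hlow : ∀ n ≤ L, P.real {x | lw ω β h 0 0 n x < n * φ - (L : ℝ) ^ ζ'} ≤
        3 * Real.exp (-(α * (L : ℝ) ^ (-ζ1) * (L : ℝ) ^ ζ')) := by
      intro n hn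
      rcases Nat.eq_zero_or_pos n with rfl | hn0
      · have e : {x | lw ω β h 0 0 0 x < (0 : ℕ) * φ - (L : ℝ) ^ ζ'} = ∅ := by
          ext x
          simp only [Set.mem_setOf_eq, Set.mem_empty_iff_false, iff_false, not_lt]
          rw [lw_zero, Nat.cast_zero, zero_mul]
          have := Real.rpow_pos_of_pos hLp ζ'
          linarith
        rw [e]
        simp only [measureReal_empty]
        positivity
      · have hnp : (0 : ℝ) < n := by exact_mod_cast hn0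
        have h1 := LL_markov hm β h φ (α * (n : ℝ) ^ (-ζ1))
          (mul_pos hα (Real.rpow_pos_of_pos hnp _)).le n ((L : ℝ) ^ ζ') (hLL n hn0)
        refine h1.trans ?_
        have h2 : (L : ℝ) ^ (-ζ1) ≤ (n : ℝ) ^ (-ζ1) :=
          Real.rpow_le_rpow_of_nonpos hnp (by exact_mod_cast hn) (by linarith)
        gcongr
    obtain ⟨b1, b2⟩ := bad_le hi' hd he β h φ ((L : ℝ) ^ ζ') _ L hlow
    have b3 := hC L hL1 ((L : ℝ) ^ ζ') (Real.rpow_pos_of_pos hLp _)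
    have b4 : C * L * ((L : ℝ) ^ ζ') ^ (-(1 / ζ2)) ≤ |C| * (L : ℝ) ^ (-(ζ' / ζ2 - 1)) := by
      rw [← Real.rpow_mul hLp.le]
      calc C * L * (L : ℝ) ^ (ζ' * -(1 / ζ2)) ≤ |C| * L * (L : ℝ) ^ (ζ' * -(1 / ζ2)) := by
            gcongr
            exact le_abs_self C
        _ = |C| * (L : ℝ) ^ (-(ζ' / ζ2 - 1)) := by
            rw [mul_assoc]
            congr 1
            nth_rewrite 1 [← Real.rpow_one (L : ℝ)]
            rw [← Real.rpow_add hLp]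
            congr 1
            ring
    have b5 : P.real (Bd k) ≤ K' * (L : ℝ) ^ (-(1 : ℝ)) + |C| * (L : ℝ) ^ (-(ζ' / ζ2 - 1)) := by
      calc P.real (Bd k) ≤ P.real (E1 L ∪ E2 L) + P.real (G L) := measureReal_union_le _ _
        _ ≤ (P.real (E1 L) + P.real (E2 L)) + P.real (G L) := by
            gcongr
            exact measureReal_union_le _ _
        _ ≤ _ := add_le_add ((add_le_add b1 b2).trans (hK' L hL1)) (b3.trans b4)
    rw [← ofReal_measureReal (measure_ne_top _ _)]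
    exact ENNReal.ofReal_le_ofReal b5
  have hsum : ∑' k, P (Bd k) ≠ ∞ := by
    have h1 : Summable fun k : ℕ => K' * ((2 ^ k : ℕ) : ℝ) ^ (-(1 : ℝ)) +
        |C| * ((2 ^ k : ℕ) : ℝ) ^ (-(ζ' / ζ2 - 1)) := by
      refine ((summable_two_pow (by norm_num)).mul_left _).add
        ((summable_two_pow ?_).mul_left _)
      have : 1 < ζ' / ζ2 := by rwa [one_lt_div hζ20]
      linarith
    exact ne_top_of_le_ne_top h1.tsum_ofReal_ne_top (ENNReal.tsum_le_tsum hBle)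
  filter_upwards [ae_eventually_notMem hsum] with x hx
  obtain ⟨k0, hk0⟩ := eventually_atTop.1 hx
  filter_upwards [eventually_ge_atTop (2 ^ k0), pow_dom' hζ'2 (2 * 2 ^ ζ')] with m hm1 hm2
  have hm0 : 1 ≤ m := le_trans Nat.one_le_two_pow hm1
  set k : ℕ := Nat.log 2 m + 1 with hk
  have hk1 : k0 ≤ k := by
    have := Nat.le_log_of_pow_le (by norm_num : 1 < 2) hm1
    omega
  have hxk := hk0 k hk1
  set L : ℕ := 2 ^ k with hL
  have hmL : m ≤ L := (Nat.lt_pow_succ_log_self (by norm_num : 1 < 2) m).le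
  have hL2 : L ≤ 2 * m := by
    have h1 := Nat.pow_log_le_self 2 (by omega : m ≠ 0)
    rw [hL, hk, pow_succ]
    omega
  have hmp : (0 : ℝ) < m := by exact_mod_cast hm0
  have hLζ : (L : ℝ) ^ ζ' ≤ 2 ^ ζ' * (m : ℝ) ^ ζ' := by
    rw [← Real.mul_rpow (by norm_num) hmp.le]
    apply Real.rpow_le_rpow (Nat.cast_nonneg _) _ hζ'0.le
    exact_mod_cast hL2
  simp only [hBd, Set.mem_union, not_or] at hxk
  obtain ⟨⟨hx1, hx2⟩, hxG⟩ := hxk
  have h1 : m * φ - (L : ℝ) ^ ζ' ≤ lw ω β h 0 0 m x := by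
    by_contra hc
    apply hx1
    simp only [hE1]
    rw [Set.mem_iUnion₂]
    exact ⟨m, Finset.mem_range.2 (by omega), not_le.1 hc⟩
  have h2 : ∀ u : Fin m → Step d, (L - m : ℕ) * φ - (L : ℝ) ^ ζ' ≤
      lw ω β h m (pos u m) (L - m) x := by
    intro u
    by_contra hc
    apply hx2
    simp only [hE2]
    rw [Set.mem_iUnion₂]
    refine ⟨m, Finset.mem_range.2 (by omega), ?_⟩
    rw [Set.mem_iUnion₂]
    exact ⟨pos u m, pos_mem_Box hmL u, not_le.1 hc⟩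
  have h3 := chain_pt hd β h m (L - m) _ x h2
  have e : m + (L - m) = L := by omega
  rw [e] at h3
  have h4 : lw ω β h 0 0 L x < L * φ + (L : ℝ) ^ ζ' := not_le.1 hxG
  have e2 : ((L - m : ℕ) : ℝ) = L - m := Nat.cast_sub hmL
  rw [e2] at h3
  have h5 : 2 * (L : ℝ) ^ ζ' ≤ (m : ℝ) ^ ζ := by
    calc 2 * (L : ℝ) ^ ζ' ≤ 2 * (2 ^ ζ' * (m : ℝ) ^ ζ') := by linarith
      _ = 2 * 2 ^ ζ' * (m : ℝ) ^ ζ' := by ring
      _ ≤ _ := hm2
  have h6 : 0 ≤ (L : ℝ) ^ ζ' := Real.rpow_nonneg (Nat.cast_nonneg _) _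
  rw [abs_le]
  constructor
  · linarith
  · nlinarith

end

end Pool.Agent.Run7.h208.WT
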