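import Pool.Agent.N662.SE.Stm2
import Pool.Agent.N662.SE.Det
import Pool.Agent.N50.SE.Sup

/-!
# Directed polymers: exponential moments of the free energy along a chain of blocks
-/

set_option autoImplicit false

open MeasureTheory ProbabilityTheory Filter Topology
open scoped ENNReal

namespace Pool.Agent.Run7.h208.WT

open TH967.DP
open Pool.Agent.N662.SE
open Pool.Agent.N50.SE.SUP (wt part_eq part_add wt_pos meas_wt meas_part log_ge)

variable {d : ℕ}

/-- `exp` as an extended nonnegative number -/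
noncomputable def EX (t : ℝ) : ℝ≥0∞ := ENNReal.ofReal (Real.exp t)

lemma EX_add (s t : ℝ) : EX (s + t) = EX s * EX t := by
  unfold EX
  rw [Real.exp_add, ENNReal.ofReal_mul (Real.exp_pos _).le]

lemma EX_mono {s t : ℝ} (h : s ≤ t) : EX s ≤ EX t :=
  ENNReal.ofReal_le_ofReal (Real.exp_le_exp.2 h)

lemma EX_zero : EX 0 = 1 := by simp [EX]

lemma EX_ne_top (t : ℝ) : EX t ≠ ∞ := ENNReal.ofReal_ne_top

lemma measurable_EX : Measurable EX := Real.measurable_exp.ennreal_ofReal

/-- the box of radius `N` -/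
noncomputable def Box (d N : ℕ) : Finset (Fin d → ℤ) :=
  Fintype.piFinset (fun _ => Finset.Icc (-(N:ℤ)) N)

lemma card_Box (d N : ℕ) : ((Box d N).card : ℝ) = (2 * N + 1) ^ d := by
  rw [Box, Fintype.card_piFinset]
  simp only [Int.card_Icc, Finset.prod_const, Finset.card_univ, Fintype.card_fin]
  have e : ((N:ℤ) + 1 - -(N:ℤ)).toNat = 2 * N + 1 := by omega
  rw [e]
  push_cast
  rfl

section
variable {Ω : Type} [mΩ : MeasurableSpace Ω] (P : Measure Ω) [IsProbabilityMeasure P]
  (ω : ℕ → (Fin d → ℤ) → Ω → ℝ)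

/-- the sigma-algebra of the times `≤ m` -/
def lo (m : ℕ) : MeasurableSpace Ω :=
  ⨆ s ∈ {s : ℕ × (Fin d → ℤ) | s.1 ≤ m}, MeasurableSpace.comap (ω s.1 s.2) inferInstance

/-- the sigma-algebra of the times `> m` -/
def hi (m : ℕ) : MeasurableSpace Ω :=
  ⨆ s ∈ {s : ℕ × (Fin d → ℤ) | m < s.1}, MeasurableSpace.comap (ω s.1 s.2) inferInstance

variable {P ω}

lemma lo_le (he : IsEnv P ω) (m : ℕ) : lo ω m ≤ mΩ :=
  iSup₂_le fun s _ => (he.meas s.1 s.2).comap_le

lemma hi_le (he : IsEnv P ω) (m : ℕ) : hi ω m ≤ mΩ :=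
  iSup₂_le fun s _ => (he.meas s.1 s.2).comap_le

lemma indep_lo_hi (he : IsEnv P ω) (m : ℕ) : Indep (lo ω m) (hi ω m) P := by
  have hle : ∀ s : ℕ × (Fin d → ℤ), MeasurableSpace.comap (ω s.1 s.2) inferInstance ≤ mΩ :=
    fun s => (he.meas s.1 s.2).comap_le
  have hI := indep_iSup_of_disjoint hle he.indep
    (S := {s : ℕ × (Fin d → ℤ) | s.1 ≤ m}) (T := {s : ℕ × (Fin d → ℤ) | m < s.1})
    (by
      rw [Set.disjoint_left]
      intro s hs ht
      simp only [Set.mem_setOf_eq] at hs ht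
      omega)
  exact hI

lemma meas_lw_hi (β : ℝ) (h : Fin d → ℝ) (m : ℕ) (z : Fin d → ℤ) (n : ℕ) :
    Measurable[hi ω m] (lw ω β h m z n) := by
  have hmm : ∀ i, 1 ≤ i → i ≤ n → ∀ y, Measurable[hi ω m] (ω (m + i) (z + y)) := by
    intro i hi' _ y
    have h1 : MeasurableSpace.comap (ω (m + i) (z + y)) inferInstance ≤ hi ω m :=
      le_iSup₂_of_le (m + i, z + y) (by simp only [Set.mem_setOf_eq]; omega) le_rfl
    exact (comap_measurable (ω (m + i) (z + y))).mono h1 le_rfl
  have h2 := @meas_part d Ω (hi ω m) (fun i y => ω (m + i) (z + y)) β h n hmm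
  unfold lw
  exact Real.measurable_log.comp h2

lemma meas_lo (m : ℕ) (i : ℕ) (hi' : i ≤ m) (y : Fin d → ℤ) : Measurable[lo ω m] (ω i y) := by
  have h1 : MeasurableSpace.comap (ω i y) inferInstance ≤ lo ω m :=
    le_iSup₂_of_le (i, y) (by simp only [Set.mem_setOf_eq]; omega) le_rfl
  exact (comap_measurable (ω i y)).mono h1 le_rfl

lemma meas_lw_lo (β : ℝ) (h : Fin d → ℝ) (m : ℕ) : Measurable[lo ω m] (lw ω β h 0 0 m) := by
  have h2 := @meas_part d Ω (lo ω m) (fun i y => ω (0 + i) (0 + y)) β h m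
    (fun i _ hi' y => by rw [zero_add, zero_add]; exact meas_lo m i hi' y)
  unfold lw
  exact Real.measurable_log.comp h2

lemma meas_wt_lo (β : ℝ) (h : Fin d → ℝ) (m : ℕ) (u : Fin m → Step d) :
    Measurable[lo ω m] (fun x => wt β h (fun i y => ω i y x) u) :=
  @meas_wt d Ω (lo ω m) (fun i y => ω i y) β h m (fun i _ hi' y => meas_lo m i hi' y) u

lemma meas_part_lo (β : ℝ) (h : Fin d → ℝ) (m : ℕ) :
    Measurable[lo ω m] (fun x => part β h (fun i y => ω i y x) m Set.univ) :=
  @meas_part d Ω (lo ω m) (fun i y => ω i y) β h m (fun i _ hi' y => meas_lo m i hi' y)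

/-- the weight of the blocks -/
noncomputable def HH (ω : ℕ → (Fin d → ℤ) → Ω → ℝ) (β : ℝ) (h : Fin d → ℝ) (l F s0 : ℝ) (N a b : ℕ)
    (x : Ω) : ℝ :=
  Real.exp (l * (F + s0)) + ∑ z ∈ Box d N, if s0 < lw ω β h a z b x - F then
    Real.exp (l * lw ω β h a z b x) else 0

lemma HH_pos (β : ℝ) (h : Fin d → ℝ) (l F s0 : ℝ) (N a b : ℕ) (x : Ω) :
    0 < HH ω β h l F s0 N a b x := by
  unfold HH
  have : 0 ≤ ∑ z ∈ Box d N, (if s0 < lw ω β h a z b x - F then
    Real.exp (l * lw ω β h a z b x) else 0) :=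
    Finset.sum_nonneg fun z _ => by split_ifs <;> positivity
  have h2 := Real.exp_pos (l * (F + s0))
  linarith

lemma le_HH (β : ℝ) (h : Fin d → ℝ) {l : ℝ} (hl : 0 ≤ l) (F s0 : ℝ) {N a b : ℕ} (x : Ω)
    {z : Fin d → ℤ} (hz : z ∈ Box d N) :
    Real.exp (l * lw ω β h a z b x) ≤ HH ω β h l F s0 N a b x := by
  have h0 : ∀ z' ∈ Box d N, 0 ≤ (if s0 < lw ω β h a z' b x - F then
    Real.exp (l * lw ω β h a z' b x) else 0) := fun z' _ => by
      split_ifs <;> positivity
  unfold HH
  by_cases hc : s0 < lw ω β h a z b x - F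
  · have h1 := Finset.single_le_sum h0 hz
    rw [if_pos hc] at h1
    have h3 := Real.exp_pos (l * (F + s0))
    linarith
  · have h1 := Finset.sum_nonneg h0
    have h2 : Real.exp (l * lw ω β h a z b x) ≤ Real.exp (l * (F + s0)) := by
      apply Real.exp_le_exp.2
      apply mul_le_mul_of_nonneg_left _ hl
      have h4 := not_lt.1 hc
      linarith
    linarith

/-- the pointwise upper bound -/
lemma up_pt (hd : 1 ≤ d) (β : ℝ) (h : Fin d → ℝ) {l : ℝ} (hl : 0 < l) (F s0 : ℝ) {N a b : ℕ}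
    (haN : a ≤ N) (x : Ω) :
    Real.exp (l * lw ω β h 0 0 (a + b) x) ≤
      Real.exp (l * lw ω β h 0 0 a x) * HH ω β h l F s0 N a b x := by
  set H := HH ω β h l F s0 N a b x with hH
  have hH0 : 0 < H := HH_pos β h l F s0 N a b x
  have h1 : ∀ z ∈ Box d N, part β h (fun i y => ω (a + i) (z + y) x) b Set.univ ≤
      Real.exp (1 / l * Real.log H) := by
    intro z hz
    have p1 := part_univ_pos hd β h (fun i y => ω (a + i) (z + y) x) b
    have p2 : Real.exp (l * lw ω β h a z b x) ≤ H := le_HH β h hl.le F s0 x hz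
    have p3 : l * lw ω β h a z b x ≤ Real.log H := by
      rw [Real.le_log_iff_exp_le hH0]
      exact p2
    have p4 : lw ω β h a z b x ≤ 1 / l * Real.log H := by
      rw [one_div, ← div_eq_inv_mul, le_div_iff₀ hl, mul_comm]
      exact p3
    calc part β h (fun i y => ω (a + i) (z + y) x) b Set.univ
        = Real.exp (lw ω β h a z b x) := by
          unfold lw
          rw [Real.exp_log p1]
      _ ≤ _ := Real.exp_le_exp.2 p4
  have h2 : part β h (fun i y => ω (0 + i) (0 + y) x) (a + b) Set.univ ≤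
      part β h (fun i y => ω (0 + i) (0 + y) x) a Set.univ * Real.exp (1 / l * Real.log H) := by
    rw [part_add, part_eq, Finset.sum_mul]
    refine Finset.sum_le_sum fun u _ => ?_
    refine mul_le_mul_of_nonneg_left ?_ (wt_pos _ _ _ _).le
    have e : (fun (i : ℕ) (y : Fin d → ℤ) => ω (0 + (a + i)) (0 + (pos u a + y)) x) =
        fun i y => ω (a + i) (pos u a + y) x := by
      funext i y
      rw [zero_add, zero_add]
    rw [e]
    refine h1 _ ?_
    rw [Box, Fintype.mem_piFinset]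
    intro k
    rw [Finset.mem_Icc]
    have h3 := abs_le.1 (abs_pos_le u a k)
    have h4 : (a : ℤ) ≤ N := by exact_mod_cast haN
    constructor <;> linarith [h3.1, h3.2]
  have q1 := part_univ_pos hd β h (fun i y => ω (0 + i) (0 + y) x) (a + b)
  have q2 := part_univ_pos hd β h (fun i y => ω (0 + i) (0 + y) x) a
  have h3 := Real.log_le_log q1 h2
  rw [Real.log_mul q2.ne' (Real.exp_pos _).ne', Real.log_exp] at h3
  have h4 : l * lw ω β h 0 0 (a + b) x ≤ l * lw ω β h 0 0 a x + Real.log H := by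
    have h5 := mul_le_mul_of_nonneg_left h3 hl.le
    have h6 : l * (Real.log (part β h (fun i y => ω (0 + i) (0 + y) x) a Set.univ) +
        1 / l * Real.log H) = l * lw ω β h 0 0 a x + Real.log H := by
      unfold lw
      field_simp
    rw [h6] at h5
    exact h5
  calc Real.exp (l * lw ω β h 0 0 (a + b) x) ≤
      Real.exp (l * lw ω β h 0 0 a x + Real.log H) := Real.exp_le_exp.2 h4
    _ = _ := by rw [Real.exp_add, Real.exp_log hH0]

/-- the upper tail part of the exponential moment, center `F` -/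
noncomputable def tauU (P : Measure Ω) (ω : ℕ → (Fin d → ℤ) → Ω → ℝ) (β : ℝ) (h : Fin d → ℝ)
    (l F s0 : ℝ) (b : ℕ) : ℝ≥0∞ :=
  ∫⁻ x, (if s0 < lw ω β h 0 0 b x - F then EX (l * (lw ω β h 0 0 b x - F)) else 0) ∂P

lemma measurable_tail (F l s0 : ℝ) : Measurable (fun t : ℝ => if s0 < t - F then
    EX (l * (t - F)) else 0) := by
  refine Measurable.ite ?_ ?_ measurable_const
  · exact measurableSet_lt measurable_const (measurable_id.sub_const F)
  · exact measurable_EX.comp ((measurable_id.sub_const F).const_mul l)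

lemma tail_shift (hi : S_ID) (hd : 1 ≤ d) (he : IsEnv P ω) (β : ℝ) (h : Fin d → ℝ)
    (l F s0 : ℝ) (a : ℕ) (z : Fin d → ℤ) (b : ℕ) :
    ∫⁻ x, (if s0 < lw ω β h a z b x - F then
      EX (l * (lw ω β h a z b x - F)) else 0) ∂P = tauU P ω β h l F s0 b := by
  have h1 := ((hi d hd Ω P ω he β h a z b).comp (measurable_tail F l s0)).lintegral_eq
  exact h1

lemma measurable_HH_hi (β : ℝ) (h : Fin d → ℝ) (l F s0 : ℝ) (N a b : ℕ) :
    Measurable[hi ω a] (HH ω β h l F s0 N a b) := by
  unfold HH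
  refine Measurable.const_add ?_ _
  refine Finset.measurable_sum _ fun z _ => ?_
  have h1 := meas_lw_hi (ω := ω) β h a z b
  have h2 : Measurable (fun t : ℝ => if s0 < t - F then Real.exp (l * t) else 0) := by
    refine Measurable.ite ?_ ?_ measurable_const
    · exact measurableSet_lt measurable_const (measurable_id.sub_const F)
    · exact Real.measurable_exp.comp (measurable_id.const_mul l)
  exact h2.comp h1

lemma lintegral_HH (hi' : S_ID) (hd : 1 ≤ d) (he : IsEnv P ω) (β : ℝ) (h : Fin d → ℝ)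
    (l F s0 : ℝ) (N a b : ℕ) :
    ∫⁻ x, ENNReal.ofReal (HH ω β h l F s0 N a b x) ∂P =
      EX (l * F) * (EX (l * s0) + (Box d N).card * tauU P ω β h l F s0 b) := by
  have h1 : ∀ x, ENNReal.ofReal (HH ω β h l F s0 N a b x) = EX (l * F) * EX (l * s0) +
      ∑ z ∈ Box d N, EX (l * F) * (if s0 < lw ω β h a z b x - F then
        EX (l * (lw ω β h a z b x - F)) else 0) := by
    intro x
    unfold HH
    rw [ENNReal.ofReal_add (Real.exp_pos _).le
      (Finset.sum_nonneg fun z _ => by split_ifs <;> positivity),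
      ENNReal.ofReal_sum_of_nonneg (fun z _ => by split_ifs <;> positivity)]
    congr 1
    · rw [← EX_add]
      unfold EX
      congr 2
      ring
    · refine Finset.sum_congr rfl fun z _ => ?_
      split_ifs
      · rw [← EX_add]
        unfold EX
        congr 2
        ring
      · simp
  simp_rw [h1]
  have hm : ∀ z, Measurable (fun x => if s0 < lw ω β h a z b x - F then
      EX (l * (lw ω β h a z b x - F)) else 0) := fun z =>
    (measurable_tail F l s0).comp ((meas_lw_hi (ω := ω) β h a z b).mono (hi_le he a) le_rfl)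
  rw [lintegral_add_left measurable_const, lintegral_const,
    lintegral_finsetSum _ (fun z _ => (hm z).const_mul _)]
  simp_rw [lintegral_const_mul _ (hm _)]
  have h2 : ∀ z, ∫⁻ x, (if s0 < lw ω β h a z b x - F then
      EX (l * (lw ω β h a z b x - F)) else 0) ∂P = tauU P ω β h l F s0 b := fun z =>
    tail_shift hi' hd he β h l F s0 a z b
  simp_rw [h2]
  rw [Finset.sum_const, nsmul_eq_mul, measure_univ, mul_one, mul_add]
  ring

/-- one step of the upper bound -/
lemma up_step (hi' : S_ID) (hd : 1 ≤ d) (he : IsEnv P ω) (β : ℝ) (h : Fin d → ℝ)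
    {l : ℝ} (hl : 0 < l) (F s0 : ℝ) {N a : ℕ} (b : ℕ) (haN : a ≤ N) :
    ∫⁻ x, EX (l * lw ω β h 0 0 (a + b) x) ∂P ≤ (∫⁻ x, EX (l * lw ω β h 0 0 a x) ∂P) *
      (EX (l * F) * (EX (l * s0) + (Box d N).card * tauU P ω β h l F s0 b)) := by
  rw [← lintegral_HH hi' hd he β h l F s0 N a b]
  have h1 : Measurable[lo ω a] (fun x => EX (l * lw ω β h 0 0 a x)) :=
    measurable_EX.comp ((meas_lw_lo β h a).const_mul l)
  have h2 : Measurable[hi ω a] (fun x => ENNReal.ofReal (HH ω β h l F s0 N a b x)) :=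
    (measurable_HH_hi β h l F s0 N a b).ennreal_ofReal
  rw [← lintegral_mul_eq_lintegral_mul_lintegral_of_independent_measurableSpace (lo_le he a)
    (hi_le he a) (indep_lo_hi he a) h1 h2]
  refine lintegral_mono fun x => ?_
  unfold EX
  rw [← ENNReal.ofReal_mul (Real.exp_pos _).le]
  exact ENNReal.ofReal_le_ofReal (up_pt hd β h hl _ s0 haN x)

/-- the pointwise lower bound -/
lemma lo_pt (hd : 1 ≤ d) (β : ℝ) (h : Fin d → ℝ) {l : ℝ} (hl : 0 ≤ l) (a b : ℕ) (x : Ω) :
    Real.exp (-l * lw ω β h 0 0 (a + b) x) ≤ ∑ u : Fin a → Step d,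
      (wt β h (fun i y => ω i y x) u / part β h (fun i y => ω i y x) a Set.univ *
        Real.exp (-l * lw ω β h 0 0 a x)) * Real.exp (-l * lw ω β h a (pos u a) b x) := by
  have h1 := log_ge hd β h (fun i y => ω i y x) a b
  set p : (Fin a → Step d) → ℝ := fun u =>
    wt β h (fun i y => ω i y x) u / part β h (fun i y => ω i y x) a Set.univ with hp
  have hA := part_univ_pos hd β h (fun i y => ω i y x) a
  have hp0 : ∀ u, 0 ≤ p u := fun u => (div_pos (wt_pos _ _ _ _) hA).le
  have hp1 : ∑ u, p u = 1 := by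
    simp only [hp]
    rw [← Finset.sum_div, ← part_eq, div_self hA.ne']
  have e0 : ∀ n, lw ω β h 0 0 n x = Real.log (part β h (fun i y => ω i y x) n Set.univ) := by
    intro n
    unfold lw
    congr 2
    funext i y
    rw [zero_add, zero_add]
  have e1 : ∀ u : Fin a → Step d, lw ω β h a (pos u a) b x =
      Real.log (part β h (fun i y => ω (a + i) (pos u a + y) x) b Set.univ) := fun u => rfl
  have hJ := convexOn_exp.map_sum_le (t := (Finset.univ : Finset (Fin a → Step d)))
    (w := p) (p := fun u => -l * lw ω β h a (pos u a) b x) (fun u _ => hp0 u) hp1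
    (fun u _ => Set.mem_univ _)
  simp only [smul_eq_mul] at hJ
  have h2 : -l * lw ω β h 0 0 (a + b) x ≤ -l * lw ω β h 0 0 a x +
      ∑ u, p u * (-l * lw ω β h a (pos u a) b x) := by
    have h3 : lw ω β h 0 0 a x + ∑ u, p u * lw ω β h a (pos u a) b x ≤
        lw ω β h 0 0 (a + b) x := by
      rw [e0, e0]
      simp only [e1]
      exact h1
    have h4 : ∑ u, p u * (-l * lw ω β h a (pos u a) b x) =
        -l * ∑ u, p u * lw ω β h a (pos u a) b x := by
      rw [Finset.mul_sum]
      exact Finset.sum_congr rfl fun u _ => by ring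
    rw [h4]
    nlinarith [mul_le_mul_of_nonneg_left h3 hl]
  calc Real.exp (-l * lw ω β h 0 0 (a + b) x)
      ≤ Real.exp (-l * lw ω β h 0 0 a x + ∑ u, p u * (-l * lw ω β h a (pos u a) b x)) :=
        Real.exp_le_exp.2 h2
    _ = Real.exp (-l * lw ω β h 0 0 a x) *
        Real.exp (∑ u, p u * (-l * lw ω β h a (pos u a) b x)) := Real.exp_add _ _
    _ ≤ Real.exp (-l * lw ω β h 0 0 a x) *
        ∑ u, p u * Real.exp (-l * lw ω β h a (pos u a) b x) :=
        mul_le_mul_of_nonneg_left hJ (Real.exp_pos _).le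
    _ = _ := by
        rw [Finset.mul_sum]
        exact Finset.sum_congr rfl fun u _ => by ring

/-- one step of the lower bound -/
lemma lo_step (hi' : S_ID) (hd : 1 ≤ d) (he : IsEnv P ω) (β : ℝ) (h : Fin d → ℝ)
    {l : ℝ} (hl : 0 ≤ l) (a b : ℕ) :
    ∫⁻ x, EX (-l * lw ω β h 0 0 (a + b) x) ∂P ≤ (∫⁻ x, EX (-l * lw ω β h 0 0 a x) ∂P) *
      ∫⁻ x, EX (-l * lw ω β h 0 0 b x) ∂P := by
  set p : (Fin a → Step d) → Ω → ℝ := fun u x =>
    wt β h (fun i y => ω i y x) u / part β h (fun i y => ω i y x) a Set.univ with hp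
  have hA : ∀ x, 0 < part β h (fun i y => ω i y x) a Set.univ := fun x =>
    part_univ_pos hd β h (fun i y => ω i y x) a
  have hp0 : ∀ u x, 0 ≤ p u x := fun u x => (div_pos (wt_pos _ _ _ _) (hA x)).le
  have hp1 : ∀ x, ∑ u, p u x = 1 := by
    intro x
    simp only [hp]
    rw [← Finset.sum_div, ← part_eq, div_self (hA x).ne']
  have hpm : ∀ u, Measurable[lo ω a] (p u) := fun u =>
    (meas_wt_lo β h a u).div (meas_part_lo β h a)
  have hf : ∀ u, Measurable[lo ω a] (fun x => ENNReal.ofReal (p u x *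
      Real.exp (-l * lw ω β h 0 0 a x))) := fun u =>
    ((hpm u).mul (Real.measurable_exp.comp ((meas_lw_lo β h a).const_mul (-l)))).ennreal_ofReal
  have hg : ∀ u : Fin a → Step d, Measurable[hi ω a]
      (fun x => EX (-l * lw ω β h a (pos u a) b x)) := fun u =>
    measurable_EX.comp ((meas_lw_hi β h a (pos u a) b).const_mul (-l))
  have hid : ∀ u : Fin a → Step d, ∫⁻ x, EX (-l * lw ω β h a (pos u a) b x) ∂P =
      ∫⁻ x, EX (-l * lw ω β h 0 0 b x) ∂P := fun u =>
    ((hi' d hd Ω P ω he β h a (pos u a) b).comp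
      (measurable_EX.comp (measurable_id.const_mul (-l)))).lintegral_eq
  calc ∫⁻ x, EX (-l * lw ω β h 0 0 (a + b) x) ∂P
      ≤ ∫⁻ x, ∑ u : Fin a → Step d, ENNReal.ofReal (p u x * Real.exp (-l * lw ω β h 0 0 a x)) *
          EX (-l * lw ω β h a (pos u a) b x) ∂P := by
        refine lintegral_mono fun x => ?_
        have h1 := lo_pt hd β h hl a b x (ω := ω)
        refine (ENNReal.ofReal_le_ofReal h1).trans (le_of_eq ?_)
        rw [ENNReal.ofReal_sum_of_nonneg]
        · refine Finset.sum_congr rfl fun u _ => ?_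
          rw [ENNReal.ofReal_mul (mul_nonneg (hp0 u x) (Real.exp_pos _).le)]
          rfl
        · intro u _
          exact mul_nonneg (mul_nonneg (hp0 u x) (Real.exp_pos _).le) (Real.exp_pos _).le
    _ = ∑ u : Fin a → Step d, (∫⁻ x, ENNReal.ofReal (p u x *
          Real.exp (-l * lw ω β h 0 0 a x)) ∂P) * ∫⁻ x, EX (-l * lw ω β h 0 0 b x) ∂P := by
        have hfg : ∀ u : Fin a → Step d, Measurable (fun x => ENNReal.ofReal (p u x *
            Real.exp (-l * lw ω β h 0 0 a x)) * EX (-l * lw ω β h a (pos u a) b x)) := fun u =>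
          ((hf u).mono (lo_le he a) le_rfl).mul ((hg u).mono (hi_le he a) le_rfl)
        rw [lintegral_finsetSum _ (fun u _ => hfg u)]
        refine Finset.sum_congr rfl fun u _ => ?_
        rw [lintegral_mul_eq_lintegral_mul_lintegral_of_independent_measurableSpace (lo_le he a)
          (hi_le he a) (indep_lo_hi he a) (hf u) (hg u), hid u]
    _ = (∫⁻ x, ∑ u : Fin a → Step d, ENNReal.ofReal (p u x *
          Real.exp (-l * lw ω β h 0 0 a x)) ∂P) * ∫⁻ x, EX (-l * lw ω β h 0 0 b x) ∂P := by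
        rw [← Finset.sum_mul, lintegral_finsetSum _ (fun u _ => (hf u).mono (lo_le he a) le_rfl)]
    _ = _ := by
        congr 1
        refine lintegral_congr fun x => ?_
        rw [← ENNReal.ofReal_sum_of_nonneg
          (fun u _ => mul_nonneg (hp0 u x) (Real.exp_pos _).le), ← Finset.sum_mul, hp1, one_mul]
        rfl

lemma lw_zero (β : ℝ) (h : Fin d → ℝ) (x : Ω) : lw ω β h 0 0 0 x = 0 := by
  unfold lw
  rw [part_eq]
  simp [wt, energy, pos]

/-- the end of the first `k` blocks -/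
def tt (b : ℕ → ℕ) (k : ℕ) : ℕ := ∑ j ∈ Finset.range k, b j

/-- the upper bound along a chain -/
lemma up_chain (hi' : S_ID) (hd : 1 ≤ d) (he : IsEnv P ω) (β : ℝ) (h : Fin d → ℝ)
    {l : ℝ} (hl : 0 < l) (F s : ℕ → ℝ) (N : ℕ) (b : ℕ → ℕ) (k : ℕ) (hk : tt b k ≤ N) :
    ∫⁻ x, EX (l * lw ω β h 0 0 (tt b k) x) ∂P ≤ ∏ j ∈ Finset.range k,
      (EX (l * F j) * (EX (l * s j) + (Box d N).card * tauU P ω β h l (F j) (s j) (b j))) := by
  induction k with
  | zero =>
    have e : tt b 0 = 0 := by simp [tt]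
    rw [e]
    simp [lw_zero, EX_zero]
  | succ k ih =>
    have e : tt b (k + 1) = tt b k + b k := Finset.sum_range_succ _ _
    rw [e] at hk ⊢
    rw [Finset.prod_range_succ]
    refine (up_step hi' hd he β h hl (F k) (s k) (b k) (by omega : tt b k ≤ N)).trans ?_
    gcongr
    exact ih (by omega)

/-- the lower bound along a chain -/
lemma lo_chain (hi' : S_ID) (hd : 1 ≤ d) (he : IsEnv P ω) (β : ℝ) (h : Fin d → ℝ)
    {l : ℝ} (hl : 0 ≤ l) (b : ℕ → ℕ) (k : ℕ) :
    ∫⁻ x, EX (-l * lw ω β h 0 0 (tt b k) x) ∂P ≤ ∏ j ∈ Finset.range k,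
      ∫⁻ x, EX (-l * lw ω β h 0 0 (b j) x) ∂P := by
  induction k with
  | zero =>
    have e : tt b 0 = 0 := by simp [tt]
    rw [e]
    simp [lw_zero, EX_zero]
  | succ k ih =>
    have e : tt b (k + 1) = tt b k + b k := Finset.sum_range_succ _ _
    rw [e, Finset.prod_range_succ]
    refine (lo_step hi' hd he β h hl (tt b k) (b k)).trans ?_
    gcongr

lemma free_zero (β : ℝ) (h : Fin d → ℝ) : free P ω β h 0 = 0 := by
  unfold free
  simp [lw_zero]

/-- superadditivity along a chain -/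
lemma sup_chain (hs : S_SUP) (hd : 1 ≤ d) (he : IsEnv P ω)
    (hexp : ∀ b : ℝ, Integrable (fun x => Real.exp (b * ω 1 0 x)) P) (β : ℝ) (h : Fin d → ℝ)
    (b : ℕ → ℕ) (k : ℕ) :
    ∑ j ∈ Finset.range k, free P ω β h (b j) ≤ free P ω β h (tt b k) := by
  induction k with
  | zero =>
    have e : tt b 0 = 0 := by simp [tt]
    rw [e, free_zero]
    simp
  | succ k ih =>
    have e : tt b (k + 1) = tt b k + b k := Finset.sum_range_succ _ _
    rw [e, Finset.sum_range_succ]
    have := hs d hd Ω P ω he hexp β h (tt b k) (b k)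
    linarith

end

end Pool.Agent.Run7.h208.WT
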