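import Pool.Agent.Run7.h208.WT.Low
import Pool.Agent.N662.SE.Up

/-!
# Directed polymers: the end point
-/

set_option autoImplicit false

open MeasureTheory ProbabilityTheory Filter Topology
open scoped ENNReal

namespace Pool.Agent.Run7.h208.WT

open TH967.DP
open Pool.Agent.N662.SE

variable {d : ℕ}

lemma min_bound {r Y : ℝ} (hr : 0 < r) (hY : 0 ≤ Y) {p : ℝ} (hp1 : p ≤ 1)
    (hp : p ≤ Real.exp (-2 * r + Y)) : p ≤ Y / r + Real.exp (-r) := by
  rcases le_total Y r with h | h
  · have h1 : Real.exp (-2 * r + Y) ≤ Real.exp (-r) := Real.exp_le_exp.2 (by linarith)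
    have h2 : 0 ≤ Y / r := by positivity
    linarith
  · have h1 : 1 ≤ Y / r := by rwa [one_le_div hr]
    have h2 := Real.exp_pos (-r)
    linarith

/-- one coordinate, one sign -/
lemma coord (hpp : S_PP) (hd : 1 ≤ d) (β : ℝ) (h v : Fin d → ℝ) (η : ℕ → (Fin d → ℤ) → ℝ)
    (n : ℕ) (k : Fin d) (s R : ℝ) :
    prob β h η n {w | R + s * (n * v k) ≤ s * (pos w n k : ℝ)} ≤
      Real.exp (-(R + s * (n * v k)) + Real.log (part β (h + Pi.single k s) η n Set.univ) -
        Real.log (part β h η n Set.univ)) := by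
  have h1 := hpp d β h η n n le_rfl k s (R + s * (n * v k)) 0 (fun z _ => by
    rw [Nat.sub_self]
    have : part β h (fun j y => η (n + j) (z + y)) 0 Set.univ = 1 := by
      unfold part
      simp [energy, pos]
    rw [this, Real.log_one])
  unfold prob
  have q1 := part_univ_pos hd β h η n
  have q2 := part_univ_pos hd β (h + Pi.single k s) η n
  rw [div_le_iff₀ q1]
  refine h1.trans (le_of_eq ?_)
  rw [add_zero, Real.exp_sub, Real.exp_add, Real.exp_log q1, Real.exp_log q2,
    div_mul_cancel₀ _ q1.ne']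

/-- the probability of a large deviation of the end point in some coordinate -/
lemma coords (hd : 1 ≤ d) (β : ℝ) (h v : Fin d → ℝ) (η : ℕ → (Fin d → ℤ) → ℝ)
    (n : ℕ) {r t : ℝ} (ht : 0 < t) :
    prob β h η n {w | ∃ k, r < |(pos w n k : ℝ) - n * v k|} ≤
      ∑ k : Fin d, ∑ b : Bool, prob β h η n
        {w | t * r + (if b then t else -t) * (n * v k) ≤ (if b then t else -t) * (pos w n k : ℝ)} := by
  unfold prob
  simp_rw [← Finset.sum_div]
  have q1 := part_univ_pos hd β h η n
  rw [div_le_div_iff_of_pos_right q1]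
  unfold part
  have hcomm : ∀ f : Fin d → Bool → (Fin n → Step d) → ℝ,
      ∑ k : Fin d, ∑ b : Bool, ∑ w : Fin n → Step d, f k b w =
        ∑ w : Fin n → Step d, ∑ k : Fin d, ∑ b : Bool, f k b w := by
    intro f
    rw [Finset.sum_comm]
    simp_rw [Finset.sum_comm (s := (Finset.univ : Finset (Fin n → Step d)))]
    rw [Finset.sum_comm]
  rw [hcomm]
  refine Finset.sum_le_sum fun w _ => ?_
  set g : (Fin n → Step d) → ℝ := fun w =>
    Real.exp (β * energy η w + ∑ k, h k * (pos w n k : ℝ)) with hg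
  have hg0 : ∀ w, 0 ≤ g w := fun w => (Real.exp_pos _).le
  by_cases hw : w ∈ {w : Fin n → Step d | ∃ k, r < |(pos w n k : ℝ) - n * v k|}
  · rw [Set.indicator_of_mem hw]
    obtain ⟨k, hk⟩ := hw
    have hnn : ∀ k' ∈ Finset.univ, 0 ≤ ∑ b : Bool, Set.indicator {w : Fin n → Step d |
        t * r + (if b then t else -t) * (n * v k') ≤ (if b then t else -t) *
          (pos w n k' : ℝ)} g w := fun k' _ =>
      Finset.sum_nonneg fun b _ => Set.indicator_nonneg (fun w _ => hg0 w) w
    refine le_trans ?_ (Finset.single_le_sum hnn (Finset.mem_univ k))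
    have hnn2 : ∀ b ∈ (Finset.univ : Finset Bool), 0 ≤ Set.indicator {w : Fin n → Step d |
        t * r + (if b then t else -t) * (n * v k) ≤ (if b then t else -t) *
          (pos w n k : ℝ)} g w := fun b _ => Set.indicator_nonneg (fun w _ => hg0 w) w
    rcases lt_abs.1 hk with h1 | h1
    · refine le_trans ?_ (Finset.single_le_sum hnn2 (Finset.mem_univ true))
      rw [Set.indicator_of_mem]
      show t * r + (if true then t else -t) * (n * v k) ≤ (if true then t else -t) *
          (pos w n k : ℝ)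
      rw [if_pos rfl]
      nlinarith
    · refine le_trans ?_ (Finset.single_le_sum hnn2 (Finset.mem_univ false))
      rw [Set.indicator_of_mem]
      show t * r + (if false = true then t else -t) * (n * v k) ≤
        (if false = true then t else -t) * (pos w n k : ℝ)
      rw [if_neg (by simp)]
      nlinarith
  · rw [Set.indicator_of_notMem hw]
    exact Finset.sum_nonneg fun k' _ => Finset.sum_nonneg fun b _ =>
      Set.indicator_nonneg (fun w _ => hg0 w) w

section
variable {Ω : Type} [mΩ : MeasurableSpace Ω] {P : Measure Ω} [IsProbabilityMeasure P]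
  {ω : ℕ → (Fin d → ℤ) → Ω → ℝ}

lemma lw_part (β : ℝ) (h : Fin d → ℝ) (n : ℕ) (x : Ω) :
    lw ω β h 0 0 n x = Real.log (part β h (fun i y => ω i y x) n Set.univ) := by
  unfold lw
  congr 2
  funext i y
  rw [zero_add, zero_add]

/-- the sign -/
noncomputable def sg (t : ℝ) (b : Bool) : ℝ := if b then t else -t

lemma abs_sg {t : ℝ} (ht : 0 < t) (b : Bool) : |sg t b| = t := by
  unfold sg
  split_ifs
  · exact abs_of_pos ht
  · rw [abs_neg, abs_of_pos ht]

/-- the bound of one term -/
noncomputable def YY (ω : ℕ → (Fin d → ℤ) → Ω → ℝ) (β : ℝ) (h h' : Fin d → ℝ) (a a' : ℝ) (n : ℕ)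
    (r : ℝ) (x : Ω) : ℝ :=
  (|lw ω β h' 0 0 n x - a'| + |lw ω β h 0 0 n x - a|) / r + Real.exp (-r)

lemma abs_int (hint : ∀ (β : ℝ) (h : Fin d → ℝ) (n : ℕ), Integrable (lw ω β h 0 0 n) P)
    (β : ℝ) (h : Fin d → ℝ) (a : ℝ) (n : ℕ) : Integrable (fun x => |lw ω β h 0 0 n x - a|) P :=
  ((hint β h n).sub (integrable_const a)).abs

lemma YY_int (hint : ∀ (β : ℝ) (h : Fin d → ℝ) (n : ℕ), Integrable (lw ω β h 0 0 n) P)
    (β : ℝ) (h h' : Fin d → ℝ) (a a' : ℝ) (n : ℕ) (r : ℝ) :
    Integrable (YY ω β h h' a a' n r) P :=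
  (((abs_int hint β h' a' n).add (abs_int hint β h a n)).div_const r).add (integrable_const _)

lemma YY_le (hint : ∀ (β : ℝ) (h : Fin d → ℝ) (n : ℕ), Integrable (lw ω β h 0 0 n) P)
    (β : ℝ) (h h' : Fin d → ℝ) (a a' : ℝ) (n : ℕ) {r B : ℝ} (hr : 0 < r)
    (h1 : ∫ x, |lw ω β h 0 0 n x - a| ∂P ≤ B) (h2 : ∫ x, |lw ω β h' 0 0 n x - a'| ∂P ≤ B) :
    ∫ x, YY ω β h h' a a' n r x ∂P ≤ 2 * B / r + Real.exp (-r) := by
  have i1 := abs_int hint β h a n
  have i2 := abs_int hint β h' a' n
  have i3 : Integrable (fun x => (|lw ω β h' 0 0 n x - a'| + |lw ω β h 0 0 n x - a|)) P :=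
    i2.add i1
  have i4 : Integrable (fun x => (|lw ω β h' 0 0 n x - a'| + |lw ω β h 0 0 n x - a|) / r) P :=
    i3.div_const r
  have e1 : ∫ x, YY ω β h h' a a' n r x ∂P = (∫ x, |lw ω β h' 0 0 n x - a'| ∂P +
      ∫ x, |lw ω β h 0 0 n x - a| ∂P) / r + Real.exp (-r) := by
    unfold YY
    rw [integral_add i4 (integrable_const _), integral_div, integral_add i2 i1]
    simp only [integral_const, probReal_univ, one_smul]
  rw [e1]
  gcongr
  linarith

/-- the expected probability of a large deviation of the end point -/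
lemma end_le (hpp : S_PP) (hd : 1 ≤ d)
    (hint : ∀ (β : ℝ) (h : Fin d → ℝ) (n : ℕ), Integrable (lw ω β h 0 0 n) P)
    (β : ℝ) (h v : Fin d → ℝ) (φ : (Fin d → ℝ) → ℝ) (n : ℕ) {r R t B : ℝ} (ht : 0 < t)
    (hr : 0 < r)
    (hcurv : ∀ (k : Fin d) (s : ℝ), |s| = t →
      n * φ (h + Pi.single k s) - n * φ h - s * (n * v k) - t * R ≤ -2 * r)
    (hB0 : ∫ x, |lw ω β h 0 0 n x - n * φ h| ∂P ≤ B)
    (hB : ∀ (k : Fin d) (s : ℝ), |s| = t →
      ∫ x, |lw ω β (h + Pi.single k s) 0 0 n x - n * φ (h + Pi.single k s)| ∂P ≤ B) :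
    ∫ x, prob β h (fun i y => ω i y x) n {w | ∃ k, R < |(pos w n k : ℝ) - n * v k|} ∂P ≤
      2 * d * (2 * B / r + Real.exp (-r)) := by
  set Z : Fin d → Bool → Ω → ℝ := fun k b =>
    YY ω β h (h + Pi.single k (sg t b)) (n * φ h) (n * φ (h + Pi.single k (sg t b))) n r with hZ
  have hterm : ∀ (k : Fin d) (b : Bool), Integrable (Z k b) P := fun k b =>
    YY_int hint _ _ _ _ _ _ _
  have hpt : ∀ x, prob β h (fun i y => ω i y x) n {w | ∃ k, R < |(pos w n k : ℝ) - n * v k|} ≤
      ∑ k : Fin d, ∑ b : Bool, Z k b x := by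
    intro x
    refine (coords hd β h v (fun i y => ω i y x) n ht).trans ?_
    refine Finset.sum_le_sum fun k _ => Finset.sum_le_sum fun b _ => ?_
    have hst := abs_sg ht b
    have e : (if b = true then t else -t) = sg t b := rfl
    rw [e]
    simp only [hZ]
    unfold YY
    generalize sg t b = s at hst
    apply min_bound hr (by positivity) (prob_le_one hd _ _ _ _)
    refine (coord hpp hd β h v (fun i y => ω i y x) n k s (t * R)).trans ?_
    apply Real.exp_le_exp.2
    rw [← lw_part, ← lw_part]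
    have h1 := hcurv k s hst
    have h2 := le_abs_self (lw ω β (h + Pi.single k s) 0 0 n x - n * φ (h + Pi.single k s))
    have h3 := neg_abs_le (lw ω β h 0 0 n x - n * φ h)
    linarith
  have hsum : Integrable (fun x => ∑ k : Fin d, ∑ b : Bool, Z k b x) P :=
    integrable_finsetSum _ fun k _ => integrable_finsetSum _ fun b _ => hterm k b
  refine (integral_mono_of_nonneg (Eventually.of_forall fun x => prob_nonneg _ _ _ _) hsum
    (Eventually.of_forall hpt)).trans ?_
  rw [integral_finsetSum _ fun k _ => integrable_finsetSum _ fun b _ => hterm k b]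
  calc ∑ k : Fin d, ∫ x, ∑ b : Bool, Z k b x ∂P
      = ∑ k : Fin d, ∑ b : Bool, ∫ x, Z k b x ∂P := by
        refine Finset.sum_congr rfl fun k _ => ?_
        rw [integral_finsetSum _ fun b _ => hterm k b]
    _ ≤ ∑ _k : Fin d, ∑ _b : Bool, (2 * B / r + Real.exp (-r)) :=
        Finset.sum_le_sum fun k _ => Finset.sum_le_sum fun b _ =>
          YY_le hint _ _ _ _ _ _ hr hB0 (hB k _ (abs_sg ht b))
    _ = _ := by
        simp only [Finset.sum_const, Finset.card_univ, Fintype.card_fin, Fintype.card_bool,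
          nsmul_eq_mul]
        push_cast
        ring

end

end Pool.Agent.Run7.h208.WT
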