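import Pool.Agent.Run7.h208.WT.End
import Pool.Agent.N662.SE.All

/-!
# Directed polymers: the end point, asymptotics
-/

set_option autoImplicit false

open MeasureTheory ProbabilityTheory Filter Topology
open scoped ENNReal

namespace Pool.Agent.Run7.h208.WT

open TH967.DP
open Pool.Agent.N662.SE

variable {d : ℕ}

section
variable {Ω : Type} [mΩ : MeasurableSpace Ω] {P : Measure Ω} [IsProbabilityMeasure P]
  {ω : ℕ → (Fin d → ℤ) → Ω → ℝ}

/-- the end point -/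
theorem endpoint (hpp : S_PP) (hd : 1 ≤ d)
    (hint : ∀ (β : ℝ) (h : Fin d → ℝ) (n : ℕ), Integrable (lw ω β h 0 0 n) P)
    (β : ℝ) (h v : Fin d → ℝ) (φ : (Fin d → ℝ) → ℝ) {C : ℝ} (hC : 0 ≤ C)
    (hcurv : ∀ (k : Fin d) (s : ℝ), |s| ≤ 1 →
      φ (h + Pi.single k s) ≤ φ h + s * v k + C * s ^ 2)
    {U : Set (Fin d → ℝ)} (hUo : IsOpen U) (hhU : h ∈ U) {ζ B b : ℝ} (hζb : ζ < 2 * b - 1)
    (hb0 : 1 / 2 < b) (hb1 : b < 1)
    (hL : ∀ h' ∈ U, ∀ n : ℕ, 1 ≤ n →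
      ∫ x, |lw ω β h' 0 0 n x - n * φ h'| ∂P ≤ B * (n : ℝ) ^ ζ) :
    Tendsto (fun n : ℕ => ∫ x, prob β h (fun i y => ω i y x) n
      {w | ∃ k, (n : ℝ) ^ b < |(pos w n k : ℝ) - n * v k|} ∂P) atTop (𝓝 0) := by
  obtain ⟨δ, hδ, hball⟩ := Metric.isOpen_iff.1 hUo h hhU
  set κ : ℝ := min (1 / (2 * C + 2)) (δ / 2) with hκ
  have hκ0 : 0 < κ := lt_min (by positivity) (by positivity)
  have hκC : C * κ ≤ 1 / 2 := by
    calc C * κ ≤ C * (1 / (2 * C + 2)) := mul_le_mul_of_nonneg_left (min_le_left _ _) hC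
      _ ≤ 1 / 2 := by
        rw [mul_one_div, div_le_iff₀ (by positivity)]
        linarith
  have hκ1 : κ ≤ 1 := by
    refine (min_le_left _ _).trans ?_
    rw [div_le_iff₀ (by positivity)]
    linarith
  have hκδ : κ < δ := lt_of_le_of_lt (min_le_right _ _) (by linarith)
  have hmemU : ∀ (k : Fin d) (s : ℝ), |s| ≤ κ → h + Pi.single k s ∈ U := by
    intro k s hs
    apply hball
    rw [Metric.mem_ball, dist_eq_norm, add_sub_cancel_left]
    refine lt_of_le_of_lt ?_ hκδ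
    rw [pi_norm_le_iff_of_nonneg hκ0.le]
    intro j
    by_cases hjk : j = k
    · rw [hjk, Pi.single_eq_same]
      exact hs
    · rw [Pi.single_eq_of_ne hjk, norm_zero]
      exact hκ0.le
  set r : ℕ → ℝ := fun n => κ / 4 * (n : ℝ) ^ (2 * b - 1) with hr
  have hlim : Tendsto (fun n : ℕ => 2 * d * (2 * (8 * B / κ * (n : ℝ) ^ (-(2 * b - 1 - ζ)))/2 +
      Real.exp (-(r n)))) atTop (𝓝 (2 * d * (2 * (8 * B / κ * 0) / 2 + 0))) := by
    have h1 : Tendsto (fun n : ℕ => (n : ℝ) ^ (-(2 * b - 1 - ζ))) atTop (𝓝 0) :=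
      (tendsto_rpow_neg_atTop (by linarith)).comp tendsto_natCast_atTop_atTop
    have h2 : Tendsto r atTop atTop :=
      ((tendsto_rpow_atTop (by linarith)).comp tendsto_natCast_atTop_atTop).const_mul_atTop
        (by positivity)
    exact ((((h1.const_mul _).const_mul 2).div_const 2).add
      (Real.tendsto_exp_neg_atTop_nhds_zero.comp h2)).const_mul _
  rw [mul_zero, mul_zero, zero_div, add_zero, mul_zero] at hlim
  refine tendsto_of_tendsto_of_tendsto_of_le_of_le' tendsto_const_nhds hlim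
    (Eventually.of_forall fun n => integral_nonneg fun x => prob_nonneg _ _ _ _) ?_
  filter_upwards [eventually_ge_atTop 1] with n hn
  have hn' : (1 : ℝ) ≤ n := by exact_mod_cast hn
  have hn0 : (0 : ℝ) < n := by linarith
  set t : ℝ := κ * (n : ℝ) ^ (b - 1) with ht
  have ht0 : 0 < t := mul_pos hκ0 (Real.rpow_pos_of_pos hn0 _)
  have htκ : t ≤ κ := by
    have h1 : (n : ℝ) ^ (b - 1) ≤ 1 :=
      Real.rpow_le_one_of_one_le_of_nonpos hn' (by linarith)
    calc t ≤ κ * 1 := mul_le_mul_of_nonneg_left h1 hκ0.le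
      _ = κ := mul_one _
  have hp0 : (0 : ℝ) < (n : ℝ) ^ (2 * b - 1) := Real.rpow_pos_of_pos hn0 _
  have hr0 : 0 < r n := by
    rw [hr]
    positivity
  have e1 : t * (n : ℝ) ^ b = κ * (n : ℝ) ^ (2 * b - 1) := by
    rw [ht, mul_assoc, ← Real.rpow_add hn0]
    congr 2
    ring
  have e2 : (n : ℝ) * t ^ 2 = κ ^ 2 * (n : ℝ) ^ (2 * b - 1) := by
    rw [ht, mul_pow, ← Real.rpow_natCast ((n : ℝ) ^ (b - 1)) 2, ← Real.rpow_mul hn0.le]
    have : (n : ℝ) ^ (2 * b - 1) = n * (n : ℝ) ^ ((b - 1) * ((2 : ℕ) : ℝ)) := by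
      nth_rewrite 2 [← Real.rpow_one (n : ℝ)]
      rw [← Real.rpow_add hn0]
      congr 1
      push_cast
      ring
    rw [this]
    ring
  have h1 := end_le (P := P) (ω := ω) hpp hd hint β h v φ n (r := r n) (R := (n : ℝ) ^ b) (t := t)
    (B := B * (n : ℝ) ^ ζ) ht0 hr0
    (fun k s hs => by
      have h2 := hcurv k s (by rw [hs]; linarith)
      have h3 := mul_le_mul_of_nonneg_left h2 hn0.le
      have h4 : s ^ 2 = t ^ 2 := by rw [← sq_abs, hs]
      have h5 : (n : ℝ) * (C * s ^ 2) ≤ κ / 2 * (n : ℝ) ^ (2 * b - 1) := by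
        calc (n : ℝ) * (C * s ^ 2) = C * (n * t ^ 2) := by rw [h4]; ring
          _ = (C * κ) * (κ * (n : ℝ) ^ (2 * b - 1)) := by rw [e2]; ring
          _ ≤ 1 / 2 * (κ * (n : ℝ) ^ (2 * b - 1)) := by gcongr
          _ = _ := by ring
      rw [e1]
      simp only [hr]
      nlinarith)
    (hL h hhU n hn)
    (fun k s hs => hL _ (hmemU k s (by rw [hs]; exact htκ)) n hn)
  refine h1.trans (le_of_eq ?_)
  congr 2
  simp only [hr]
  have e3 : (n : ℝ) ^ (-(2 * b - 1 - ζ)) = (n : ℝ) ^ ζ / (n : ℝ) ^ (2 * b - 1) := by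
    rw [← Real.rpow_sub hn0]
    congr 1
    ring
  rw [e3]
  field_simp
  ring

end

end Pool.Agent.Run7.h208.WT
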