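import Pool.Agent.Run7.h208.WT.Main

/-!
# Directed polymers: assembly
-/

set_option autoImplicit false

open MeasureTheory ProbabilityTheory Filter Topology
open scoped ENNReal

namespace Pool.Agent.Run7.h208.WT

open TH967.DP
open Pool.Agent.N662.SE

variable {d : ℕ}

lemma sqrt_log_div : Tendsto (fun n : ℕ => Real.sqrt n * Real.log (n + 1) / n) atTop (𝓝 0) := by
  have h1 : Tendsto (fun n : ℕ => (n : ℝ) ^ (-(1 / 4 : ℝ))) atTop (𝓝 0) :=
    (tendsto_rpow_neg_atTop (by norm_num)).comp tendsto_natCast_atTop_atTop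
  refine tendsto_of_tendsto_of_tendsto_of_le_of_le' tendsto_const_nhds h1
    (Eventually.of_forall fun n => ?_) ?_
  · have : 0 ≤ Real.log ((n : ℝ) + 1) := Real.log_nonneg (by linarith [Nat.cast_nonneg (α := ℝ) n])
    positivity
  · filter_upwards [Pool.Agent.N700.SE.UPD.ev_log 1 (1 / 4) one_pos (by norm_num),
      eventually_ge_atTop 1] with n hn hn1
    have hn0 : (0 : ℝ) < n := by exact_mod_cast hn1
    rw [one_mul] at hn
    rw [div_le_iff₀ hn0]
    calc Real.sqrt n * Real.log (n + 1) ≤ Real.sqrt n * (n : ℝ) ^ (1 / 4 : ℝ) :=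
          mul_le_mul_of_nonneg_left hn (Real.sqrt_nonneg _)
      _ = (n : ℝ) ^ (-(1 / 4 : ℝ)) * n := by
          rw [Real.sqrt_eq_rpow, ← Real.rpow_add hn0]
          nth_rewrite 3 [← Real.rpow_one (n : ℝ)]
          rw [← Real.rpow_add hn0]
          norm_num

section
variable {Ω : Type} [mΩ : MeasurableSpace Ω] (P : Measure Ω) [IsProbabilityMeasure P]
  (ω : ℕ → (Fin d → ℤ) → Ω → ℝ)

/-- the lower half and the end point -/
theorem lower (mgf : S_MGF) (hd : 1 ≤ d) (he : IsEnv P ω)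
    (hexp : ∀ b : ℝ, Integrable (fun x => Real.exp (b * ω 1 0 x)) P) (β : ℝ) :
    ∃ φ : (Fin d → ℝ) → ℝ,
    (∀ h, Tendsto (fun n : ℕ => (∫ x, logZ β h (fun i y => ω i y x) n ∂P) / n) atTop
      (𝓝 (φ h))) ∧
    (∀ (U : Set (Fin d → ℝ)) (ξ ζ : ℝ), 0 < ξ → ξ < ζ → LowTail P ω β φ U ξ →
      ∃ α C : ℝ, 0 < α ∧ ∀ h ∈ U, ∀ n : ℕ, 1 ≤ n →
        ∫⁻ x, ENNReal.ofReal (Real.exp (α * (n : ℝ) ^ (-ζ) *
          max (n * φ h - logZ β h (fun i y => ω i y x) n) 0)) ∂P ≤ ENNReal.ofReal C ∧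
        ∫ x, |logZ β h (fun i y => ω i y x) n - n * φ h| ∂P ≤ C * (n : ℝ) ^ ζ ∧
        0 ≤ n * φ h - ∫ x, logZ β h (fun i y => ω i y x) n ∂P ∧
        n * φ h - ∫ x, logZ β h (fun i y => ω i y x) n ∂P ≤ C * (n : ℝ) ^ ζ) ∧
    ∀ᵐ h : Fin d → ℝ, ∃ v : Fin d → ℝ, ∀ (U : Set (Fin d → ℝ)) (ξ : ℝ), IsOpen U → h ∈ U →
      0 < ξ → ξ < 1 → LowTail P ω β φ U ξ → ∀ b : ℝ, (1 + ξ) / 2 < b →
      Tendsto (fun n : ℕ => ∫ x, polymer β h (fun i y => ω i y x) n
        {w | (n : ℝ) ^ b < dev v w n} ∂P) atTop (𝓝 0) := by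
  have hc : S_CONC := Pool.Agent.N523.SE.CONC.main mgf
  have hs : S_SUP := Pool.Agent.N50.SE.SUP.main hc
  have hv : S_CVX := Pool.Agent.N50.SE.CVX.main hc
  have hdb : S_DBL := Pool.Agent.N97.SE.DBL.main hc
  have hr : S_RATE := Pool.Agent.N353.SE.Rate.main hs hdb hv
  have hi' : S_ID := Pool.Agent.N951.SE.t
  obtain ⟨φ', C1, hconv, hφ'⟩ := hr d hd Ω P ω he hexp β
  have hint : ∀ (β : ℝ) (h : Fin d → ℝ) (n : ℕ), Integrable (lw ω β h 0 0 n) P := fun β h n =>
    (hc d hd Ω P ω he hexp β h 0 0 n).2.1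
  have hmm : ∀ (β : ℝ) (h : Fin d → ℝ) (n : ℕ), Measurable (lw ω β h 0 0 n) :=
    fun β h n => (hc d hd Ω P ω he hexp β h 0 0 n).1
  set c0 : ℝ := Real.log (2 * (d : ℝ)) with hc0
  have key : ∀ (U : Set (Fin d → ℝ)) (ξ ζ : ℝ), 0 < ξ → ξ < ζ →
      LowTail P ω β (fun h => φ' h - c0) U ξ → ∃ α : ℝ, 0 < α ∧ ∀ h ∈ U, ∀ n : ℕ, 1 ≤ n →
        LL P ω β h (φ' h) (α * (n : ℝ) ^ (-ζ)) n ≤ ENNReal.ofReal 3 ∧
        n * φ' h - free P ω β h n ≤ 3 / α * (n : ℝ) ^ ζ ∧
        ∫ x, |lw ω β h 0 0 n x - n * φ' h| ∂P ≤ 6 / α * (n : ℝ) ^ ζ := by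
    intro U ξ ζ hξ hζ H
    have H' : ∀ ε : ℝ, 0 < ε → ∃ N : ℕ, ∀ n : ℕ, N ≤ n → ∀ h ∈ U,
        P.real {x | lw ω β h 0 0 n x ≤ n * φ' h - (n : ℝ) ^ ξ} ≤ ε := by
      intro ε hε
      obtain ⟨N, hN⟩ := H ε hε
      refine ⟨N, fun n hn h hh => ?_⟩
      refine le_trans (le_of_eq ?_) (hN n hn h hh)
      congr 1
      ext x
      show lw ω β h 0 0 n x ≤ n * φ' h - (n : ℝ) ^ ξ ↔
        logZ β h (fun i y => ω i y x) n ≤ n * (φ' h - c0) - (n : ℝ) ^ ξ
      rw [logZ_eq hd]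
      constructor <;> intro h1 <;> linarith
    obtain ⟨α, hα, hL⟩ := low_conc hc hi' hs hd he hexp β U φ' (D0 := C1 * Real.sqrt (1 : ℕ) *
      Real.log ((1 : ℕ) + 1)) (fun h _ => by
        have h1 := (hφ' h 1).2
        rw [Nat.cast_one, one_mul] at h1
        rw [Nat.cast_one]
        linarith) hξ hζ H'
    refine ⟨α, hα, fun h hh n hn => ?_⟩
    have hn0 : (0 : ℝ) < n := by exact_mod_cast hn
    have hl0 : 0 < α * (n : ℝ) ^ (-ζ) := mul_pos hα (Real.rpow_pos_of_pos hn0 _)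
    have h1 := hL h hh n hn
    have h2 := low_mom hmm hint β h (φ' h) hl0 n h1
    have h3 := low_cent hint β h (φ' h) n h2
    have h4 : 3 / (α * (n : ℝ) ^ (-ζ)) = 3 / α * (n : ℝ) ^ ζ := by
      rw [Real.rpow_neg hn0.le]
      field_simp
    rw [h4] at h3
    refine ⟨h1, h3.1, h3.2.trans ?_⟩
    have h5 := (hφ' h n).1
    have h6 : 2 * (3 / α * (n : ℝ) ^ ζ) = 6 / α * (n : ℝ) ^ ζ := by ring
    linarith
  refine ⟨fun h => φ' h - c0, ?_, ?_, ?_⟩
  · intro h
    have h1 : ∀ n : ℕ, 1 ≤ n → (∫ x, logZ β h (fun i y => ω i y x) n ∂P) / n =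
        free P ω β h n / n - c0 := by
      intro n hn
      have hn0 : (0 : ℝ) < n := by exact_mod_cast hn
      rw [integral_logZ hd (hint β h n), sub_div, mul_comm (n : ℝ), mul_div_assoc,
        div_self hn0.ne', mul_one]
    have h2 : Tendsto (fun n : ℕ => free P ω β h n / n) atTop (𝓝 (φ' h)) := by
      have h3 : Tendsto (fun n : ℕ => φ' h - C1 * (Real.sqrt n * Real.log (n + 1) / n)) atTop
          (𝓝 (φ' h - C1 * 0)) := (sqrt_log_div.const_mul C1).const_sub _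
      rw [mul_zero, sub_zero] at h3
      refine tendsto_of_tendsto_of_tendsto_of_le_of_le' h3 tendsto_const_nhds ?_ ?_
      · filter_upwards [eventually_ge_atTop 1] with n hn
        have hn0 : (0 : ℝ) < n := by exact_mod_cast hn
        rw [le_div_iff₀ hn0]
        have h4 := (hφ' h n).2
        have h5 : (φ' h - C1 * (Real.sqrt n * Real.log (n + 1) / n)) * n =
            n * φ' h - C1 * Real.sqrt n * Real.log (n + 1) := by
          field_simp
        rw [h5]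
        linarith
      · filter_upwards [eventually_ge_atTop 1] with n hn
        have hn0 : (0 : ℝ) < n := by exact_mod_cast hn
        rw [div_le_iff₀ hn0, mul_comm]
        exact (hφ' h n).1
    refine (h2.sub_const c0).congr' ?_
    filter_upwards [eventually_ge_atTop 1] with n hn
    exact (h1 n hn).symm
  · intro U ξ ζ hξ hζ H
    obtain ⟨α, hα, hL⟩ := key U ξ ζ hξ hζ H
    have hC6 : 0 < 6 / α := by positivity
    refine ⟨α, 3 + 6 / α, hα, fun h hh n hn => ?_⟩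
    have hn0 : (0 : ℝ) < n := by exact_mod_cast hn
    have hnζ : (0 : ℝ) < (n : ℝ) ^ ζ := Real.rpow_pos_of_pos hn0 _
    obtain ⟨h1, h2, h3⟩ := hL h hh n hn
    have e1 : ∀ x, n * (φ' h - c0) - logZ β h (fun i y => ω i y x) n =
        n * φ' h - lw ω β h 0 0 n x := by
      intro x
      rw [logZ_eq hd]
      ring
    have e2 : ∀ x, logZ β h (fun i y => ω i y x) n - n * (φ' h - c0) =
        lw ω β h 0 0 n x - n * φ' h := by
      intro x
      rw [logZ_eq hd]
      ring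
    have e3 : n * (φ' h - c0) - ∫ x, logZ β h (fun i y => ω i y x) n ∂P =
        n * φ' h - free P ω β h n := by
      rw [integral_logZ hd (hint β h n)]
      ring
    have e4 : 3 / α = 6 / α / 2 := by ring
    simp_rw [e1, e2]
    rw [e3]
    refine ⟨h1.trans (ENNReal.ofReal_le_ofReal (by linarith)), h3.trans ?_, ?_, h2.trans ?_⟩
    · apply mul_le_mul_of_nonneg_right _ hnζ.le
      linarith
    · have := (hφ' h n).1
      linarith
    · apply mul_le_mul_of_nonneg_right _ hnζ.le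
      linarith
  · filter_upwards [Pool.Agent.N281.SE.curv d φ' hconv] with h hh
    obtain ⟨v, C, hC, hcurv⟩ := hh
    refine ⟨v, fun U ξ hUo hhU hξ hξ1 H b hb => ?_⟩
    obtain ⟨b', hb1, hb2⟩ := exists_between (lt_min hb (by linarith : (1 + ξ) / 2 < 1))
    have hb3 := lt_min_iff.1 hb2
    obtain ⟨ζ, hζ1, hζ2⟩ := exists_between (show ξ < 2 * b' - 1 by linarith)
    obtain ⟨α, hα, hL⟩ := key U ξ ζ hξ hζ1 H
    have h1 := endpoint (P := P) (ω := ω) Pool.Agent.N340.SE.pp hd hint β h v φ' hC hcurv hUo hhU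
      (ζ := ζ) (B := 6 / α) (b := b') hζ2 (by linarith) hb3.2
      (fun h' hh' n hn => (hL h' hh' n hn).2.2)
    refine tendsto_of_tendsto_of_tendsto_of_le_of_le' tendsto_const_nhds h1
      (Eventually.of_forall fun n => integral_nonneg fun x => polymer_nonneg _ _ _ _ _) ?_
    filter_upwards [pow_dom' hb3.1 d] with n hn
    refine integral_mono_of_nonneg (Eventually.of_forall fun x => polymer_nonneg _ _ _ _ _) ?_
      (Eventually.of_forall fun x => ?_)
    · have hmeas : Measurable fun x => prob β h (fun i y => ω i y x) n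
          {w | ∃ k, (n : ℝ) ^ b' < |(pos w n k : ℝ) - n * v k|} := measurable_prob β h _ he.meas
      apply (integrable_const (1 : ℝ)).mono' hmeas.aestronglyMeasurable
      refine Eventually.of_forall fun x => ?_
      rw [Real.norm_eq_abs, abs_of_nonneg (prob_nonneg _ _ _ _)]
      exact prob_le_one hd _ _ _ _
    · show polymer β h (fun i y => ω i y x) n {w | (n : ℝ) ^ b < dev v w n} ≤
        prob β h (fun i y => ω i y x) n {w | ∃ k, (n : ℝ) ^ b' < |(pos w n k : ℝ) - n * v k|}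
      rw [polymer_eq]
      apply prob_mono
      intro w hw
      by_contra hcon
      have hcon' : ¬ ∃ k, (n : ℝ) ^ b' < |(pos w n k : ℝ) - n * v k| := hcon
      push Not at hcon'
      have h2 := dev_le_of (Real.rpow_nonneg (Nat.cast_nonneg n) _) hcon'
      have h3 : (n : ℝ) ^ b < dev v w n := hw
      linarith

end

end Pool.Agent.Run7.h208.WT
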