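import Pool.Agent.Run7.h208.WT.AS

/-!
# Directed polymers: equality of the fluctuation exponents
-/

set_option autoImplicit false

open MeasureTheory ProbabilityTheory Filter Topology
open scoped ENNReal

namespace Pool.Agent.Run7.h208.WT

open TH967.DP
open Pool.Agent.N662.SE

variable {d : ℕ}

/-- The one sided exponent in probability: the infimum of the `ξ > 0` such that
`P (log Z_n ≤ n φ - n^ξ) → 0`. -/
noncomputable def expLow {Ω : Type} [MeasurableSpace Ω] (P : Measure Ω)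
    (ω : ℕ → (Fin d → ℤ) → Ω → ℝ) (β : ℝ) (φ : (Fin d → ℝ) → ℝ) (h : Fin d → ℝ) : ℝ :=
  sInf {ξ : ℝ | 0 < ξ ∧ LowTail P ω β φ {h} ξ}

/-- The locally uniform version of `expLow`: the infimum of the `ξ > 0` such that
`P (log Z_n ≤ n φ(h') - n^ξ) → 0` uniformly for the drifts `h'` in a neighbourhood of `h`. -/
noncomputable def expLowLoc {Ω : Type} [MeasurableSpace Ω] (P : Measure Ω)
    (ω : ℕ → (Fin d → ℤ) → Ω → ℝ) (β : ℝ) (φ : (Fin d → ℝ) → ℝ) (h : Fin d → ℝ) : ℝ :=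
  sInf {ξ : ℝ | 0 < ξ ∧ ∃ U : Set (Fin d → ℝ), IsOpen U ∧ h ∈ U ∧ LowTail P ω β φ U ξ}

/-- The almost sure exponent: the infimum of the `ξ > 0` such that almost surely
`|log Z_n - n φ| ≤ n^ξ` for all large `n`. -/
noncomputable def expAS {Ω : Type} [MeasurableSpace Ω] (P : Measure Ω)
    (ω : ℕ → (Fin d → ℤ) → Ω → ℝ) (β : ℝ) (φ : (Fin d → ℝ) → ℝ) (h : Fin d → ℝ) : ℝ :=
  sInf {ξ : ℝ | 0 < ξ ∧ ∀ᵐ x ∂P, ∀ᶠ n : ℕ in atTop,
    |logZ β h (fun i y => ω i y x) n - n * φ h| ≤ (n : ℝ) ^ ξ}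

/-- The exponent of the moments of order `p`: the infimum of the `ξ > 0` such that
`E |log Z_n - n φ|^p ≤ C n^(p ξ)` for some `C` and all `n ≥ 1`. For `p = 2` it is the exponent of
the mean square deviation from `n φ`. -/
noncomputable def expMom {Ω : Type} [MeasurableSpace Ω] (P : Measure Ω)
    (ω : ℕ → (Fin d → ℤ) → Ω → ℝ) (β : ℝ) (φ : (Fin d → ℝ) → ℝ) (h : Fin d → ℝ) (p : ℝ) : ℝ :=
  sInf {ξ : ℝ | 0 < ξ ∧ ∃ C : ℝ, ∀ n : ℕ, 1 ≤ n →
    ∫⁻ x, ENNReal.ofReal (|logZ β h (fun i y => ω i y x) n - n * φ h| ^ p) ∂P ≤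
      ENNReal.ofReal (C * (n : ℝ) ^ (p * ξ))}

section
variable {Ω : Type} [mΩ : MeasurableSpace Ω] {P : Measure Ω} [IsProbabilityMeasure P]
  {ω : ℕ → (Fin d → ℤ) → Ω → ℝ}

omit [IsProbabilityMeasure P] in
/-- translation of the lower tail -/
lemma lowTail_iff (hd : 1 ≤ d) (β : ℝ) (φ' : (Fin d → ℝ) → ℝ) (U : Set (Fin d → ℝ)) (ξ : ℝ) :
    LowTail P ω β (fun h => φ' h - Real.log (2 * (d : ℝ))) U ξ ↔
      ∀ ε : ℝ, 0 < ε → ∃ N : ℕ, ∀ n : ℕ, N ≤ n → ∀ h ∈ U,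
        P.real {x | lw ω β h 0 0 n x ≤ n * φ' h - (n : ℝ) ^ ξ} ≤ ε := by
  have e : ∀ (h : Fin d → ℝ) (n : ℕ), {x | logZ β h (fun i y => ω i y x) n ≤
      n * (φ' h - Real.log (2 * (d : ℝ))) - (n : ℝ) ^ ξ} =
      {x | lw ω β h 0 0 n x ≤ n * φ' h - (n : ℝ) ^ ξ} := by
    intro h n
    ext x
    show logZ β h (fun i y => ω i y x) n ≤
      n * (φ' h - Real.log (2 * (d : ℝ))) - (n : ℝ) ^ ξ ↔
      lw ω β h 0 0 n x ≤ n * φ' h - (n : ℝ) ^ ξ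
    rw [logZ_eq hd]
    constructor <;> intro h1 <;> linarith
  unfold LowTail
  simp only [e]

/-- the facts which follow from the lower tail -/
theorem key_fact (hc : S_CONC) (hs : S_SUP) (hi' : S_ID) (hd : 1 ≤ d) (he : IsEnv P ω)
    (hexp : ∀ b : ℝ, Integrable (fun x => Real.exp (b * ω 1 0 x)) P) (β : ℝ)
    (φ' : (Fin d → ℝ) → ℝ) {C1 : ℝ} (hφ' : ∀ (h : Fin d → ℝ) (n : ℕ),
      free P ω β h n ≤ n * φ' h ∧ n * φ' h ≤ free P ω β h n + C1 * Real.sqrt n * Real.log (n + 1))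
    (U : Set (Fin d → ℝ)) {ξ ζ : ℝ} (hξ : 0 < ξ) (hζ : ξ < ζ)
    (H : ∀ ε : ℝ, 0 < ε → ∃ N : ℕ, ∀ n : ℕ, N ≤ n → ∀ h ∈ U,
        P.real {x | lw ω β h 0 0 n x ≤ n * φ' h - (n : ℝ) ^ ξ} ≤ ε) :
    ∃ α : ℝ, 0 < α ∧ ∀ h ∈ U, ∀ n : ℕ, 1 ≤ n →
        LL P ω β h (φ' h) (α * (n : ℝ) ^ (-ζ)) n ≤ ENNReal.ofReal 3 ∧
        n * φ' h - free P ω β h n ≤ 3 / α * (n : ℝ) ^ ζ ∧
        ∫ x, |lw ω β h 0 0 n x - n * φ' h| ∂P ≤ 6 / α * (n : ℝ) ^ ζ := by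
  have hint : ∀ (β : ℝ) (h : Fin d → ℝ) (n : ℕ), Integrable (lw ω β h 0 0 n) P := fun β h n =>
    (hc d hd Ω P ω he hexp β h 0 0 n).2.1
  have hmm : ∀ (β : ℝ) (h : Fin d → ℝ) (n : ℕ), Measurable (lw ω β h 0 0 n) :=
    fun β h n => (hc d hd Ω P ω he hexp β h 0 0 n).1
  obtain ⟨α, hα, hL⟩ := low_conc hc hi' hs hd he hexp β U φ' (D0 := C1 * Real.sqrt (1 : ℕ) *
    Real.log ((1 : ℕ) + 1)) (fun h _ => by
      have h1 := (hφ' h 1).2
      rw [Nat.cast_one, one_mul] at h1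
      rw [Nat.cast_one]
      linarith) hξ hζ H
  refine ⟨α, hα, fun h hh n hn => ?_⟩
  have hn0 : (0 : ℝ) < n := by exact_mod_cast hn
  have hl0 : 0 < α * (n : ℝ) ^ (-ζ) := mul_pos hα (Real.rpow_pos_of_pos hn0 _)
  have h1 := hL h hh n hn
  have h2 := low_mom hmm hint β h (φ' h) hl0 n h1
  have h3 := low_cent hint β h (φ' h) n h2
  have h4 : 3 / (α * (n : ℝ) ^ (-ζ)) = 3 / α * (n : ℝ) ^ ζ := by
    rw [Real.rpow_neg hn0.le]
    field_simp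
  rw [h4] at h3
  refine ⟨h1, h3.1, h3.2.trans ?_⟩
  have h5 := (hφ' h n).1
  have h6 : 2 * (3 / α * (n : ℝ) ^ ζ) = 6 / α * (n : ℝ) ^ ζ := by ring
  linarith

/-- the two sided tail from the lower tail -/
theorem tail_fact (hc : S_CONC) (hs : S_SUP) (hi' : S_ID) (hd : 1 ≤ d) (he : IsEnv P ω)
    (hexp : ∀ b : ℝ, Integrable (fun x => Real.exp (b * ω 1 0 x)) P) (β : ℝ)
    (φ' : (Fin d → ℝ) → ℝ) {C1 : ℝ} (hφ' : ∀ (h : Fin d → ℝ) (n : ℕ),
      free P ω β h n ≤ n * φ' h ∧ n * φ' h ≤ free P ω β h n + C1 * Real.sqrt n * Real.log (n + 1))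
    (U : Set (Fin d → ℝ)) {ξ ζ : ℝ} (hξ : 0 < ξ) (hζ : ξ < ζ)
    (H : ∀ ε : ℝ, 0 < ε → ∃ N : ℕ, ∀ n : ℕ, N ≤ n → ∀ h ∈ U,
        P.real {x | lw ω β h 0 0 n x ≤ n * φ' h - (n : ℝ) ^ ξ} ≤ ε) :
    ∃ C : ℝ, 0 < C ∧ ∀ h ∈ U, ∀ n : ℕ, 1 ≤ n → ∀ s : ℝ, 0 < s →
      P.real {x | s ≤ |lw ω β h 0 0 n x - n * φ' h|} ≤ C * n * s ^ (-(1 / ζ)) := by
  have hint : ∀ (β : ℝ) (h : Fin d → ℝ) (n : ℕ), Integrable (lw ω β h 0 0 n) P := fun β h n =>
    (hc d hd Ω P ω he hexp β h 0 0 n).2.1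
  have hmm : ∀ (β : ℝ) (h : Fin d → ℝ) (n : ℕ), Measurable (lw ω β h 0 0 n) :=
    fun β h n => (hc d hd Ω P ω he hexp β h 0 0 n).1
  obtain ⟨ζ1, h1, h2⟩ := exists_between hζ
  obtain ⟨α, hα, hL⟩ := key_fact hc hs hi' hd he hexp β φ' hφ' U hξ h1 H
  exact two_tail hi' hd he hmm hint β U φ' hα (by linarith) h2
    (fun h hh n hn => (hL h hh n hn).1) (fun h hh n hn => (hL h hh n hn).2.2)

/-- the almost sure bound from the lower tail -/
theorem as_fact (hc : S_CONC) (hs : S_SUP) (hi' : S_ID) (hd : 1 ≤ d) (he : IsEnv P ω)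
    (hexp : ∀ b : ℝ, Integrable (fun x => Real.exp (b * ω 1 0 x)) P) (β : ℝ)
    (φ' : (Fin d → ℝ) → ℝ) {C1 : ℝ} (hφ' : ∀ (h : Fin d → ℝ) (n : ℕ),
      free P ω β h n ≤ n * φ' h ∧ n * φ' h ≤ free P ω β h n + C1 * Real.sqrt n * Real.log (n + 1))
    (h : Fin d → ℝ) {ξ ζ : ℝ} (hξ : 0 < ξ) (hζ : ξ < ζ)
    (H : ∀ ε : ℝ, 0 < ε → ∃ N : ℕ, ∀ n : ℕ, N ≤ n → ∀ h' ∈ ({h} : Set (Fin d → ℝ)),
        P.real {x | lw ω β h' 0 0 n x ≤ n * φ' h' - (n : ℝ) ^ ξ} ≤ ε) :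
    ∀ᵐ x ∂P, ∀ᶠ n : ℕ in atTop, |lw ω β h 0 0 n x - n * φ' h| ≤ (n : ℝ) ^ ζ := by
  have hint : ∀ (β : ℝ) (h : Fin d → ℝ) (n : ℕ), Integrable (lw ω β h 0 0 n) P := fun β h n =>
    (hc d hd Ω P ω he hexp β h 0 0 n).2.1
  have hmm : ∀ (β : ℝ) (h : Fin d → ℝ) (n : ℕ), Measurable (lw ω β h 0 0 n) :=
    fun β h n => (hc d hd Ω P ω he hexp β h 0 0 n).1
  obtain ⟨ζ1, h1, h2⟩ := exists_between hζ
  obtain ⟨ζ2, h3, h4⟩ := exists_between h2
  obtain ⟨α, hα, hL⟩ := key_fact hc hs hi' hd he hexp β φ' hφ' {h} hξ h1 H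
  obtain ⟨C, hC0, hC⟩ := up_tail hi' hd he hmm hint β {h} φ' hα (by linarith : 0 < ζ1) h3
    (fun h hh n hn => (hL h hh n hn).1) (fun h hh n hn => (hL h hh n hn).2.2)
  exact as_bound hi' hd he hmm β h (φ' h) hα (by linarith) h3 h4
    (fun n hn => (hL h rfl n hn).1) (fun n hn s hs => hC h rfl n hn s hs)

/-- the lower tail at every exponent above one half -/
theorem low_half (hc : S_CONC) (hi' : S_ID) (hd : 1 ≤ d) (he : IsEnv P ω)
    (hexp : ∀ b : ℝ, Integrable (fun x => Real.exp (b * ω 1 0 x)) P) (β : ℝ)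
    (φ' : (Fin d → ℝ) → ℝ) {C1 : ℝ} (hφ' : ∀ (h : Fin d → ℝ) (n : ℕ),
      free P ω β h n ≤ n * φ' h ∧ n * φ' h ≤ free P ω β h n + C1 * Real.sqrt n * Real.log (n + 1))
    (U : Set (Fin d → ℝ)) {ξ : ℝ} (hξ : 1 / 2 < ξ) :
    ∀ ε : ℝ, 0 < ε → ∃ N : ℕ, ∀ n : ℕ, N ≤ n → ∀ h ∈ U,
        P.real {x | lw ω β h 0 0 n x ≤ n * φ' h - (n : ℝ) ^ ξ} ≤ ε := by
  intro ε hε
  obtain ⟨c1, hc1, hc2⟩ := exists_between hξ
  have hconc := conc_half hc hd he hexp β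
  set C0 : ℝ := 2 * Real.exp (mom P ω β) with hC0
  obtain ⟨K, hK0, hK⟩ := exp_small (q := (1 : ℝ)) (by norm_num : (0 : ℝ) < 1 / 4)
    (by linarith : 0 < c1 - 1 / 2)
  have h1 : Tendsto (fun n : ℕ => |C0| * (K * (n : ℝ) ^ (-(1 : ℝ)))) atTop
      (𝓝 (|C0| * (K * 0))) :=
    (((tendsto_rpow_neg_atTop one_pos).comp tendsto_natCast_atTop_atTop).const_mul _).const_mul _
  rw [mul_zero, mul_zero] at h1
  have e1 := h1.eventually (ge_mem_nhds hε)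
  have e2 := Pool.Agent.N700.SE.UPD.ev_log 1 (c1 - 1 / 2) one_pos (by linarith)
  have e3 := pow_dom' hc2 (1 + |C1|)
  obtain ⟨N, hN⟩ := eventually_atTop.1 (((e1.and e2).and e3).and (eventually_ge_atTop 1))
  refine ⟨N, fun n hn h _ => ?_⟩
  obtain ⟨⟨⟨q1, q2⟩, q3⟩, q4⟩ := hN n hn
  have hn0 : (0 : ℝ) < n := by exact_mod_cast q4
  have h2 := Pool.Agent.N427.SE.UPX.testX hc hi' hd P ω he hexp β (by norm_num : (0 : ℝ) < 1 / 2)
    (by norm_num : (0 : ℝ) < 1 / 4) hconc c1 n q4 h (Set.mem_univ _) 0 0 n le_rfl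
  have h3 : P.real {x | (n : ℝ) ^ c1 ≤ |lw ω β h 0 0 n x - free P ω β h n|} ≤
      |C0| * Real.exp (-(1 / 4 * (n : ℝ) ^ (c1 - 1 / 2))) :=
    ENNReal.toReal_le_of_le_ofReal (by positivity) h2
  have h4 := mul_le_mul_of_nonneg_left (hK n q4) (abs_nonneg C0)
  refine le_trans (measureReal_mono (fun x hx => ?_) (measure_ne_top _ _))
    (h3.trans (h4.trans q1))
  have hx' : lw ω β h 0 0 n x ≤ n * φ' h - (n : ℝ) ^ ξ := hx
  show (n : ℝ) ^ c1 ≤ |lw ω β h 0 0 n x - free P ω β h n|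
  rw [le_abs]
  right
  have h5 := (hφ' h n).2
  rw [one_mul] at q2
  have h6 : C1 * Real.sqrt n * Real.log (n + 1) ≤ |C1| * (n : ℝ) ^ c1 := by
    have hl : 0 ≤ Real.log ((n : ℝ) + 1) := Real.log_nonneg (by linarith)
    calc C1 * Real.sqrt n * Real.log (n + 1) ≤ |C1| * Real.sqrt n * Real.log (n + 1) := by
          gcongr
          exact le_abs_self C1
      _ ≤ |C1| * Real.sqrt n * (n : ℝ) ^ (c1 - 1 / 2) := by gcongr
      _ = |C1| * (n : ℝ) ^ c1 := by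
          rw [mul_assoc, Real.sqrt_eq_rpow, ← Real.rpow_add hn0]
          congr 2
          ring
  have h7 : (1 + |C1|) * (n : ℝ) ^ c1 = (n : ℝ) ^ c1 + |C1| * (n : ℝ) ^ c1 := by ring
  linarith

/-- the moments at every exponent above one half -/
theorem mom_half (hc : S_CONC) (hd : 1 ≤ d) (he : IsEnv P ω)
    (hexp : ∀ b : ℝ, Integrable (fun x => Real.exp (b * ω 1 0 x)) P) (β : ℝ)
    (φ' : (Fin d → ℝ) → ℝ) {C1 : ℝ} (hφ' : ∀ (h : Fin d → ℝ) (n : ℕ),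
      free P ω β h n ≤ n * φ' h ∧ n * φ' h ≤ free P ω β h n + C1 * Real.sqrt n * Real.log (n + 1))
    (h : Fin d → ℝ) {ζ p : ℝ} (hζ : 1 / 2 < ζ) (hp : 0 < p) :
    ∃ C : ℝ, ∀ n : ℕ, 1 ≤ n →
      ∫⁻ x, ENNReal.ofReal (|lw ω β h 0 0 n x - n * φ' h| ^ p) ∂P ≤
        ENNReal.ofReal (C * (n : ℝ) ^ (p * ζ)) := by
  have hint : ∀ (h : Fin d → ℝ) (n : ℕ), Integrable (lw ω β h 0 0 n) P := fun h n =>
    (hc d hd Ω P ω he hexp β h 0 0 n).2.1
  obtain ⟨U, -, hhU, C2, hC2⟩ := moments_of_conc hc hd he hexp hp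
    (concentrated_half hc hd he hexp β h)
  -- the logarithm
  obtain ⟨K, hK0, hK⟩ : ∃ K : ℝ, 0 ≤ K ∧ ∀ n : ℕ, 1 ≤ n →
      |C1| * Real.sqrt n * Real.log (n + 1) ≤ K * (n : ℝ) ^ ζ := by
    set a : ℝ := ζ - 1 / 2 with ha
    have ha0 : 0 < a := by linarith
    refine ⟨|C1| * (2 ^ a / a), by positivity, fun n hn => ?_⟩
    have hn0 : (0 : ℝ) < n := by exact_mod_cast hn
    have hnR : (1 : ℝ) ≤ n := by exact_mod_cast hn
    have h1 : Real.log ((n : ℝ) + 1) ≤ ((n : ℝ) + 1) ^ a / a :=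
      Real.log_le_rpow_div (by positivity) ha0
    have h2 : ((n : ℝ) + 1) ^ a ≤ 2 ^ a * (n : ℝ) ^ a := by
      rw [← Real.mul_rpow (by norm_num) hn0.le]
      exact Real.rpow_le_rpow (by positivity) (by linarith) ha0.le
    calc |C1| * Real.sqrt n * Real.log (n + 1) ≤
          |C1| * Real.sqrt n * (2 ^ a * (n : ℝ) ^ a / a) := by
          gcongr
          refine h1.trans ?_
          gcongr
      _ = |C1| * (2 ^ a / a) * (Real.sqrt n * (n : ℝ) ^ a) := by ring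
      _ = _ := by
          rw [Real.sqrt_eq_rpow, ← Real.rpow_add hn0]
          congr 2
          rw [ha]
          ring
  refine ⟨2 ^ p * (|C2| + K ^ p), fun n hn => ?_⟩
  have hn0 : (0 : ℝ) < n := by exact_mod_cast hn
  have hnR : (1 : ℝ) ≤ n := by exact_mod_cast hn
  have h1 := hC2 h hhU n hn
  simp_rw [logZ_sub hd (hint _ _)] at h1
  have hpt : ∀ x, ENNReal.ofReal (|lw ω β h 0 0 n x - n * φ' h| ^ p) ≤
      ENNReal.ofReal (2 ^ p) * ENNReal.ofReal (|lw ω β h 0 0 n x - free P ω β h n| ^ p) +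
        ENNReal.ofReal (2 ^ p * (K * (n : ℝ) ^ ζ) ^ p) := by
    intro x
    have hKn : 0 ≤ K * (n : ℝ) ^ ζ := by positivity
    rw [← ENNReal.ofReal_mul (by positivity), ← ENNReal.ofReal_add (by positivity)
      (by positivity)]
    apply ENNReal.ofReal_le_ofReal
    set a : ℝ := |lw ω β h 0 0 n x - free P ω β h n| with ha
    have ha0 : 0 ≤ a := abs_nonneg _
    have h2 : |lw ω β h 0 0 n x - n * φ' h| ≤ a + K * (n : ℝ) ^ ζ := by
      have h3 := (hφ' h n).1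
      have h4 := (hφ' h n).2
      have h5 : C1 * Real.sqrt n * Real.log (n + 1) ≤ K * (n : ℝ) ^ ζ := by
        refine le_trans ?_ (hK n hn)
        have hl : 0 ≤ Real.log ((n : ℝ) + 1) := Real.log_nonneg (by linarith)
        gcongr
        exact le_abs_self C1
      have h6 := neg_abs_le (lw ω β h 0 0 n x - free P ω β h n)
      have h7 := le_abs_self (lw ω β h 0 0 n x - free P ω β h n)
      rw [abs_le]
      constructor <;> linarith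
    calc |lw ω β h 0 0 n x - n * φ' h| ^ p ≤ (a + K * (n : ℝ) ^ ζ) ^ p :=
          Real.rpow_le_rpow (abs_nonneg _) h2 hp.le
      _ ≤ 2 ^ p * a ^ p + 2 ^ p * (K * (n : ℝ) ^ ζ) ^ p := by
          rcases le_total a (K * (n : ℝ) ^ ζ) with h3 | h3
          · calc (a + K * (n : ℝ) ^ ζ) ^ p ≤ (2 * (K * (n : ℝ) ^ ζ)) ^ p :=
                  Real.rpow_le_rpow (by positivity) (by linarith) hp.le
              _ = 2 ^ p * (K * (n : ℝ) ^ ζ) ^ p := Real.mul_rpow (by norm_num) hKn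
              _ ≤ _ := by
                  have : 0 ≤ 2 ^ p * a ^ p := by positivity
                  linarith
          · calc (a + K * (n : ℝ) ^ ζ) ^ p ≤ (2 * a) ^ p :=
                  Real.rpow_le_rpow (by positivity) (by linarith) hp.le
              _ = 2 ^ p * a ^ p := Real.mul_rpow (by norm_num) ha0
              _ ≤ _ := by
                  have : 0 ≤ 2 ^ p * (K * (n : ℝ) ^ ζ) ^ p := by positivity
                  linarith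
  have hm : Measurable (lw ω β h 0 0 n) := (hc d hd Ω P ω he hexp β h 0 0 n).1
  have hm2 : Measurable fun x => ENNReal.ofReal (|lw ω β h 0 0 n x - free P ω β h n| ^ p) :=
    ((measurable_norm.comp (hm.sub_const _)).pow_const p).ennreal_ofReal
  calc ∫⁻ x, ENNReal.ofReal (|lw ω β h 0 0 n x - n * φ' h| ^ p) ∂P
      ≤ ∫⁻ x, (ENNReal.ofReal (2 ^ p) *
          ENNReal.ofReal (|lw ω β h 0 0 n x - free P ω β h n| ^ p) +
        ENNReal.ofReal (2 ^ p * (K * (n : ℝ) ^ ζ) ^ p)) ∂P := lintegral_mono hpt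
    _ = ENNReal.ofReal (2 ^ p) *
          ∫⁻ x, ENNReal.ofReal (|lw ω β h 0 0 n x - free P ω β h n| ^ p) ∂P +
        ENNReal.ofReal (2 ^ p * (K * (n : ℝ) ^ ζ) ^ p) := by
        rw [lintegral_add_left (hm2.const_mul _), lintegral_const_mul _ hm2, lintegral_const,
          measure_univ, mul_one]
    _ ≤ ENNReal.ofReal (2 ^ p) * ENNReal.ofReal (|C2| * (n : ℝ) ^ (p * (1 / 2))) +
        ENNReal.ofReal (2 ^ p * (K * (n : ℝ) ^ ζ) ^ p) := by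
        gcongr
        exact h1.trans (ENNReal.ofReal_le_ofReal (mul_le_mul_of_nonneg_right (le_abs_self _)
          (Real.rpow_nonneg hn0.le _)))
    _ = ENNReal.ofReal (2 ^ p * (|C2| * (n : ℝ) ^ (p * (1 / 2))) +
        2 ^ p * (K * (n : ℝ) ^ ζ) ^ p) := by
        rw [← ENNReal.ofReal_mul (by positivity), ← ENNReal.ofReal_add (by positivity)
          (by positivity)]
    _ ≤ _ := by
        apply ENNReal.ofReal_le_ofReal
        have h2 : (K * (n : ℝ) ^ ζ) ^ p = K ^ p * (n : ℝ) ^ (p * ζ) := by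
          rw [Real.mul_rpow hK0 (Real.rpow_nonneg hn0.le _), ← Real.rpow_mul hn0.le, mul_comm ζ]
        have h3 : (n : ℝ) ^ (p * (1 / 2)) ≤ (n : ℝ) ^ (p * ζ) := by
          apply Real.rpow_le_rpow_of_exponent_le hnR
          exact mul_le_mul_of_nonneg_left hζ.le hp.le
        rw [h2]
        calc 2 ^ p * (|C2| * (n : ℝ) ^ (p * (1 / 2))) + 2 ^ p * (K ^ p * (n : ℝ) ^ (p * ζ))
            ≤ 2 ^ p * (|C2| * (n : ℝ) ^ (p * ζ)) + 2 ^ p * (K ^ p * (n : ℝ) ^ (p * ζ)) := by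
              gcongr
          _ = _ := by ring

/-- Markov: the lower tail from the moments -/
theorem low_of_mom (hm : ∀ (β : ℝ) (h : Fin d → ℝ) (n : ℕ), Measurable (lw ω β h 0 0 n))
    (β : ℝ) (φ' : (Fin d → ℝ) → ℝ) (U : Set (Fin d → ℝ)) {ξ ζ p C : ℝ} (hp : 0 < p)
    (hζ : ξ < ζ)
    (H : ∀ h ∈ U, ∀ n : ℕ, 1 ≤ n → ∫⁻ x, ENNReal.ofReal (|lw ω β h 0 0 n x - n * φ' h| ^ p) ∂P ≤
        ENNReal.ofReal (C * (n : ℝ) ^ (p * ξ))) :
    ∀ ε : ℝ, 0 < ε → ∃ N : ℕ, ∀ n : ℕ, N ≤ n → ∀ h ∈ U,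
        P.real {x | lw ω β h 0 0 n x ≤ n * φ' h - (n : ℝ) ^ ζ} ≤ ε := by
  intro ε hε
  have h1 : Tendsto (fun n : ℕ => |C| * (n : ℝ) ^ (-(p * (ζ - ξ)))) atTop
      (𝓝 (|C| * 0)) :=
    ((tendsto_rpow_neg_atTop (by nlinarith)).comp tendsto_natCast_atTop_atTop).const_mul _
  rw [mul_zero] at h1
  obtain ⟨N, hN⟩ := eventually_atTop.1 ((h1.eventually (ge_mem_nhds hε)).and
    (eventually_ge_atTop 1))
  refine ⟨N, fun n hn h hh => ?_⟩
  obtain ⟨q1, q2⟩ := hN n hn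
  have hn0 : (0 : ℝ) < n := by exact_mod_cast q2
  have hm2 : Measurable fun x =>
      ENNReal.ofReal (|lw ω β h 0 0 n x - n * φ' h| ^ p) :=
    ((measurable_norm.comp ((hm β h n).sub_const _)).pow_const p).ennreal_ofReal
  have hpos : (0 : ℝ) < ((n : ℝ) ^ ζ) ^ p := Real.rpow_pos_of_pos (Real.rpow_pos_of_pos hn0 _) _
  have h2 : P {x | lw ω β h 0 0 n x ≤ n * φ' h - (n : ℝ) ^ ζ} ≤
      ENNReal.ofReal (|C| * (n : ℝ) ^ (-(p * (ζ - ξ)))) := by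
    have hsub : {x | lw ω β h 0 0 n x ≤ n * φ' h - (n : ℝ) ^ ζ} ⊆
        {x | ENNReal.ofReal (((n : ℝ) ^ ζ) ^ p) ≤
          ENNReal.ofReal (|lw ω β h 0 0 n x - n * φ' h| ^ p)} := by
      intro x hx
      have hx' : lw ω β h 0 0 n x ≤ n * φ' h - (n : ℝ) ^ ζ := hx
      show ENNReal.ofReal (((n : ℝ) ^ ζ) ^ p) ≤
          ENNReal.ofReal (|lw ω β h 0 0 n x - n * φ' h| ^ p)
      apply ENNReal.ofReal_le_ofReal
      apply Real.rpow_le_rpow (Real.rpow_nonneg hn0.le _) _ hp.le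
      rw [le_abs]
      right
      linarith
    refine (measure_mono hsub).trans ?_
    refine (meas_ge_le_lintegral_div hm2.aemeasurable (ENNReal.ofReal_pos.2 hpos).ne'
      ENNReal.ofReal_ne_top).trans ?_
    refine (ENNReal.div_le_div_right ((H h hh n q2).trans (ENNReal.ofReal_le_ofReal
      (mul_le_mul_of_nonneg_right (le_abs_self C) (Real.rpow_nonneg hn0.le _)))) _).trans ?_
    rw [← ENNReal.ofReal_div_of_pos hpos]
    apply ENNReal.ofReal_le_ofReal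
    apply le_of_eq
    rw [← Real.rpow_mul hn0.le, mul_div_assoc, ← Real.rpow_sub hn0]
    congr 2
    ring
  exact (ENNReal.toReal_le_of_le_ofReal (by positivity) h2).trans q1

/-- the lower tail from the almost sure bound -/
theorem low_of_as (hm : ∀ (β : ℝ) (h : Fin d → ℝ) (n : ℕ), Measurable (lw ω β h 0 0 n))
    (β : ℝ) (φ' : (Fin d → ℝ) → ℝ) (h : Fin d → ℝ) {ξ ζ : ℝ} (hζ : ξ < ζ)
    (H : ∀ᵐ x ∂P, ∀ᶠ n : ℕ in atTop, |lw ω β h 0 0 n x - n * φ' h| ≤ (n : ℝ) ^ ξ) :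
    ∀ ε : ℝ, 0 < ε → ∃ N : ℕ, ∀ n : ℕ, N ≤ n → ∀ h' ∈ ({h} : Set (Fin d → ℝ)),
        P.real {x | lw ω β h' 0 0 n x ≤ n * φ' h' - (n : ℝ) ^ ζ} ≤ ε := by
  intro ε hε
  set A : ℕ → Set Ω := fun n => {x | lw ω β h 0 0 n x ≤ n * φ' h - (n : ℝ) ^ ζ} with hA
  have hAm : ∀ n, MeasurableSet (A n) := fun n => measurableSet_le (hm β h n) measurable_const
  have h1 : Tendsto (fun n => ∫⁻ x, (A n).indicator 1 x ∂P) atTop (𝓝 (∫⁻ _x, 0 ∂P)) := by
    apply tendsto_lintegral_of_dominated_convergence (fun _ => 1)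
    · intro n
      exact measurable_one.indicator (hAm n)
    · intro n
      refine Eventually.of_forall fun x => ?_
      exact Set.indicator_le_self' (fun _ _ => zero_le_one) x
    · simp
    · filter_upwards [H] with x hx
      apply tendsto_const_nhds.congr'
      filter_upwards [hx, pow_dom' hζ 2, eventually_ge_atTop 1] with n hn h2 h3
      have hn0 : (0 : ℝ) < n := by exact_mod_cast h3
      have h4 : (0 : ℝ) < (n : ℝ) ^ ξ := Real.rpow_pos_of_pos hn0 _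
      rw [Set.indicator_of_notMem]
      intro hxA
      have h5 : lw ω β h 0 0 n x ≤ n * φ' h - (n : ℝ) ^ ζ := hxA
      have h6 := neg_abs_le (lw ω β h 0 0 n x - n * φ' h)
      linarith
  rw [lintegral_zero] at h1
  simp_rw [lintegral_indicator_one (hAm _)] at h1
  have h2 := (ENNReal.tendsto_toReal ENNReal.zero_ne_top).comp h1
  have h3 := h2.eventually (ge_mem_nhds (by simpa using hε))
  obtain ⟨N, hN⟩ := eventually_atTop.1 h3
  refine ⟨N, fun n hn h' hh' => ?_⟩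
  rw [Set.mem_singleton_iff] at hh'
  subst hh'
  exact hN n hn

end

end Pool.Agent.Run7.h208.WT
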