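import Pool.Agent.Run7.h208.WT.Fin2

/-!
# Directed polymers: the exponents
-/

set_option autoImplicit false

open MeasureTheory ProbabilityTheory Filter Topology
open scoped ENNReal

namespace Pool.Agent.Run7.h208.WT

open TH967.DP
open Pool.Agent.N662.SE

variable {d : ℕ}

section
variable {Ω : Type} [mΩ : MeasurableSpace Ω] {P : Measure Ω} [IsProbabilityMeasure P]
  {ω : ℕ → (Fin d → ℤ) → Ω → ℝ}

/-- the weak tails from the lower tail -/
theorem weak_of_low (hc : S_CONC) (hs : S_SUP) (hi' : S_ID) (hd : 1 ≤ d) (he : IsEnv P ω)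
    (hexp : ∀ b : ℝ, Integrable (fun x => Real.exp (b * ω 1 0 x)) P) (β : ℝ)
    (φ' : (Fin d → ℝ) → ℝ) {C1 : ℝ} (hφ' : ∀ (h : Fin d → ℝ) (n : ℕ),
      free P ω β h n ≤ n * φ' h ∧ n * φ' h ≤ free P ω β h n + C1 * Real.sqrt n * Real.log (n + 1))
    (h : Fin d → ℝ) (U : Set (Fin d → ℝ)) (hUo : IsOpen U) (hhU : h ∈ U) {ξ ξ' : ℝ} (hξ : 0 < ξ)
    (hξ' : (d + 1) * ξ < ξ')
    (H : ∀ ε : ℝ, 0 < ε → ∃ N : ℕ, ∀ n : ℕ, N ≤ n → ∀ h ∈ U,
        P.real {x | lw ω β h 0 0 n x ≤ n * φ' h - (n : ℝ) ^ ξ} ≤ ε) :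
    WeakTails P ω β h ξ' := by
  have hint : ∀ (h : Fin d → ℝ) (n : ℕ), Integrable (lw ω β h 0 0 n) P := fun h n =>
    (hc d hd Ω P ω he hexp β h 0 0 n).2.1
  have hd0 : (0 : ℝ) ≤ d := Nat.cast_nonneg d
  obtain ⟨ζ, h1, h2⟩ := exists_between (show ξ < ξ' / (d + 1) by
    rw [lt_div_iff₀ (by positivity)]
    linarith)
  have hζ0 : 0 < ζ := by linarith
  have h2' : ζ * (d + 1) < ξ' := by rwa [lt_div_iff₀ (by positivity)] at h2
  have hζξ' : ζ < ξ' := by nlinarith
  obtain ⟨C, hC0, hC⟩ := tail_fact hc hs hi' hd he hexp β φ' hφ' U hξ h1 H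
  obtain ⟨α, hα, hL⟩ := key_fact hc hs hi' hd he hexp β φ' hφ' U hξ h1 H
  set q : ℝ := ξ' / ζ - 1 with hq
  have hqd : (d : ℝ) < q := by
    rw [hq, lt_sub_iff_add_lt, lt_div_iff₀ hζ0]
    linarith
  have hq0 : 0 < q := by linarith
  obtain ⟨N0, hN0⟩ := eventually_atTop.1 ((pow_dom' hζξ' (2 * (3 / α))).and
    (eventually_ge_atTop 1))
  refine ⟨U, hUo, hhU, ⟨q, C * 2 ^ (1 / ζ) + (N0 : ℝ) ^ q, hqd, fun h' hh' n hn => ?_⟩,
    fun ε hε => ?_⟩
  · simp_rw [logZ_sub hd (hint _ _)]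
    have hn0 : (0 : ℝ) < n := by exact_mod_cast hn
    have hnq : (0 : ℝ) < (n : ℝ) ^ (-q) := Real.rpow_pos_of_pos hn0 _
    have hNq : (0 : ℝ) ≤ (N0 : ℝ) ^ q := Real.rpow_nonneg (Nat.cast_nonneg _) _
    have h2p : (0 : ℝ) < 2 ^ (1 / ζ) := Real.rpow_pos_of_pos (by norm_num) _
    rcases lt_or_ge n N0 with hlt | hge
    · have h3 : (1 : ℝ) ≤ (N0 : ℝ) ^ q * (n : ℝ) ^ (-q) := by
        have h4 : (n : ℝ) ^ q ≤ (N0 : ℝ) ^ q :=
          Real.rpow_le_rpow hn0.le (by exact_mod_cast hlt.le) hq0.le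
        calc (1 : ℝ) = (n : ℝ) ^ q * (n : ℝ) ^ (-q) := by
              rw [← Real.rpow_add hn0, add_neg_cancel, Real.rpow_zero]
          _ ≤ _ := mul_le_mul_of_nonneg_right h4 hnq.le
      have h5 : 0 ≤ C * 2 ^ (1 / ζ) * (n : ℝ) ^ (-q) := by positivity
      refine measureReal_le_one.trans ?_
      rw [add_mul]
      linarith
    · obtain ⟨h3, -⟩ := hN0 n hge
      have h4 := (hL h' hh' n hn).2.1
      have hpos : 0 < (n : ℝ) ^ ξ' := Real.rpow_pos_of_pos hn0 _
      have h5 := hC h' hh' n hn ((n : ℝ) ^ ξ' / 2) (by positivity)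
      have h6 : C * n * ((n : ℝ) ^ ξ' / 2) ^ (-(1 / ζ)) = C * 2 ^ (1 / ζ) * (n : ℝ) ^ (-q) := by
        rw [Real.div_rpow hpos.le (by norm_num), ← Real.rpow_mul hn0.le,
          Real.rpow_neg (by norm_num : (0 : ℝ) ≤ 2), div_inv_eq_mul]
        have e1 : (n : ℝ) * (n : ℝ) ^ (ξ' * -(1 / ζ)) = (n : ℝ) ^ (-q) := by
          nth_rewrite 1 [← Real.rpow_one (n : ℝ)]
          rw [← Real.rpow_add hn0]
          congr 1
          rw [hq]
          ring
        rw [← e1]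
        ring
      rw [h6] at h5
      have h7 : 0 ≤ (N0 : ℝ) ^ q * (n : ℝ) ^ (-q) := by positivity
      rw [add_mul]
      refine le_trans (measureReal_mono (fun x hx => ?_) (measure_ne_top _ _))
        (h5.trans (by linarith))
      have hx' : (n : ℝ) ^ ξ' ≤ lw ω β h' 0 0 n x - free P ω β h' n := hx
      show (n : ℝ) ^ ξ' / 2 ≤ |lw ω β h' 0 0 n x - n * φ' h'|
      refine le_trans ?_ (le_abs_self _)
      linarith
  · obtain ⟨N, hN⟩ := H ε hε
    refine ⟨max N 1, fun n hn h' hh' => ?_⟩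
    simp_rw [logZ_sub hd (hint _ _)]
    have hn1 : 1 ≤ n := le_trans (le_max_right _ _) hn
    have hnR : (1 : ℝ) ≤ n := by exact_mod_cast hn1
    refine le_trans (measureReal_mono (fun x hx => ?_) (measure_ne_top _ _))
      (hN n (le_trans (le_max_left _ _) hn) h' hh')
    have hx' : lw ω β h' 0 0 n x - free P ω β h' n ≤ -(n : ℝ) ^ ξ' := hx
    show lw ω β h' 0 0 n x ≤ n * φ' h' - (n : ℝ) ^ ξ
    have h3 := (hφ' h' n).1
    have h4 : (n : ℝ) ^ ξ ≤ (n : ℝ) ^ ξ' :=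
      Real.rpow_le_rpow_of_exponent_le hnR (by linarith)
    linarith

/-- the variance is at most the mean square deviation from `n φ` -/
theorem var_le_mom (hc : S_CONC) (hd : 1 ≤ d) (he : IsEnv P ω)
    (hexp : ∀ b : ℝ, Integrable (fun x => Real.exp (b * ω 1 0 x)) P) (β : ℝ)
    (h : Fin d → ℝ) (n : ℕ) {y M : ℝ} (hM : 0 ≤ M)
    (H : ∫⁻ x, ENNReal.ofReal (|lw ω β h 0 0 n x - y| ^ (2 : ℝ)) ∂P ≤ ENNReal.ofReal M) :
    variance (fun x => logZ β h (fun i y => ω i y x) n) P ≤ M := by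
  have hint : Integrable (lw ω β h 0 0 n) P := (hc d hd Ω P ω he hexp β h 0 0 n).2.1
  have hm : Measurable (lw ω β h 0 0 n) := (hc d hd Ω P ω he hexp β h 0 0 n).1
  rw [variance_logZ hd hint]
  have hm2 : Measurable fun x => (lw ω β h 0 0 n x - y) ^ 2 := (hm.sub_const y).pow_const 2
  have e1 : ∀ x, |lw ω β h 0 0 n x - y| ^ (2 : ℝ) = (lw ω β h 0 0 n x - y) ^ 2 := by
    intro x
    rw [Real.rpow_two, sq_abs]
  simp_rw [e1] at H
  have hi2 : Integrable (fun x => (lw ω β h 0 0 n x - y) ^ 2) P := by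
    refine ⟨hm2.aestronglyMeasurable, ?_⟩
    rw [hasFiniteIntegral_iff_ofReal (Eventually.of_forall fun x => sq_nonneg _)]
    exact lt_of_le_of_lt H ENNReal.ofReal_lt_top
  have h1 : ∫ x, (lw ω β h 0 0 n x - y) ^ 2 ∂P ≤ M := by
    rw [integral_eq_lintegral_of_nonneg_ae (Eventually.of_forall fun x => sq_nonneg _)
      hm2.aestronglyMeasurable]
    exact ENNReal.toReal_le_of_le_ofReal hM H
  have e2 : ∀ x, (lw ω β h 0 0 n x - free P ω β h n) ^ 2 = (lw ω β h 0 0 n x - y) ^ 2 -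
      2 * (free P ω β h n - y) * lw ω β h 0 0 n x + (free P ω β h n ^ 2 - y ^ 2) := by
    intro x
    ring
  simp_rw [e2]
  have i3 : Integrable (fun x => 2 * (free P ω β h n - y) * lw ω β h 0 0 n x) P :=
    hint.const_mul _
  have i4 : Integrable (fun x => (lw ω β h 0 0 n x - y) ^ 2 -
      2 * (free P ω β h n - y) * lw ω β h 0 0 n x) P := hi2.sub i3
  rw [integral_add i4 (integrable_const _), integral_sub hi2 i3, integral_const_mul]
  have e3 : ∫ x, lw ω β h 0 0 n x ∂P = free P ω β h n := rfl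
  rw [e3]
  simp only [integral_const, probReal_univ, one_smul]
  nlinarith [sq_nonneg (free P ω β h n - y)]

/-- the exponents -/
theorem exps (mgf : S_MGF) (hd : 1 ≤ d) (he : IsEnv P ω)
    (hexp : ∀ b : ℝ, Integrable (fun x => Real.exp (b * ω 1 0 x)) P) (β : ℝ) :
    ∃ φ : (Fin d → ℝ) → ℝ,
    (∀ h, Tendsto (fun n : ℕ => (∫ x, logZ β h (fun i y => ω i y x) n ∂P) / n) atTop
      (𝓝 (φ h))) ∧
    (∀ (U : Set (Fin d → ℝ)) (ξ ζ : ℝ), 0 < ξ → ξ < ζ → LowTail P ω β φ U ξ →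
      ∃ C : ℝ, ∀ h ∈ U, ∀ n : ℕ, 1 ≤ n → ∀ s : ℝ, 0 < s →
        P.real {x | s ≤ |logZ β h (fun i y => ω i y x) n - n * φ h|} ≤
          C * n * s ^ (-(1 / ζ))) ∧
    (∀ h, expAS P ω β φ h = expLow P ω β φ h ∧
      (∀ p : ℝ, 0 < p → p ≤ 2 → expMom P ω β φ h p = expLow P ω β φ h) ∧
      chi P ω β h ≤ expLow P ω β φ h ∧ expLow P ω β φ h ≤ expLowLoc P ω β φ h ∧
      expLowLoc P ω β φ h ≤ chiUp P ω β h ∧
      chiUp P ω β h ≤ (d + 1) * expLowLoc P ω β φ h) := by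
  have hc : S_CONC := Pool.Agent.N523.SE.CONC.main mgf
  have hs : S_SUP := Pool.Agent.N50.SE.SUP.main hc
  have hv : S_CVX := Pool.Agent.N50.SE.CVX.main hc
  have hdb : S_DBL := Pool.Agent.N97.SE.DBL.main hc
  have hr : S_RATE := Pool.Agent.N353.SE.Rate.main hs hdb hv
  have hi' : S_ID := Pool.Agent.N951.SE.t
  have hdx : S_DBLX := Pool.Agent.N803.SE.DBLX.main hc hi'
  have hrx : S_RATEX := Pool.Agent.N316.SE.Ratex.main hr hdx
  obtain ⟨φ', hconv, hfr, hrate⟩ := hrx d hd Ω P ω he hexp β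
  obtain ⟨C1, hC1⟩ := hrate Set.univ (1 / 2) (1 / 4) _ (by norm_num) (by norm_num)
    (by norm_num) (conc_half hc hd he hexp β)
  have hφ' : ∀ (h : Fin d → ℝ) (n : ℕ),
      free P ω β h n ≤ n * φ' h ∧
        n * φ' h ≤ free P ω β h n + C1 * Real.sqrt n * Real.log (n + 1) := by
    intro h n
    refine ⟨hfr h n, ?_⟩
    have h1 := hC1 h (Set.mem_univ _) n
    rwa [← Real.sqrt_eq_rpow] at h1
  have hint : ∀ (β : ℝ) (h : Fin d → ℝ) (n : ℕ), Integrable (lw ω β h 0 0 n) P := fun β h n =>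
    (hc d hd Ω P ω he hexp β h 0 0 n).2.1
  have hmm : ∀ (β : ℝ) (h : Fin d → ℝ) (n : ℕ), Measurable (lw ω β h 0 0 n) :=
    fun β h n => (hc d hd Ω P ω he hexp β h 0 0 n).1
  set c0 : ℝ := Real.log (2 * (d : ℝ)) with hc0
  have e2 : ∀ (h : Fin d → ℝ) (n : ℕ) (x : Ω), logZ β h (fun i y => ω i y x) n -
      n * (φ' h - c0) = lw ω β h 0 0 n x - n * φ' h := by
    intro h n x
    rw [logZ_eq hd]
    ring
  refine ⟨fun h => φ' h - c0, ?_, ?_, ?_⟩
  · intro h
    have h1 : ∀ n : ℕ, 1 ≤ n → (∫ x, logZ β h (fun i y => ω i y x) n ∂P) / n =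
        free P ω β h n / n - c0 := by
      intro n hn
      have hn0 : (0 : ℝ) < n := by exact_mod_cast hn
      rw [integral_logZ hd (hint β h n), sub_div, mul_comm (n : ℝ), mul_div_assoc,
        div_self hn0.ne', mul_one]
    have h2 : Tendsto (fun n : ℕ => free P ω β h n / n) atTop (𝓝 (φ' h)) := by
      have h3 : Tendsto (fun n : ℕ => φ' h - C1 * (Real.sqrt n * Real.log (n + 1) / n)) atTop
          (𝓝 (φ' h - C1 * 0)) := (sqrt_log_div.const_mul C1).const_sub _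
      rw [mul_zero, sub_zero] at h3
      refine tendsto_of_tendsto_of_tendsto_of_le_of_le' h3 tendsto_const_nhds ?_ ?_
      · filter_upwards [eventually_ge_atTop 1] with n hn
        have hn0 : (0 : ℝ) < n := by exact_mod_cast hn
        rw [le_div_iff₀ hn0]
        have h4 := (hφ' h n).2
        have h5 : (φ' h - C1 * (Real.sqrt n * Real.log (n + 1) / n)) * n =
            n * φ' h - C1 * Real.sqrt n * Real.log (n + 1) := by
          field_simp
        rw [h5]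
        linarith
      · filter_upwards [eventually_ge_atTop 1] with n hn
        have hn0 : (0 : ℝ) < n := by exact_mod_cast hn
        rw [div_le_iff₀ hn0, mul_comm]
        exact (hφ' h n).1
    refine (h2.sub_const c0).congr' ?_
    filter_upwards [eventually_ge_atTop 1] with n hn
    exact (h1 n hn).symm
  · intro U ξ ζ hξ hζ H
    rw [lowTail_iff hd] at H
    obtain ⟨C, -, hC⟩ := tail_fact hc hs hi' hd he hexp β φ' hφ' U hξ hζ H
    refine ⟨C, fun h hh n hn s hs => ?_⟩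
    simp_rw [e2]
    exact hC h hh n hn s hs
  · intro h
    set φ : (Fin d → ℝ) → ℝ := fun h => φ' h - c0 with hφ
    have hlowset : ∀ ξ : ℝ, 1 / 2 < ξ → ∀ U : Set (Fin d → ℝ), LowTail P ω β φ U ξ := by
      intro ξ hξ U
      rw [hφ, lowTail_iff hd]
      exact low_half hc hi' hd he hexp β φ' hφ' U hξ
    have hbL : BddBelow {ξ : ℝ | 0 < ξ ∧ LowTail P ω β φ {h} ξ} := ⟨0, fun _ hξ => hξ.1.le⟩
    have hbLoc : BddBelow {ξ : ℝ | 0 < ξ ∧ ∃ U : Set (Fin d → ℝ), IsOpen U ∧ h ∈ U ∧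
        LowTail P ω β φ U ξ} := ⟨0, fun _ hξ => hξ.1.le⟩
    have hbA : BddBelow {ξ : ℝ | 0 < ξ ∧ ∀ᵐ x ∂P, ∀ᶠ n : ℕ in atTop,
      |logZ β h (fun i y => ω i y x) n - n * φ h| ≤ (n : ℝ) ^ ξ} := ⟨0, fun _ hξ => hξ.1.le⟩
    have hbM : ∀ p : ℝ, BddBelow {ξ : ℝ | 0 < ξ ∧ ∃ C : ℝ, ∀ n : ℕ, 1 ≤ n →
      ∫⁻ x, ENNReal.ofReal (|logZ β h (fun i y => ω i y x) n - n * φ h| ^ p) ∂P ≤
        ENNReal.ofReal (C * (n : ℝ) ^ (p * ξ))} := fun p => ⟨0, fun _ hξ => hξ.1.le⟩
    have hneL : {ξ : ℝ | 0 < ξ ∧ LowTail P ω β φ {h} ξ}.Nonempty :=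
      ⟨1, one_pos, hlowset 1 (by norm_num) _⟩
    have hneLoc : {ξ : ℝ | 0 < ξ ∧ ∃ U : Set (Fin d → ℝ), IsOpen U ∧ h ∈ U ∧
        LowTail P ω β φ U ξ}.Nonempty :=
      ⟨1, one_pos, Set.univ, isOpen_univ, Set.mem_univ _, hlowset 1 (by norm_num) _⟩
    have hLhalf : expLowLoc P ω β φ h ≤ 1 / 2 := by
      apply le_of_forall_gt_imp_ge_of_dense
      intro ζ hζ
      exact csInf_le hbLoc ⟨by linarith, Set.univ, isOpen_univ, Set.mem_univ _,
        hlowset ζ hζ _⟩
    have hLL : expLow P ω β φ h ≤ expLowLoc P ω β φ h := by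
      apply csInf_le_csInf hbL hneLoc
      rintro ξ ⟨hξ0, U, hUo, hhU, hξ⟩
      refine ⟨hξ0, fun ε hε => ?_⟩
      obtain ⟨N, hN⟩ := hξ ε hε
      refine ⟨N, fun n hn h' hh' => hN n hn h' ?_⟩
      rw [Set.mem_singleton_iff] at hh'
      rw [hh']
      exact hhU
    -- almost sure
    have hAS1 : expAS P ω β φ h ≤ expLow P ω β φ h := by
      apply le_csInf hneL
      rintro ξ ⟨hξ0, hξ⟩
      apply le_of_forall_gt_imp_ge_of_dense
      intro ζ hζ
      apply csInf_le hbA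
      refine ⟨by linarith, ?_⟩
      rw [hφ, lowTail_iff hd] at hξ
      have h1 := as_fact hc hs hi' hd he hexp β φ' hφ' h hξ0 hζ hξ
      simp only [hφ, e2]
      exact h1
    have hAS2 : expLow P ω β φ h ≤ expAS P ω β φ h := by
      apply le_csInf
      · refine ⟨1, one_pos, ?_⟩
        have h0 := hlowset (3 / 4) (by norm_num) {h}
        rw [hφ, lowTail_iff hd] at h0
        have h1 := as_fact hc hs hi' hd he hexp β φ' hφ' h (by norm_num)
          (by norm_num : (3 / 4 : ℝ) < 1) h0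
        simp only [hφ, e2]
        exact h1
      · rintro ξ ⟨hξ0, hξ⟩
        apply le_of_forall_gt_imp_ge_of_dense
        intro ζ hζ
        apply csInf_le hbL
        refine ⟨by linarith, ?_⟩
        rw [hφ, lowTail_iff hd]
        simp only [hφ, e2] at hξ
        exact low_of_as hmm β φ' h hζ hξ
    -- moments
    have hmomset : ∀ p : ℝ, 0 < p → p ≤ 2 → ∀ ξ : ℝ, 0 < ξ → LowTail P ω β φ {h} ξ →
        ∀ ζ : ℝ, ξ < ζ → ζ < 1 / 2 → ∃ C : ℝ, ∀ n : ℕ, 1 ≤ n →
          ∫⁻ x, ENNReal.ofReal (|lw ω β h 0 0 n x - n * φ' h| ^ p) ∂P ≤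
            ENNReal.ofReal (C * (n : ℝ) ^ (p * ζ)) := by
      intro p hp hp2 ξ hξ0 hξ ζ hζ1 hζ2
      rw [hφ, lowTail_iff hd] at hξ
      obtain ⟨C, hC0, hC⟩ := tail_fact hc hs hi' hd he hexp β φ' hφ' {h} hξ0 hζ1 hξ
      have h1 := moments_of_tail hmm β {h} φ' (by linarith) hC0 hC hp
        (by nlinarith : p * ζ < 1)
      exact ⟨_, fun n hn => h1 h rfl n hn⟩
    have hM1 : ∀ p : ℝ, 0 < p → p ≤ 2 → expMom P ω β φ h p ≤ expLow P ω β φ h := by
      intro p hp hp2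
      apply le_csInf hneL
      rintro ξ ⟨hξ0, hξ⟩
      rcases lt_or_ge ξ (1 / 2) with h1 | h1
      · apply le_of_forall_gt_imp_ge_of_dense
        intro ζ0 hζ0
        obtain ⟨ζ, h2, h3⟩ := exists_between (lt_min hζ0 h1)
        have h4 := lt_min_iff.1 h3
        refine le_trans (csInf_le (hbM p) ?_) h4.1.le
        refine ⟨by linarith, ?_⟩
        simp only [hφ, e2]
        exact hmomset p hp hp2 ξ hξ0 hξ ζ h2 h4.2
      · refine le_trans ?_ h1
        apply le_of_forall_gt_imp_ge_of_dense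
        intro ζ hζ
        apply csInf_le (hbM p)
        refine ⟨by linarith, ?_⟩
        simp only [hφ, e2]
        exact mom_half hc hd he hexp β φ' hφ' h hζ hp
    have hM2 : ∀ p : ℝ, 0 < p → expLow P ω β φ h ≤ expMom P ω β φ h p := by
      intro p hp
      apply le_csInf
      · refine ⟨1, one_pos, ?_⟩
        simp only [hφ, e2]
        exact mom_half hc hd he hexp β φ' hφ' h (by norm_num) hp
      · rintro ξ ⟨hξ0, C, hξ⟩
        apply le_of_forall_gt_imp_ge_of_dense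
        intro ζ hζ
        apply csInf_le hbL
        refine ⟨by linarith, ?_⟩
        rw [hφ, lowTail_iff hd]
        simp only [hφ, e2] at hξ
        exact low_of_mom hmm β φ' {h} hp hζ (fun h' hh' n hn => by
          rw [Set.mem_singleton_iff] at hh'
          subst hh'
          exact hξ n hn)
    -- the variance exponent
    have hchi : chi P ω β h ≤ expLow P ω β φ h := by
      apply le_csInf hneL
      rintro ξ ⟨hξ0, hξ⟩
      rcases lt_or_ge ξ (1 / 2) with h1 | h1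
      · apply Real.sSup_le _ hξ0.le
        rintro t ⟨ht0, ht⟩
        by_contra hcon
        push Not at hcon
        obtain ⟨ζ, h2, h3⟩ := exists_between (lt_min hcon h1)
        have h4 := lt_min_iff.1 h3
        obtain ⟨C, hC⟩ := hmomset 2 (by norm_num) le_rfl ξ hξ0 hξ ζ h2 h4.2
        have h5 := pow_dom' (by linarith [h4.1] : 2 * ζ < 2 * t) (|C| + 1)
        obtain ⟨n, hn1, hn2, hn3⟩ := (ht.and (h5.and (eventually_ge_atTop 1))).exists
        have hn0 : (0 : ℝ) < n := by exact_mod_cast hn3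
        have h6 : (0 : ℝ) < (n : ℝ) ^ (2 * ζ) := Real.rpow_pos_of_pos hn0 _
        have h7 := var_le_mom hc hd he hexp β h n (M := |C| * (n : ℝ) ^ (2 * ζ)) (by positivity)
          ((hC n hn3).trans (ENNReal.ofReal_le_ofReal
            (mul_le_mul_of_nonneg_right (le_abs_self C) h6.le)))
        linarith
      · exact le_trans ((chi_le_chiUp hc hd he hexp β h).trans
          (chiUp_le_half hc hd he hexp β h)) h1
    -- the local exponent and the upper exponent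
    have hup : expLowLoc P ω β φ h ≤ chiUp P ω β h := by
      apply le_csInf
      · exact ⟨1 / 2, by norm_num, concentrated_half hc hd he hexp β h⟩
      rintro ξ ⟨hξ0, hξ⟩
      rcases lt_or_ge ξ (1 / 2) with h1 | h1
      · apply le_of_forall_gt_imp_ge_of_dense
        intro ζ hζ
        rw [concentrated_iff hd fun h n => hint β h n] at hξ
        obtain ⟨U, hUo, hhU, α, C0, hα, hconc⟩ := hξ
        obtain ⟨C2, hC2⟩ := hrate U ξ α C0 hξ0 (by linarith) hα hconc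
        apply csInf_le hbLoc
        refine ⟨by linarith, U, hUo, hhU, ?_⟩
        rw [hφ, lowTail_iff hd]
        intro ε hε
        obtain ⟨c1, hc1, hc2⟩ := exists_between hζ
        obtain ⟨K, hK0, hK⟩ := exp_small (q := (1 : ℝ)) hα (by linarith : 0 < c1 - ξ)
        have h2 : Tendsto (fun n : ℕ => |C0| * (K * (n : ℝ) ^ (-(1 : ℝ)))) atTop
            (𝓝 (|C0| * (K * 0))) :=
          (((tendsto_rpow_neg_atTop one_pos).comp
            tendsto_natCast_atTop_atTop).const_mul _).const_mul _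
        rw [mul_zero, mul_zero] at h2
        have e3 := h2.eventually (ge_mem_nhds hε)
        have e4 := Pool.Agent.N700.SE.UPD.ev_log 1 (c1 - ξ) one_pos (by linarith)
        have e5 := pow_dom' hc2 (1 + |C2|)
        obtain ⟨N, hN⟩ := eventually_atTop.1 (((e3.and e4).and e5).and (eventually_ge_atTop 1))
        refine ⟨N, fun n hn h' hh' => ?_⟩
        obtain ⟨⟨⟨q1, q2⟩, q3⟩, q4⟩ := hN n hn
        have hn0 : (0 : ℝ) < n := by exact_mod_cast q4
        have h3 := Pool.Agent.N427.SE.UPX.testX hc hi' hd P ω he hexp β hξ0 hα hconc c1 n q4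
          h' hh' 0 0 n le_rfl
        have h4 : P.real {x | (n : ℝ) ^ c1 ≤ |lw ω β h' 0 0 n x - free P ω β h' n|} ≤
            |C0| * Real.exp (-(α * (n : ℝ) ^ (c1 - ξ))) :=
          ENNReal.toReal_le_of_le_ofReal (by positivity) h3
        have h5 := mul_le_mul_of_nonneg_left (hK n q4) (abs_nonneg C0)
        refine le_trans (measureReal_mono (fun x hx => ?_) (measure_ne_top _ _))
          (h4.trans (h5.trans q1))
        have hx' : lw ω β h' 0 0 n x ≤ n * φ' h' - (n : ℝ) ^ ζ := hx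
        show (n : ℝ) ^ c1 ≤ |lw ω β h' 0 0 n x - free P ω β h' n|
        rw [le_abs]
        right
        have h6 := hC2 h' hh' n
        rw [one_mul] at q2
        have h7 : C2 * (n : ℝ) ^ ξ * Real.log (n + 1) ≤ |C2| * (n : ℝ) ^ c1 := by
          have hl : 0 ≤ Real.log ((n : ℝ) + 1) := Real.log_nonneg (by linarith)
          have hnξ : 0 ≤ (n : ℝ) ^ ξ := Real.rpow_nonneg hn0.le _
          calc C2 * (n : ℝ) ^ ξ * Real.log (n + 1) ≤ |C2| * (n : ℝ) ^ ξ * Real.log (n + 1) := by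
                gcongr
                exact le_abs_self C2
            _ ≤ |C2| * (n : ℝ) ^ ξ * (n : ℝ) ^ (c1 - ξ) := by gcongr
            _ = |C2| * (n : ℝ) ^ c1 := by
                rw [mul_assoc, ← Real.rpow_add hn0]
                congr 2
                ring
        have h8 : (1 + |C2|) * (n : ℝ) ^ c1 = (n : ℝ) ^ c1 + |C2| * (n : ℝ) ^ c1 := by ring
        linarith
      · exact hLhalf.trans h1
    have hdn : chiUp P ω β h ≤ (d + 1) * expLowLoc P ω β φ h := by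
      have hd1 : (0 : ℝ) < d + 1 := by positivity
      rw [← div_le_iff₀' hd1]
      apply le_csInf hneLoc
      rintro ξ ⟨hξ0, U, hUo, hhU, hξ⟩
      rw [div_le_iff₀' hd1, chiUp_eq hc hi' hs hd he hexp β h]
      rw [hφ, lowTail_iff hd] at hξ
      apply le_of_forall_gt_imp_ge_of_dense
      intro ξ' hξ'
      have h0 : 0 < (d + 1) * ξ := by positivity
      exact csInf_le ⟨0, fun _ hξ => hξ.1.le⟩ ⟨by linarith,
        weak_of_low hc hs hi' hd he hexp β φ' hφ' h U hUo hhU hξ0 hξ' hξ⟩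
    exact ⟨le_antisymm hAS1 hAS2, fun p hp hp2 => le_antisymm (hM1 p hp hp2) (hM2 p hp), hchi,
      hLL, hup, hdn⟩

end

end Pool.Agent.Run7.h208.WT
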