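import Pool.Agent.Run7.h208.WT.Rec

/-!
# Directed polymers: the lower tail improves itself
-/

set_option autoImplicit false

open MeasureTheory ProbabilityTheory Filter Topology
open scoped ENNReal

namespace Pool.Agent.Run7.h208.WT

open TH967.DP
open Pool.Agent.N662.SE

variable {d : ℕ}

section
variable {Ω : Type} [mΩ : MeasurableSpace Ω] (P : Measure Ω) [IsProbabilityMeasure P]
  (ω : ℕ → (Fin d → ℤ) → Ω → ℝ)

/-- the exponential moment of the lower part, center `φ n` -/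
noncomputable def LL (β : ℝ) (h : Fin d → ℝ) (φ l : ℝ) (n : ℕ) : ℝ≥0∞ :=
  ∫⁻ x, EX (l * max (n * φ - lw ω β h 0 0 n x) 0) ∂P

variable {P ω}

lemma LL_mono (β : ℝ) (h : Fin d → ℝ) (φ : ℝ) {l l' : ℝ} (hl : l ≤ l') (n : ℕ) :
    LL P ω β h φ l n ≤ LL P ω β h φ l' n :=
  lintegral_mono fun _ => EX_mono (mul_le_mul_of_nonneg_right hl (le_max_right _ _))

lemma LL_le (β : ℝ) (h : Fin d → ℝ) (φ : ℝ) {l : ℝ} (n : ℕ) :
    LL P ω β h φ l n ≤ 1 + ∫⁻ x, EX (-l * (lw ω β h 0 0 n x - n * φ)) ∂P := by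
  unfold LL
  have h1 : (1 : ℝ≥0∞) = ∫⁻ _x, 1 ∂P := by
    rw [lintegral_const, measure_univ, mul_one]
  rw [h1, ← lintegral_add_left measurable_const]
  refine lintegral_mono fun x => ?_
  rcases le_total (n * φ - lw ω β h 0 0 n x) 0 with h2 | h2
  · rw [max_eq_right h2, mul_zero, EX_zero]
    exact le_self_add
  · rw [max_eq_left h2]
    refine le_trans (EX_mono (le_of_eq ?_)) le_add_self
    ring

/-- the lower moment along a chain, linear center -/
lemma low_step (hi' : S_ID) (hd : 1 ≤ d) (he : IsEnv P ω)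
    (hm : ∀ (β : ℝ) (h : Fin d → ℝ) (n : ℕ), Measurable (lw ω β h 0 0 n))
    (β : ℝ) (h : Fin d → ℝ) (φ : ℝ) {l : ℝ} (hl : 0 < l) (b : ℕ → ℕ) (k : ℕ) {γ : ℝ}
    (hγ : 0 ≤ γ) (hγ2 : (1 + γ) ^ k ≤ 11 / 10)
    (hL : ∀ j < k, ∫⁻ x, EX (-l * (lw ω β h 0 0 (b j) x - (b j) * φ)) ∂P ≤
      ENNReal.ofReal (1 + γ)) :
    LL P ω β h φ l (tt b k) ≤ ENNReal.ofReal 3 := by
  set N := tt b k with hN
  have hprod : ∏ _j ∈ Finset.range k, ENNReal.ofReal (1 + γ) ≤ ENNReal.ofReal (11 / 10) := by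
    rw [Finset.prod_const, Finset.card_range, ← ENNReal.ofReal_pow (by linarith)]
    exact ENNReal.ofReal_le_ofReal hγ2
  have h1 : ∀ (y : ℝ) (n : ℕ) (x : Ω), EX (-l * (lw ω β h 0 0 n x - y)) =
      EX (l * y) * EX (-l * lw ω β h 0 0 n x) := by
    intro y n x
    rw [← EX_add]
    congr 1
    ring
  have hS : (N : ℝ) * φ = ∑ j ∈ Finset.range k, (b j : ℝ) * φ := by
    rw [hN]
    unfold tt
    rw [Nat.cast_sum, Finset.sum_mul]
  have hV : ∫⁻ x, EX (-l * (lw ω β h 0 0 N x - N * φ)) ∂P ≤ ENNReal.ofReal (11 / 10) := by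
    simp_rw [h1 (N * φ) N]
    rw [lint_mul _ ((hm β h N).const_mul (-l))]
    calc EX (l * (N * φ)) * ∫⁻ x, EX (-l * lw ω β h 0 0 N x) ∂P
        ≤ EX (l * (N * φ)) * ∏ j ∈ Finset.range k, ∫⁻ x, EX (-l * lw ω β h 0 0 (b j) x) ∂P := by
          gcongr
          exact lo_chain hi' hd he β h hl.le b k
      _ = ∏ j ∈ Finset.range k, ∫⁻ x, EX (-l * (lw ω β h 0 0 (b j) x - (b j) * φ)) ∂P := by
          rw [hS, Finset.mul_sum, EX_sum, ← Finset.prod_mul_distrib]
          refine Finset.prod_congr rfl fun j _ => ?_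
          simp_rw [h1 ((b j) * φ) (b j)]
          rw [lint_mul _ ((hm β h (b j)).const_mul (-l))]
      _ ≤ ∏ _j ∈ Finset.range k, ENNReal.ofReal (1 + γ) :=
          Finset.prod_le_prod' fun j hj => hL j (Finset.mem_range.1 hj)
      _ ≤ _ := hprod
  calc LL P ω β h φ l N ≤ 1 + ∫⁻ x, EX (-l * (lw ω β h 0 0 N x - N * φ)) ∂P := LL_le β h φ N
    _ ≤ ENNReal.ofReal 1 + ENNReal.ofReal (11 / 10) := by
        rw [ENNReal.ofReal_one]
        gcongr
    _ = ENNReal.ofReal (1 + 11 / 10) := by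
        rw [← ENNReal.ofReal_add (by norm_num) (by norm_num)]
    _ ≤ _ := ENNReal.ofReal_le_ofReal (by norm_num)

/-- the base of the recursion -/
lemma low_base (hc : S_CONC) (hd : 1 ≤ d) (he : IsEnv P ω)
    (hexp : ∀ b : ℝ, Integrable (fun x => Real.exp (b * ω 1 0 x)) P) (β : ℝ) (h : Fin d → ℝ)
    (φ : ℝ) {l D : ℝ} (hl0 : 0 ≤ l) (hl1 : l ≤ 1 / 4) (n : ℕ) (hD : n * φ - free P ω β h n ≤ D)
    (hl : l * D + 16 * mom P ω β * l ^ 2 * n ≤ 1 / 3) :
    LL P ω β h φ l n ≤ ENNReal.ofReal 3 := by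
  obtain ⟨hm, -, -, hb⟩ := hc d hd Ω P ω he hexp β h 0 0 n
  have h2 := hb (-l) (by rw [abs_neg, abs_of_nonneg hl0]; exact hl1)
  rw [neg_sq] at h2
  have h3 : Real.exp (l * D + 16 * mom P ω β * l ^ 2 * n) ≤ 3 / 2 := by
    refine (Real.exp_le_exp.2 hl).trans ?_
    have h3 := Real.add_one_le_exp (-(1 / 3 : ℝ))
    have h4 : Real.exp (1 / 3) * Real.exp (-(1 / 3)) = 1 := by
      rw [← Real.exp_add]; norm_num
    have h5 := Real.exp_pos (1 / 3 : ℝ)
    nlinarith
  set F := free P ω β h n with hF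
  have h4 : ∫⁻ x, EX (-l * (lw ω β h 0 0 n x - n * φ)) ∂P ≤
      ENNReal.ofReal (Real.exp (l * D + 16 * mom P ω β * l ^ 2 * n)) := by
    calc ∫⁻ x, EX (-l * (lw ω β h 0 0 n x - n * φ)) ∂P
        = ∫⁻ x, EX (l * (n * φ - F)) * EX (-l * (lw ω β h 0 0 n x - F)) ∂P := by
          refine lintegral_congr fun x => ?_
          rw [← EX_add]
          congr 1
          ring
      _ = EX (l * (n * φ - F)) * ∫⁻ x, EX (-l * (lw ω β h 0 0 n x - F)) ∂P :=
          lint_mul _ ((hm.sub_const F).const_mul (-l))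
      _ ≤ EX (l * D) * ENNReal.ofReal (Real.exp (16 * mom P ω β * l ^ 2 * n)) := by
          gcongr
          · exact EX_mono (mul_le_mul_of_nonneg_left hD hl0)
          · exact h2
      _ = _ := by
          rw [Real.exp_add, ENNReal.ofReal_mul (Real.exp_pos _).le]
          rfl
  calc LL P ω β h φ l n ≤ 1 + ∫⁻ x, EX (-l * (lw ω β h 0 0 n x - n * φ)) ∂P := LL_le β h φ n
    _ ≤ ENNReal.ofReal 1 + ENNReal.ofReal (3 / 2) := by
        rw [ENNReal.ofReal_one]
        gcongr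
        exact h4.trans (ENNReal.ofReal_le_ofReal h3)
    _ = ENNReal.ofReal (1 + 3 / 2) := by
        rw [← ENNReal.ofReal_add (by norm_num) (by norm_num)]
    _ ≤ _ := ENNReal.ofReal_le_ofReal (by norm_num)

lemma free_ge (hs : S_SUP) (hd : 1 ≤ d) (he : IsEnv P ω)
    (hexp : ∀ b : ℝ, Integrable (fun x => Real.exp (b * ω 1 0 x)) P) (β : ℝ) (h : Fin d → ℝ)
    (n : ℕ) : n * free P ω β h 1 ≤ free P ω β h n := by
  have h1 := sup_chain hs hd he hexp β h (fun _ => 1) n
  simpa [tt] using h1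

/-- if deviations below `φ n` at scale `n^ξ` are unlikely then the lower tail is exponential on
every larger scale -/
theorem low_conc (hc : S_CONC) (hi' : S_ID) (hs : S_SUP) (hd : 1 ≤ d) (he : IsEnv P ω)
    (hexp : ∀ b : ℝ, Integrable (fun x => Real.exp (b * ω 1 0 x)) P) (β : ℝ)
    (U : Set (Fin d → ℝ)) (φ : (Fin d → ℝ) → ℝ) {ξ ζ D0 : ℝ}
    (hD0 : ∀ h ∈ U, φ h - free P ω β h 1 ≤ D0) (hξ : 0 < ξ) (hζ : ξ < ζ)
    (H : ∀ ε : ℝ, 0 < ε → ∃ N : ℕ, ∀ n : ℕ, N ≤ n → ∀ h ∈ U,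
      P.real {x | lw ω β h 0 0 n x ≤ n * φ h - (n : ℝ) ^ ξ} ≤ ε) :
    ∃ α : ℝ, 0 < α ∧ ∀ h ∈ U, ∀ n : ℕ, 1 ≤ n →
      LL P ω β h (φ h) (α * (n : ℝ) ^ (-ζ)) n ≤ ENNReal.ofReal 3 := by
  obtain ⟨m, p, η, γ, hm0, hp2, hγ0, hγ1, hnum0⟩ :=
    numer 0 hξ hζ (q := 1) (by norm_num) (le_refl (0 : ℝ))
  set K : ℝ := 9 / γ with hK
  have hK0 : 0 < K := by positivity
  obtain ⟨Nb, hNb⟩ := H (γ / 3 * Real.exp (-K)) (by positivity)
  obtain ⟨n0, hnum⟩ := hnum0 Nb
  have hp1 : 1 ≤ p := by linarith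
  have hζ0 : 0 < ζ := by linarith
  set M := mom P ω β with hM
  have hM0 : 0 ≤ M := mom_nonneg β
  set D : ℝ := |D0| with hD
  have hDn : 0 ≤ D := abs_nonneg _
  set α : ℝ := min (1 / 4) (1 / (48 * (M + D + 1) * (n0 + 1))) with hα
  have hden : (0 : ℝ) < 48 * (M + D + 1) * (n0 + 1) := by positivity
  have hα0 : 0 < α := lt_min (by norm_num) (by positivity)
  have hα1 : α ≤ 1 / 4 := min_le_left _ _
  have hα2 : α * (48 * (M + D + 1) * (n0 + 1)) ≤ 1 := by
    have h1 : α ≤ 1 / (48 * (M + D + 1) * (n0 + 1)) := min_le_right _ _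
    rwa [le_div_iff₀ hden] at h1
  refine ⟨α, hα0, ?_⟩
  have hmm : ∀ (β : ℝ) (h : Fin d → ℝ) (n : ℕ), Measurable (lw ω β h 0 0 n) :=
    fun β h n => (hc d hd Ω P ω he hexp β h 0 0 n).1
  intro h hh n
  have hDh : φ h - free P ω β h 1 ≤ D := (hD0 h hh).trans (le_abs_self _)
  have hNb' : ∀ n : ℕ, Nb ≤ n → P.real {x | lw ω β h 0 0 n x ≤ n * φ h - (n : ℝ) ^ ξ} ≤
      γ / 3 * Real.exp (-K) := fun n hn => hNb n hn h hh
  generalize φ h = φ0 at hDh hNb' ⊢
  induction n using Nat.strong_induction_on with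
  | _ n ih =>
    intro hn
    have hnR : (1 : ℝ) ≤ n := by exact_mod_cast hn
    have hn0' : (0 : ℝ) < n := by linarith
    set l : ℝ := α * (n : ℝ) ^ (-ζ) with hl
    have hl0 : 0 < l := mul_pos hα0 (Real.rpow_pos_of_pos hn0' _)
    have hl1 : l ≤ α := by
      have : (n : ℝ) ^ (-ζ) ≤ 1 := Real.rpow_le_one_of_one_le_of_nonpos hnR (by linarith)
      calc l ≤ α * 1 := mul_le_mul_of_nonneg_left this hα0.le
        _ = α := mul_one α
    rcases lt_or_ge n n0 with hlt | hge
    · have h1 : (n : ℝ) ≤ n0 := by exact_mod_cast hlt.le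
      apply low_base hc hd he hexp β h φ0 (D := D * n0) hl0.le (hl1.trans hα1) n
      · have h2 := free_ge hs hd he hexp β h n
        have h3 : (n : ℝ) * (φ0 - free P ω β h 1) ≤ n * D :=
          mul_le_mul_of_nonneg_left hDh hn0'.le
        nlinarith
      · have h2 : l ^ 2 ≤ α := by nlinarith
        rw [← hM]
        have h3 : (0 : ℝ) ≤ n0 := Nat.cast_nonneg _
        calc l * (D * n0) + 16 * M * l ^ 2 * n
            ≤ α * (D * (n0 + 1)) + 16 * M * α * (n0 + 1) := by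
              gcongr <;> linarith
          _ ≤ 16 * (M + D + 1) * α * (n0 + 1) := by
              have h4 : 0 ≤ α * (n0 + 1) := by positivity
              have h5 : 0 ≤ D * (α * (n0 + 1)) := by positivity
              nlinarith
          _ = α * (48 * (M + D + 1) * (n0 + 1)) / 3 := by ring
          _ ≤ 1 / 3 := by linarith
    · have e : tt (bl n m) m = n := tt_bl n m hm0
      have hst := low_step hi' hd he hmm β h φ0 hl0 (bl n m) m hγ0.le hγ1
      rw [e] at hst
      refine hst (fun j hj => ?_)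
      obtain ⟨b0, b1, b2, b3, b4⟩ := hnum n hge α hα0 (by linarith) j hj
      set b := bl n m j with hb
      have hbpos : (0 : ℝ) < b := by exact_mod_cast b1
      have hIH := ih b b2 b1
      have hls : l * (K / l) = K := by field_simp
      have t1 := low_le (P := P) (X := fun x => lw ω β h 0 0 b x - b * φ0)
        (Y := fun x => max (b * φ0 - lw ω β h 0 0 b x) 0) ((hmm β h b).sub_const (b * φ0))
        (((hmm β h b).const_sub (b * φ0)).max measurable_const)
        (fun x => by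
          have := le_max_left (b * φ0 - lw ω β h 0 0 b x) 0
          linarith) hl0.le hp1 ((b : ℝ) ^ ξ) (K / l)
      rw [hls] at t1
      refine t1.trans ?_
      have t2 : EX (l * (b : ℝ) ^ ξ) ≤ ENNReal.ofReal (1 + γ / 3) := by
        apply ENNReal.ofReal_le_ofReal
        have hnn : (0 : ℝ) ≤ (2 * (n : ℝ) + 1) ^ 0 * ((b : ℝ) ^ η * (0 * (b : ℝ) ^ (-(1:ℝ))) +
            (b : ℝ) ^ (-((p - 1) * η)) * 3) := by positivity
        rw [← hl] at b4
        linarith
      have t3 : P {x | lw ω β h 0 0 b x - b * φ0 < -(b : ℝ) ^ ξ} ≤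
          ENNReal.ofReal (γ / 3 * Real.exp (-K)) := by
        rw [← ofReal_measureReal (measure_ne_top _ _)]
        apply ENNReal.ofReal_le_ofReal
        refine (measureReal_mono (fun x hx => ?_) (measure_ne_top _ _)).trans (hNb' b b0)
        have h2 : lw ω β h 0 0 b x - b * φ0 < -(b : ℝ) ^ ξ := hx
        show lw ω β h 0 0 b x ≤ b * φ0 - (b : ℝ) ^ ξ
        linarith
      have t4 : ∫⁻ x, EX (p * l * max (b * φ0 - lw ω β h 0 0 b x) 0) ∂P ≤ ENNReal.ofReal 3 :=
        (LL_mono β h φ0 b3 b).trans hIH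
      have t5 : EX (-((p - 1) * K)) ≤ ENNReal.ofReal (γ / 9) := by
        apply ENNReal.ofReal_le_ofReal
        have h1 : Real.exp (-((p - 1) * K)) ≤ Real.exp (-K) := by
          apply Real.exp_le_exp.2
          nlinarith
        have h2 : K < Real.exp K := by
          have := Real.add_one_le_exp K
          linarith
        refine h1.trans ?_
        have h3 : Real.exp (-K) * Real.exp K = 1 := by
          rw [← Real.exp_add, neg_add_cancel, Real.exp_zero]
        have h4 : Real.exp (-K) * K ≤ 1 := by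
          rw [← h3]
          exact mul_le_mul_of_nonneg_left h2.le (Real.exp_pos _).le
        have h5 : Real.exp (-K) ≤ 1 / K := by
          rw [le_div_iff₀ hK0]
          exact h4
        refine h5.trans (le_of_eq ?_)
        rw [hK]
        field_simp
      have t6 : EX K * P {x | lw ω β h 0 0 b x - b * φ0 < -(b : ℝ) ^ ξ} ≤
          ENNReal.ofReal (γ / 3) := by
        calc _ ≤ EX K * ENNReal.ofReal (γ / 3 * Real.exp (-K)) := by gcongr
          _ = ENNReal.ofReal (Real.exp K * (γ / 3 * Real.exp (-K))) := by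
              unfold EX
              rw [ENNReal.ofReal_mul (Real.exp_pos _).le]
          _ = ENNReal.ofReal (γ / 3) := by
              congr 1
              rw [mul_left_comm, ← Real.exp_add, add_neg_cancel, Real.exp_zero, mul_one]
      have t7 : EX (-((p - 1) * K)) *
          ∫⁻ x, EX (p * l * max (b * φ0 - lw ω β h 0 0 b x) 0) ∂P ≤ ENNReal.ofReal (γ / 3) := by
        calc _ ≤ ENNReal.ofReal (γ / 9) * ENNReal.ofReal 3 := by gcongr
          _ = ENNReal.ofReal (γ / 9 * 3) := by rw [ENNReal.ofReal_mul (by positivity)]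
          _ = _ := by
              congr 1
              ring
      calc _ ≤ ENNReal.ofReal (1 + γ / 3) + (ENNReal.ofReal (γ / 3) +
            ENNReal.ofReal (γ / 3)) := add_le_add t2 (add_le_add t6 t7)
        _ = ENNReal.ofReal (1 + γ) := by
            rw [← ENNReal.ofReal_add (by positivity) (by positivity),
              ← ENNReal.ofReal_add (by positivity) (by positivity)]
            congr 1
            ring

/-- the first moment of the lower part -/
lemma low_mom (hm : ∀ (β : ℝ) (h : Fin d → ℝ) (n : ℕ), Measurable (lw ω β h 0 0 n))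
    (hint : ∀ (β : ℝ) (h : Fin d → ℝ) (n : ℕ), Integrable (lw ω β h 0 0 n) P)
    (β : ℝ) (h : Fin d → ℝ) (φ : ℝ) {l : ℝ} (hl : 0 < l) (n : ℕ)
    (H : LL P ω β h φ l n ≤ ENNReal.ofReal 3) :
    ∫ x, max (n * φ - lw ω β h 0 0 n x) 0 ∂P ≤ 3 / l := by
  have hY : Measurable fun x => max (n * φ - lw ω β h 0 0 n x) 0 :=
    ((hm β h n).const_sub (n * φ)).max measurable_const
  have hYi : Integrable (fun x => max (n * φ - lw ω β h 0 0 n x) 0) P :=
    ((integrable_const (n * φ)).sub (hint β h n)).pos_part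
  have hmeas : Measurable fun x => Real.exp (l * max (n * φ - lw ω β h 0 0 n x) 0) :=
    Real.measurable_exp.comp (hY.const_mul l)
  have hi1 : Integrable (fun x => Real.exp (l * max (n * φ - lw ω β h 0 0 n x) 0)) P := by
    refine ⟨hmeas.aestronglyMeasurable, ?_⟩
    rw [hasFiniteIntegral_iff_ofReal (Eventually.of_forall fun x => (Real.exp_pos _).le)]
    exact lt_of_le_of_lt H ENNReal.ofReal_lt_top
  have h2 : ∫ x, Real.exp (l * max (n * φ - lw ω β h 0 0 n x) 0) ∂P ≤ 3 := by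
    rw [integral_eq_lintegral_of_nonneg_ae (Eventually.of_forall fun x => (Real.exp_pos _).le)
      hmeas.aestronglyMeasurable]
    exact ENNReal.toReal_le_of_le_ofReal (by norm_num) H
  have h3 : ∫ x, l * max (n * φ - lw ω β h 0 0 n x) 0 ∂P ≤
      ∫ x, Real.exp (l * max (n * φ - lw ω β h 0 0 n x) 0) ∂P :=
    integral_mono (hYi.const_mul l) hi1 fun x => by
      have := Real.add_one_le_exp (l * max (n * φ - lw ω β h 0 0 n x) 0)
      show l * max (n * φ - lw ω β h 0 0 n x) 0 ≤ _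
      linarith
  rw [integral_const_mul] at h3
  rw [le_div_iff₀ hl, mul_comm]
  linarith

/-- centering -/
lemma low_cent (hint : ∀ (β : ℝ) (h : Fin d → ℝ) (n : ℕ), Integrable (lw ω β h 0 0 n) P)
    (β : ℝ) (h : Fin d → ℝ) (φ : ℝ) (n : ℕ) {B : ℝ}
    (hB : ∫ x, max (n * φ - lw ω β h 0 0 n x) 0 ∂P ≤ B) :
    n * φ - free P ω β h n ≤ B ∧
      ∫ x, |lw ω β h 0 0 n x - n * φ| ∂P ≤ 2 * B + (free P ω β h n - n * φ) := by
  have hYi : Integrable (fun x => max (n * φ - lw ω β h 0 0 n x) 0) P :=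
    ((integrable_const (n * φ)).sub (hint β h n)).pos_part
  have hX : Integrable (fun x => n * φ - lw ω β h 0 0 n x) P :=
    (integrable_const (n * φ)).sub (hint β h n)
  have h1 : ∫ x, (n * φ - lw ω β h 0 0 n x) ∂P = n * φ - free P ω β h n := by
    rw [integral_sub (integrable_const _) (hint β h n)]
    simp [free]
  constructor
  · rw [← h1]
    exact (integral_mono hX hYi fun x => le_max_left _ _).trans hB
  · have h2 : ∀ x, |lw ω β h 0 0 n x - n * φ| =
        2 * max (n * φ - lw ω β h 0 0 n x) 0 - (n * φ - lw ω β h 0 0 n x) := by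
      intro x
      rcases le_total (n * φ - lw ω β h 0 0 n x) 0 with h3 | h3
      · rw [max_eq_right h3, abs_of_nonneg (by linarith)]
        ring
      · rw [max_eq_left h3, abs_of_nonpos (by linarith)]
        ring
    simp_rw [h2]
    rw [integral_sub (hYi.const_mul 2) hX, integral_const_mul, h1]
    linarith

end

end Pool.Agent.Run7.h208.WT
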