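import Pool.Agent.Run7.h208.WT.End2
import Pool.Agent.N523.SE.MGF

/-!
# Directed polymers: weak tails, moments, end point
-/

set_option autoImplicit false

open MeasureTheory ProbabilityTheory Filter Topology
open scoped ENNReal

namespace Pool.Agent.Run7.h208.WT

open TH967.DP
open Pool.Agent.N662.SE

variable {d : ℕ}

/-- The deviations of `log Z_n` below `n φ(h)` of size `n^ξ` become unlikely, uniformly for the
drifts `h ∈ U`: `sup_{h ∈ U} P (log Z_n ≤ n φ(h) - n^ξ) → 0`. -/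
def LowTail {Ω : Type} [MeasurableSpace Ω] (P : Measure Ω) (ω : ℕ → (Fin d → ℤ) → Ω → ℝ) (β : ℝ)
    (φ : (Fin d → ℝ) → ℝ) (U : Set (Fin d → ℝ)) (ξ : ℝ) : Prop :=
  ∀ ε : ℝ, 0 < ε → ∃ N : ℕ, ∀ n : ℕ, N ≤ n → ∀ h ∈ U,
    P.real {x | logZ β h (fun i y => ω i y x) n ≤ n * φ h - (n : ℝ) ^ ξ} ≤ ε

/-- Weak tails on the scale `n^ξ` near the drift `h`: for some neighbourhood `U` of `h`,
`P (log Z_n - E log Z_n ≥ n^ξ) ≤ C n^(-q)` for all drifts in `U` and all `n ≥ 1`, for some `C` and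
some `q > d`, and `P (log Z_n - E log Z_n ≤ -n^ξ) → 0` uniformly for the drifts in `U`. -/
def WeakTails {Ω : Type} [MeasurableSpace Ω] (P : Measure Ω) (ω : ℕ → (Fin d → ℤ) → Ω → ℝ)
    (β : ℝ) (h : Fin d → ℝ) (ξ : ℝ) : Prop :=
  ∃ U : Set (Fin d → ℝ), IsOpen U ∧ h ∈ U ∧
    (∃ q C : ℝ, (d : ℝ) < q ∧ ∀ h' ∈ U, ∀ n : ℕ, 1 ≤ n →
      P.real {x | (n : ℝ) ^ ξ ≤ logZ β h' (fun i y => ω i y x) n -
        ∫ x', logZ β h' (fun i y => ω i y x') n ∂P} ≤ C * (n : ℝ) ^ (-q)) ∧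
    ∀ ε : ℝ, 0 < ε → ∃ N : ℕ, ∀ n : ℕ, N ≤ n → ∀ h' ∈ U,
      P.real {x | logZ β h' (fun i y => ω i y x) n -
        ∫ x', logZ β h' (fun i y => ω i y x') n ∂P ≤ -(n : ℝ) ^ ξ} ≤ ε

/-- The moments of order `p` are at most of the order `n^(p u)` near the drift `h`: for some
neighbourhood `U` of `h` and some `C`, `E |log Z_n - E log Z_n|^p ≤ C n^(p u)` for all drifts in `U`
and all `n ≥ 1`. -/
def Moments {Ω : Type} [MeasurableSpace Ω] (P : Measure Ω) (ω : ℕ → (Fin d → ℤ) → Ω → ℝ)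
    (β : ℝ) (h : Fin d → ℝ) (p u : ℝ) : Prop :=
  ∃ U : Set (Fin d → ℝ), IsOpen U ∧ h ∈ U ∧ ∃ C : ℝ, ∀ h' ∈ U, ∀ n : ℕ, 1 ≤ n →
    ∫⁻ x, ENNReal.ofReal (|logZ β h' (fun i y => ω i y x) n -
      ∫ x', logZ β h' (fun i y => ω i y x') n ∂P| ^ p) ∂P ≤ ENNReal.ofReal (C * (n : ℝ) ^ (p * u))

section
variable {Ω : Type} [mΩ : MeasurableSpace Ω] {P : Measure Ω} [IsProbabilityMeasure P]
  {ω : ℕ → (Fin d → ℤ) → Ω → ℝ}

/-- weak tails imply concentration -/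
theorem conc_of_weak (hc : S_CONC) (hi' : S_ID) (hs : S_SUP) (hd : 1 ≤ d) (he : IsEnv P ω)
    (hexp : ∀ b : ℝ, Integrable (fun x => Real.exp (b * ω 1 0 x)) P) {β : ℝ} {h : Fin d → ℝ}
    {ξ ζ : ℝ} (hξ : 0 < ξ) (hζ : ξ < ζ) (H : WeakTails P ω β h ξ) : Concentrated P ω β h ζ := by
  rw [concentrated_iff hd fun h n => (hc d hd Ω P ω he hexp β h 0 0 n).2.1]
  obtain ⟨U, hUo, hhU, ⟨q, C, hq, HU⟩, HL⟩ := H
  have hint : ∀ (h : Fin d → ℝ) (n : ℕ), Integrable (lw ω β h 0 0 n) P := fun h n =>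
    (hc d hd Ω P ω he hexp β h 0 0 n).2.1
  simp_rw [logZ_sub hd (hint _ _)] at HU HL
  obtain ⟨α, hα, hC⟩ := weak_conc hc hi' hs hd he hexp β U hξ hζ hq HU HL
  exact ⟨U, hUo, hhU, α, 3, hα, hC⟩

lemma exp_small {α c q : ℝ} (hα : 0 < α) (hc : 0 < c) : ∃ K : ℝ, 0 ≤ K ∧ ∀ n : ℕ, 1 ≤ n →
    Real.exp (-(α * (n : ℝ) ^ c)) ≤ K * (n : ℝ) ^ (-q) := by
  have h1 : Tendsto (fun n : ℕ => ((n : ℝ) ^ c) ^ (q / c) * Real.exp (-α * (n : ℝ) ^ c)) atTop
      (𝓝 0) :=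
    (tendsto_rpow_mul_exp_neg_mul_atTop_nhds_zero (q / c) α hα).comp
      ((tendsto_rpow_atTop hc).comp tendsto_natCast_atTop_atTop)
  obtain ⟨K, hK⟩ := h1.bddAbove_range
  refine ⟨|K|, abs_nonneg K, fun n hn => ?_⟩
  have hn0 : (0 : ℝ) < n := by exact_mod_cast hn
  have h2 : ((n : ℝ) ^ c) ^ (q / c) * Real.exp (-α * (n : ℝ) ^ c) ≤ K := hK ⟨n, rfl⟩
  have h3 : ((n : ℝ) ^ c) ^ (q / c) = (n : ℝ) ^ q := by
    rw [← Real.rpow_mul hn0.le]
    congr 1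
    field_simp
  rw [h3] at h2
  have h4 : (n : ℝ) ^ (-q) * (n : ℝ) ^ q = 1 := by
    rw [← Real.rpow_add hn0, neg_add_cancel, Real.rpow_zero]
  have h5 : (0 : ℝ) < (n : ℝ) ^ (-q) := Real.rpow_pos_of_pos hn0 _
  calc Real.exp (-(α * (n : ℝ) ^ c)) =
        ((n : ℝ) ^ q * Real.exp (-α * (n : ℝ) ^ c)) * (n : ℝ) ^ (-q) := by
        rw [mul_right_comm, mul_comm ((n : ℝ) ^ q), h4, one_mul]
        congr 1
        ring
    _ ≤ |K| * (n : ℝ) ^ (-q) := mul_le_mul_of_nonneg_right (h2.trans (le_abs_self K)) h5.le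

/-- concentration implies weak tails -/
theorem weak_of_conc (hc : S_CONC) (hi' : S_ID) (hd : 1 ≤ d) (he : IsEnv P ω)
    (hexp : ∀ b : ℝ, Integrable (fun x => Real.exp (b * ω 1 0 x)) P) {β : ℝ} {h : Fin d → ℝ}
    {ξ ζ : ℝ} (hξ : 0 < ξ) (hζ : ξ < ζ) (H : Concentrated P ω β h ξ) : WeakTails P ω β h ζ := by
  have hint : ∀ (h : Fin d → ℝ) (n : ℕ), Integrable (lw ω β h 0 0 n) P := fun h n =>
    (hc d hd Ω P ω he hexp β h 0 0 n).2.1
  rw [concentrated_iff hd fun h n => (hc d hd Ω P ω he hexp β h 0 0 n).2.1] at H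
  obtain ⟨U, hUo, hhU, α, C0, hα, hC⟩ := H
  obtain ⟨K, hK0, hK⟩ := exp_small (q := (d : ℝ) + 1) hα (by linarith : 0 < ζ - ξ)
  have key : ∀ h' ∈ U, ∀ n : ℕ, 1 ≤ n →
      P.real {x | (n : ℝ) ^ ζ ≤ |lw ω β h' 0 0 n x - free P ω β h' n|} ≤
        |C0| * K * (n : ℝ) ^ (-((d : ℝ) + 1)) := by
    intro h' hh' n hn
    have h1 := Pool.Agent.N427.SE.UPX.testX hc hi' hd P ω he hexp β hξ hα hC ζ n hn h' hh' 0 0 n
      le_rfl
    have h2 : P.real {x | (n : ℝ) ^ ζ ≤ |lw ω β h' 0 0 n x - free P ω β h' n|} ≤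
        |C0| * Real.exp (-(α * (n : ℝ) ^ (ζ - ξ))) :=
      ENNReal.toReal_le_of_le_ofReal (by positivity) h1
    refine h2.trans ?_
    rw [mul_assoc]
    exact mul_le_mul_of_nonneg_left (hK n hn) (abs_nonneg _)
  refine ⟨U, hUo, hhU, ⟨(d : ℝ) + 1, |C0| * K, by linarith, fun h' hh' n hn => ?_⟩,
    fun ε hε => ?_⟩
  · simp_rw [logZ_sub hd (hint _ _)]
    refine (measureReal_mono (fun x hx => ?_) (measure_ne_top _ _)).trans (key h' hh' n hn)
    have h2 : (n : ℝ) ^ ζ ≤ lw ω β h' 0 0 n x - free P ω β h' n := hx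
    exact h2.trans (le_abs_self _)
  · have h1 : Tendsto (fun n : ℕ => |C0| * K * (n : ℝ) ^ (-((d : ℝ) + 1))) atTop
        (𝓝 (|C0| * K * 0)) :=
      ((tendsto_rpow_neg_atTop (by positivity)).comp tendsto_natCast_atTop_atTop).const_mul _
    rw [mul_zero] at h1
    obtain ⟨N, hN⟩ := eventually_atTop.1 ((h1.eventually (ge_mem_nhds hε)).and
      (eventually_ge_atTop 1))
    refine ⟨N, fun n hn h' hh' => ?_⟩
    simp_rw [logZ_sub hd (hint _ _)]
    refine (measureReal_mono (fun x hx => ?_) (measure_ne_top _ _)).trans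
      ((key h' hh' n (hN n hn).2).trans (hN n hn).1)
    have h2 : lw ω β h' 0 0 n x - free P ω β h' n ≤ -(n : ℝ) ^ ζ := hx
    show (n : ℝ) ^ ζ ≤ |lw ω β h' 0 0 n x - free P ω β h' n|
    rw [le_abs]
    right
    linarith

/-- the upper fluctuation exponent is the exponent of the weak tails -/
theorem chiUp_eq (hc : S_CONC) (hi' : S_ID) (hs : S_SUP) (hd : 1 ≤ d) (he : IsEnv P ω)
    (hexp : ∀ b : ℝ, Integrable (fun x => Real.exp (b * ω 1 0 x)) P) (β : ℝ) (h : Fin d → ℝ) :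
    chiUp P ω β h = sInf {ξ : ℝ | 0 < ξ ∧ WeakTails P ω β h ξ} := by
  have hb1 : BddBelow {ξ : ℝ | 0 < ξ ∧ WeakTails P ω β h ξ} := ⟨0, fun _ hξ => hξ.1.le⟩
  have hb2 : BddBelow {ξ : ℝ | 0 < ξ ∧ Concentrated P ω β h ξ} := ⟨0, fun _ hξ => hξ.1.le⟩
  have hhalf := concentrated_half hc hd he hexp β h
  apply le_antisymm
  · apply le_csInf
    · exact ⟨1, one_pos, weak_of_conc hc hi' hd he hexp (by norm_num) (by norm_num) hhalf⟩
    rintro ξ ⟨hξ0, hξ⟩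
    apply le_of_forall_gt_imp_ge_of_dense
    intro ζ hζ
    exact csInf_le hb2 ⟨by linarith, conc_of_weak hc hi' hs hd he hexp hξ0 hζ hξ⟩
  · apply le_csInf
    · exact ⟨1 / 2, by norm_num, hhalf⟩
    rintro ξ ⟨hξ0, hξ⟩
    apply le_of_forall_gt_imp_ge_of_dense
    intro ζ hζ
    exact csInf_le hb1 ⟨by linarith, weak_of_conc hc hi' hd he hexp hξ0 hζ hξ⟩

/-- moments give weak tails -/
theorem weak_of_moments (hc : S_CONC) (hd : 1 ≤ d) (he : IsEnv P ω)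
    (hexp : ∀ b : ℝ, Integrable (fun x => Real.exp (b * ω 1 0 x)) P) {β : ℝ} {h : Fin d → ℝ}
    {p u ξ : ℝ} (hp : 0 < p) (hξ : u + d / p < ξ) (H : Moments P ω β h p u) :
    WeakTails P ω β h ξ := by
  obtain ⟨U, hUo, hhU, C, hC⟩ := H
  have hint : ∀ (h : Fin d → ℝ) (n : ℕ), Integrable (lw ω β h 0 0 n) P := fun h n =>
    (hc d hd Ω P ω he hexp β h 0 0 n).2.1
  simp_rw [logZ_sub hd (hint _ _)] at hC
  have hq : (d : ℝ) < p * (ξ - u) := by
    have h1 : (d : ℝ) / p < ξ - u := by linarith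
    rw [div_lt_iff₀ hp] at h1
    linarith
  have hq0 : 0 < p * (ξ - u) := lt_of_le_of_lt (Nat.cast_nonneg d) hq
  have key : ∀ h' ∈ U, ∀ n : ℕ, 1 ≤ n →
      P.real {x | (n : ℝ) ^ ξ ≤ |lw ω β h' 0 0 n x - free P ω β h' n|} ≤
        |C| * (n : ℝ) ^ (-(p * (ξ - u))) := by
    intro h' hh' n hn
    have hn0 : (0 : ℝ) < n := by exact_mod_cast hn
    have hm : Measurable (lw ω β h' 0 0 n) := (hc d hd Ω P ω he hexp β h' 0 0 n).1
    have hm2 : Measurable fun x =>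
        ENNReal.ofReal (|lw ω β h' 0 0 n x - free P ω β h' n| ^ p) :=
      ((measurable_norm.comp (hm.sub_const _)).pow_const p).ennreal_ofReal
    have hpos : (0 : ℝ) < ((n : ℝ) ^ ξ) ^ p := Real.rpow_pos_of_pos (Real.rpow_pos_of_pos hn0 _) _
    have h1 : P {x | (n : ℝ) ^ ξ ≤ |lw ω β h' 0 0 n x - free P ω β h' n|} ≤
        ENNReal.ofReal (|C| * (n : ℝ) ^ (-(p * (ξ - u)))) := by
      have hsub : {x | (n : ℝ) ^ ξ ≤ |lw ω β h' 0 0 n x - free P ω β h' n|} ⊆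
          {x | ENNReal.ofReal (((n : ℝ) ^ ξ) ^ p) ≤
            ENNReal.ofReal (|lw ω β h' 0 0 n x - free P ω β h' n| ^ p)} := by
        intro x hx
        have hx' : (n : ℝ) ^ ξ ≤ |lw ω β h' 0 0 n x - free P ω β h' n| := hx
        show ENNReal.ofReal (((n : ℝ) ^ ξ) ^ p) ≤
            ENNReal.ofReal (|lw ω β h' 0 0 n x - free P ω β h' n| ^ p)
        exact ENNReal.ofReal_le_ofReal
          (Real.rpow_le_rpow (Real.rpow_nonneg hn0.le _) hx' hp.le)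
      refine (measure_mono hsub).trans ?_
      refine (meas_ge_le_lintegral_div hm2.aemeasurable (ENNReal.ofReal_pos.2 hpos).ne'
        ENNReal.ofReal_ne_top).trans ?_
      refine (ENNReal.div_le_div_right ((hC h' hh' n hn).trans (ENNReal.ofReal_le_ofReal
        (mul_le_mul_of_nonneg_right (le_abs_self C) (Real.rpow_nonneg hn0.le _)))) _).trans ?_
      rw [← ENNReal.ofReal_div_of_pos hpos]
      apply ENNReal.ofReal_le_ofReal
      apply le_of_eq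
      rw [← Real.rpow_mul hn0.le, mul_div_assoc, ← Real.rpow_sub hn0]
      congr 2
      ring
    exact ENNReal.toReal_le_of_le_ofReal (by positivity) h1
  refine ⟨U, hUo, hhU, ⟨p * (ξ - u), |C|, hq, fun h' hh' n hn => ?_⟩, fun ε hε => ?_⟩
  · simp_rw [logZ_sub hd (hint _ _)]
    refine (measureReal_mono (fun x hx => ?_) (measure_ne_top _ _)).trans (key h' hh' n hn)
    have h2 : (n : ℝ) ^ ξ ≤ lw ω β h' 0 0 n x - free P ω β h' n := hx
    exact h2.trans (le_abs_self _)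
  · have h1 : Tendsto (fun n : ℕ => |C| * (n : ℝ) ^ (-(p * (ξ - u)))) atTop
        (𝓝 (|C| * 0)) :=
      ((tendsto_rpow_neg_atTop hq0).comp tendsto_natCast_atTop_atTop).const_mul _
    rw [mul_zero] at h1
    obtain ⟨N, hN⟩ := eventually_atTop.1 ((h1.eventually (ge_mem_nhds hε)).and
      (eventually_ge_atTop 1))
    refine ⟨N, fun n hn h' hh' => ?_⟩
    simp_rw [logZ_sub hd (hint _ _)]
    refine (measureReal_mono (fun x hx => ?_) (measure_ne_top _ _)).trans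
      ((key h' hh' n (hN n hn).2).trans (hN n hn).1)
    have h2 : lw ω β h' 0 0 n x - free P ω β h' n ≤ -(n : ℝ) ^ ξ := hx
    show (n : ℝ) ^ ξ ≤ |lw ω β h' 0 0 n x - free P ω β h' n|
    rw [le_abs]
    right
    linarith

/-- moments bound the exponent -/
theorem chiUp_le_moments (hc : S_CONC) (hi' : S_ID) (hs : S_SUP) (hd : 1 ≤ d) (he : IsEnv P ω)
    (hexp : ∀ b : ℝ, Integrable (fun x => Real.exp (b * ω 1 0 x)) P) {β : ℝ} {h : Fin d → ℝ}
    {p u : ℝ} (hp : 0 < p) (hu : 0 ≤ u) (H : Moments P ω β h p u) :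
    chiUp P ω β h ≤ u + d / p := by
  rw [chiUp_eq hc hi' hs hd he hexp β h]
  apply le_of_forall_gt_imp_ge_of_dense
  intro ξ hξ
  have h0 : (0 : ℝ) ≤ d / p := by positivity
  exact csInf_le ⟨0, fun _ hξ => hξ.1.le⟩ ⟨by linarith, weak_of_moments hc hd he hexp hp hξ H⟩

lemma rpow_le_exp {p : ℝ} (hp : 0 < p) : ∃ K : ℝ, 0 ≤ K ∧ ∀ y : ℝ, 0 ≤ y →
    y ^ p ≤ K * Real.exp y := by
  refine ⟨1 + (⌈p⌉₊).factorial, by positivity, fun y hy => ?_⟩
  have h1 : y ^ p ≤ 1 + y ^ ⌈p⌉₊ := by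
    rcases le_total y 1 with h | h
    · have h2 : y ^ p ≤ 1 := Real.rpow_le_one hy h hp.le
      have h3 : 0 ≤ y ^ ⌈p⌉₊ := by positivity
      linarith
    · have h2 : y ^ p ≤ y ^ (⌈p⌉₊ : ℝ) := Real.rpow_le_rpow_of_exponent_le h (Nat.le_ceil p)
      rw [Real.rpow_natCast] at h2
      linarith
  have h2 := Real.pow_div_factorial_le_exp y hy ⌈p⌉₊
  rw [div_le_iff₀ (by positivity)] at h2
  have h3 : 1 ≤ Real.exp y := Real.one_le_exp hy
  nlinarith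

/-- concentration bounds the moments -/
theorem moments_of_conc (hc : S_CONC) (hd : 1 ≤ d) (he : IsEnv P ω)
    (hexp : ∀ b : ℝ, Integrable (fun x => Real.exp (b * ω 1 0 x)) P) {β : ℝ} {h : Fin d → ℝ}
    {ξ p : ℝ} (hp : 0 < p) (H : Concentrated P ω β h ξ) : Moments P ω β h p ξ := by
  have hint : ∀ (h : Fin d → ℝ) (n : ℕ), Integrable (lw ω β h 0 0 n) P := fun h n =>
    (hc d hd Ω P ω he hexp β h 0 0 n).2.1
  rw [concentrated_iff hd hint] at H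
  obtain ⟨U, hUo, hhU, α, C0, hα, hC⟩ := H
  obtain ⟨K, hK0, hK⟩ := rpow_le_exp hp
  refine ⟨U, hUo, hhU, K * α ^ (-p) * |C0|, fun h' hh' n hn => ?_⟩
  have hn0 : (0 : ℝ) < n := by exact_mod_cast hn
  simp_rw [logZ_sub hd (hint _ _)]
  set l : ℝ := α * (n : ℝ) ^ (-ξ) with hl
  have hl0 : 0 < l := mul_pos hα (Real.rpow_pos_of_pos hn0 _)
  have hm : Measurable (lw ω β h' 0 0 n) := (hc d hd Ω P ω he hexp β h' 0 0 n).1
  have hpt : ∀ x, ENNReal.ofReal (|lw ω β h' 0 0 n x - free P ω β h' n| ^ p) ≤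
      ENNReal.ofReal (K * l ^ (-p)) * EX (l * |lw ω β h' 0 0 n x - free P ω β h' n|) := by
    intro x
    unfold EX
    rw [← ENNReal.ofReal_mul (by positivity)]
    apply ENNReal.ofReal_le_ofReal
    have h1 := hK (l * |lw ω β h' 0 0 n x - free P ω β h' n|) (by positivity)
    rw [Real.mul_rpow hl0.le (abs_nonneg _)] at h1
    have h2 : l ^ (-p) * l ^ p = 1 := by
      rw [← Real.rpow_add hl0, neg_add_cancel, Real.rpow_zero]
    have h3 : (0 : ℝ) < l ^ (-p) := Real.rpow_pos_of_pos hl0 _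
    calc |lw ω β h' 0 0 n x - free P ω β h' n| ^ p =
          l ^ (-p) * (l ^ p * |lw ω β h' 0 0 n x - free P ω β h' n| ^ p) := by
          rw [← mul_assoc, h2, one_mul]
      _ ≤ l ^ (-p) * (K * Real.exp (l * |lw ω β h' 0 0 n x - free P ω β h' n|)) :=
          mul_le_mul_of_nonneg_left h1 h3.le
      _ = _ := by ring
  calc ∫⁻ x, ENNReal.ofReal (|lw ω β h' 0 0 n x - free P ω β h' n| ^ p) ∂P
      ≤ ∫⁻ x, ENNReal.ofReal (K * l ^ (-p)) *
          EX (l * |lw ω β h' 0 0 n x - free P ω β h' n|) ∂P := lintegral_mono hpt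
    _ = ENNReal.ofReal (K * l ^ (-p)) *
          ∫⁻ x, EX (l * |lw ω β h' 0 0 n x - free P ω β h' n|) ∂P :=
        lint_mul (f := fun x => l * |lw ω β h' 0 0 n x - free P ω β h' n|) _
          ((measurable_norm.comp (hm.sub_const _)).const_mul l)
    _ ≤ ENNReal.ofReal (K * l ^ (-p)) * ENNReal.ofReal |C0| := by
        gcongr
        exact (hC h' hh' n hn).trans (ENNReal.ofReal_le_ofReal (le_abs_self _))
    _ = ENNReal.ofReal (K * l ^ (-p) * |C0|) :=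
        (ENNReal.ofReal_mul (by positivity)).symm
    _ = _ := by
        congr 1
        rw [hl, Real.mul_rpow hα.le (Real.rpow_nonneg hn0.le _), ← Real.rpow_mul hn0.le]
        have : -ξ * -p = p * ξ := by ring
        rw [this]
        ring

/-- the upper fluctuation exponent is the exponent of the moments -/
theorem chiUp_eq_moments (hc : S_CONC) (hi' : S_ID) (hs : S_SUP) (hd : 1 ≤ d) (he : IsEnv P ω)
    (hexp : ∀ b : ℝ, Integrable (fun x => Real.exp (b * ω 1 0 x)) P) (β : ℝ) (h : Fin d → ℝ) :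
    chiUp P ω β h = sInf {u : ℝ | 0 < u ∧ ∀ p : ℝ, 0 < p → Moments P ω β h p u} := by
  have hhalf := concentrated_half hc hd he hexp β h
  apply le_antisymm
  · apply le_csInf
    · exact ⟨1 / 2, by norm_num, fun p hp => moments_of_conc hc hd he hexp hp hhalf⟩
    rintro u ⟨hu0, hu⟩
    have h1 : Tendsto (fun p : ℝ => u + d / p) atTop (𝓝 (u + 0)) :=
      (tendsto_id.const_div_atTop (d : ℝ)).const_add u
    rw [add_zero] at h1
    refine ge_of_tendsto h1 ?_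
    filter_upwards [eventually_gt_atTop 0] with p hp
    exact chiUp_le_moments hc hi' hs hd he hexp hp hu0.le (hu p hp)
  · apply le_csInf
    · exact ⟨1 / 2, by norm_num, hhalf⟩
    rintro ξ ⟨hξ0, hξ⟩
    exact csInf_le ⟨0, fun _ hξ => hξ.1.le⟩ ⟨hξ0, fun p hp =>
      moments_of_conc hc hd he hexp hp hξ⟩

end

end Pool.Agent.Run7.h208.WT
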