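import Pool.Agent.Run7.h208.WT.UpTail

/-!
# Directed polymers: two sided tails and moments
-/

set_option autoImplicit false

open MeasureTheory ProbabilityTheory Filter Topology
open scoped ENNReal

namespace Pool.Agent.Run7.h208.WT

open TH967.DP
open Pool.Agent.N662.SE

variable {d : ℕ}

/-- moments from a polynomial tail -/
lemma weak_moment {Ω : Type} [MeasurableSpace Ω] {P : Measure Ω} [IsProbabilityMeasure P]
    {Y : Ω → ℝ} (hY : Measurable Y) (hY0 : ∀ x, 0 ≤ Y x) {c q p : ℝ} (hc : 0 < c)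
    (hp : 0 < p) (hpq : p < q) (H : ∀ s : ℝ, 0 < s → P.real {x | s ≤ Y x} ≤ (c / s) ^ q) :
    ∫⁻ x, ENNReal.ofReal (Y x ^ p) ∂P ≤ ENNReal.ofReal (q / (q - p) * c ^ p) := by
  rw [lintegral_rpow_eq_lintegral_meas_le_mul P (Eventually.of_forall hY0) hY.aemeasurable hp]
  have h1 : ∫⁻ t in Set.Ioi 0, P {a | t ≤ Y a} * ENNReal.ofReal (t ^ (p - 1)) ≤
      ENNReal.ofReal (c ^ p / p) + ENNReal.ofReal (c ^ p / (q - p)) := by
    rw [← Set.Ioc_union_Ioi_eq_Ioi hc.le,
      lintegral_union measurableSet_Ioi Set.Ioc_disjoint_Ioi_same]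
    apply add_le_add
    · calc ∫⁻ t in Set.Ioc 0 c, P {a | t ≤ Y a} * ENNReal.ofReal (t ^ (p - 1))
          ≤ ∫⁻ t in Set.Ioc 0 c, ENNReal.ofReal (t ^ (p - 1)) := by
            refine lintegral_mono fun t => ?_
            calc P {a | t ≤ Y a} * ENNReal.ofReal (t ^ (p - 1))
                ≤ 1 * ENNReal.ofReal (t ^ (p - 1)) := by
                  gcongr
                  exact prob_le_one
              _ = _ := one_mul _
        _ = ENNReal.ofReal (∫ t in Set.Ioc 0 c, t ^ (p - 1)) := by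
            symm
            apply ofReal_integral_eq_lintegral_ofReal
            · have := (intervalIntegral.intervalIntegrable_rpow' (a := 0) (b := c)
                (by linarith : -1 < p - 1)).1
              exact this
            · refine (ae_restrict_iff' measurableSet_Ioc).2 (Eventually.of_forall fun t ht => ?_)
              exact Real.rpow_nonneg ht.1.le _
        _ = ENNReal.ofReal (c ^ p / p) := by
            congr 1
            rw [← intervalIntegral.integral_of_le hc.le,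
              integral_rpow (Or.inl (by linarith : -1 < p - 1)), sub_add_cancel,
              Real.zero_rpow hp.ne', sub_zero]
    · calc ∫⁻ t in Set.Ioi c, P {a | t ≤ Y a} * ENNReal.ofReal (t ^ (p - 1))
          ≤ ∫⁻ t in Set.Ioi c, ENNReal.ofReal (c ^ q * t ^ (p - 1 - q)) := by
            refine setLIntegral_mono' measurableSet_Ioi fun t ht => ?_
            have ht0 : 0 < t := lt_trans hc ht
            have h2 : P {a | t ≤ Y a} ≤ ENNReal.ofReal ((c / t) ^ q) := by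
              rw [← ofReal_measureReal (measure_ne_top _ _)]
              exact ENNReal.ofReal_le_ofReal (H t ht0)
            refine (mul_le_mul_left h2 _).trans (le_of_eq ?_)
            rw [← ENNReal.ofReal_mul (by positivity)]
            congr 1
            rw [Real.div_rpow hc.le ht0.le, div_eq_mul_inv, ← Real.rpow_neg ht0.le, mul_assoc,
              ← Real.rpow_add ht0]
            congr 2
            ring
        _ = ENNReal.ofReal (∫ t in Set.Ioi c, c ^ q * t ^ (p - 1 - q)) := by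
            symm
            apply ofReal_integral_eq_lintegral_ofReal
            · exact (integrableOn_Ioi_rpow_of_lt (by linarith : p - 1 - q < -1) hc).const_mul _
            · refine (ae_restrict_iff' measurableSet_Ioi).2 (Eventually.of_forall fun t ht => ?_)
              have ht0 : 0 < t := lt_trans hc ht
              positivity
        _ = ENNReal.ofReal (c ^ p / (q - p)) := by
            congr 1
            rw [integral_const_mul, integral_Ioi_rpow_of_lt (by linarith : p - 1 - q < -1) hc]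
            have e1 : p - 1 - q + 1 = p - q := by ring
            rw [e1]
            have e2 : c ^ q * (-c ^ (p - q) / (p - q)) = (c ^ q * c ^ (p - q)) / (q - p) := by
              have : q - p ≠ 0 := by linarith
              have h3 : p - q ≠ 0 := by linarith
              field_simp
              ring
            rw [e2, ← Real.rpow_add hc]
            congr 2
            ring
  calc ENNReal.ofReal p * ∫⁻ t in Set.Ioi 0, P {a | t ≤ Y a} * ENNReal.ofReal (t ^ (p - 1))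
      ≤ ENNReal.ofReal p * (ENNReal.ofReal (c ^ p / p) + ENNReal.ofReal (c ^ p / (q - p))) := by
        gcongr
    _ = ENNReal.ofReal (p * (c ^ p / p + c ^ p / (q - p))) := by
        have h5 : 0 < q - p := by linarith
        rw [← ENNReal.ofReal_add (by positivity) (by positivity), ← ENNReal.ofReal_mul hp.le]
    _ = _ := by
        congr 1
        have h5 : q - p ≠ 0 := by linarith
        field_simp
        ring

section
variable {Ω : Type} [mΩ : MeasurableSpace Ω] {P : Measure Ω} [IsProbabilityMeasure P]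
  {ω : ℕ → (Fin d → ℤ) → Ω → ℝ}

/-- the two sided tail -/
theorem two_tail (hi' : S_ID) (hd : 1 ≤ d) (he : IsEnv P ω)
    (hm : ∀ (β : ℝ) (h : Fin d → ℝ) (n : ℕ), Measurable (lw ω β h 0 0 n))
    (hint : ∀ (β : ℝ) (h : Fin d → ℝ) (n : ℕ), Integrable (lw ω β h 0 0 n) P)
    (β : ℝ) (U : Set (Fin d → ℝ)) (φ : (Fin d → ℝ) → ℝ) {α ζ1 ζ B : ℝ} (hα : 0 < α)
    (hζ1 : 0 < ζ1) (hζ : ζ1 < ζ)
    (hLL : ∀ h ∈ U, ∀ n : ℕ, 1 ≤ n →
      LL P ω β h (φ h) (α * (n : ℝ) ^ (-ζ1)) n ≤ ENNReal.ofReal 3)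
    (hL1 : ∀ h ∈ U, ∀ n : ℕ, 1 ≤ n → ∫ x, |lw ω β h 0 0 n x - n * φ h| ∂P ≤ B * (n : ℝ) ^ ζ1) :
    ∃ C : ℝ, 0 < C ∧ ∀ h ∈ U, ∀ n : ℕ, 1 ≤ n → ∀ s : ℝ, 0 < s →
      P.real {x | s ≤ |lw ω β h 0 0 n x - n * φ h|} ≤ C * n * s ^ (-(1 / ζ)) := by
  obtain ⟨C, hC0, hC⟩ := up_tail hi' hd he hm hint β U φ hα hζ1 hζ hLL hL1
  have hζ0 : 0 < ζ := by linarith
  have hζi : 0 < 1 / ζ := by positivity
  obtain ⟨K, hK0, hK⟩ := rpow_le_exp hζi
  set D : ℝ := 3 * (K * 2 ^ (1 / ζ) * α ^ (-(1 / ζ))) with hD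
  have hD0 : 0 ≤ D := by positivity
  refine ⟨C + D, by linarith, fun h hh n hn s hs => ?_⟩
  have hnR : (1 : ℝ) ≤ n := by exact_mod_cast hn
  have hnp : (0 : ℝ) < n := by linarith
  have hsn : 0 < s ^ (-(1 / ζ)) := Real.rpow_pos_of_pos hs _
  have hl0 : 0 < α * (n : ℝ) ^ (-ζ1) := mul_pos hα (Real.rpow_pos_of_pos hnp _)
  have hlow : P.real {x | lw ω β h 0 0 n x < n * φ h - s / 2} ≤ D * n * s ^ (-(1 / ζ)) := by
    refine (LL_markov hm β h (φ h) _ hl0.le n (s / 2) (hLL h hh n hn)).trans ?_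
    have h1 := hK (α * (n : ℝ) ^ (-ζ1) * (s / 2)) (by positivity)
    have hy0 : 0 < α * (n : ℝ) ^ (-ζ1) * (s / 2) := by positivity
    have h2 : Real.exp (-(α * (n : ℝ) ^ (-ζ1) * (s / 2))) ≤
        K * (α * (n : ℝ) ^ (-ζ1) * (s / 2)) ^ (-(1 / ζ)) := by
      have hyp : 0 < (α * (n : ℝ) ^ (-ζ1) * (s / 2)) ^ (1 / ζ) := Real.rpow_pos_of_pos hy0 _
      rw [Real.rpow_neg hy0.le, Real.exp_neg, ← div_eq_mul_inv, inv_eq_one_div,
        div_le_div_iff₀ (Real.exp_pos _) hyp, one_mul]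
      exact h1
    have h3 : (α * (n : ℝ) ^ (-ζ1) * (s / 2)) ^ (-(1 / ζ)) =
        2 ^ (1 / ζ) * α ^ (-(1 / ζ)) * ((n : ℝ) ^ (ζ1 / ζ) * s ^ (-(1 / ζ))) := by
      rw [Real.mul_rpow hl0.le (by positivity), Real.mul_rpow hα.le
        (Real.rpow_nonneg hnp.le _), ← Real.rpow_mul hnp.le, Real.div_rpow hs.le (by norm_num)]
      have e1 : -ζ1 * -(1 / ζ) = ζ1 / ζ := by ring
      have e2 : (2 : ℝ) ^ (-(1 / ζ)) = (2 ^ (1 / ζ))⁻¹ := Real.rpow_neg (by norm_num) _
      rw [e1, e2]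
      field_simp
    have h4 : (n : ℝ) ^ (ζ1 / ζ) ≤ n := by
      calc (n : ℝ) ^ (ζ1 / ζ) ≤ (n : ℝ) ^ (1 : ℝ) := by
            apply Real.rpow_le_rpow_of_exponent_le hnR
            rw [div_le_one hζ0]
            exact hζ.le
        _ = n := Real.rpow_one _
    rw [h3] at h2
    calc 3 * Real.exp (-(α * (n : ℝ) ^ (-ζ1) * (s / 2)))
        ≤ 3 * (K * (2 ^ (1 / ζ) * α ^ (-(1 / ζ)) * ((n : ℝ) ^ (ζ1 / ζ) * s ^ (-(1 / ζ))))) := by
          gcongr
      _ ≤ 3 * (K * (2 ^ (1 / ζ) * α ^ (-(1 / ζ)) * (n * s ^ (-(1 / ζ))))) := by gcongr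
      _ = D * n * s ^ (-(1 / ζ)) := by rw [hD]; ring
  have hsub : {x | s ≤ |lw ω β h 0 0 n x - n * φ h|} ⊆
      {x | n * φ h + s ≤ lw ω β h 0 0 n x} ∪ {x | lw ω β h 0 0 n x < n * φ h - s / 2} := by
    intro x hx
    have hx' : s ≤ |lw ω β h 0 0 n x - n * φ h| := hx
    rcases le_abs.1 hx' with h1 | h1
    · left
      show n * φ h + s ≤ lw ω β h 0 0 n x
      linarith
    · right
      show lw ω β h 0 0 n x < n * φ h - s / 2
      linarith
  calc P.real {x | s ≤ |lw ω β h 0 0 n x - n * φ h|}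
      ≤ P.real ({x | n * φ h + s ≤ lw ω β h 0 0 n x} ∪
          {x | lw ω β h 0 0 n x < n * φ h - s / 2}) := measureReal_mono hsub (measure_ne_top _ _)
    _ ≤ P.real {x | n * φ h + s ≤ lw ω β h 0 0 n x} +
          P.real {x | lw ω β h 0 0 n x < n * φ h - s / 2} := measureReal_union_le _ _
    _ ≤ C * n * s ^ (-(1 / ζ)) + D * n * s ^ (-(1 / ζ)) := add_le_add (hC h hh n hn s hs) hlow
    _ = _ := by ring

omit [IsProbabilityMeasure P] in
/-- the moments of order `p < 1/ζ` -/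
theorem moments_of_tail [IsProbabilityMeasure P]
    (hm : ∀ (β : ℝ) (h : Fin d → ℝ) (n : ℕ), Measurable (lw ω β h 0 0 n))
    (β : ℝ) (U : Set (Fin d → ℝ)) (φ : (Fin d → ℝ) → ℝ) {ζ C : ℝ} (hζ : 0 < ζ) (hC : 0 < C)
    (H : ∀ h ∈ U, ∀ n : ℕ, 1 ≤ n → ∀ s : ℝ, 0 < s →
      P.real {x | s ≤ |lw ω β h 0 0 n x - n * φ h|} ≤ C * n * s ^ (-(1 / ζ)))
    {p : ℝ} (hp : 0 < p) (hpζ : p * ζ < 1) :
    ∀ h ∈ U, ∀ n : ℕ, 1 ≤ n →
      ∫⁻ x, ENNReal.ofReal (|lw ω β h 0 0 n x - n * φ h| ^ p) ∂P ≤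
        ENNReal.ofReal (1 / ζ / (1 / ζ - p) * C ^ (ζ * p) * (n : ℝ) ^ (p * ζ)) := by
  intro h hh n hn
  have hnp : (0 : ℝ) < n := by exact_mod_cast hn
  have hpq : p < 1 / ζ := by rwa [lt_div_iff₀ hζ]
  have hc : 0 < (C * n) ^ ζ := Real.rpow_pos_of_pos (by positivity) _
  have h1 := weak_moment (P := P) (Y := fun x => |lw ω β h 0 0 n x - n * φ h|)
    (measurable_norm.comp ((hm β h n).sub_const _)) (fun x => abs_nonneg _) hc hp hpq
    (fun s hs => by
      refine (H h hh n hn s hs).trans (le_of_eq ?_)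
      rw [Real.div_rpow hc.le hs.le, ← Real.rpow_mul (by positivity), mul_one_div,
        div_self hζ.ne', Real.rpow_one, Real.rpow_neg hs.le]
      rfl)
  refine h1.trans (le_of_eq ?_)
  congr 1
  rw [← Real.rpow_mul (by positivity), Real.mul_rpow hC.le hnp.le, mul_comm p ζ]
  ring

end

end Pool.Agent.Run7.h208.WT
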