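import Pool.Agent.Run7.h208.WT.Fin3
import Pool.Agent.N951.SE.Id

/-!
# Directed polymers in dimension one: the position at intermediate times

In dimension one the law of the end point is stochastically monotone in the starting point.
-/

set_option autoImplicit false

open MeasureTheory ProbabilityTheory Filter Topology

namespace Pool.Agent.Run7.h208.WT

open TH967.DP
open Pool.Agent.N662.SE
open Pool.Agent.N50.SE.SUP (wt wt_pos)

/-- splitting a walk at the time `m`, with conditions on the positions -/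
lemma part_split {d : ℕ} (β : ℝ) (h : Fin d → ℝ) (η : ℕ → (Fin d → ℤ) → ℝ) (m n : ℕ)
    (R Q : (Fin d → ℤ) → Prop) :
    part β h η (m + n) {w | R (pos w m) ∧ Q (pos w (m + n))} =
      ∑ u : Fin m → Step d, ({u | R (pos u m)} : Set (Fin m → Step d)).indicator (fun u =>
        wt β h η u * part β h (fun i y => η (m + i) (pos u m + y)) n
          {v | Q (pos u m + pos v n)}) u := by
  unfold part
  rw [Pool.Agent.N50.SE.SUP.sum_split]
  apply Finset.sum_congr rfl
  intro u _
  by_cases hu : R (pos u m)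
  · rw [Set.indicator_of_mem (show u ∈ {u | R (pos u m)} from hu), Finset.mul_sum]
    apply Finset.sum_congr rfl
    intro v _
    have e1 : pos (Fin.append u v) m = pos u m := pos_append_left u v le_rfl
    have e2 : pos (Fin.append u v) (m + n) = pos u m + pos v n := pos_append_right u v n
    by_cases hv : Q (pos u m + pos v n)
    · rw [Set.indicator_of_mem (show Fin.append u v ∈ {w | R (pos w m) ∧ Q (pos w (m + n))} by
          show R _ ∧ Q _
          rw [e1, e2]
          exact ⟨hu, hv⟩), Set.indicator_of_mem (show v ∈ {v | Q (pos u m + pos v n)} from hv)]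
      unfold wt
      rw [energy_append, ← Real.exp_add]
      congr 1
      have e : ∀ k, h k * (pos (Fin.append u v) (m + n) k : ℝ) =
          h k * (pos u m k : ℝ) + h k * (pos v n k : ℝ) := by
        intro k
        rw [pos_append_right]
        push_cast [Pi.add_apply]
        ring
      simp only [e, Finset.sum_add_distrib, mul_add]
      unfold TH967.DP.shift
      ring
    · rw [Set.indicator_of_notMem (show Fin.append u v ∉ {w | R (pos w m) ∧ Q (pos w (m + n))} by
          show ¬ (R _ ∧ Q _)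
          rw [e1, e2]
          exact fun h => hv h.2),
        Set.indicator_of_notMem (show v ∉ {v | Q (pos u m + pos v n)} from hv), mul_zero]
  · rw [Set.indicator_of_notMem (show u ∉ {u | R (pos u m)} from hu)]
    apply Finset.sum_eq_zero
    intro v _
    rw [Set.indicator_of_notMem]
    show ¬ (R _ ∧ Q _)
    rw [pos_append_left u v le_rfl]
    exact fun h => hu h.1

/-- the walks started at `z` which end at the right of `a` -/
noncomputable def UU (β : ℝ) (h : Fin 1 → ℝ) (η : ℕ → (Fin 1 → ℤ) → ℝ) (n : ℕ) (a : ℤ)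
    (z : Fin 1 → ℤ) : ℝ :=
  part β h (fun i y => η i (z + y)) n {w | a ≤ z 0 + pos w n 0}

/-- all walks started at `z` -/
noncomputable def ZU (β : ℝ) (h : Fin 1 → ℝ) (η : ℕ → (Fin 1 → ℤ) → ℝ) (n : ℕ)
    (z : Fin 1 → ℤ) : ℝ :=
  part β h (fun i y => η i (z + y)) n Set.univ

lemma ZU_pos (β : ℝ) (h : Fin 1 → ℝ) (η : ℕ → (Fin 1 → ℤ) → ℝ) (n : ℕ) (z : Fin 1 → ℤ) :
    0 < ZU β h η n z := Pool.Agent.N50.SE.SUP.part_pos le_rfl _ _ _ _

lemma UU_succ (β : ℝ) (h : Fin 1 → ℝ) (η : ℕ → (Fin 1 → ℤ) → ℝ) (n : ℕ) (a : ℤ)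
    (z : Fin 1 → ℤ) : UU β h η (1 + n) a z = ∑ u : Fin 1 → Step 1,
      wt β h (fun i y => η i (z + y)) u * UU β h (fun i y => η (1 + i) y) n a (z + pos u 1) := by
  have h1 := part_split β h (fun i y => η i (z + y)) 1 n (fun _ => True)
    (fun y => a ≤ z 0 + y 0)
  simp only [true_and, Set.setOf_true, Set.indicator_univ] at h1
  unfold UU
  rw [h1]
  apply Finset.sum_congr rfl
  intro u _
  congr 1
  have e1 : (fun (i : ℕ) (y : Fin 1 → ℤ) => η (1 + i) (z + (pos u 1 + y))) =
      fun i y => η (1 + i) (z + pos u 1 + y) := by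
    funext i y
    rw [add_assoc]
  rw [e1]
  congr 1
  ext v
  simp only [Set.mem_setOf_eq, Pi.add_apply, add_assoc]

lemma ZU_succ (β : ℝ) (h : Fin 1 → ℝ) (η : ℕ → (Fin 1 → ℤ) → ℝ) (n : ℕ)
    (z : Fin 1 → ℤ) : ZU β h η (1 + n) z = ∑ u : Fin 1 → Step 1,
      wt β h (fun i y => η i (z + y)) u * ZU β h (fun i y => η (1 + i) y) n (z + pos u 1) := by
  have h1 := part_split β h (fun i y => η i (z + y)) 1 n (fun _ => True)
    (fun y => True)
  simp only [true_and, Set.setOf_true, Set.indicator_univ] at h1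
  unfold ZU
  rw [h1]
  apply Finset.sum_congr rfl
  intro u _
  congr 1
  have e1 : (fun (i : ℕ) (y : Fin 1 → ℤ) => η (1 + i) (z + (pos u 1 + y))) =
      fun i y => η (1 + i) (z + pos u 1 + y) := by
    funext i y
    rw [add_assoc]
  rw [e1]

lemma step_pm (s : Step 1) : stepVec s 0 = 1 ∨ stepVec s 0 = -1 := by
  obtain ⟨e, b⟩ := s
  have he : e = 0 := Subsingleton.elim _ _
  subst he
  cases b <;> simp [stepVec]

lemma pos_one (u : Fin 1 → Step 1) : pos u 1 0 = 1 ∨ pos u 1 0 = -1 := by
  have h1 : pos u 1 = stepVec (u 0) := by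
    unfold pos
    simp
  rw [h1]
  exact step_pm _

lemma pos_parity {m : ℕ} (u : Fin m → Step 1) : Even (pos u m 0 - m) := by
  have h1 : pos u m 0 - m = ∑ k : Fin m, (stepVec (u k) 0 - 1) := by
    unfold pos
    rw [Finset.sum_apply, Finset.sum_sub_distrib]
    congr 1
    · apply Finset.sum_congr rfl
      intro k _
      rw [if_pos k.isLt]
    · simp
  rw [h1]
  apply Finset.even_sum
  intro k _
  rcases step_pm (u k) with h | h <;> rw [h]
  · exact ⟨0, by norm_num⟩
  · exact ⟨-1, by norm_num⟩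

/-- the law of the end point is stochastically monotone in the starting point -/
theorem mono (β : ℝ) (h : Fin 1 → ℝ) (a : ℤ) : ∀ (n : ℕ) (η : ℕ → (Fin 1 → ℤ) → ℝ)
    (z z' : Fin 1 → ℤ), Even (z' 0 - z 0) → z 0 ≤ z' 0 →
    UU β h η n a z / ZU β h η n z ≤ UU β h η n a z' / ZU β h η n z' := by
  intro n
  induction n with
  | zero =>
    intro η z z' _ hz
    have hZ : ∀ z, ZU β h η 0 z = 1 := by
      intro z
      unfold ZU part
      simp [energy, pos]
    rw [hZ, hZ, div_one, div_one]
    unfold UU part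
    apply Finset.sum_le_sum
    intro w _
    have e1 : ∀ z : Fin 1 → ℤ, Real.exp (β * energy (fun i y => η i (z + y)) w +
        ∑ k, h k * (pos w 0 k : ℝ)) = 1 := by
      intro z
      simp [energy, pos]
    have e2 : pos w 0 0 = 0 := by simp [pos]
    by_cases h1 : a ≤ z 0
    · rw [Set.indicator_of_mem (show w ∈ {w | a ≤ z 0 + pos w 0 0} by
          show a ≤ z 0 + pos w 0 0
          omega), Set.indicator_of_mem (show w ∈ {w | a ≤ z' 0 + pos w 0 0} by
          show a ≤ z' 0 + pos w 0 0
          omega), e1, e1]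
    · rw [Set.indicator_of_notMem (show w ∉ {w | a ≤ z 0 + pos w 0 0} by
          show ¬ a ≤ z 0 + pos w 0 0
          omega)]
      exact Set.indicator_nonneg (fun _ _ => (Real.exp_pos _).le) _
  | succ n ih =>
    intro η z z' hev hz
    rcases eq_or_lt_of_le hz with heq | hlt
    · have : z = z' := by
        funext k
        rw [Subsingleton.elim k 0]
        exact heq
      rw [this]
    have h2 : z 0 + 2 ≤ z' 0 := by
      obtain ⟨r, hr⟩ := hev
      omega
    rw [add_comm n 1]
    set η' : ℕ → (Fin 1 → ℤ) → ℝ := fun i y => η (1 + i) y with hη'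
    have hub : ∀ (z p : Fin 1 → ℤ), (∀ u : Fin 1 → Step 1,
        UU β h η' n a (z + pos u 1) / ZU β h η' n (z + pos u 1) ≤
          UU β h η' n a p / ZU β h η' n p) →
        UU β h η (1 + n) a z / ZU β h η (1 + n) z ≤ UU β h η' n a p / ZU β h η' n p := by
      intro z p hp
      rw [div_le_iff₀ (ZU_pos _ _ _ _ _), UU_succ, ZU_succ, Finset.mul_sum]
      apply Finset.sum_le_sum
      intro u _
      have h3 := (div_le_iff₀ (ZU_pos β h η' n (z + pos u 1))).1 (hp u)
      have h4 := mul_le_mul_of_nonneg_left h3 (wt_pos β h (fun i y => η i (z + y)) u).le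
      linarith
    have hlb : ∀ (z p : Fin 1 → ℤ), (∀ u : Fin 1 → Step 1,
        UU β h η' n a p / ZU β h η' n p ≤
          UU β h η' n a (z + pos u 1) / ZU β h η' n (z + pos u 1)) →
        UU β h η' n a p / ZU β h η' n p ≤ UU β h η (1 + n) a z / ZU β h η (1 + n) z := by
      intro z p hp
      rw [le_div_iff₀ (ZU_pos _ _ _ _ _), UU_succ, ZU_succ, Finset.mul_sum]
      apply Finset.sum_le_sum
      intro u _
      have h3 := (le_div_iff₀ (ZU_pos β h η' n (z + pos u 1))).1 (hp u)
      have h4 := mul_le_mul_of_nonneg_left h3 (wt_pos β h (fun i y => η i (z + y)) u).le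
      linarith
    have k1 : UU β h η (1 + n) a z / ZU β h η (1 + n) z ≤
        UU β h η' n a (fun _ => z 0 + 1) / ZU β h η' n (fun _ => z 0 + 1) := by
      apply hub
      intro u
      apply ih
      · rcases pos_one u with h3 | h3
        · exact ⟨0, by simp only [Pi.add_apply, h3]; ring⟩
        · exact ⟨1, by simp only [Pi.add_apply, h3]; ring⟩
      · rcases pos_one u with h3 | h3 <;> simp only [Pi.add_apply, h3] <;> omega
    have k2 : UU β h η' n a (fun _ => z' 0 - 1) / ZU β h η' n (fun _ => z' 0 - 1) ≤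
        UU β h η (1 + n) a z' / ZU β h η (1 + n) z' := by
      apply hlb
      intro u
      apply ih
      · rcases pos_one u with h3 | h3
        · exact ⟨1, by simp only [Pi.add_apply, h3]; ring⟩
        · exact ⟨0, by simp only [Pi.add_apply, h3]; ring⟩
      · rcases pos_one u with h3 | h3 <;> simp only [Pi.add_apply, h3] <;> omega
    have k3 : UU β h η' n a (fun _ => z 0 + 1) / ZU β h η' n (fun _ => z 0 + 1) ≤
        UU β h η' n a (fun _ => z' 0 - 1) / ZU β h η' n (fun _ => z' 0 - 1) := by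
      apply ih
      · obtain ⟨r, hr⟩ := hev
        show Even (z' 0 - 1 - (z 0 + 1))
        exact ⟨r - 1, by omega⟩
      · show z 0 + 1 ≤ z' 0 - 1
        omega
    exact k1.trans (k3.trans k2)

lemma UU_eq_prob (β : ℝ) (h : Fin 1 → ℝ) (η : ℕ → (Fin 1 → ℤ) → ℝ) (n : ℕ) (a : ℤ)
    (z : Fin 1 → ℤ) : UU β h η n a z / ZU β h η n z =
      prob β h (fun i y => η i (z + y)) n {w | a ≤ z 0 + pos w n 0} := rfl

lemma part_compl {d n : ℕ} (β : ℝ) (h : Fin d → ℝ) (η : ℕ → (Fin d → ℤ) → ℝ)
    (A : Set (Fin n → Step d)) : part β h η n Aᶜ = part β h η n Set.univ - part β h η n A := by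
  unfold part
  rw [← Finset.sum_sub_distrib]
  apply Finset.sum_congr rfl
  intro w _
  rw [Set.indicator_of_mem (Set.mem_univ w)]
  by_cases hw : w ∈ A
  · rw [Set.indicator_of_notMem (Set.notMem_compl_iff.2 hw), Set.indicator_of_mem hw, sub_self]
  · rw [Set.indicator_of_mem (show w ∈ Aᶜ from hw), Set.indicator_of_notMem hw, sub_zero]

lemma prob_compl {d n : ℕ} (hd : 1 ≤ d) (β : ℝ) (h : Fin d → ℝ) (η : ℕ → (Fin d → ℤ) → ℝ)
    (A : Set (Fin n → Step d)) : prob β h η n Aᶜ = 1 - prob β h η n A := by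
  have h1 := Pool.Agent.N50.SE.SUP.part_pos hd β h η n
  unfold prob
  rw [part_compl, sub_div, div_self h1.ne']

/-- if the conditional probabilities of `Q` are at least `r` then
`r P (S_m ∈ R) ≤ P (S_(m+n) ∈ Q)` -/
lemma markov_ge {d : ℕ} (hd : 1 ≤ d) (β : ℝ) (h : Fin d → ℝ) (η : ℕ → (Fin d → ℤ) → ℝ) (m n : ℕ)
    (R Q : (Fin d → ℤ) → Prop) {r : ℝ} (H : ∀ u : Fin m → Step d, R (pos u m) →
      r ≤ prob β h (fun i y => η (m + i) (pos u m + y)) n {v | Q (pos u m + pos v n)}) :
    r * prob β h η (m + n) {w | R (pos w m)} ≤ prob β h η (m + n) {w | Q (pos w (m + n))} := by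
  have hZ := Pool.Agent.N50.SE.SUP.part_pos hd β h η (m + n)
  have h1 := part_split β h η m n R Q
  have h2 := part_split β h η m n R (fun _ => True)
  simp only [and_true, Set.setOf_true] at h2
  have h3 : r * part β h η (m + n) {w | R (pos w m)} ≤
      part β h η (m + n) {w | R (pos w m) ∧ Q (pos w (m + n))} := by
    rw [h1, h2, Finset.mul_sum]
    apply Finset.sum_le_sum
    intro u _
    by_cases hu : R (pos u m)
    · rw [Set.indicator_of_mem (show u ∈ {u | R (pos u m)} from hu),
        Set.indicator_of_mem (show u ∈ {u | R (pos u m)} from hu)]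
      have h4 := H u hu
      unfold prob at h4
      rw [le_div_iff₀ (Pool.Agent.N50.SE.SUP.part_pos hd _ _ _ _)] at h4
      have h5 := mul_le_mul_of_nonneg_left h4 (wt_pos β h η u).le
      linarith
    · rw [Set.indicator_of_notMem (show u ∉ {u | R (pos u m)} from hu),
        Set.indicator_of_notMem (show u ∉ {u | R (pos u m)} from hu), mul_zero]
  have h4 : part β h η (m + n) {w | R (pos w m) ∧ Q (pos w (m + n))} ≤
      part β h η (m + n) {w | Q (pos w (m + n))} := by
    unfold part
    apply Finset.sum_le_sum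
    intro w _
    exact Set.indicator_le_indicator_of_subset (fun w hw => hw.2)
      (fun _ => (Real.exp_pos _).le) _
  unfold prob
  rw [← mul_div_assoc]
  exact div_le_div_of_nonneg_right (h3.trans h4) hZ.le

lemma two_ineq {p A r : ℝ} (hp : p ≤ 1) (hr : r * p ≤ A) (hA : 0 ≤ A) (hp0 : 0 ≤ p)
    (hr1 : r ≤ 1) : p ≤ 2 * A + 2 * (1 - r) := by
  nlinarith

/-- the position at the time `m` is not far to the right -/
theorem mid_right (β : ℝ) (h : Fin 1 → ℝ) (η : ℕ → (Fin 1 → ℤ) → ℝ) (m n : ℕ) (c a : ℤ)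
    (z : Fin 1 → ℤ) (hz : Even (z 0 - m)) (hzc : z 0 ≤ c) :
    prob β h η (m + n) {w | c ≤ pos w m 0} ≤
      2 * prob β h η (m + n) {w | a ≤ pos w (m + n) 0} +
      2 * prob β h (fun i y => η (m + i) (z + y)) n {v | z 0 + pos v n 0 < a} := by
  have h1 := markov_ge (d := 1) le_rfl β h η m n (fun y => c ≤ y 0) (fun y => a ≤ y 0)
    (r := prob β h (fun i y => η (m + i) (z + y)) n {v | a ≤ z 0 + pos v n 0}) (by
      intro u hu
      have h2 := mono β h a n (fun i y => η (m + i) y) z (pos u m) (by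
        obtain ⟨r, hr⟩ := hz
        obtain ⟨s, hs⟩ := pos_parity u
        exact ⟨s - r, by omega⟩) (le_trans hzc hu)
      exact h2)
  have h2 : ({v | z 0 + pos v n 0 < a} : Set (Fin n → Step 1)) = {v | a ≤ z 0 + pos v n 0}ᶜ := by
    ext v
    simp
  rw [h2, prob_compl le_rfl]
  exact two_ineq (prob_le_one le_rfl _ _ _ _) h1 (prob_nonneg _ _ _ _) (prob_nonneg _ _ _ _)
    (prob_le_one le_rfl _ _ _ _)

/-- the position at the time `m` is not far to the left -/
theorem mid_left (β : ℝ) (h : Fin 1 → ℝ) (η : ℕ → (Fin 1 → ℤ) → ℝ) (m n : ℕ) (c a : ℤ)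
    (z : Fin 1 → ℤ) (hz : Even (z 0 - m)) (hzc : c ≤ z 0) :
    prob β h η (m + n) {w | pos w m 0 ≤ c} ≤
      2 * prob β h η (m + n) {w | pos w (m + n) 0 < a} +
      2 * prob β h (fun i y => η (m + i) (z + y)) n {v | a ≤ z 0 + pos v n 0} := by
  have h1 := markov_ge (d := 1) le_rfl β h η m n (fun y => y 0 ≤ c) (fun y => y 0 < a)
    (r := prob β h (fun i y => η (m + i) (z + y)) n {v | z 0 + pos v n 0 < a}) (by
      intro u hu
      have h2 := mono β h a n (fun i y => η (m + i) y) (pos u m) z (by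
        obtain ⟨r, hr⟩ := hz
        obtain ⟨s, hs⟩ := pos_parity u
        exact ⟨r - s, by omega⟩) (le_trans hu hzc)
      rw [UU_eq_prob, UU_eq_prob] at h2
      have e1 : ({v | z 0 + pos v n 0 < a} : Set (Fin n → Step 1)) =
          {v | a ≤ z 0 + pos v n 0}ᶜ := by
        ext v
        simp
      have e2 : ({v | (pos u m + pos v n) 0 < a} : Set (Fin n → Step 1)) =
          {v | a ≤ pos u m 0 + pos v n 0}ᶜ := by
        ext v
        simp
      rw [e1, e2, prob_compl le_rfl, prob_compl le_rfl]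
      linarith)
  have h2 : ({v | z 0 + pos v n 0 < a} : Set (Fin n → Step 1)) = {v | a ≤ z 0 + pos v n 0}ᶜ := by
    ext v
    simp
  have h3 := two_ineq (prob_le_one le_rfl _ _ _ _) h1 (prob_nonneg _ _ _ _)
    (prob_nonneg _ _ _ _) (prob_le_one le_rfl _ _ _ _)
  rw [h2, prob_compl le_rfl] at h3
  linarith

/-- the mean polymer probability does not depend on the shift of the environment -/
theorem mean_shift {d : ℕ} {Ω : Type} [MeasurableSpace Ω] {P : Measure Ω}
    [IsProbabilityMeasure P] {ω : ℕ → (Fin d → ℤ) → Ω → ℝ} (he : IsEnv P ω) (β : ℝ)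
    (h : Fin d → ℝ) (m : ℕ) (z : Fin d → ℤ) (n : ℕ) (A : Set (Fin n → Step d)) :
    ∫ x, prob β h (fun i y => ω (m + i) (z + y) x) n A ∂P =
      ∫ x, prob β h (fun i y => ω i y x) n A ∂P := by
  have key : ∀ (m : ℕ) (z : Fin d → ℤ) (x : Ω),
      prob β h (fun i y => ω (m + i) (z + y) x) n A =
      (fun η : Site d n → ℝ => zz β h A η / zz β h Set.univ η)
        (fun s : Site d n => ω (m + s.1.1) (z + s.1.2) x) := by
    intro m z x
    unfold prob
    rw [part_eq_zz, part_eq_zz]
    rfl
  have hF : Measurable (fun η : Site d n → ℝ => zz β h A η / zz β h Set.univ η) :=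
    (measurable_zz β h A).div (measurable_zz β h Set.univ)
  have hG : ∀ (m : ℕ) (z : Fin d → ℤ),
      Measurable (fun x (s : Site d n) => ω (m + s.1.1) (z + s.1.2) x) := by
    intro m z
    rw [measurable_pi_iff]
    intro s
    exact he.meas _ _
  have hlaw : ∀ (m : ℕ) (z : Fin d → ℤ),
      P.map (fun x (s : Site d n) => ω (m + s.1.1) (z + s.1.2) x) =
        Measure.pi (fun _ : Site d n => P.map (ω 1 0)) := by
    intro m z
    refine law he (κ := Site d n) (φ := fun s => (m + s.1.1, z + s.1.2)) ?_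
    intro s t hst
    rw [Prod.mk.injEq] at hst
    apply Subtype.ext
    exact Prod.ext (Nat.add_left_cancel hst.1) (add_left_cancel hst.2)
  have hall : ∀ (m : ℕ) (z : Fin d → ℤ), ∫ x, prob β h (fun i y => ω (m + i) (z + y) x) n A ∂P =
      ∫ η, (fun η : Site d n → ℝ => zz β h A η / zz β h Set.univ η) η
        ∂(Measure.pi (fun _ : Site d n => P.map (ω 1 0))) := by
    intro m z
    rw [← hlaw m z, integral_map (hG m z).aemeasurable hF.aestronglyMeasurable]
    apply integral_congr_ae
    filter_upwards with x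
    exact key m z x
  have h0 := hall 0 0
  simp only [zero_add] at h0
  rw [hall m z, ← h0]

end Pool.Agent.Run7.h208.WT
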