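import Pool.Agent.Run7.h208.WT.Plane
import Pool.Agent.N662.SE.Exp2

/-!
# Directed polymers in dimension one: localisation at all times
-/

set_option autoImplicit false

open MeasureTheory ProbabilityTheory Filter Topology

namespace Pool.Agent.Run7.h208.WT

open TH967.DP
open Pool.Agent.N662.SE

lemma dev_one (v : Fin 1 → ℝ) {n : ℕ} (w : Fin n → Step 1) (i : ℕ) :
    dev v w i = |(pos w i 0 : ℝ) - i * v 0| := by
  unfold dev
  rw [Fin.sum_univ_one, Real.sqrt_sq_eq_abs]

section
variable {d : ℕ} {Ω : Type} [MeasurableSpace Ω] {P : Measure Ω} [IsProbabilityMeasure P]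
  {ω : ℕ → (Fin d → ℤ) → Ω → ℝ}

/-- the mean probability -/
noncomputable def MP (P : Measure Ω) (ω : ℕ → (Fin d → ℤ) → Ω → ℝ) (β : ℝ) (h : Fin d → ℝ) (n : ℕ)
    (A : Set (Fin n → Step d)) : ℝ :=
  ∫ x, prob β h (fun i y => ω i y x) n A ∂P

lemma int_prob (hd : 1 ≤ d) (he : IsEnv P ω) (β : ℝ) (h : Fin d → ℝ) (m : ℕ) (z : Fin d → ℤ)
    (n : ℕ) (A : Set (Fin n → Step d)) :
    Integrable (fun x => prob β h (fun i y => ω (m + i) (z + y) x) n A) P := by
  have h1 : Measurable (fun x => prob β h (fun i y => ω (m + i) (z + y) x) n A) := by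
    simp_rw [← polymer_eq]
    exact measurable_polymer (ω := fun i y => ω (m + i) (z + y)) β h A
      (fun i y => he.meas _ _)
  apply (integrable_const (1 : ℝ)).mono' h1.aestronglyMeasurable
  refine Eventually.of_forall fun x => ?_
  rw [Real.norm_eq_abs, abs_of_nonneg (prob_nonneg _ _ _ _)]
  exact prob_le_one hd _ _ _ _

lemma int_prob0 (hd : 1 ≤ d) (he : IsEnv P ω) (β : ℝ) (h : Fin d → ℝ)
    (n : ℕ) (A : Set (Fin n → Step d)) :
    Integrable (fun x => prob β h (fun i y => ω i y x) n A) P := by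
  have h1 := int_prob hd he β h 0 0 n A
  simpa only [zero_add] using h1

lemma prob_mono' (hd : 1 ≤ d) (β : ℝ) (h : Fin d → ℝ) (η : ℕ → (Fin d → ℤ) → ℝ) {n : ℕ}
    {A B : Set (Fin n → Step d)} (hAB : A ⊆ B) : prob β h η n A ≤ prob β h η n B := by
  unfold prob
  apply div_le_div_of_nonneg_right _ (Pool.Agent.N50.SE.SUP.part_pos hd _ _ _ _).le
  unfold part
  apply Finset.sum_le_sum
  intro w _
  exact Set.indicator_le_indicator_of_subset hAB (fun _ => (Real.exp_pos _).le) _

lemma prob_union (hd : 1 ≤ d) (β : ℝ) (h : Fin d → ℝ) (η : ℕ → (Fin d → ℤ) → ℝ) {n : ℕ}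
    (A B : Set (Fin n → Step d)) : prob β h η n (A ∪ B) ≤ prob β h η n A + prob β h η n B := by
  unfold prob
  rw [← add_div]
  apply div_le_div_of_nonneg_right _ (Pool.Agent.N50.SE.SUP.part_pos hd _ _ _ _).le
  unfold part
  rw [← Finset.sum_add_distrib]
  apply Finset.sum_le_sum
  intro w _
  have e := (Real.exp_pos (β * energy η w + ∑ k, h k * (pos w n k : ℝ))).le
  by_cases hA : w ∈ A
  · rw [Set.indicator_of_mem (show w ∈ A ∪ B from Or.inl hA), Set.indicator_of_mem hA]
    have := Set.indicator_nonneg (s := B) (f := fun w => Real.exp (β * energy η w +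
      ∑ k, h k * (pos w n k : ℝ))) (fun _ _ => (Real.exp_pos _).le) w
    linarith
  · by_cases hB : w ∈ B
    · rw [Set.indicator_of_mem (show w ∈ A ∪ B from Or.inr hB), Set.indicator_of_mem hB,
        Set.indicator_of_notMem hA]
      linarith
    · rw [Set.indicator_of_notMem (show w ∉ A ∪ B from fun h => h.elim hA hB),
        Set.indicator_of_notMem hA,
        Set.indicator_of_notMem hB, add_zero]

lemma MP_mono (hd : 1 ≤ d) (he : IsEnv P ω) (β : ℝ) (h : Fin d → ℝ) {n : ℕ}
    {A B : Set (Fin n → Step d)} (hAB : A ⊆ B) : MP P ω β h n A ≤ MP P ω β h n B :=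
  integral_mono (int_prob0 hd he β h n A) (int_prob0 hd he β h n B)
    fun _ => prob_mono' hd _ _ _ hAB

end

variable {Ω : Type} [MeasurableSpace Ω] {P : Measure Ω} [IsProbabilityMeasure P]
  {ω : ℕ → (Fin 1 → ℤ) → Ω → ℝ}

/-- the mean probabilities at the time `m` in terms of the end points -/
lemma mid_mean (he : IsEnv P ω) (β : ℝ) (h v : Fin 1 → ℝ) (m n : ℕ) {r : ℝ} (hr : 8 ≤ r) :
    MP P ω β h (m + n) {w | r < |(pos w m 0 : ℝ) - m * v 0|} ≤
      4 * MP P ω β h (m + n) {w | r / 4 < |(pos w (m + n) 0 : ℝ) - (m + n : ℕ) * v 0|} +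
      4 * MP P ω β h n {w | r / 8 < |(pos w n 0 : ℝ) - n * v 0|} := by
  -- to the right
  have hR : MP P ω β h (m + n) {w | r < (pos w m 0 : ℝ) - m * v 0} ≤
      2 * MP P ω β h (m + n) {w | r / 4 < |(pos w (m + n) 0 : ℝ) - (m + n : ℕ) * v 0|} +
      2 * MP P ω β h n {w | r / 8 < |(pos w n 0 : ℝ) - n * v 0|} := by
    set c : ℤ := ⌊m * v 0 + r⌋ + 1 with hc
    obtain ⟨z0, hz1, hz2, hz3⟩ : ∃ z0 : ℤ, z0 ≤ c ∧ c - 1 ≤ z0 ∧ Even (z0 - m) := by
      rcases Int.even_or_odd (c - m) with h1 | h1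
      · exact ⟨c, le_rfl, by omega, h1⟩
      · refine ⟨c - 1, by omega, le_rfl, ?_⟩
        obtain ⟨s, hs⟩ := h1
        exact ⟨s, by omega⟩
    set a : ℤ := ⌈((m + n : ℕ) : ℝ) * v 0 + r / 2⌉ with ha
    have hc1 : (m * v 0 + r : ℝ) < c := by
      rw [hc]
      push_cast
      exact Int.lt_floor_add_one _
    have hz4 : (m * v 0 + r - 1 : ℝ) < z0 := by
      have : ((c - 1 : ℤ) : ℝ) ≤ z0 := by exact_mod_cast hz2
      push_cast at this
      linarith
    have ha1 : ((m + n : ℕ) : ℝ) * v 0 + r / 2 ≤ a := Int.le_ceil _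
    have ha2 : (a : ℝ) < ((m + n : ℕ) : ℝ) * v 0 + r / 2 + 1 := Int.ceil_lt_add_one _
    have key : ∀ x, prob β h (fun i y => ω i y x) (m + n) {w | r < (pos w m 0 : ℝ) - m * v 0} ≤
        2 * prob β h (fun i y => ω i y x) (m + n)
          {w | r / 4 < |(pos w (m + n) 0 : ℝ) - (m + n : ℕ) * v 0|} +
        2 * prob β h (fun i y => ω (m + i) ((fun _ => z0) + y) x) n
          {w | r / 8 < |(pos w n 0 : ℝ) - n * v 0|} := by
      intro x
      have h1 := mid_right β h (fun i y => ω i y x) m n c a (fun _ => z0) hz3 hz1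
      have h2 : prob β h (fun i y => ω i y x) (m + n) {w | r < (pos w m 0 : ℝ) - m * v 0} ≤
          prob β h (fun i y => ω i y x) (m + n) {w | c ≤ pos w m 0} := by
        apply prob_mono' le_rfl
        intro w hw
        have hw' : r < (pos w m 0 : ℝ) - m * v 0 := hw
        show c ≤ pos w m 0
        rw [hc, Int.add_one_le_iff, Int.floor_lt]
        linarith
      have h3 : prob β h (fun i y => ω i y x) (m + n) {w | a ≤ pos w (m + n) 0} ≤
          prob β h (fun i y => ω i y x) (m + n)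
          {w | r / 4 < |(pos w (m + n) 0 : ℝ) - (m + n : ℕ) * v 0|} := by
        apply prob_mono' le_rfl
        intro w hw
        have hw' : a ≤ pos w (m + n) 0 := hw
        have hw2 : (a : ℝ) ≤ pos w (m + n) 0 := by exact_mod_cast hw'
        show r / 4 < |(pos w (m + n) 0 : ℝ) - (m + n : ℕ) * v 0|
        rw [lt_abs]
        left
        linarith
      have h4 : prob β h (fun i y => ω (m + i) ((fun _ => z0) + y) x) n
          {w : Fin n → Step 1 | (fun _ : Fin 1 => z0) 0 + pos w n 0 < a} ≤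
          prob β h (fun i y => ω (m + i) ((fun _ => z0) + y) x) n
          {w | r / 8 < |(pos w n 0 : ℝ) - n * v 0|} := by
        apply prob_mono' le_rfl
        intro w hw
        have hw' : z0 + pos w n 0 < a := hw
        have hw2 : (z0 : ℝ) + pos w n 0 < a := by exact_mod_cast hw'
        show r / 8 < |(pos w n 0 : ℝ) - n * v 0|
        rw [lt_abs]
        right
        push_cast at ha2
        linarith
      linarith
    have i1 := int_prob0 (d := 1) le_rfl he β h (m + n)
      {w | r / 4 < |(pos w (m + n) 0 : ℝ) - (m + n : ℕ) * v 0|}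
    have i2 := int_prob (d := 1) le_rfl he β h m (fun _ => z0) n
      {w | r / 8 < |(pos w n 0 : ℝ) - n * v 0|}
    have h5 := integral_mono (int_prob0 (d := 1) le_rfl he β h (m + n) _)
      ((i1.const_mul 2).add (i2.const_mul 2)) key
    have h6 := integral_add (i1.const_mul 2) (i2.const_mul 2)
    simp only [Pi.add_apply] at h5
    rw [h6, integral_const_mul, integral_const_mul, mean_shift he] at h5
    exact h5
  -- to the left
  have hL : MP P ω β h (m + n) {w | (pos w m 0 : ℝ) - m * v 0 < -r} ≤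
      2 * MP P ω β h (m + n) {w | r / 4 < |(pos w (m + n) 0 : ℝ) - (m + n : ℕ) * v 0|} +
      2 * MP P ω β h n {w | r / 8 < |(pos w n 0 : ℝ) - n * v 0|} := by
    set c : ℤ := ⌈m * v 0 - r⌉ - 1 with hc
    obtain ⟨z0, hz1, hz2, hz3⟩ : ∃ z0 : ℤ, c ≤ z0 ∧ z0 ≤ c + 1 ∧ Even (z0 - m) := by
      rcases Int.even_or_odd (c - m) with h1 | h1
      · exact ⟨c, le_rfl, by omega, h1⟩
      · refine ⟨c + 1, by omega, le_rfl, ?_⟩
        obtain ⟨s, hs⟩ := h1
        exact ⟨s + 1, by omega⟩
    set a : ℤ := ⌊((m + n : ℕ) : ℝ) * v 0 - r / 2⌋ with ha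
    have hc1 : (c : ℝ) < m * v 0 - r := by
      rw [hc]
      push_cast
      have := Int.ceil_lt_add_one (m * v 0 - r : ℝ)
      linarith
    have hz4 : (z0 : ℝ) < m * v 0 - r + 1 := by
      have : (z0 : ℝ) ≤ ((c + 1 : ℤ) : ℝ) := by exact_mod_cast hz2
      push_cast at this
      linarith
    have ha1 : (a : ℝ) ≤ ((m + n : ℕ) : ℝ) * v 0 - r / 2 := Int.floor_le _
    have ha2 : ((m + n : ℕ) : ℝ) * v 0 - r / 2 < a + 1 := Int.lt_floor_add_one _
    have key : ∀ x, prob β h (fun i y => ω i y x) (m + n)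
          {w | (pos w m 0 : ℝ) - m * v 0 < -r} ≤
        2 * prob β h (fun i y => ω i y x) (m + n)
          {w | r / 4 < |(pos w (m + n) 0 : ℝ) - (m + n : ℕ) * v 0|} +
        2 * prob β h (fun i y => ω (m + i) ((fun _ => z0) + y) x) n
          {w | r / 8 < |(pos w n 0 : ℝ) - n * v 0|} := by
      intro x
      have h1 := mid_left β h (fun i y => ω i y x) m n c a (fun _ => z0) hz3 hz1
      have h2 : prob β h (fun i y => ω i y x) (m + n) {w | (pos w m 0 : ℝ) - m * v 0 < -r} ≤
          prob β h (fun i y => ω i y x) (m + n) {w | pos w m 0 ≤ c} := by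
        apply prob_mono' le_rfl
        intro w hw
        have hw' : (pos w m 0 : ℝ) - m * v 0 < -r := hw
        show pos w m 0 ≤ c
        have h7 : pos w m 0 < ⌈m * v 0 - r⌉ := Int.lt_ceil.2 (by linarith)
        omega
      have h3 : prob β h (fun i y => ω i y x) (m + n) {w | pos w (m + n) 0 < a} ≤
          prob β h (fun i y => ω i y x) (m + n)
          {w | r / 4 < |(pos w (m + n) 0 : ℝ) - (m + n : ℕ) * v 0|} := by
        apply prob_mono' le_rfl
        intro w hw
        have hw' : pos w (m + n) 0 < a := hw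
        have hw2 : (pos w (m + n) 0 : ℝ) < a := by exact_mod_cast hw'
        show r / 4 < |(pos w (m + n) 0 : ℝ) - (m + n : ℕ) * v 0|
        rw [lt_abs]
        right
        linarith
      have h4 : prob β h (fun i y => ω (m + i) ((fun _ => z0) + y) x) n
          {w : Fin n → Step 1 | a ≤ (fun _ : Fin 1 => z0) 0 + pos w n 0} ≤
          prob β h (fun i y => ω (m + i) ((fun _ => z0) + y) x) n
          {w | r / 8 < |(pos w n 0 : ℝ) - n * v 0|} := by
        apply prob_mono' le_rfl
        intro w hw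
        have hw' : a ≤ z0 + pos w n 0 := hw
        have hw2 : (a : ℝ) ≤ z0 + pos w n 0 := by exact_mod_cast hw'
        show r / 8 < |(pos w n 0 : ℝ) - n * v 0|
        rw [lt_abs]
        left
        push_cast at ha2
        linarith
      linarith
    have i1 := int_prob0 (d := 1) le_rfl he β h (m + n)
      {w | r / 4 < |(pos w (m + n) 0 : ℝ) - (m + n : ℕ) * v 0|}
    have i2 := int_prob (d := 1) le_rfl he β h m (fun _ => z0) n
      {w | r / 8 < |(pos w n 0 : ℝ) - n * v 0|}
    have h5 := integral_mono (int_prob0 (d := 1) le_rfl he β h (m + n) _)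
      ((i1.const_mul 2).add (i2.const_mul 2)) key
    have h6 := integral_add (i1.const_mul 2) (i2.const_mul 2)
    simp only [Pi.add_apply] at h5
    rw [h6, integral_const_mul, integral_const_mul, mean_shift he] at h5
    exact h5
  have hU : MP P ω β h (m + n) {w | r < |(pos w m 0 : ℝ) - m * v 0|} ≤
      MP P ω β h (m + n) {w | r < (pos w m 0 : ℝ) - m * v 0} +
      MP P ω β h (m + n) {w | (pos w m 0 : ℝ) - m * v 0 < -r} := by
    unfold MP
    rw [← integral_add (int_prob0 le_rfl he _ _ _ _) (int_prob0 le_rfl he _ _ _ _)]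
    apply integral_mono (int_prob0 le_rfl he _ _ _ _)
      ((int_prob0 le_rfl he _ _ _ _).add (int_prob0 le_rfl he _ _ _ _))
    intro x
    refine le_trans (prob_mono' le_rfl _ _ _ (fun w hw => ?_)) (prob_union le_rfl _ _ _ _ _)
    have hw' : r < |(pos w m 0 : ℝ) - m * v 0| := hw
    rcases lt_abs.1 hw' with h1 | h1
    · exact Or.inl h1
    · right
      show (pos w m 0 : ℝ) - m * v 0 < -r
      linarith
  linarith

/-- localisation of the end point implies localisation at all times -/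
theorem loc_all (he : IsEnv P ω) (β : ℝ) (h v : Fin 1 → ℝ) {b' b : ℝ} (hb : b' < b) (hb0 : 0 < b)
    (H : Tendsto (fun n : ℕ => ∫ x, polymer β h (fun i y => ω i y x) n
        {w | (n : ℝ) ^ b' < dev v w n} ∂P) atTop (𝓝 0)) :
    ∀ ε : ℝ, 0 < ε → ∃ N : ℕ, ∀ n : ℕ, N ≤ n → ∀ i : ℕ, i ≤ n →
      ∫ x, polymer β h (fun i y => ω i y x) n {w | (n : ℝ) ^ b < dev v w i} ∂P ≤ ε := by
  intro ε hε
  simp_rw [polymer_eq, dev_one] at H ⊢
  have hε8 : 0 < ε / 8 := by positivity
  obtain ⟨M, hM⟩ := eventually_atTop.1 (H.eventually (ge_mem_nhds hε8))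
  have t1 : Tendsto (fun n : ℕ => (n : ℝ) ^ b) atTop atTop :=
    (tendsto_rpow_atTop hb0).comp tendsto_natCast_atTop_atTop
  have e1 := t1.eventually_ge_atTop (8 * (M * (1 + |v 0|)))
  have e2 := t1.eventually_ge_atTop 8
  have e3 := pow_dom' hb 8
  obtain ⟨N, hN⟩ := eventually_atTop.1 (((e1.and e2).and e3).and (eventually_ge_atTop 1))
  refine ⟨N, fun n hn i hi => ?_⟩
  obtain ⟨⟨⟨q1, q2⟩, q3⟩, q4⟩ := hN n hn
  have hn0 : (0 : ℝ) < n := by exact_mod_cast q4
  have hend : ∀ m : ℕ, m ≤ n → MP P ω β h m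
      {w | (n : ℝ) ^ b / 8 < |(pos w m 0 : ℝ) - m * v 0|} ≤ ε / 8 := by
    intro m hm
    rcases Nat.lt_or_ge m (max M 1) with h1 | h1
    · have h2 : ({w | (n : ℝ) ^ b / 8 < |(pos w m 0 : ℝ) - m * v 0|} :
          Set (Fin m → Step 1)) = ∅ := by
        ext w
        simp only [Set.mem_setOf_eq, Set.mem_empty_iff_false, iff_false, not_lt]
        have h3 : |(pos w m 0 : ℝ)| ≤ m := by
          have := abs_pos_le w m 0
          exact_mod_cast this
        have h4 : |(pos w m 0 : ℝ) - m * v 0| ≤ m + m * |v 0| := by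
          refine (abs_sub _ _).trans ?_
          rw [abs_mul, abs_of_nonneg (Nat.cast_nonneg m : (0 : ℝ) ≤ m)]
          linarith
        rcases Nat.eq_zero_or_pos M with h0 | h0
        · have : m = 0 := by
            rw [h0] at h1
            simp at h1
            exact h1
          have hm0 : (m : ℝ) = 0 := by exact_mod_cast this
          have h7 : (m : ℝ) + m * |v 0| = 0 := by rw [hm0]; ring
          linarith
        · have h5 : (m : ℝ) ≤ M := by
            have : max M 1 = M := max_eq_left h0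
            rw [this] at h1
            exact_mod_cast h1.le
          have h6 : (m : ℝ) + m * |v 0| ≤ M * (1 + |v 0|) := by
            nlinarith [abs_nonneg (v 0)]
          linarith
      rw [h2]
      unfold MP prob part
      simp only [Set.indicator_empty, Finset.sum_const_zero, zero_div, integral_zero]
      exact hε8.le
    · have h2 : M ≤ m := le_trans (le_max_left _ _) h1
      have h3 : 1 ≤ m := le_trans (le_max_right _ _) h1
      have hm0 : (0 : ℝ) < m := by exact_mod_cast h3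
      refine le_trans (MP_mono le_rfl he β h (fun w hw => ?_)) (hM m h2)
      have hw' : (n : ℝ) ^ b / 8 < |(pos w m 0 : ℝ) - m * v 0| := hw
      show (m : ℝ) ^ b' < |(pos w m 0 : ℝ) - m * v 0|
      have h4 : (m : ℝ) ^ b' ≤ max 1 ((n : ℝ) ^ b') := by
        rcases le_total 0 b' with h5 | h5
        · exact le_trans (Real.rpow_le_rpow hm0.le (by exact_mod_cast hm) h5) (le_max_right _ _)
        · exact le_trans (Real.rpow_le_one_of_one_le_of_nonpos (by exact_mod_cast h3) h5)
            (le_max_left _ _)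
      have h5 : max 1 ((n : ℝ) ^ b') ≤ (n : ℝ) ^ b / 8 := by
        apply max_le <;> linarith
      linarith
  obtain ⟨m, rfl⟩ := Nat.exists_eq_add_of_le hi
  have h1 := mid_mean he β h v i m (r := ((i + m : ℕ) : ℝ) ^ b) q2
  have h2 := hend m (by omega)
  have h3 := hend (i + m) le_rfl
  have h4 : MP P ω β h (i + m) {w | ((i + m : ℕ) : ℝ) ^ b / 4 <
      |(pos w (i + m) 0 : ℝ) - (i + m : ℕ) * v 0|} ≤ ε / 8 := by
    refine le_trans (MP_mono le_rfl he β h (fun w hw => ?_)) h3
    have hw' : ((i + m : ℕ) : ℝ) ^ b / 4 < |(pos w (i + m) 0 : ℝ) - (i + m : ℕ) * v 0| := hw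
    show ((i + m : ℕ) : ℝ) ^ b / 8 < |(pos w (i + m) 0 : ℝ) - (i + m : ℕ) * v 0|
    linarith
  have h5 : MP P ω β h (i + m) {w | ((i + m : ℕ) : ℝ) ^ b < |(pos w i 0 : ℝ) - i * v 0|} ≤ ε := by
    linarith
  exact h5

end Pool.Agent.Run7.h208.WT
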