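import Pool.Agent.Run7.h208.WT.PlaneVar

/-!
# Directed polymers in dimension one: the exponents
-/

set_option autoImplicit false

open MeasureTheory ProbabilityTheory Filter Topology
open scoped ENNReal

namespace Pool.Agent.Run7.h208.WT

open TH967.DP
open Pool.Agent.N662.SE hiding vis res part_eq_zz energy_eq zz site site_inj law win
  measurable_zz
open Pool.Agent.N50.SE.VAR (win sq_le_exp)

variable {Ω : Type} [MeasurableSpace Ω] {P : Measure Ω} [IsProbabilityMeasure P]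
  {ω : ℕ → (Fin 1 → ℤ) → Ω → ℝ}

/-- the lower tail condition holds with the exponent one -/
theorem exists_low {d : ℕ} {Ω : Type} [MeasurableSpace Ω] {P : Measure Ω} [IsProbabilityMeasure P]
    {ω : ℕ → (Fin d → ℤ) → Ω → ℝ} (mgf : S_MGF) (hd : 1 ≤ d) (he : IsEnv P ω)
    (hexp : ∀ b : ℝ, Integrable (fun x => Real.exp (b * ω 1 0 x)) P) (β : ℝ)
    {φ2 : (Fin d → ℝ) → ℝ}
    (hφ2 : ∀ h, Tendsto (fun n : ℕ => (∫ x, logZ β h (fun i y => ω i y x) n ∂P) / n) atTop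
      (𝓝 (φ2 h))) {ξ : ℝ} (hξ : 1 / 2 < ξ) (U : Set (Fin d → ℝ)) :
    LowTail P ω β φ2 U ξ := by
  have hc : S_CONC := Pool.Agent.N523.SE.CONC.main mgf
  have hs : S_SUP := Pool.Agent.N50.SE.SUP.main hc
  have hv : S_CVX := Pool.Agent.N50.SE.CVX.main hc
  have hdb : S_DBL := Pool.Agent.N97.SE.DBL.main hc
  have hr : S_RATE := Pool.Agent.N353.SE.Rate.main hs hdb hv
  have hi' : S_ID := Pool.Agent.N951.SE.t
  have hdx : S_DBLX := Pool.Agent.N803.SE.DBLX.main hc hi'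
  have hrx : S_RATEX := Pool.Agent.N316.SE.Ratex.main hr hdx
  obtain ⟨φ', hconv, hfr, hrate⟩ := hrx d hd Ω P ω he hexp β
  obtain ⟨C1, hC1⟩ := hrate Set.univ (1 / 2) (1 / 4) _ (by norm_num) (by norm_num)
    (by norm_num) (conc_half hc hd he hexp β)
  have hφ' : ∀ (h : Fin d → ℝ) (n : ℕ),
      free P ω β h n ≤ n * φ' h ∧
        n * φ' h ≤ free P ω β h n + C1 * Real.sqrt n * Real.log (n + 1) := by
    intro h n
    refine ⟨hfr h n, ?_⟩
    have h1 := hC1 h (Set.mem_univ _) n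
    rwa [← Real.sqrt_eq_rpow] at h1
  have hint : ∀ (β : ℝ) (h : Fin d → ℝ) (n : ℕ), Integrable (lw ω β h 0 0 n) P := fun β h n =>
    (hc d hd Ω P ω he hexp β h 0 0 n).2.1
  set c0 : ℝ := Real.log (2 * (d : ℝ)) with hc0
  have hlim : ∀ h, Tendsto (fun n : ℕ => (∫ x, logZ β h (fun i y => ω i y x) n ∂P) / n) atTop
      (𝓝 (φ' h - c0)) := by
    intro h
    have h1 : ∀ n : ℕ, 1 ≤ n → (∫ x, logZ β h (fun i y => ω i y x) n ∂P) / n =
        free P ω β h n / n - c0 := by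
      intro n hn
      have hn0 : (0 : ℝ) < n := by exact_mod_cast hn
      rw [integral_logZ hd (hint β h n), sub_div, mul_comm (n : ℝ), mul_div_assoc,
        div_self hn0.ne', mul_one]
    have h2 : Tendsto (fun n : ℕ => free P ω β h n / n) atTop (𝓝 (φ' h)) := by
      have h3 : Tendsto (fun n : ℕ => φ' h - C1 * (Real.sqrt n * Real.log (n + 1) / n)) atTop
          (𝓝 (φ' h - C1 * 0)) := (sqrt_log_div.const_mul C1).const_sub _
      rw [mul_zero, sub_zero] at h3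
      refine tendsto_of_tendsto_of_tendsto_of_le_of_le' h3 tendsto_const_nhds ?_ ?_
      · filter_upwards [eventually_ge_atTop 1] with n hn
        have hn0 : (0 : ℝ) < n := by exact_mod_cast hn
        rw [le_div_iff₀ hn0]
        have h4 := (hφ' h n).2
        have h5 : (φ' h - C1 * (Real.sqrt n * Real.log (n + 1) / n)) * n =
            n * φ' h - C1 * Real.sqrt n * Real.log (n + 1) := by
          field_simp
        rw [h5]
        linarith
      · filter_upwards [eventually_ge_atTop 1] with n hn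
        have hn0 : (0 : ℝ) < n := by exact_mod_cast hn
        rw [div_le_iff₀ hn0, mul_comm]
        exact (hφ' h n).1
    refine (h2.sub_const c0).congr' ?_
    filter_upwards [eventually_ge_atTop 1] with n hn
    exact (h1 n hn).symm
  have hφ : φ2 = fun h => φ' h - c0 := by
    funext h
    exact tendsto_nhds_unique (hφ2 h) (hlim h)
  rw [hφ, lowTail_iff hd]
  exact low_half hc hi' hd he hexp β φ' hφ' U hξ

/-- localisation at single times implies a lower bound of the variance -/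
theorem var_main (hc : S_CONC) (he : IsEnv P ω)
    (hint : ∀ b : ℝ, Integrable (fun x => Real.exp (b * ω 1 0 x)) P)
    (hnc : ¬ ∃ c : ℝ, ∀ᵐ x ∂P, ω 1 0 x = c) {β : ℝ} (hβ : 0 < β) (h v : Fin 1 → ℝ) {b : ℝ}
    (hb0 : 0 ≤ b) (hb1 : b < 1) (H : ∀ᶠ n : ℕ in atTop, ∀ i : ℕ, i ≤ n →
      MP P ω β h n {w | (n : ℝ) ^ b < |(pos w i 0 : ℝ) - i * v 0|} ≤ 1 / 8) {t : ℝ}
    (ht : t < (1 - b) / 2) : ∀ᶠ n : ℕ in atTop, (n : ℝ) ^ (2 * t) ≤
      ∫ x, (lw ω β h 0 0 n x - free P ω β h n) ^ 2 ∂P := by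
  obtain ⟨a₀, b₀, hab, hp, hm⟩ := Pool.Agent.N662.SD.gap (he.meas 1 0) hnc
  set K0 := 1 / (P.map (ω 1 0)).real (Set.Ici b₀) + 1 / (P.map (ω 1 0)).real (Set.Iic a₀) with hK0
  have hK0pos : 0 < K0 := by positivity
  set q := 1 - Real.exp (-(β * (b₀ - a₀))) with hq
  have hqpos : 0 < q := by
    rw [hq]
    have : Real.exp (-(β * (b₀ - a₀))) < 1 := by
      rw [← Real.exp_zero]
      apply Real.exp_lt_exp.2
      have := mul_pos hβ (sub_pos.2 hab)
      linarith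
    linarith
  -- the exponent
  obtain ⟨t1, ht1, ht2⟩ := exists_between (max_lt ht (by linarith : (0 : ℝ) < (1 - b) / 2))
  have ht3 : t < t1 := (le_max_left _ _).trans_lt ht1
  have ht4 : 0 < t1 := (le_max_right _ _).trans_lt ht1
  have e1 := Pool.Agent.N662.SD.pow_dom (s := t1 + (1 + b) / 2) (t := 1) (by linarith)
    (5 * Real.sqrt (3 * K0) * 4 / q)
  have e2 := Pool.Agent.N662.SD.pow_dom (s := 2 * t) (t := 2 * t1) (by linarith) 2
  filter_upwards [H, e1, e2, eventually_ge_atTop 1] with n hn hn1 hn2 hn0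
  have hn3 : (1 : ℝ) ≤ n := by exact_mod_cast hn0
  have hn4 : (0 : ℝ) < n := by linarith
  obtain ⟨hlm, hli, hle, hexp⟩ := hc 1 le_rfl Ω P ω he hint β h 0 0 n
  set F := free P ω β h n with hF
  have hlw : ∀ x, lw ω β h 0 0 n x = Real.log (part β h (fun i y => ω i y x) n Set.univ) := by
    intro x
    simp only [lw, zero_add]
  set E0 : Set Ω := {x | |lw ω β h 0 0 n x - F| ≤ (n : ℝ) ^ t1} with hE0
  have hE0m : MeasurableSet E0 :=
    measurableSet_le ((hlm.sub measurable_const).abs) measurable_const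
  have hsub : E0 = {x | F - (n : ℝ) ^ t1 ≤
        Real.log (part β h (fun i y => ω i y x) n Set.univ) ∧
        Real.log (part β h (fun i y => ω i y x) n Set.univ) ≤
          F - (n : ℝ) ^ t1 + 2 * (n : ℝ) ^ t1} := by
    ext x
    simp only [hE0, Set.mem_setOf_eq]
    rw [hlw, abs_le]
    constructor
    · rintro ⟨h1, h2⟩
      constructor <;> linarith
    · rintro ⟨h1, h2⟩
      constructor <;> linarith
  have hna : 0 ≤ (n : ℝ) ^ b := Real.rpow_nonneg hn4.le _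
  have hnt : 1 ≤ (n : ℝ) ^ t1 := Real.one_le_rpow hn3 ht4.le
  have hnb1 : 1 ≤ (n : ℝ) ^ b := Real.one_le_rpow hn3 hb0
  have key := bound2 (n := n) he hab hp hm hβ h (v := v 0) (r := (n : ℝ) ^ b)
    (R := 2 * (n : ℝ) ^ t1) (Y := F - (n : ℝ) ^ t1) (by positivity) (δ := 1 / 8)
    (fun i => hn (i.val + 1) (by have := i.isLt; omega))
  rw [← hsub, ← hK0, ← hq] at key
  have hpE0 : P.real E0 ≤ 1 / 2 := by
    have k1 : ((win (v 0) ((n : ℝ) ^ b) n).card : ℝ) * K0 ≤ 3 * K0 * (n : ℝ) ^ (1 + b) := by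
      have h1 : ((win (v 0) ((n : ℝ) ^ b) n).card : ℝ) ≤ 3 * (n : ℝ) ^ (1 + b) := by
        refine (Pool.Agent.N50.SE.VAR.card_win_le (n := n) hna).trans ?_
        rw [Real.rpow_add hn4, Real.rpow_one]
        nlinarith
      nlinarith
    have k2 : Real.sqrt ((win (v 0) ((n : ℝ) ^ b) n).card * K0) ≤
        Real.sqrt (3 * K0) * (n : ℝ) ^ ((1 + b) / 2) := by
      refine (Real.sqrt_le_sqrt k1).trans (le_of_eq ?_)
      rw [Real.sqrt_mul (by positivity)]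
      congr 1
      rw [Real.sqrt_eq_rpow, ← Real.rpow_mul hn4.le]
      congr 1
      ring
    have k3 : q * (n * (P.real E0 - 1 / 8)) ≤
        5 * Real.sqrt (3 * K0) * (n : ℝ) ^ (t1 + (1 + b) / 2) := by
      refine key.trans ?_
      calc (2 * (n : ℝ) ^ t1 + 2) *
          Real.sqrt ((win (v 0) ((n : ℝ) ^ b) n).card * K0) ≤
          (5 * (n : ℝ) ^ t1) * (Real.sqrt (3 * K0) * (n : ℝ) ^ ((1 + b) / 2)) := by
            apply mul_le_mul _ k2 (Real.sqrt_nonneg _) (by positivity)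
            linarith
        _ = _ := by rw [Real.rpow_add hn4]; ring
    rw [Real.rpow_one] at hn1
    have k4 : 5 * Real.sqrt (3 * K0) * (n : ℝ) ^ (t1 + (1 + b) / 2) ≤ q / 4 * n := by
      have h1 : q / 4 * (5 * Real.sqrt (3 * K0) * 4 / q * (n : ℝ) ^ (t1 + (1 + b) / 2)) =
          5 * Real.sqrt (3 * K0) * (n : ℝ) ^ (t1 + (1 + b) / 2) := by
        field_simp
      rw [← h1]
      exact mul_le_mul_of_nonneg_left hn1 (by positivity)
    have k5 : (q * n) * (P.real E0 - 1 / 8) ≤ (q * n) * (1 / 4) := by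
      calc _ = q * (n * (P.real E0 - 1 / 8)) := by ring
        _ ≤ _ := k3
        _ ≤ _ := k4
        _ = _ := by ring
    have k6 := le_of_mul_le_mul_left k5 (by positivity)
    linarith
  have hpE0c : 1 / 2 ≤ P.real E0ᶜ := by
    rw [measureReal_compl hE0m, probReal_univ]
    linarith
  -- integrability of the square
  have hli1 : ∀ l : ℝ, |l| ≤ 1 / 4 →
      Integrable (fun x => Real.exp (l * (lw ω β h 0 0 n x - F))) P := by
    intro l hl
    refine ⟨(Real.measurable_exp.comp ((hlm.sub measurable_const).const_mul l)).aestronglyMeasurable,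
      ?_⟩
    rw [hasFiniteIntegral_iff_ofReal (Eventually.of_forall fun x => (Real.exp_pos _).le)]
    exact (hexp l hl).trans_lt ENNReal.ofReal_lt_top
  have hsq : Integrable (fun x => (lw ω β h 0 0 n x - F) ^ 2) P := by
    refine Integrable.mono' (((hli1 (1 / 4) (by rw [abs_of_pos] <;> norm_num)).add
      (hli1 (-(1 / 4)) (by rw [abs_neg, abs_of_pos] <;> norm_num))).const_mul 32)
      ((hlm.sub measurable_const).pow_const 2).aestronglyMeasurable ?_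
    filter_upwards with x
    rw [Real.norm_eq_abs, abs_of_nonneg (sq_nonneg _)]
    exact sq_le_exp _
  -- Markov
  have hmk : (n : ℝ) ^ (2 * t1) * P.real E0ᶜ ≤ ∫ x, (lw ω β h 0 0 n x - F) ^ 2 ∂P := by
    have h1 : ∫ x in E0ᶜ, (n : ℝ) ^ (2 * t1) ∂P = (n : ℝ) ^ (2 * t1) * P.real E0ᶜ := by
      rw [setIntegral_const, smul_eq_mul, mul_comm]
    rw [← h1]
    calc ∫ x in E0ᶜ, (n : ℝ) ^ (2 * t1) ∂P ≤ ∫ x in E0ᶜ, (lw ω β h 0 0 n x - F) ^ 2 ∂P := by
          apply setIntegral_mono_on (integrable_const _).integrableOn hsq.integrableOn hE0m.compl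
          intro x hx
          have h2 : (n : ℝ) ^ t1 < |lw ω β h 0 0 n x - F| := by
            simpa [hE0] using hx
          have h3 : (n : ℝ) ^ (2 * t1) = ((n : ℝ) ^ t1) ^ 2 := by
            rw [← Real.rpow_natCast, ← Real.rpow_mul hn4.le]
            congr 1
            push_cast
            ring
          rw [h3, ← sq_abs (lw ω β h 0 0 n x - F)]
          exact pow_le_pow_left₀ (by positivity) h2.le 2
      _ ≤ ∫ x, (lw ω β h 0 0 n x - F) ^ 2 ∂P :=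
          setIntegral_le_integral hsq (Eventually.of_forall fun x => sq_nonneg _)
  have hfin : (n : ℝ) ^ (2 * t) ≤ (n : ℝ) ^ (2 * t1) * (1 / 2) := by linarith
  refine hfin.trans (le_trans ?_ hmk)
  exact mul_le_mul_of_nonneg_left hpE0c (Real.rpow_nonneg hn4.le _)

/-- The typical wandering exponent of the polymer with drift `h` around the line of slope `v`: the
infimum of the `b > 0` such that `E P_n (‖S_i - i v‖ > n^b) → 0` for `n → ∞`, uniformly for the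
times `i ≤ n` (`dev v w i` is the Euclidean norm of `S_i - i v`). -/
noncomputable def wanderTyp {d : ℕ} {Ω : Type} [MeasurableSpace Ω] (P : Measure Ω)
    (ω : ℕ → (Fin d → ℤ) → Ω → ℝ) (β : ℝ) (h v : Fin d → ℝ) : ℝ :=
  sInf {b : ℝ | 0 < b ∧ ∀ ε : ℝ, 0 < ε → ∃ N : ℕ, ∀ n : ℕ, N ≤ n → ∀ i : ℕ, i ≤ n →
    ∫ x, polymer β h (fun i y => ω i y x) n {w | (n : ℝ) ^ b < dev v w i} ∂P ≤ ε}

omit [IsProbabilityMeasure P] in
lemma two_mem_typ (β : ℝ) (h v : Fin 1 → ℝ) : (2 : ℝ) ∈ {b : ℝ | 0 < b ∧ ∀ ε : ℝ, 0 < ε →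
    ∃ N : ℕ, ∀ n : ℕ, N ≤ n → ∀ i : ℕ, i ≤ n →
    ∫ x, polymer β h (fun i y => ω i y x) n {w | (n : ℝ) ^ b < dev v w i} ∂P ≤ ε} := by
  refine ⟨by norm_num, fun ε hε => ?_⟩
  refine ⟨⌈1 + |v 0|⌉₊, fun n hn i hi => ?_⟩
  have h1 : ({w | (n : ℝ) ^ (2 : ℝ) < dev v w i} : Set (Fin n → Step 1)) = ∅ := by
    ext w
    simp only [Set.mem_setOf_eq, Set.mem_empty_iff_false, iff_false, not_lt]
    rw [dev_one, Real.rpow_two]
    have h2 : 1 + |v 0| ≤ n := (Nat.le_ceil _).trans (by exact_mod_cast hn)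
    have h3 : |(pos w i 0 : ℝ)| ≤ n := by
      have := abs_pos_le w i 0
      exact_mod_cast this
    have h4 : (i : ℝ) ≤ n := by exact_mod_cast hi
    have h5 : |(pos w i 0 : ℝ) - i * v 0| ≤ n + n * |v 0| := by
      refine (abs_sub _ _).trans ?_
      rw [abs_mul, abs_of_nonneg (Nat.cast_nonneg i : (0 : ℝ) ≤ i)]
      have := mul_le_mul_of_nonneg_right h4 (abs_nonneg (v 0))
      linarith
    have h6 : (0 : ℝ) ≤ n := Nat.cast_nonneg n
    nlinarith
  rw [h1]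
  simp_rw [polymer_eq]
  unfold prob part
  simp only [Set.indicator_empty, Finset.sum_const_zero, zero_div, integral_zero]
  exact hε.le

/-- the relation `χ ≥ (1 - ν)/2` with the typical wandering exponent -/
theorem chi_typ (hc : S_CONC) (he : IsEnv P ω)
    (hint : ∀ b : ℝ, Integrable (fun x => Real.exp (b * ω 1 0 x)) P)
    (hnc : ¬ ∃ c : ℝ, ∀ᵐ x ∂P, ω 1 0 x = c) {β : ℝ} (hβ : 0 < β) (h v : Fin 1 → ℝ) :
    (1 - wanderTyp P ω β h v) / 2 ≤ chi P ω β h := by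
  apply le_chi hc le_rfl he hint
  intro t ht0 ht
  have h1 : wanderTyp P ω β h v < 1 - 2 * t := by linarith
  obtain ⟨b, ⟨hb0, hb⟩, hb1⟩ := exists_lt_of_csInf_lt ⟨2, two_mem_typ β h v⟩ h1
  obtain ⟨N, hN⟩ := hb (1 / 8) (by norm_num)
  have h2 := var_main hc he hint hnc hβ h v hb0.le (by linarith)
    (eventually_atTop.2 ⟨N, fun n hn i hi => by
      have h3 := hN n hn i hi
      simp_rw [polymer_eq, dev_one] at h3
      exact h3⟩) (t := t) (by linarith)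
  filter_upwards [h2] with n hn
  rw [variance_logZ le_rfl ((hc 1 le_rfl Ω P ω he hint β h 0 0 n).2.1)]
  exact hn

/-- the exponents in dimension one -/
theorem plane (mgf : S_MGF) (he : IsEnv P ω)
    (hexp : ∀ b : ℝ, Integrable (fun x => Real.exp (b * ω 1 0 x)) P)
    (hnc : ¬ ∃ c : ℝ, ∀ᵐ x ∂P, ω 1 0 x = c) {β : ℝ} (hβ : 0 < β) :
    ∃ φ : (Fin 1 → ℝ) → ℝ,
    (∀ h, Tendsto (fun n : ℕ => (∫ x, logZ β h (fun i y => ω i y x) n ∂P) / n) atTop
      (𝓝 (φ h))) ∧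
    (∀ h v : Fin 1 → ℝ, (1 - wanderTyp P ω β h v) / 2 ≤ chi P ω β h) ∧
    ∀ᵐ h : Fin 1 → ℝ, ∃ v : Fin 1 → ℝ,
      (∀ (U : Set (Fin 1 → ℝ)) (ξ : ℝ), IsOpen U → h ∈ U → 0 < ξ → ξ < 1 →
        LowTail P ω β φ U ξ → ∀ b : ℝ, (1 + ξ) / 2 < b → ∀ ε : ℝ, 0 < ε → ∃ N : ℕ,
        ∀ n : ℕ, N ≤ n → ∀ i : ℕ, i ≤ n →
          ∫ x, polymer β h (fun i y => ω i y x) n {w | (n : ℝ) ^ b < dev v w i} ∂P ≤ ε) ∧
      2 * wanderTyp P ω β h v - 1 ≤ expLowLoc P ω β φ h ∧
      (1 - expLowLoc P ω β φ h) / 4 ≤ chi P ω β h ∧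
      chi P ω β h ≤ expLow P ω β φ h ∧ expLow P ω β φ h ≤ expLowLoc P ω β φ h ∧
      1 / 5 ≤ expLowLoc P ω β φ h := by
  have hc : S_CONC := Pool.Agent.N523.SE.CONC.main mgf
  obtain ⟨φ, h1, -, h3⟩ := exps (P := P) (ω := ω) mgf le_rfl he hexp β
  obtain ⟨φ2, g1, -, g3⟩ := lower (P := P) (ω := ω) mgf le_rfl he hexp β
  have hφ : φ2 = φ := by
    funext h
    exact tendsto_nhds_unique (g1 h) (h1 h)
  subst hφ
  refine ⟨φ2, h1, fun h v => chi_typ hc he hexp hnc hβ h v, ?_⟩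
  filter_upwards [g3] with h hh
  obtain ⟨v, hv⟩ := hh
  obtain ⟨-, -, k1, k2, k3, -⟩ := h3 h
  have hloc : ∀ (U : Set (Fin 1 → ℝ)) (ξ : ℝ), IsOpen U → h ∈ U → 0 < ξ → ξ < 1 →
        LowTail P ω β φ2 U ξ → ∀ b : ℝ, (1 + ξ) / 2 < b → ∀ ε : ℝ, 0 < ε → ∃ N : ℕ,
        ∀ n : ℕ, N ≤ n → ∀ i : ℕ, i ≤ n →
          ∫ x, polymer β h (fun i y => ω i y x) n {w | (n : ℝ) ^ b < dev v w i} ∂P ≤ ε := by
    intro U ξ hU hhU hξ0 hξ1 hξ b hb
    obtain ⟨b', hb1, hb2⟩ := exists_between hb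
    exact loc_all he β h v hb2 (by linarith) (hv U ξ hU hhU hξ0 hξ1 hξ b' hb1)
  have hhalf : expLowLoc P ω β φ2 h ≤ 1 / 2 := by
    apply le_of_forall_gt_imp_ge_of_dense
    intro ζ hζ
    exact csInf_le ⟨0, fun _ hξ => hξ.1.le⟩ ⟨by linarith, Set.univ, isOpen_univ, Set.mem_univ _,
      exists_low mgf le_rfl he hexp β h1 hζ _⟩
  have hbT : BddBelow {b : ℝ | 0 < b ∧ ∀ ε : ℝ, 0 < ε → ∃ N : ℕ, ∀ n : ℕ, N ≤ n → ∀ i : ℕ, i ≤ n →
    ∫ x, polymer β h (fun i y => ω i y x) n {w | (n : ℝ) ^ b < dev v w i} ∂P ≤ ε} :=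
    ⟨0, fun _ hb => hb.1.le⟩
  have hne : {ξ : ℝ | 0 < ξ ∧ ∃ U : Set (Fin 1 → ℝ), IsOpen U ∧ h ∈ U ∧
        LowTail P ω β φ2 U ξ}.Nonempty :=
    ⟨1, one_pos, Set.univ, isOpen_univ, Set.mem_univ _,
      exists_low mgf le_rfl he hexp β h1 (by norm_num) _⟩
  have h2nu : 2 * wanderTyp P ω β h v - 1 ≤ expLowLoc P ω β φ2 h := by
    apply le_csInf hne
    rintro ξ ⟨hξ0, U, hU, hhU, hξ⟩
    rcases lt_or_ge ξ 1 with hx | hx
    · suffices hs : wanderTyp P ω β h v ≤ (1 + ξ) / 2 by linarith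
      apply le_of_forall_gt_imp_ge_of_dense
      intro b hb
      exact csInf_le hbT ⟨by linarith, hloc U ξ hU hhU hξ0 hx hξ b hb⟩
    · obtain ⟨ξ', ⟨hξ'0, U', hU', hhU', hξ'⟩, hlt⟩ :=
        exists_lt_of_csInf_lt hne (show sInf {ξ : ℝ | 0 < ξ ∧ ∃ U : Set (Fin 1 → ℝ), IsOpen U ∧
          h ∈ U ∧ LowTail P ω β φ2 U ξ} < 1 from lt_of_le_of_lt hhalf (by norm_num))
      suffices hs : wanderTyp P ω β h v ≤ (1 + ξ') / 2 by linarith
      apply le_of_forall_gt_imp_ge_of_dense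
      intro b hb
      exact csInf_le hbT ⟨by linarith, hloc U' ξ' hU' hhU' hξ'0 hlt hξ' b hb⟩
  have hchi := chi_typ hc he hexp hnc hβ h v
  refine ⟨v, hloc, h2nu, by linarith, k1, k2, by linarith⟩

end Pool.Agent.Run7.h208.WT
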