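import Pool.Agent.Run7.h208.WT.Plane2
import Pool.Agent.N692.SD.AC
import Pool.Agent.N50.SE.Var

/-!
# Directed polymers in dimension one: lower bound of the variance from the localisation at single
times

The anti-concentration bound is the one of `Pool.Agent.N692.SD.AC` and `Pool.Agent.N50.SE.Var`, with
the mean number of visits to the tube in place of a deterministic number of visits.
-/

set_option autoImplicit false

open MeasureTheory ProbabilityTheory Filter Topology

namespace Pool.Agent.Run7.h208.WT

open TH967.DP (clip clip_mono clip_nonneg clip_le key_ineq score measurable_score integrable_bdd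
  abs_score_le one_site integral_score integral_score_sq mp_update integral_resample abs_clip_le)
open Pool.Agent.N692.SD.AC (occ Ev XX ZZ occ_nonneg occ_le_one measurable_occ measurableSet_Ev
  measurable_clipY site_ineq score_sum_sq)

/-- anti-concentration with the mean number of visits -/
theorem ac2 (ι W : Type) [Fintype ι] [DecidableEq ι] [Fintype W] [Nonempty W]
    (μ : Measure ℝ) [IsProbabilityMeasure μ] (a b : ℝ) (hab : a < b)
    (hp : 0 < μ.real (Set.Ici b)) (hm : 0 < μ.real (Set.Iic a)) (β : ℝ) (hβ : 0 < β)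
    (T : Finset ι) (c : W → ℝ) (hc : ∀ w, 0 < c w) (vis : W → Finset ι)
    (Y : (ι → ℝ) → ℝ) (hYm : Measurable Y)
    (hYT : ∀ η η' : ι → ℝ, (∀ s, s ∉ T → η s = η' s) → Y η = Y η') (L : ℝ) (hL : 0 ≤ L) :
    (1 - Real.exp (-(β * (b - a)))) * ∫ η, (∑ s ∈ T, occ β c vis s η) *
      (Ev β c vis Y L).indicator (fun _ => (1 : ℝ)) η ∂(Measure.pi fun _ : ι => μ) ≤
    (L + 2) * Real.sqrt (T.card * (1 / μ.real (Set.Ici b) + 1 / μ.real (Set.Iic a))) := by
  set q := 1 - Real.exp (-(β * (b - a))) with hq
  set π := (Measure.pi fun _ : ι => μ) with hπ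
  set K := 1 / μ.real (Set.Ici b) + 1 / μ.real (Set.Iic a) with hK
  have hKpos : 0 < K := by positivity
  rcases Finset.eq_empty_or_nonempty T with hT | hT
  · rw [hT]
    simp
  have hmS : MeasurableSet (Ev β c vis Y L) := measurableSet_Ev β c vis hYm L
  -- left side as a sum
  have hint1 : ∀ s, Integrable (fun η => q * occ β c vis s η *
        (Ev β c vis Y L).indicator (fun _ => (1 : ℝ)) η) π := by
    intro s
    apply integrable_bdd (C := |q| * 1 * 1)
      (((measurable_occ β c vis s).const_mul q).mul (measurable_const.indicator hmS))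
    intro η
    simp only [Pi.mul_apply]
    rw [abs_mul, abs_mul]
    have h1 : |occ β c vis s η| ≤ 1 := by
      rw [abs_of_nonneg (occ_nonneg β hc vis s η)]; exact occ_le_one β hc vis s η
    have h2 : |(Ev β c vis Y L).indicator (fun _ => (1 : ℝ)) η| ≤ 1 := by
      by_cases h : η ∈ Ev β c vis Y L
      · rw [Set.indicator_of_mem h]; simp
      · rw [Set.indicator_of_notMem h]; simp
    gcongr
  have hint2 : ∀ s, Integrable (fun η : ι → ℝ => clip (Y η) L (XX β c vis η) *
      score μ a b (η s)) π := by
    intro s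
    apply integrable_bdd (C := (L + 2) * K) ((measurable_clipY β c vis hYm L).mul
      ((measurable_score μ a b).comp (measurable_pi_apply s)))
    intro η
    simp only [Pi.mul_apply, Function.comp]
    rw [abs_mul]
    exact mul_le_mul (abs_clip_le hL _) (abs_score_le μ a b _) (abs_nonneg _) (by linarith)
  have lhs : q * ∫ η, (∑ s ∈ T, occ β c vis s η) *
      (Ev β c vis Y L).indicator (fun _ => (1 : ℝ)) η ∂π =
      ∑ s ∈ T, ∫ η, q * occ β c vis s η *
        (Ev β c vis Y L).indicator (fun _ => (1 : ℝ)) η ∂π := by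
    rw [← integral_finsetSum _ (fun s _ => hint1 s), ← integral_const_mul]
    congr 1
    funext η
    rw [← Finset.sum_mul, ← Finset.mul_sum]
    ring
  rw [lhs]
  calc ∑ s ∈ T, ∫ η, q * occ β c vis s η *
        (Ev β c vis Y L).indicator (fun _ => (1 : ℝ)) η ∂π
      ≤ ∑ s ∈ T, ∫ η, clip (Y η) L (XX β c vis η) * score μ a b (η s) ∂π :=
        Finset.sum_le_sum (fun s hs => site_ineq μ hab hp hm hβ hc vis T hs hYm hYT hL)
    _ = ∫ η, clip (Y η) L (XX β c vis η) * (∑ s ∈ T, score μ a b (η s)) ∂π := by
        rw [← integral_finsetSum _ (fun s _ => hint2 s)]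
        simp_rw [Finset.mul_sum]
    _ ≤ (L + 2) * Real.sqrt (T.card * K) := by
        set t := Real.sqrt (T.card * K) with ht
        have hcpos : (0 : ℝ) < T.card := by exact_mod_cast hT.card_pos
        have htpos : 0 < t := Real.sqrt_pos.2 (by positivity)
        have ht2 : t ^ 2 = T.card * K := Real.sq_sqrt (by positivity)
        have hmeasG : Measurable (fun η : ι → ℝ => ∑ s ∈ T, score μ a b (η s)) := by
          apply Finset.measurable_sum
          intro s _
          exact (measurable_score μ a b).comp (measurable_pi_apply s)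
        have hE2 : ∫ η, (∑ s ∈ T, score μ a b (η s)) ^ 2 ∂π = t ^ 2 := by
          rw [ht2]
          exact score_sum_sq μ hab hp hm T
        have hGb : ∀ η : ι → ℝ, |∑ s ∈ T, score μ a b (η s)| ≤ T.card * K := by
          intro η
          refine (Finset.abs_sum_le_sum_abs _ _).trans ?_
          refine (Finset.sum_le_sum (fun s _ => abs_score_le μ a b (η s))).trans ?_
          rw [Finset.sum_const, nsmul_eq_mul]
        have hintG2 : Integrable (fun η : ι → ℝ => (∑ s ∈ T, score μ a b (η s)) ^ 2) π := by
          apply integrable_bdd (C := (T.card * K) ^ 2) (hmeasG.pow_const 2)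
          intro η
          rw [abs_pow]
          exact pow_le_pow_left₀ (abs_nonneg _) (hGb η) 2
        have hintl : Integrable (fun η : ι → ℝ => clip (Y η) L (XX β c vis η) *
            (∑ s ∈ T, score μ a b (η s))) π := by
          apply integrable_bdd (C := (L + 2) * (T.card * K))
            ((measurable_clipY β c vis hYm L).mul hmeasG)
          intro η
          simp only [Pi.mul_apply]
          rw [abs_mul]
          exact mul_le_mul (abs_clip_le hL _) (hGb η) (abs_nonneg _) (by linarith)
        calc ∫ η, clip (Y η) L (XX β c vis η) * (∑ s ∈ T, score μ a b (η s)) ∂π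
            ≤ ∫ η, (L + 2) * (((∑ s ∈ T, score μ a b (η s)) ^ 2 / t + t) / 2) ∂π := by
              apply integral_mono hintl
              · exact (((hintG2.div_const _).add (integrable_const _)).div_const _).const_mul _
              · intro η
                simp only
                set G := ∑ s ∈ T, score μ a b (η s) with hGdef
                have h1 : |G| ≤ (G ^ 2 / t + t) / 2 := by
                  rw [le_div_iff₀ (by norm_num : (0:ℝ) < 2), ← sub_nonneg]
                  have : G ^ 2 / t + t - |G| * 2 = (|G| - t) ^ 2 / t := by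
                    rw [← sq_abs G]
                    field_simp
                    ring
                  rw [this]
                  positivity
                calc clip (Y η) L (XX β c vis η) * G ≤ |clip (Y η) L (XX β c vis η) * G| :=
                      le_abs_self _
                  _ = |clip (Y η) L (XX β c vis η)| * |G| := abs_mul _ _
                  _ ≤ (L + 2) * ((G ^ 2 / t + t) / 2) :=
                    mul_le_mul (abs_clip_le hL _) h1 (abs_nonneg _) (by linarith)
          _ = (L + 2) * t := by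
              rw [integral_const_mul, integral_div, integral_add (hintG2.div_const _)
                (integrable_const _), integral_div, hE2]
              simp only [integral_const, probReal_univ, one_smul]
              field_simp
              ring

open Pool.Agent.N662.SE hiding vis res part_eq_zz energy_eq zz site site_inj law win
  measurable_zz
open TH967.DP (Step pos energy)
open Pool.Agent.N50.SE.VAR (dr res pt pt_inj vis win card_win_le law zz part_eq_zz site
  site_inj measurable_zz energy_eq)

/-- the number of visits to the tube as a sum of probabilities -/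
lemma sum_occ_eq {n : ℕ} (β : ℝ) (h : Fin 1 → ℝ) (v r : ℝ) (e : ℕ → (Fin 1 → ℤ) → ℝ) :
    ∑ s ∈ win v r n, occ β (fun w : Fin n → Step 1 => dr h w) vis s (res n e) =
      ∑ i : Fin n, prob β h e n
        {w | |(pos w (i.val + 1) 0 : ℝ) - ((i.val + 1 : ℕ) : ℝ) * v| ≤ r} := by
  classical
  have hZ : ZZ β (fun w : Fin n → Step 1 => dr h w) vis (res n e) = part β h e n Set.univ := by
    rw [part_eq_zz]
    unfold ZZ zz
    simp only [Set.indicator_univ]
  have hw : ∀ w : Fin n → Step 1, dr h w * Real.exp (β * ∑ t ∈ vis w, res n e t) =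
      Real.exp (β * energy e w + ∑ k, h k * (pos w n k : ℝ)) := by
    intro w
    rw [energy_eq, dr, ← Real.exp_add, add_comm]
  unfold occ
  rw [← Finset.sum_div, Finset.sum_comm, hZ]
  unfold prob
  rw [← Finset.sum_div]
  congr 1
  unfold part
  conv_rhs => rw [Finset.sum_comm]
  apply Finset.sum_congr rfl
  intro w _
  simp only [hw w]
  set X := Real.exp (β * energy e w + ∑ k, h k * (pos w n k : ℝ)) with hX
  have h1 : ∀ i : Fin n, ({w | |(pos w (i.val + 1) 0 : ℝ) - ((i.val + 1 : ℕ) : ℝ) * v| ≤ r} :
      Set (Fin n → Step 1)).indicator (fun w => Real.exp (β * energy e w +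
        ∑ k, h k * (pos w n k : ℝ))) w = if site w i ∈ win v r n then X else 0 := by
    intro i
    have h2 : site w i ∈ win v r n ↔
        |(pos w (i.val + 1) 0 : ℝ) - ((i.val + 1 : ℕ) : ℝ) * v| ≤ r := by
      unfold win
      rw [Finset.mem_filter]
      simp [site]
    by_cases h3 : |(pos w (i.val + 1) 0 : ℝ) - ((i.val + 1 : ℕ) : ℝ) * v| ≤ r
    · rw [if_pos (h2.2 h3), Set.indicator_of_mem (show w ∈ _ from h3)]
    · rw [if_neg (fun h => h3 (h2.1 h)), Set.indicator_of_notMem (show w ∉ _ from h3)]
  simp_rw [h1]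
  rw [← Finset.sum_filter, ← Finset.sum_filter, Finset.sum_const, Finset.sum_const]
  congr 1
  apply Finset.card_bij' (i := fun s hs => s.1) (j := fun i hi => site w i)
  · intro s hs
    rw [Finset.mem_filter] at hs ⊢
    refine ⟨Finset.mem_univ _, ?_⟩
    obtain ⟨i, -, hi⟩ := Finset.mem_image.1 (show s ∈ vis w from hs.2)
    rw [← hi]
    have : (site w i).1 = i := rfl
    rw [this, hi]
    exact hs.1
  · intro i hi
    rw [Finset.mem_filter] at hi ⊢
    exact ⟨hi.2, Finset.mem_image_of_mem _ (Finset.mem_univ _)⟩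
  · intro s hs
    rw [Finset.mem_filter] at hs
    obtain ⟨i, -, hi⟩ := Finset.mem_image.1 (show s ∈ vis w from hs.2)
    rw [← hi]
    rfl
  · intro i hi
    rfl

/-- the main bound -/
theorem bound2 {n : ℕ} {Ω : Type} [MeasurableSpace Ω] {P : Measure Ω}
    [IsProbabilityMeasure P] {ω : ℕ → (Fin 1 → ℤ) → Ω → ℝ} (he : IsEnv P ω) {a₀ b₀ : ℝ}
    (hab : a₀ < b₀)
    (hp : 0 < (P.map (ω 1 0)).real (Set.Ici b₀)) (hm : 0 < (P.map (ω 1 0)).real (Set.Iic a₀))
    {β : ℝ} (hβ : 0 < β) (h : Fin 1 → ℝ) {v r : ℝ} {R Y : ℝ} (hR : 0 ≤ R) {δ : ℝ}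
    (H : ∀ i : Fin n, MP P ω β h n
      {w | r < |(pos w (i.val + 1) 0 : ℝ) - ((i.val + 1 : ℕ) : ℝ) * v|} ≤ δ) :
    (1 - Real.exp (-(β * (b₀ - a₀)))) * (n * (P.real {x |
        Y ≤ Real.log (part β h (fun i y => ω i y x) n Set.univ) ∧
        Real.log (part β h (fun i y => ω i y x) n Set.univ) ≤ Y + R} - δ)) ≤
    (R + 2) * Real.sqrt ((win v r n).card *
      (1 / (P.map (ω 1 0)).real (Set.Ici b₀) + 1 / (P.map (ω 1 0)).real (Set.Iic a₀))) := by
  classical
  set μ := P.map (ω 1 0) with hμ
  have hprob : IsProbabilityMeasure μ :=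
    Measure.isProbabilityMeasure_map (he.meas 1 0).aemeasurable
  have hq : 0 ≤ 1 - Real.exp (-(β * (b₀ - a₀))) := by
    have : Real.exp (-(β * (b₀ - a₀))) ≤ 1 := Real.exp_le_one_iff.2 (by nlinarith)
    linarith
  have key := ac2 (Pool.Agent.N50.SE.VAR.Site n) (Fin n → Step 1) μ a₀ b₀ hab hp hm β hβ
    (win v r n) (fun w => dr h w) (fun w => Real.exp_pos _) vis
    (fun _ => Y) measurable_const (fun _ _ _ => rfl) R hR
  refine le_trans (mul_le_mul_of_nonneg_left ?_ hq) key
  have hres : Measurable (fun x => res n (fun i y => ω i y x)) := by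
    rw [measurable_pi_iff]
    intro s
    exact he.meas _ _
  have hlaw : P.map (fun x => res n (fun i y => ω i y x)) =
      Measure.pi (fun _ : Pool.Agent.N50.SE.VAR.Site n => μ) :=
    law he (κ := Pool.Agent.N50.SE.VAR.Site n) (φ := pt) pt_inj
  have hZ : ∀ x, XX β (fun w : Fin n → Step 1 => dr h w) vis (res n (fun i y => ω i y x)) =
      Real.log (part β h (fun i y => ω i y x) n Set.univ) := by
    intro x
    rw [part_eq_zz]
    unfold XX ZZ zz
    simp only [Set.indicator_univ]
  set F : (Pool.Agent.N50.SE.VAR.Site n → ℝ) → ℝ := fun η => (∑ s ∈ win v r n,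
      occ β (fun w : Fin n → Step 1 => dr h w) vis s η) *
      (Ev β (fun w : Fin n → Step 1 => dr h w) vis (fun _ => Y) R).indicator
        (fun _ => (1 : ℝ)) η with hF
  have hmE : MeasurableSet (Ev β (fun w : Fin n → Step 1 => dr h w) vis (fun _ => Y) R) :=
    measurableSet_Ev β _ vis measurable_const R
  have hFm : Measurable F := by
    apply Measurable.mul
    · apply Finset.measurable_sum
      intro s _
      exact measurable_occ β _ vis s
    · exact measurable_const.indicator hmE
  rw [← hlaw, integral_map hres.aemeasurable hFm.aestronglyMeasurable]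
  set E : Set Ω := {x | Y ≤ Real.log (part β h (fun i y => ω i y x) n Set.univ) ∧
        Real.log (part β h (fun i y => ω i y x) n Set.univ) ≤ Y + R} with hE
  have hEm : MeasurableSet E := by
    have : E = (fun x => res n (fun i y => ω i y x)) ⁻¹'
        (Ev β (fun w : Fin n → Step 1 => dr h w) vis (fun _ => Y) R) := by
      ext x
      show _ ↔ _ ∧ _
      rw [hZ]
      rfl
    rw [this]
    exact hres hmE
  set G : Fin n → Ω → ℝ := fun i x => prob β h (fun i y => ω i y x) n
    {w | r < |(pos w (i.val + 1) 0 : ℝ) - ((i.val + 1 : ℕ) : ℝ) * v|} with hG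
  have hGi : ∀ i, Integrable (G i) P := fun i => int_prob0 le_rfl he β h n _
  have hFx : ∀ x, (n : ℝ) * E.indicator (fun _ => (1 : ℝ)) x - ∑ i, G i x ≤
      F (res n (fun i y => ω i y x)) := by
    intro x
    have h1 := sum_occ_eq (n := n) β h v r (fun i y => ω i y x)
    have h2 : ∀ i : Fin n, prob β h (fun i y => ω i y x) n
        {w | |(pos w (i.val + 1) 0 : ℝ) - ((i.val + 1 : ℕ) : ℝ) * v| ≤ r} = 1 - G i x := by
      intro i
      have h3 : ({w | |(pos w (i.val + 1) 0 : ℝ) - ((i.val + 1 : ℕ) : ℝ) * v| ≤ r} :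
          Set (Fin n → Step 1)) =
          {w | r < |(pos w (i.val + 1) 0 : ℝ) - ((i.val + 1 : ℕ) : ℝ) * v|}ᶜ := by
        ext w
        simp
      rw [h3, prob_compl le_rfl]
    have hG0 : ∀ i, 0 ≤ G i x := fun i => prob_nonneg _ _ _ _
    show _ ≤ (∑ s ∈ win v r n, occ β (fun w : Fin n → Step 1 => dr h w) vis s
      (res n (fun i y => ω i y x))) * _
    rw [h1]
    simp_rw [h2]
    rw [Finset.sum_sub_distrib]
    simp only [Finset.sum_const, Finset.card_univ, Fintype.card_fin, nsmul_eq_mul, mul_one]
    have hsum : 0 ≤ ∑ i, G i x := Finset.sum_nonneg fun i _ => hG0 i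
    have hiff : res n (fun i y => ω i y x) ∈
        Ev β (fun w : Fin n → Step 1 => dr h w) vis (fun _ => Y) R ↔ x ∈ E := by
      show _ ∧ _ ↔ _
      rw [hZ]
      rfl
    by_cases hx : x ∈ E
    · rw [Set.indicator_of_mem hx, Set.indicator_of_mem (hiff.2 hx)]
      linarith
    · rw [Set.indicator_of_notMem hx, Set.indicator_of_notMem (fun h => hx (hiff.1 h))]
      linarith
  have hIE : Integrable (E.indicator (fun _ => (1 : ℝ))) P :=
    (integrable_const (1 : ℝ)).indicator hEm
  have hFi : Integrable (fun x => F (res n (fun i y => ω i y x))) P := by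
    apply (integrable_const ((n : ℝ))).mono' (hFm.comp hres).aestronglyMeasurable
    refine Eventually.of_forall fun x => ?_
    have h1 := sum_occ_eq (n := n) β h v r (fun i y => ω i y x)
    rw [Real.norm_eq_abs]
    show |(∑ s ∈ win v r n, occ β (fun w : Fin n → Step 1 => dr h w) vis s
      (res n (fun i y => ω i y x))) * _| ≤ _
    rw [h1]
    have h2 : 0 ≤ ∑ i : Fin n, prob β h (fun i y => ω i y x) n
        {w | |(pos w (i.val + 1) 0 : ℝ) - ((i.val + 1 : ℕ) : ℝ) * v| ≤ r} :=
      Finset.sum_nonneg fun i _ => prob_nonneg _ _ _ _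
    have h3 : ∑ i : Fin n, prob β h (fun i y => ω i y x) n
        {w | |(pos w (i.val + 1) 0 : ℝ) - ((i.val + 1 : ℕ) : ℝ) * v| ≤ r} ≤ n := by
      calc _ ≤ ∑ _i : Fin n, (1 : ℝ) :=
            Finset.sum_le_sum fun i _ => prob_le_one le_rfl _ _ _ _
        _ = n := by simp
    rw [abs_mul, abs_of_nonneg h2]
    by_cases hx : res n (fun i y => ω i y x) ∈
        Ev β (fun w : Fin n → Step 1 => dr h w) vis (fun _ => Y) R
    · rw [Set.indicator_of_mem hx, abs_one, mul_one]
      exact h3
    · rw [Set.indicator_of_notMem hx, abs_zero, mul_zero]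
      positivity
  have h4 : ∫ x, ((n : ℝ) * E.indicator (fun _ => (1 : ℝ)) x - ∑ i, G i x) ∂P ≤
      ∫ x, F (res n (fun i y => ω i y x)) ∂P :=
    integral_mono ((hIE.const_mul _).sub (integrable_finsetSum _ fun i _ => hGi i)) hFi hFx
  refine le_trans ?_ h4
  rw [integral_sub (hIE.const_mul _) (integrable_finsetSum _ fun i _ => hGi i),
    integral_const_mul, integral_indicator hEm, integral_finsetSum _ fun i _ => hGi i]
  have h5 : ∑ i, ∫ x, G i x ∂P ≤ n * δ := by
    calc _ ≤ ∑ _i : Fin n, δ := Finset.sum_le_sum fun i _ => H i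
      _ = n * δ := by simp
  simp only [integral_const, smul_eq_mul, mul_one, measureReal_restrict_apply_univ]
  linarith

end Pool.Agent.Run7.h208.WT
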