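import Pool.Agent.Run7.h208.WT.Chain

/-!
# Directed polymers: weak tails imply exponential concentration
-/

set_option autoImplicit false

open MeasureTheory ProbabilityTheory Filter Topology
open scoped ENNReal

namespace Pool.Agent.Run7.h208.WT

open TH967.DP
open Pool.Agent.N662.SE

variable {d : ℕ}

section
variable {Ω : Type} [mΩ : MeasurableSpace Ω] (P : Measure Ω) [IsProbabilityMeasure P]
  (ω : ℕ → (Fin d → ℤ) → Ω → ℝ)

/-- the exponential moment of the centered free energy -/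
noncomputable def AA (β : ℝ) (h : Fin d → ℝ) (l : ℝ) (n : ℕ) : ℝ≥0∞ :=
  ∫⁻ x, EX (l * |lw ω β h 0 0 n x - free P ω β h n|) ∂P

variable {P ω}

omit [IsProbabilityMeasure P] in
lemma lint_mul (c : ℝ≥0∞) {f : Ω → ℝ} (hf : Measurable f) :
    ∫⁻ x, c * EX (f x) ∂P = c * ∫⁻ x, EX (f x) ∂P :=
  lintegral_const_mul c (measurable_EX.comp hf)

lemma AA_mono (β : ℝ) (h : Fin d → ℝ) {l l' : ℝ} (hl : l ≤ l') (n : ℕ) :
    AA P ω β h l n ≤ AA P ω β h l' n :=
  lintegral_mono fun _ => EX_mono (mul_le_mul_of_nonneg_right hl (abs_nonneg _))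

/-- Chebyshev for the tail of an exponential moment -/
lemma cheb {X Y : Ω → ℝ} (hX : Measurable X) (hY : Measurable Y) (hXY : ∀ x, X x ≤ Y x)
    {l p : ℝ} (hl : 0 ≤ l) (hp : 1 ≤ p) (s0 s1 : ℝ) :
    ∫⁻ x, (if s0 < X x then EX (l * X x) else 0) ∂P ≤ EX (l * s1) * P {x | s0 < X x} +
      EX (-((p - 1) * (l * s1))) * ∫⁻ x, EX (p * l * Y x) ∂P := by
  have hS : MeasurableSet {x | s0 < X x} := measurableSet_lt measurable_const hX
  have h1 : ∀ x, (if s0 < X x then EX (l * X x) else 0) ≤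
      {x | s0 < X x}.indicator (fun _ => EX (l * s1)) x +
        EX (-((p - 1) * (l * s1))) * EX (p * l * Y x) := by
    intro x
    by_cases hx : s0 < X x
    · rw [if_pos hx, Set.indicator_of_mem (show x ∈ {x | s0 < X x} from hx)]
      rcases le_total (X x) s1 with h2 | h2
      · exact (EX_mono (mul_le_mul_of_nonneg_left h2 hl)).trans le_self_add
      · refine le_trans ?_ le_add_self
        rw [← EX_add]
        apply EX_mono
        have h3 : (p - 1) * (l * s1) ≤ (p - 1) * (l * X x) :=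
          mul_le_mul_of_nonneg_left (mul_le_mul_of_nonneg_left h2 hl) (by linarith)
        have h4 : p * l * X x ≤ p * l * Y x :=
          mul_le_mul_of_nonneg_left (hXY x) (mul_nonneg (by linarith) hl)
        nlinarith
    · rw [if_neg hx]
      exact bot_le
  calc ∫⁻ x, (if s0 < X x then EX (l * X x) else 0) ∂P ≤
      ∫⁻ x, ({x | s0 < X x}.indicator (fun _ => EX (l * s1)) x +
        EX (-((p - 1) * (l * s1))) * EX (p * l * Y x)) ∂P := lintegral_mono h1
    _ = _ := by
      rw [lintegral_add_left (measurable_const.indicator hS), lintegral_indicator_const hS,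
        lint_mul (f := fun x => p * l * Y x) _ (hY.const_mul _)]

lemma tauU_le (hm : ∀ (β : ℝ) (h : Fin d → ℝ) (n : ℕ), Measurable (lw ω β h 0 0 n))
    (β : ℝ) (h : Fin d → ℝ) {l p : ℝ} (hl : 0 ≤ l) (hp : 1 ≤ p) (s0 s1 : ℝ) (b : ℕ) :
    tauU P ω β h l (free P ω β h b) s0 b ≤
      EX (l * s1) * P {x | s0 < lw ω β h 0 0 b x - free P ω β h b} +
      EX (-((p - 1) * (l * s1))) * AA P ω β h (p * l) b :=
  cheb ((hm β h b).sub_const (free P ω β h b))
    (measurable_norm.comp ((hm β h b).sub_const (free P ω β h b)))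
    (fun x => le_abs_self _) hl hp s0 s1

/-- lower tail -/
lemma low_le {X Y : Ω → ℝ} (hX : Measurable X) (hY : Measurable Y) (hXY : ∀ x, -X x ≤ Y x)
    {l p : ℝ} (hl : 0 ≤ l) (hp : 1 ≤ p) (s0 s1 : ℝ) :
    ∫⁻ x, EX (-l * X x) ∂P ≤ EX (l * s0) + (EX (l * s1) * P {x | X x < -s0} +
      EX (-((p - 1) * (l * s1))) * ∫⁻ x, EX (p * l * Y x) ∂P) := by
  have h1 : ∀ x, EX (-l * X x) ≤ EX (l * s0) + (if s0 < -X x then EX (l * (-X x)) else 0) := by
    intro x
    by_cases hx : s0 < -X x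
    · rw [if_pos hx]
      refine le_trans (EX_mono (le_of_eq ?_)) le_add_self
      ring
    · rw [if_neg hx, add_zero]
      apply EX_mono
      have h3 := not_lt.1 hx
      nlinarith
  have h2 := cheb (P := P) (X := fun x => -X x) (hX.neg) hY hXY hl hp s0 s1
  have h3 : {x | s0 < -X x} = {x | X x < -s0} := by
    ext x
    simp only [Set.mem_setOf_eq]
    constructor <;> intro h <;> linarith
  rw [h3] at h2
  calc ∫⁻ x, EX (-l * X x) ∂P ≤
      ∫⁻ x, (EX (l * s0) + (if s0 < -X x then EX (l * (-X x)) else 0)) ∂P := lintegral_mono h1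
    _ = EX (l * s0) + ∫⁻ x, (if s0 < -X x then EX (l * (-X x)) else 0) ∂P := by
      rw [lintegral_add_left measurable_const, lintegral_const, measure_univ, mul_one]
    _ ≤ _ := by gcongr

lemma EX_sum (f : ℕ → ℝ) (k : ℕ) :
    EX (∑ j ∈ Finset.range k, f j) = ∏ j ∈ Finset.range k, EX (f j) := by
  induction k with
  | zero => simp [EX_zero]
  | succ k ih => rw [Finset.sum_range_succ, Finset.prod_range_succ, EX_add, ih]

/-- the one step estimate -/
lemma step (hi' : S_ID) (hs : S_SUP) (hd : 1 ≤ d) (he : IsEnv P ω)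
    (hexp : ∀ b : ℝ, Integrable (fun x => Real.exp (b * ω 1 0 x)) P)
    (hm : ∀ (β : ℝ) (h : Fin d → ℝ) (n : ℕ), Measurable (lw ω β h 0 0 n))
    (hint : ∀ (β : ℝ) (h : Fin d → ℝ) (n : ℕ), Integrable (lw ω β h 0 0 n) P)
    (β : ℝ) (h : Fin d → ℝ) {l : ℝ} (hl : 0 < l) (s : ℕ → ℝ) (b : ℕ → ℕ) (k : ℕ) {γ : ℝ}
    (hγ : 0 ≤ γ) (hγ2 : (1 + γ) ^ k ≤ 11 / 10)
    (hQ : ∀ j < k, EX (l * s j) +
      (Box d (tt b k)).card * tauU P ω β h l (free P ω β h (b j)) (s j) (b j) ≤
      ENNReal.ofReal (1 + γ))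
    (hL : ∀ j < k, ∫⁻ x, EX (-l * (lw ω β h 0 0 (b j) x - free P ω β h (b j))) ∂P ≤
      ENNReal.ofReal (1 + γ)) :
    AA P ω β h l (tt b k) ≤ ENNReal.ofReal 3 := by
  set N := tt b k with hN
  set S := ∑ j ∈ Finset.range k, free P ω β h (b j) with hS
  set F := free P ω β h N with hF
  have hSF : S ≤ F := sup_chain hs hd he hexp β h b k
  have hprod : ∏ _j ∈ Finset.range k, ENNReal.ofReal (1 + γ) ≤ ENNReal.ofReal (11 / 10) := by
    rw [Finset.prod_const, Finset.card_range, ← ENNReal.ofReal_pow (by linarith)]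
    exact ENNReal.ofReal_le_ofReal hγ2
  have hU : ∫⁻ x, EX (l * (lw ω β h 0 0 N x - S)) ∂P ≤ ENNReal.ofReal (11 / 10) := by
    have h1 : ∀ x, EX (l * (lw ω β h 0 0 N x - S)) =
        EX (-(l * S)) * EX (l * lw ω β h 0 0 N x) := by
      intro x
      rw [← EX_add]
      congr 1
      ring
    simp_rw [h1]
    rw [lint_mul _ ((hm β h N).const_mul l)]
    calc EX (-(l * S)) * ∫⁻ x, EX (l * lw ω β h 0 0 N x) ∂P
        ≤ EX (-(l * S)) * ∏ j ∈ Finset.range k, (EX (l * free P ω β h (b j)) *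
          (EX (l * s j) + (Box d N).card *
            tauU P ω β h l (free P ω β h (b j)) (s j) (b j))) := by
          gcongr
          exact up_chain hi' hd he β h hl (fun j => free P ω β h (b j)) s N b k le_rfl
      _ = ∏ j ∈ Finset.range k, (EX (l * s j) + (Box d N).card *
            tauU P ω β h l (free P ω β h (b j)) (s j) (b j)) := by
          rw [Finset.prod_mul_distrib, ← EX_sum, ← Finset.mul_sum, ← mul_assoc, ← EX_add,
            neg_add_cancel, EX_zero, one_mul]
      _ ≤ ∏ _j ∈ Finset.range k, ENNReal.ofReal (1 + γ) :=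
          Finset.prod_le_prod' fun j hj => hQ j (Finset.mem_range.1 hj)
      _ ≤ _ := hprod
  have hV : ∫⁻ x, EX (-l * (lw ω β h 0 0 N x - S)) ∂P ≤ ENNReal.ofReal (11 / 10) := by
    have h1 : ∀ (y : ℝ) (n : ℕ) (x : Ω), EX (-l * (lw ω β h 0 0 n x - y)) =
        EX (l * y) * EX (-l * lw ω β h 0 0 n x) := by
      intro y n x
      rw [← EX_add]
      congr 1
      ring
    simp_rw [h1 S N]
    rw [lint_mul _ ((hm β h N).const_mul (-l))]
    calc EX (l * S) * ∫⁻ x, EX (-l * lw ω β h 0 0 N x) ∂P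
        ≤ EX (l * S) * ∏ j ∈ Finset.range k, ∫⁻ x, EX (-l * lw ω β h 0 0 (b j) x) ∂P := by
          gcongr
          exact lo_chain hi' hd he β h hl.le b k
      _ = ∏ j ∈ Finset.range k,
          ∫⁻ x, EX (-l * (lw ω β h 0 0 (b j) x - free P ω β h (b j))) ∂P := by
          rw [hS, Finset.mul_sum, EX_sum, ← Finset.prod_mul_distrib]
          refine Finset.prod_congr rfl fun j _ => ?_
          simp_rw [h1 (free P ω β h (b j)) (b j)]
          rw [lint_mul _ ((hm β h (b j)).const_mul (-l))]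
      _ ≤ ∏ _j ∈ Finset.range k, ENNReal.ofReal (1 + γ) :=
          Finset.prod_le_prod' fun j hj => hL j (Finset.mem_range.1 hj)
      _ ≤ _ := hprod
  -- Jensen
  have hJ : l * (F - S) ≤ 1 / 10 := by
    have hmeas : Measurable fun x => Real.exp (l * (lw ω β h 0 0 N x - S)) :=
      Real.measurable_exp.comp (((hm β h N).sub_const S).const_mul l)
    have hi1 : Integrable (fun x => Real.exp (l * (lw ω β h 0 0 N x - S))) P := by
      refine ⟨hmeas.aestronglyMeasurable, ?_⟩
      rw [hasFiniteIntegral_iff_ofReal (Eventually.of_forall fun x => (Real.exp_pos _).le)]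
      exact lt_of_le_of_lt hU ENNReal.ofReal_lt_top
    have h2 : ∫ x, Real.exp (l * (lw ω β h 0 0 N x - S)) ∂P ≤ 11 / 10 := by
      rw [integral_eq_lintegral_of_nonneg_ae (Eventually.of_forall fun x => (Real.exp_pos _).le)
        hmeas.aestronglyMeasurable]
      exact ENNReal.toReal_le_of_le_ofReal (by norm_num) hU
    have hi2 : Integrable (fun x => l * (lw ω β h 0 0 N x - S) + 1) P :=
      (((hint β h N).sub (integrable_const S)).const_mul l).add (integrable_const 1)
    have h3 : ∫ x, (l * (lw ω β h 0 0 N x - S) + 1) ∂P ≤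
        ∫ x, Real.exp (l * (lw ω β h 0 0 N x - S)) ∂P :=
      integral_mono hi2 hi1 fun x => Real.add_one_le_exp _
    have h4 : ∫ x, (l * (lw ω β h 0 0 N x - S) + 1) ∂P = l * (F - S) + 1 := by
      have i1 : Integrable (fun x => lw ω β h 0 0 N x - S) P :=
        (hint β h N).sub (integrable_const S)
      rw [integral_add (i1.const_mul l) (integrable_const 1),
        integral_const_mul, integral_sub (hint β h N) (integrable_const S)]
      simp [hF, free]
    linarith
  have hU2 : ∫⁻ x, EX (l * (lw ω β h 0 0 N x - F)) ∂P ≤ ENNReal.ofReal (11 / 10) := by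
    refine le_trans (lintegral_mono fun x => EX_mono ?_) hU
    apply mul_le_mul_of_nonneg_left _ hl.le
    linarith
  have hV2 : ∫⁻ x, EX (-l * (lw ω β h 0 0 N x - F)) ∂P ≤ ENNReal.ofReal (19 / 10) := by
    have h1 : ∀ x, EX (-l * (lw ω β h 0 0 N x - F)) =
        EX (l * (F - S)) * EX (-l * (lw ω β h 0 0 N x - S)) := by
      intro x
      rw [← EX_add]
      congr 1
      ring
    simp_rw [h1]
    rw [lint_mul _ (((hm β h N).sub_const S).const_mul (-l))]
    have h2 : EX (l * (F - S)) ≤ ENNReal.ofReal (10 / 9) := by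
      refine (EX_mono hJ).trans ?_
      apply ENNReal.ofReal_le_ofReal
      have h3 := Real.add_one_le_exp (-(1 / 10 : ℝ))
      have h4 : Real.exp (1 / 10) * Real.exp (-(1 / 10)) = 1 := by
        rw [← Real.exp_add]; norm_num
      have h5 := Real.exp_pos (1 / 10 : ℝ)
      nlinarith
    calc EX (l * (F - S)) * ∫⁻ x, EX (-l * (lw ω β h 0 0 N x - S)) ∂P
        ≤ ENNReal.ofReal (10 / 9) * ENNReal.ofReal (11 / 10) := by gcongr
      _ = ENNReal.ofReal (10 / 9 * (11 / 10)) := by rw [ENNReal.ofReal_mul (by norm_num)]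
      _ ≤ _ := ENNReal.ofReal_le_ofReal (by norm_num)
  calc AA P ω β h l N ≤ ∫⁻ x, (EX (l * (lw ω β h 0 0 N x - F)) +
        EX (-l * (lw ω β h 0 0 N x - F))) ∂P := by
        refine lintegral_mono fun x => ?_
        rcases abs_cases (lw ω β h 0 0 N x - F) with ⟨h1, _⟩ | ⟨h1, _⟩
        · rw [← hF, h1]
          exact le_self_add
        · rw [← hF, h1]
          refine le_trans (EX_mono (le_of_eq ?_)) le_add_self
          ring
    _ = ∫⁻ x, EX (l * (lw ω β h 0 0 N x - F)) ∂P +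
        ∫⁻ x, EX (-l * (lw ω β h 0 0 N x - F)) ∂P :=
        lintegral_add_left (measurable_EX.comp (((hm β h N).sub_const F).const_mul l)) _
    _ ≤ ENNReal.ofReal (11 / 10) + ENNReal.ofReal (19 / 10) := add_le_add hU2 hV2
    _ = ENNReal.ofReal 3 := by
        rw [← ENNReal.ofReal_add (by norm_num) (by norm_num)]
        norm_num

end

/-- balanced blocks -/
def bl (n m j : ℕ) : ℕ := if j < n % m then n / m + 1 else n / m

lemma tt_bl (n m : ℕ) (hm : 0 < m) : tt (bl n m) m = n := by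
  have h1 : ∀ j ∈ Finset.range m, bl n m j = n / m + if j < n % m then 1 else 0 := by
    intro j _
    unfold bl
    split_ifs <;> omega
  unfold tt
  rw [Finset.sum_congr rfl h1, Finset.sum_add_distrib, Finset.sum_const, Finset.card_range,
    Finset.sum_ite, Finset.sum_const_zero, add_zero, Finset.sum_const, smul_eq_mul, smul_eq_mul,
    mul_one]
  have h2 : (Finset.range m).filter (fun j => j < n % m) = Finset.range (n % m) := by
    ext j
    have := Nat.mod_lt n hm
    simp only [Finset.mem_filter, Finset.mem_range]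
    omega
  rw [h2, Finset.card_range]
  exact Nat.div_add_mod n m

/-- the numerical part -/
lemma numer (d : ℕ) {ξ ζ q C : ℝ} (hξ : 0 < ξ) (hζ : ξ < ζ) (hq : (d : ℝ) < q) (hC : 0 ≤ C) :
    ∃ (m : ℕ) (p η γ : ℝ), 0 < m ∧ 2 ≤ p ∧ 0 < γ ∧ (1 + γ) ^ m ≤ 11 / 10 ∧
      ∀ Nb : ℕ, ∃ n0 : ℕ,
      ∀ n : ℕ, n0 ≤ n → ∀ α : ℝ, 0 < α → α ≤ 1 → ∀ j < m, Nb ≤ bl n m j ∧
        1 ≤ bl n m j ∧ bl n m j < n ∧
        p * (α * (n : ℝ) ^ (-ζ)) ≤ α * (bl n m j : ℝ) ^ (-ζ) ∧
        Real.exp (α * (n : ℝ) ^ (-ζ) * (bl n m j : ℝ) ^ ξ) + (2 * n + 1) ^ d *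
          ((bl n m j : ℝ) ^ η * (C * (bl n m j : ℝ) ^ (-q)) +
            (bl n m j : ℝ) ^ (-((p - 1) * η)) * 3) ≤ 1 + γ / 3 := by
  set η : ℝ := (q - d) / 2 with hη
  have hη0 : 0 < η := by rw [hη]; linarith
  have hd0 : (0 : ℝ) ≤ d := Nat.cast_nonneg d
  set p : ℝ := 2 + d / η with hp
  have hp1 : 2 ≤ p := by
    have : 0 ≤ (d : ℝ) / η := by positivity
    rw [hp]; linarith
  have hpη : (p - 1) * η = d + η := by
    rw [hp]
    field_simp
    ring
  have hqη : q - η = d + η := by rw [hη]; ring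
  -- the number of blocks
  obtain ⟨m, hm1, hm2⟩ : ∃ m : ℕ, 2 ≤ m ∧ p ≤ ((m : ℝ) / 2) ^ ζ := by
    have h1 : Tendsto (fun m : ℕ => ((m : ℝ) / 2) ^ ζ) atTop atTop :=
      (tendsto_rpow_atTop (by linarith)).comp
        (tendsto_natCast_atTop_atTop.atTop_div_const (by norm_num))
    obtain ⟨m, h2, h3⟩ := ((eventually_ge_atTop 2).and (h1.eventually_ge_atTop p)).exists
    exact ⟨m, h2, h3⟩
  have hm0 : 0 < m := by omega
  have hmR : (2 : ℝ) ≤ m := by exact_mod_cast hm1
  -- γ
  obtain ⟨γ, hγ0, hγ1⟩ : ∃ γ : ℝ, 0 < γ ∧ (1 + γ) ^ m ≤ 11 / 10 := by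
    have h1 : Tendsto (fun γ : ℝ => (1 + γ) ^ m) (𝓝[>] 0) (𝓝 ((1 + 0) ^ m)) :=
      ((continuous_const.add continuous_id).pow m).continuousWithinAt.tendsto
    rw [add_zero, one_pow] at h1
    have h2 := h1.eventually (ge_mem_nhds (by norm_num : (1 : ℝ) < 11 / 10))
    obtain ⟨γ, h3, h4⟩ := (h2.and self_mem_nhdsWithin).exists
    exact ⟨γ, h4, h3⟩
  refine ⟨m, p, η, γ, hm0, hp1, hγ0, hγ1, fun Nb => ?_⟩
  -- the size of n
  set K : ℝ := 3 ^ d * ((C + 3) * (2 * m) ^ (d + η)) with hK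
  have hlim : Tendsto (fun n : ℕ => Real.exp ((n : ℝ) ^ (-(ζ - ξ))) + K * (n : ℝ) ^ (-η))
      atTop (𝓝 (Real.exp 0 + K * 0)) := by
    have h1 : Tendsto (fun n : ℕ => (n : ℝ) ^ (-(ζ - ξ))) atTop (𝓝 0) :=
      (tendsto_rpow_neg_atTop (by linarith)).comp tendsto_natCast_atTop_atTop
    have h2 : Tendsto (fun n : ℕ => (n : ℝ) ^ (-η)) atTop (𝓝 0) :=
      (tendsto_rpow_neg_atTop hη0).comp tendsto_natCast_atTop_atTop
    exact ((Real.continuous_exp.tendsto 0).comp h1).add (h2.const_mul K)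
  rw [Real.exp_zero, mul_zero, add_zero] at hlim
  have hev := (hlim.eventually (ge_mem_nhds (by linarith : (1 : ℝ) < 1 + γ / 3))).and
    (eventually_ge_atTop (2 * m * (Nb + 1)))
  obtain ⟨n0, hn0⟩ := eventually_atTop.1 hev
  refine ⟨n0, ?_⟩
  intro n hn α hα0 hα1 j hj
  obtain ⟨hA, hB0⟩ := hn0 n hn
  have hB : 2 * m ≤ n := by
    calc 2 * m = 2 * m * 1 := (mul_one _).symm
      _ ≤ 2 * m * (Nb + 1) := Nat.mul_le_mul_left _ (by omega)
      _ ≤ n := hB0
  have hnR : (2 : ℝ) * m ≤ n := by exact_mod_cast hB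
  have hn0' : (0 : ℝ) < n := by linarith
  set b := bl n m j with hb
  have hdm := Nat.div_add_mod n m
  have hml := Nat.mod_lt n hm0
  have hq2 : 2 ≤ n / m := by
    rw [Nat.le_div_iff_mul_le hm0]
    omega
  have hb1 : n / m ≤ b := by
    rw [hb]; unfold bl; split_ifs <;> omega
  have hb2 : b ≤ n / m + 1 := by
    rw [hb]; unfold bl; split_ifs <;> omega
  have hb1' : 1 ≤ b := by omega
  have hbN : Nb ≤ b := by
    refine le_trans ?_ hb1
    rw [Nat.le_div_iff_mul_le hm0]
    calc Nb * m ≤ 2 * m * (Nb + 1) := by nlinarith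
      _ ≤ n := hB0
  have hmul : m * (n / m) ≤ n := Nat.mul_div_le n m
  have hbn : b < n := by
    have : 2 * (n / m) ≤ m * (n / m) := Nat.mul_le_mul_right _ hm1
    omega
  have hbR : (b : ℝ) ≤ 2 * n / m := by
    rw [le_div_iff₀ (by linarith)]
    have h1 : b * m ≤ 2 * n := by
      have h2 : b * m ≤ (n / m + 1) * m := Nat.mul_le_mul_right _ hb2
      have h3 : (n / m + 1) * m = m * (n / m) + m := by ring
      omega
    exact_mod_cast h1
  have hbR2 : (n : ℝ) / (2 * m) ≤ b := by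
    rw [div_le_iff₀ (by linarith)]
    have h1 : n ≤ b * (2 * m) := by
      have h2 : (n / m) * (2 * m) ≤ b * (2 * m) := Nat.mul_le_mul_right _ hb1
      have h3 : (n / m) * (2 * m) = m * (n / m) + m * (n / m) := by ring
      have h4 : m * 2 ≤ m * (n / m) := Nat.mul_le_mul_left _ hq2
      omega
    exact_mod_cast h1
  have hbpos : (0 : ℝ) < b := by exact_mod_cast hb1'
  have hbn' : (b : ℝ) ≤ n := by exact_mod_cast hbn.le
  have hζ0 : 0 < ζ := by linarith
  refine ⟨hbN, hb1', hbn, ?_, ?_⟩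
  · -- p n^(-ζ) ≤ b^(-ζ)
    have h1 : p * (b : ℝ) ^ ζ ≤ (n : ℝ) ^ ζ := by
      calc p * (b : ℝ) ^ ζ ≤ ((m : ℝ) / 2) ^ ζ * (2 * n / m) ^ ζ := by
            apply mul_le_mul hm2 (Real.rpow_le_rpow hbpos.le hbR hζ0.le)
              (Real.rpow_nonneg hbpos.le _) (Real.rpow_nonneg (by linarith) _)
        _ = (n : ℝ) ^ ζ := by
            rw [← Real.mul_rpow (by linarith) (by positivity)]
            congr 1
            field_simp
    have h2 : (0 : ℝ) < (b : ℝ) ^ ζ := Real.rpow_pos_of_pos hbpos _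
    have h3 : (0 : ℝ) < (n : ℝ) ^ ζ := Real.rpow_pos_of_pos hn0' _
    rw [Real.rpow_neg hn0'.le, Real.rpow_neg hbpos.le]
    have h4 : p * ((n : ℝ) ^ ζ)⁻¹ ≤ ((b : ℝ) ^ ζ)⁻¹ := by
      rw [← div_eq_mul_inv, div_le_iff₀ h3, inv_mul_eq_div, le_div_iff₀ h2]
      exact h1
    calc p * (α * ((n : ℝ) ^ ζ)⁻¹) = α * (p * ((n : ℝ) ^ ζ)⁻¹) := by ring
      _ ≤ α * ((b : ℝ) ^ ζ)⁻¹ := mul_le_mul_of_nonneg_left h4 hα0.le
  · refine le_trans ?_ hA
    have e1 : α * (n : ℝ) ^ (-ζ) * (b : ℝ) ^ ξ ≤ (n : ℝ) ^ (-(ζ - ξ)) := by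
      have h1 : (b : ℝ) ^ ξ ≤ (n : ℝ) ^ ξ := Real.rpow_le_rpow hbpos.le hbn' hξ.le
      have h2 : (0 : ℝ) < (n : ℝ) ^ (-ζ) := Real.rpow_pos_of_pos hn0' _
      calc α * (n : ℝ) ^ (-ζ) * (b : ℝ) ^ ξ ≤ 1 * (n : ℝ) ^ (-ζ) * (n : ℝ) ^ ξ := by gcongr
        _ = (n : ℝ) ^ (-(ζ - ξ)) := by
            rw [one_mul, ← Real.rpow_add hn0']
            congr 1
            ring
    have e2 : (b : ℝ) ^ η * (C * (b : ℝ) ^ (-q)) + (b : ℝ) ^ (-((p - 1) * η)) * 3 =
        (C + 3) * (b : ℝ) ^ (-(d + η)) := by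
      rw [hpη]
      have : (b : ℝ) ^ η * (C * (b : ℝ) ^ (-q)) = C * (b : ℝ) ^ (-(d + η)) := by
        rw [← hqη]
        calc (b : ℝ) ^ η * (C * (b : ℝ) ^ (-q)) = C * ((b : ℝ) ^ η * (b : ℝ) ^ (-q)) := by ring
          _ = C * (b : ℝ) ^ (-(q - η)) := by
              rw [← Real.rpow_add hbpos]
              congr 2
              ring
      rw [this]
      ring
    have e3 : (b : ℝ) ^ (-(d + η)) ≤ (2 * m) ^ (d + η) * (n : ℝ) ^ (-(d + η)) := by
      have h1 : (n : ℝ) ^ (d + η) ≤ (2 * m) ^ (d + η) * (b : ℝ) ^ (d + η) := by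
        rw [← Real.mul_rpow (by linarith) hbpos.le]
        apply Real.rpow_le_rpow hn0'.le _ (by linarith)
        rw [div_le_iff₀ (by linarith)] at hbR2
        linarith
      have h2 : (0 : ℝ) < (b : ℝ) ^ (d + η) := Real.rpow_pos_of_pos hbpos _
      have h3 : (0 : ℝ) < (n : ℝ) ^ (d + η) := Real.rpow_pos_of_pos hn0' _
      rw [Real.rpow_neg hn0'.le, Real.rpow_neg hbpos.le, ← div_eq_mul_inv, inv_eq_one_div,
        div_le_div_iff₀ h2 h3, one_mul]
      exact h1
    have e4 : ((2 : ℝ) * n + 1) ^ d ≤ 3 ^ d * (n : ℝ) ^ (d : ℝ) := by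
      rw [Real.rpow_natCast, ← mul_pow]
      apply pow_le_pow_left₀ (by positivity)
      have : (1 : ℝ) ≤ n := by linarith
      linarith
    have e5 : ((2 : ℝ) * n + 1) ^ d * ((C + 3) * (b : ℝ) ^ (-(d + η))) ≤ K * (n : ℝ) ^ (-η) := by
      calc ((2 : ℝ) * n + 1) ^ d * ((C + 3) * (b : ℝ) ^ (-(d + η)))
          ≤ (3 ^ d * (n : ℝ) ^ (d : ℝ)) * ((C + 3) * ((2 * m) ^ (d + η) *
            (n : ℝ) ^ (-(d + η)))) := by
            gcongr
        _ = K * ((n : ℝ) ^ (d : ℝ) * (n : ℝ) ^ (-(d + η))) := by rw [hK]; ring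
        _ = K * (n : ℝ) ^ (-η) := by
            rw [← Real.rpow_add hn0']
            congr 2
            ring
    rw [e2]
    exact add_le_add (Real.exp_le_exp.2 e1) e5

section
variable {Ω : Type} [mΩ : MeasurableSpace Ω] {P : Measure Ω} [IsProbabilityMeasure P]
  {ω : ℕ → (Fin d → ℤ) → Ω → ℝ}

lemma mom_nonneg (β : ℝ) : 0 ≤ mom P ω β :=
  add_nonneg (integral_nonneg fun _ => (Real.exp_pos _).le)
    (integral_nonneg fun _ => (Real.exp_pos _).le)

lemma base (hc : S_CONC) (hd : 1 ≤ d) (he : IsEnv P ω)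
    (hexp : ∀ b : ℝ, Integrable (fun x => Real.exp (b * ω 1 0 x)) P) (β : ℝ) (h : Fin d → ℝ)
    {l : ℝ} (hl0 : 0 ≤ l) (hl1 : l ≤ 1 / 4) (n : ℕ) (hl : 16 * mom P ω β * l ^ 2 * n ≤ 1 / 3) :
    AA P ω β h l n ≤ ENNReal.ofReal 3 := by
  obtain ⟨hm, -, -, hb⟩ := hc d hd Ω P ω he hexp β h 0 0 n
  have h1 := hb l (by rw [abs_of_nonneg hl0]; exact hl1)
  have h2 := hb (-l) (by rw [abs_neg, abs_of_nonneg hl0]; exact hl1)
  rw [neg_sq] at h2
  have h3 : Real.exp (16 * mom P ω β * l ^ 2 * n) ≤ 3 / 2 := by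
    refine (Real.exp_le_exp.2 hl).trans ?_
    have h3 := Real.add_one_le_exp (-(1 / 3 : ℝ))
    have h4 : Real.exp (1 / 3) * Real.exp (-(1 / 3)) = 1 := by
      rw [← Real.exp_add]; norm_num
    have h5 := Real.exp_pos (1 / 3 : ℝ)
    nlinarith
  have h4 := ENNReal.ofReal_le_ofReal h3
  set F := free P ω β h n with hF
  calc AA P ω β h l n ≤ ∫⁻ x, (EX (l * (lw ω β h 0 0 n x - F)) +
        EX (-l * (lw ω β h 0 0 n x - F))) ∂P := by
        refine lintegral_mono fun x => ?_
        rcases abs_cases (lw ω β h 0 0 n x - F) with ⟨h1, _⟩ | ⟨h1, _⟩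
        · rw [← hF, h1]
          exact le_self_add
        · rw [← hF, h1]
          refine le_trans (EX_mono (le_of_eq ?_)) le_add_self
          ring
    _ = ∫⁻ x, EX (l * (lw ω β h 0 0 n x - F)) ∂P +
        ∫⁻ x, EX (-l * (lw ω β h 0 0 n x - F)) ∂P :=
        lintegral_add_left (measurable_EX.comp ((hm.sub_const F).const_mul l)) _
    _ ≤ ENNReal.ofReal (3 / 2) + ENNReal.ofReal (3 / 2) :=
        add_le_add (h1.trans h4) (h2.trans h4)
    _ = ENNReal.ofReal 3 := by
        rw [← ENNReal.ofReal_add (by norm_num) (by norm_num)]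
        norm_num

/-- weak tails imply exponential concentration on every larger scale -/
theorem weak_conc (hc : S_CONC) (hi' : S_ID) (hs : S_SUP) (hd : 1 ≤ d) (he : IsEnv P ω)
    (hexp : ∀ b : ℝ, Integrable (fun x => Real.exp (b * ω 1 0 x)) P) (β : ℝ)
    (U : Set (Fin d → ℝ)) {ξ ζ q C : ℝ} (hξ : 0 < ξ) (hζ : ξ < ζ) (hq : (d : ℝ) < q)
    (HU : ∀ h ∈ U, ∀ n : ℕ, 1 ≤ n →
      P.real {x | (n : ℝ) ^ ξ ≤ lw ω β h 0 0 n x - free P ω β h n} ≤ C * (n : ℝ) ^ (-q))
    (HL : ∀ ε : ℝ, 0 < ε → ∃ N : ℕ, ∀ n : ℕ, N ≤ n → ∀ h ∈ U,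
      P.real {x | lw ω β h 0 0 n x - free P ω β h n ≤ -(n : ℝ) ^ ξ} ≤ ε) :
    ∃ α : ℝ, 0 < α ∧ Conc P ω β U ζ α 3 := by
  have hC' : ∀ h ∈ U, ∀ n : ℕ, 1 ≤ n →
      P.real {x | (n : ℝ) ^ ξ < lw ω β h 0 0 n x - free P ω β h n} ≤ |C| * (n : ℝ) ^ (-q) := by
    intro h hh n hn
    have hn0 : (0 : ℝ) < n := by exact_mod_cast hn
    refine (measureReal_mono (fun x hx => ?_) (measure_ne_top _ _)).trans ((HU h hh n hn).trans ?_)
    · have h2 : (n : ℝ) ^ ξ < lw ω β h 0 0 n x - free P ω β h n := hx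
      exact h2.le
    · exact mul_le_mul_of_nonneg_right (le_abs_self C) (Real.rpow_pos_of_pos hn0 _).le
  obtain ⟨m, p, η, γ, hm0, hp2, hγ0, hγ1, hnum0⟩ :=
    numer d hξ hζ hq (abs_nonneg C)
  set K : ℝ := 9 / γ with hK
  have hK0 : 0 < K := by positivity
  obtain ⟨Nb, hNb⟩ := HL (γ / 3 * Real.exp (-K)) (by positivity)
  obtain ⟨n0, hnum⟩ := hnum0 Nb
  have hp1 : 1 ≤ p := by linarith
  have hζ0 : 0 < ζ := by linarith
  set M := mom P ω β with hM
  have hM0 : 0 ≤ M := mom_nonneg β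
  set α : ℝ := min (1 / 4) (1 / (48 * (M + 1) * (n0 + 1))) with hα
  have hden : (0 : ℝ) < 48 * (M + 1) * (n0 + 1) := by positivity
  have hα0 : 0 < α := lt_min (by norm_num) (by positivity)
  have hα1 : α ≤ 1 / 4 := min_le_left _ _
  have hα2 : α * (48 * (M + 1) * (n0 + 1)) ≤ 1 := by
    have h1 : α ≤ 1 / (48 * (M + 1) * (n0 + 1)) := min_le_right _ _
    rwa [le_div_iff₀ hden] at h1
  refine ⟨α, hα0, ?_⟩
  have hmm : ∀ (β : ℝ) (h : Fin d → ℝ) (n : ℕ), Measurable (lw ω β h 0 0 n) :=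
    fun β h n => (hc d hd Ω P ω he hexp β h 0 0 n).1
  have key : ∀ h ∈ U, ∀ n : ℕ, 1 ≤ n →
      AA P ω β h (α * (n : ℝ) ^ (-ζ)) n ≤ ENNReal.ofReal 3 := by
    intro h hh n
    induction n using Nat.strong_induction_on with
    | _ n ih =>
      intro hn
      have hnR : (1 : ℝ) ≤ n := by exact_mod_cast hn
      have hn0' : (0 : ℝ) < n := by linarith
      set l : ℝ := α * (n : ℝ) ^ (-ζ) with hl
      have hl0 : 0 < l := mul_pos hα0 (Real.rpow_pos_of_pos hn0' _)
      have hl1 : l ≤ α := by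
        have : (n : ℝ) ^ (-ζ) ≤ 1 := Real.rpow_le_one_of_one_le_of_nonpos hnR (by linarith)
        calc l ≤ α * 1 := mul_le_mul_of_nonneg_left this hα0.le
          _ = α := mul_one α
      rcases lt_or_ge n n0 with hlt | hge
      · apply base hc hd he hexp β h hl0.le (hl1.trans hα1) n
        have h1 : (n : ℝ) ≤ n0 := by exact_mod_cast hlt.le
        have h2 : l ^ 2 ≤ α := by nlinarith
        rw [← hM]
        calc 16 * M * l ^ 2 * n ≤ 16 * (M + 1) * α * (n0 + 1) := by
              have h3 : (0 : ℝ) ≤ n0 := Nat.cast_nonneg _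
              gcongr <;> linarith
          _ = α * (48 * (M + 1) * (n0 + 1)) / 3 := by ring
          _ ≤ 1 / 3 := by linarith
      · have e : tt (bl n m) m = n := tt_bl n m hm0
        have hst := step hi' hs hd he hexp hmm
          (fun β h n => (hc d hd Ω P ω he hexp β h 0 0 n).2.1) β h hl0
          (fun j => (bl n m j : ℝ) ^ ξ) (bl n m) m hγ0.le hγ1
        rw [e] at hst
        refine hst (fun j hj => ?_) (fun j hj => ?_)
        · obtain ⟨-, b1, b2, b3, b4⟩ := hnum n hge α hα0 (by linarith) j hj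
          set b := bl n m j with hb
          have hbpos : (0 : ℝ) < b := by exact_mod_cast b1
          have hIH := ih b b2 b1
          set s1 : ℝ := η * Real.log b / l with hs1
          have hls : l * s1 = η * Real.log b := by rw [hs1]; field_simp
          have t1 := tauU_le (P := P) (ω := ω) hmm
            β h hl0.le hp1 ((b : ℝ) ^ ξ) s1 b
          have t2 : EX (l * s1) = ENNReal.ofReal ((b : ℝ) ^ η) := by
            rw [hls, Real.rpow_def_of_pos hbpos, mul_comm]
            rfl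
          have t3 : EX (-((p - 1) * (l * s1))) =
              ENNReal.ofReal ((b : ℝ) ^ (-((p - 1) * η))) := by
            rw [hls, Real.rpow_def_of_pos hbpos]
            unfold EX
            congr 2
            ring
          have t4 : AA P ω β h (p * l) b ≤ ENNReal.ofReal 3 := (AA_mono β h b3 b).trans hIH
          have t5 : P {x | (b : ℝ) ^ ξ < lw ω β h 0 0 b x - free P ω β h b} ≤
              ENNReal.ofReal (|C| * (b : ℝ) ^ (-q)) := by
            rw [← ofReal_measureReal (measure_ne_top _ _)]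
            exact ENNReal.ofReal_le_ofReal (hC' h hh b b1)
          have hr1 : (0 : ℝ) ≤ (b : ℝ) ^ η := (Real.rpow_pos_of_pos hbpos _).le
          have hr2 : (0 : ℝ) ≤ (b : ℝ) ^ (-((p - 1) * η)) := (Real.rpow_pos_of_pos hbpos _).le
          have hr3 : (0 : ℝ) ≤ (b : ℝ) ^ (-q) := (Real.rpow_pos_of_pos hbpos _).le
          have t6 : tauU P ω β h l (free P ω β h b) ((b : ℝ) ^ ξ) b ≤
              ENNReal.ofReal ((b : ℝ) ^ η *
              (|C| * (b : ℝ) ^ (-q)) + (b : ℝ) ^ (-((p - 1) * η)) * 3) := by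
            refine t1.trans ?_
            rw [t2, t3, ENNReal.ofReal_add (by positivity) (by positivity),
              ENNReal.ofReal_mul hr1, ENNReal.ofReal_mul hr2]
            gcongr
          have t7 : ((Box d n).card : ℝ≥0∞) = ENNReal.ofReal ((2 * n + 1) ^ d) := by
            rw [← card_Box, ENNReal.ofReal_natCast]
          calc EX (l * (b : ℝ) ^ ξ) +
                (Box d n).card * tauU P ω β h l (free P ω β h b) ((b : ℝ) ^ ξ) b
              ≤ ENNReal.ofReal (Real.exp (l * (b : ℝ) ^ ξ)) +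
                ENNReal.ofReal ((2 * n + 1) ^ d) * ENNReal.ofReal ((b : ℝ) ^ η *
              (|C| * (b : ℝ) ^ (-q)) + (b : ℝ) ^ (-((p - 1) * η)) * 3) := by
                rw [t7]
                gcongr
                exact le_rfl
            _ = ENNReal.ofReal (Real.exp (l * (b : ℝ) ^ ξ) + (2 * n + 1) ^ d * ((b : ℝ) ^ η *
              (|C| * (b : ℝ) ^ (-q)) + (b : ℝ) ^ (-((p - 1) * η)) * 3)) := by
                rw [← ENNReal.ofReal_mul (by positivity), ← ENNReal.ofReal_add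
                  (Real.exp_pos _).le (by positivity)]
            _ ≤ _ := ENNReal.ofReal_le_ofReal (b4.trans (by linarith))
        · obtain ⟨b0, b1, b2, b3, b4⟩ := hnum n hge α hα0 (by linarith) j hj
          set b := bl n m j with hb
          have hbpos : (0 : ℝ) < b := by exact_mod_cast b1
          have hIH := ih b b2 b1
          have hls : l * (K / l) = K := by field_simp
          have t1 := low_le (P := P) ((hmm β h b).sub_const (free P ω β h b))
            (measurable_norm.comp ((hmm β h b).sub_const (free P ω β h b)))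
            (fun x => neg_le_abs _) hl0.le hp1 ((b : ℝ) ^ ξ) (K / l)
          rw [hls] at t1
          refine t1.trans ?_
          have t2 : EX (l * (b : ℝ) ^ ξ) ≤ ENNReal.ofReal (1 + γ / 3) := by
            apply ENNReal.ofReal_le_ofReal
            have hnn : (0 : ℝ) ≤ (2 * n + 1) ^ d * ((b : ℝ) ^ η * (|C| * (b : ℝ) ^ (-q)) +
                (b : ℝ) ^ (-((p - 1) * η)) * 3) := by positivity
            rw [← hl] at b4
            linarith
          have t3 : P {x | lw ω β h 0 0 b x - free P ω β h b < -(b : ℝ) ^ ξ} ≤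
              ENNReal.ofReal (γ / 3 * Real.exp (-K)) := by
            rw [← ofReal_measureReal (measure_ne_top _ _)]
            apply ENNReal.ofReal_le_ofReal
            refine (measureReal_mono (fun x hx => ?_) (measure_ne_top _ _)).trans
              (hNb b b0 h hh)
            have h2 : lw ω β h 0 0 b x - free P ω β h b < -(b : ℝ) ^ ξ := hx
            exact h2.le
          have t4 : AA P ω β h (p * l) b ≤ ENNReal.ofReal 3 := (AA_mono β h b3 b).trans hIH
          have t5 : EX (-((p - 1) * K)) ≤ ENNReal.ofReal (γ / 9) := by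
            apply ENNReal.ofReal_le_ofReal
            have h1 : Real.exp (-((p - 1) * K)) ≤ Real.exp (-K) := by
              apply Real.exp_le_exp.2
              nlinarith
            have h2 : K < Real.exp K := by
              have := Real.add_one_le_exp K
              linarith
            refine h1.trans ?_
            have h3 : Real.exp (-K) * Real.exp K = 1 := by
              rw [← Real.exp_add, neg_add_cancel, Real.exp_zero]
            have h4 : Real.exp (-K) * K ≤ 1 := by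
              rw [← h3]
              exact mul_le_mul_of_nonneg_left h2.le (Real.exp_pos _).le
            have h5 : Real.exp (-K) ≤ 1 / K := by
              rw [le_div_iff₀ hK0]
              exact h4
            refine h5.trans (le_of_eq ?_)
            rw [hK]
            field_simp
          have t6 : EX K * P {x | lw ω β h 0 0 b x - free P ω β h b < -(b : ℝ) ^ ξ} ≤
              ENNReal.ofReal (γ / 3) := by
            calc _ ≤ EX K * ENNReal.ofReal (γ / 3 * Real.exp (-K)) := by gcongr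
              _ = ENNReal.ofReal (Real.exp K * (γ / 3 * Real.exp (-K))) := by
                  unfold EX
                  rw [ENNReal.ofReal_mul (Real.exp_pos _).le]
              _ = ENNReal.ofReal (γ / 3) := by
                  congr 1
                  rw [mul_left_comm, ← Real.exp_add, add_neg_cancel, Real.exp_zero, mul_one]
          have t7 : EX (-((p - 1) * K)) * AA P ω β h (p * l) b ≤ ENNReal.ofReal (γ / 3) := by
            calc _ ≤ ENNReal.ofReal (γ / 9) * ENNReal.ofReal 3 := by gcongr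
              _ = ENNReal.ofReal (γ / 9 * 3) := by rw [ENNReal.ofReal_mul (by positivity)]
              _ = _ := by
                  congr 1
                  ring
          calc _ ≤ ENNReal.ofReal (1 + γ / 3) + (ENNReal.ofReal (γ / 3) +
                ENNReal.ofReal (γ / 3)) := add_le_add t2 (add_le_add t6 t7)
            _ = ENNReal.ofReal (1 + γ) := by
                rw [← ENNReal.ofReal_add (by positivity) (by positivity),
                  ← ENNReal.ofReal_add (by positivity) (by positivity)]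
                congr 1
                ring
  intro h hh n hn
  exact key h hh n hn

end

end Pool.Agent.Run7.h208.WT
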