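import Pool.Agent.Run7.h208.WT.Fin

/-!
# Directed polymers: independent trials for the upper tail
-/

set_option autoImplicit false

open MeasureTheory ProbabilityTheory Filter Topology
open scoped ENNReal

namespace Pool.Agent.Run7.h208.WT

open TH967.DP
open Pool.Agent.N662.SE
open Pool.Agent.N50.SE.SUP (wt part_eq part_add wt_pos meas_wt meas_part log_ge)

variable {d : ℕ}

section
variable {Ω : Type} [mΩ : MeasurableSpace Ω]

/-- the probability of the path `u` under the polymer measure at time `a` -/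
noncomputable def pu (ω : ℕ → (Fin d → ℤ) → Ω → ℝ) (β : ℝ) (h : Fin d → ℝ) (a : ℕ)
    (u : Fin a → Step d) (x : Ω) : ℝ :=
  wt β h (fun i y => ω i y x) u / part β h (fun i y => ω i y x) a Set.univ

/-- the probability of the starting points of good blocks -/
noncomputable def RR (ω : ℕ → (Fin d → ℤ) → Ω → ℝ) (β : ℝ) (h : Fin d → ℝ) (a b : ℕ) (T : ℝ)
    (x : Ω) : ℝ :=
  ∑ u : Fin a → Step d, pu ω β h a u x * (if T ≤ lw ω β h a (pos u a) b x then 1 else 0)

variable {P : Measure Ω} {ω : ℕ → (Fin d → ℤ) → Ω → ℝ}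

omit mΩ in
lemma pu_nonneg (hd : 1 ≤ d) (β : ℝ) (h : Fin d → ℝ) (a : ℕ) (u : Fin a → Step d) (x : Ω) :
    0 ≤ pu ω β h a u x :=
  (div_pos (wt_pos _ _ _ _) (part_univ_pos hd β h (fun i y => ω i y x) a)).le

omit mΩ in
lemma pu_sum (hd : 1 ≤ d) (β : ℝ) (h : Fin d → ℝ) (a : ℕ) (x : Ω) :
    ∑ u : Fin a → Step d, pu ω β h a u x = 1 := by
  unfold pu
  rw [← Finset.sum_div, ← part_eq,
    div_self (part_univ_pos hd β h (fun i y => ω i y x) a).ne']

lemma pu_meas (β : ℝ) (h : Fin d → ℝ) (a : ℕ) (u : Fin a → Step d) :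
    Measurable[lo ω a] (pu ω β h a u) :=
  (meas_wt_lo β h a u).div (meas_part_lo β h a)

omit mΩ in
lemma RR_le_one (hd : 1 ≤ d) (β : ℝ) (h : Fin d → ℝ) (a b : ℕ) (T : ℝ) (x : Ω) :
    RR ω β h a b T x ≤ 1 := by
  rw [← pu_sum hd β h a x (ω := ω)]
  refine Finset.sum_le_sum fun u _ => ?_
  have h1 := pu_nonneg hd β h a u x (ω := ω)
  split_ifs
  · rw [mul_one]
  · rw [mul_zero]; exact h1

/-- a success -/
lemma succ_pt (hd : 1 ≤ d) (β : ℝ) (h : Fin d → ℝ) (a b : ℕ) (T : ℝ) (x : Ω) {r : ℝ}
    (hr : 0 < r) (hR : r ≤ RR ω β h a b T x) :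
    lw ω β h 0 0 a x + T + Real.log r ≤ lw ω β h 0 0 (a + b) x := by
  set η : ℕ → (Fin d → ℤ) → ℝ := fun i y => ω i y x with hη
  have hA := part_univ_pos hd β h η a
  have hAB := part_univ_pos hd β h η (a + b)
  have h1 : part β h η a Set.univ * (RR ω β h a b T x * Real.exp T) ≤
      part β h η (a + b) Set.univ := by
    rw [part_add]
    unfold RR
    rw [Finset.sum_mul, Finset.mul_sum]
    refine Finset.sum_le_sum fun u _ => ?_
    have e1 : part β h η a Set.univ * pu ω β h a u x = wt β h η u := by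
      unfold pu
      rw [mul_div_cancel₀ _ hA.ne']
    have hB := part_univ_pos hd β h (fun i y => η (a + i) (pos u a + y)) b
    have e2 : lw ω β h a (pos u a) b x =
        Real.log (part β h (fun i y => η (a + i) (pos u a + y)) b Set.univ) := rfl
    have hw : 0 ≤ wt β h η u := (wt_pos _ _ _ _).le
    split_ifs with hT
    · rw [mul_one, ← mul_assoc, e1]
      apply mul_le_mul_of_nonneg_left _ hw
      rw [e2] at hT
      rwa [← Real.le_log_iff_exp_le hB]
    · rw [mul_zero, zero_mul, mul_zero]
      positivity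
  have h2 : part β h η a Set.univ * (r * Real.exp T) ≤ part β h η (a + b) Set.univ := by
    refine le_trans ?_ h1
    gcongr
  have h3 := Real.log_le_log (by positivity) h2
  rw [Real.log_mul hA.ne' (by positivity), Real.log_mul hr.ne' (Real.exp_pos T).ne',
    Real.log_exp] at h3
  rw [lw_part, lw_part]
  linarith

/-- a lower bound for all starting points gives a lower bound -/
lemma chain_pt (hd : 1 ≤ d) (β : ℝ) (h : Fin d → ℝ) (a c : ℕ) (M : ℝ) (x : Ω)
    (hM : ∀ u : Fin a → Step d, M ≤ lw ω β h a (pos u a) c x) :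
    lw ω β h 0 0 a x + M ≤ lw ω β h 0 0 (a + c) x := by
  set η : ℕ → (Fin d → ℤ) → ℝ := fun i y => ω i y x with hη
  have hA := part_univ_pos hd β h η a
  have hAB := part_univ_pos hd β h η (a + c)
  have h1 : part β h η a Set.univ * Real.exp M ≤ part β h η (a + c) Set.univ := by
    rw [part_add, part_eq, Finset.sum_mul]
    refine Finset.sum_le_sum fun u _ => ?_
    have hB := part_univ_pos hd β h (fun i y => η (a + i) (pos u a + y)) c
    apply mul_le_mul_of_nonneg_left _ (wt_pos _ _ _ _).le
    rw [← Real.le_log_iff_exp_le hB]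
    exact hM u
  have h3 := Real.log_le_log (by positivity) h1
  rw [Real.log_mul hA.ne' (Real.exp_pos M).ne', Real.log_exp] at h3
  rw [lw_part, lw_part]
  linarith

variable [IsProbabilityMeasure P]

/-- the probability of a success given the past -/
lemma trial_prob (hi' : S_ID) (hd : 1 ≤ d) (he : IsEnv P ω) (β : ℝ) (h : Fin d → ℝ)
    (a b : ℕ) (T : ℝ) {A : Set Ω} (hA : MeasurableSet[lo ω a] A) {q : ℝ} (hq0 : 0 ≤ q)
    (hq : q = P.real {x | T ≤ lw ω β h 0 0 b x}) :
    q / 2 * P.real A ≤ P.real (A ∩ {x | q / 2 ≤ RR ω β h a b T x}) := by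
  have hA' : MeasurableSet A := lo_le he a A hA
  set f : (Fin a → Step d) → Ω → ℝ≥0∞ := fun u =>
    A.indicator (fun x => ENNReal.ofReal (pu ω β h a u x)) with hf
  set g : (Fin a → Step d) → Ω → ℝ≥0∞ := fun u x =>
    if T ≤ lw ω β h a (pos u a) b x then 1 else 0 with hg
  have hfm : ∀ u, Measurable[lo ω a] (f u) := fun u =>
    (pu_meas β h a u).ennreal_ofReal.indicator hA
  have hgm0 : Measurable (fun t : ℝ => if T ≤ t then (1 : ℝ≥0∞) else 0) :=
    Measurable.ite (measurableSet_le measurable_const measurable_id) measurable_const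
      measurable_const
  have hgm : ∀ u, Measurable[hi ω a] (g u) := fun u =>
    hgm0.comp (meas_lw_hi β h a (pos u a) b)
  have hgi : ∀ u : Fin a → Step d, ∫⁻ x, g u x ∂P = ENNReal.ofReal q := by
    intro u
    have h1 := ((hi' d hd Ω P ω he β h a (pos u a) b).comp hgm0).lintegral_eq
    have h2 : ∫⁻ x, g u x ∂P = ∫⁻ x, (if T ≤ lw ω β h 0 0 b x then (1 : ℝ≥0∞) else 0) ∂P := h1
    rw [h2, hq, ofReal_measureReal (measure_ne_top _ _)]
    have hm : Measurable (lw ω β h 0 0 b) := (meas_lw_lo β h b).mono (lo_le he b) le_rfl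
    have hS : MeasurableSet {x | T ≤ lw ω β h 0 0 b x} := measurableSet_le measurable_const hm
    rw [← lintegral_indicator_one hS]
    refine lintegral_congr fun x => ?_
    by_cases hx : T ≤ lw ω β h 0 0 b x
    · rw [if_pos hx, Set.indicator_of_mem (show x ∈ {x | T ≤ lw ω β h 0 0 b x} from hx)]
      rfl
    · rw [if_neg hx, Set.indicator_of_notMem (show x ∉ {x | T ≤ lw ω β h 0 0 b x} from hx)]
  have hfg : ∀ u, Measurable (fun x => f u x * g u x) := fun u =>
    ((hfm u).mono (lo_le he a) le_rfl).mul ((hgm u).mono (hi_le he a) le_rfl)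
  -- the mean of the indicator of `A` times `R`
  have hRsum : ∀ x, A.indicator (fun x => ENNReal.ofReal (RR ω β h a b T x)) x =
      ∑ u : Fin a → Step d, f u x * g u x := by
    intro x
    by_cases hx : x ∈ A
    · simp only [hf, hg, Set.indicator_of_mem hx]
      unfold RR
      rw [ENNReal.ofReal_sum_of_nonneg]
      · refine Finset.sum_congr rfl fun u _ => ?_
        split_ifs
        · rw [mul_one, mul_one]
        · rw [mul_zero, mul_zero, ENNReal.ofReal_zero]
      · intro u _
        have := pu_nonneg hd β h a u x (ω := ω)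
        split_ifs
        · rwa [mul_one]
        · rw [mul_zero]
    · simp only [hf, Set.indicator_of_notMem hx, zero_mul, Finset.sum_const_zero]
  have hmean : ∫⁻ x, A.indicator (fun x => ENNReal.ofReal (RR ω β h a b T x)) x ∂P =
      ENNReal.ofReal q * P A := by
    simp_rw [hRsum]
    rw [lintegral_finsetSum _ (fun u _ => hfg u)]
    have h1 : ∀ u : Fin a → Step d, ∫⁻ x, f u x * g u x ∂P =
        (∫⁻ x, f u x ∂P) * ENNReal.ofReal q := fun u => by
      rw [lintegral_mul_eq_lintegral_mul_lintegral_of_independent_measurableSpace (lo_le he a)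
        (hi_le he a) (indep_lo_hi he a) (hfm u) (hgm u), hgi u]
    simp_rw [h1]
    rw [← Finset.sum_mul, mul_comm]
    congr 1
    rw [← lintegral_finsetSum _ (fun u _ => (hfm u).mono (lo_le he a) le_rfl),
      ← lintegral_indicator_one hA']
    refine lintegral_congr fun x => ?_
    by_cases hx : x ∈ A
    · simp only [hf, Set.indicator_of_mem hx]
      rw [← ENNReal.ofReal_sum_of_nonneg (fun u _ => pu_nonneg hd β h a u x), pu_sum hd,
        ENNReal.ofReal_one]
      rfl
    · simp only [hf, Set.indicator_of_notMem hx, Finset.sum_const_zero]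
  set S : Set Ω := {x | q / 2 ≤ RR ω β h a b T x} with hS
  have hRm : Measurable (RR ω β h a b T) := by
    unfold RR
    refine Finset.measurable_sum _ fun u _ => ?_
    refine ((pu_meas β h a u).mono (lo_le he a) le_rfl).mul ?_
    have h1 : Measurable (fun t : ℝ => if T ≤ t then (1 : ℝ) else 0) :=
      Measurable.ite (measurableSet_le measurable_const measurable_id) measurable_const
        measurable_const
    exact h1.comp ((meas_lw_hi β h a (pos u a) b).mono (hi_le he a) le_rfl)
  have hSm : MeasurableSet S := measurableSet_le measurable_const hRm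
  have hub : ∫⁻ x, A.indicator (fun x => ENNReal.ofReal (RR ω β h a b T x)) x ∂P ≤
      P (A ∩ S) + ENNReal.ofReal (q / 2) * P A := by
    calc ∫⁻ x, A.indicator (fun x => ENNReal.ofReal (RR ω β h a b T x)) x ∂P
        ≤ ∫⁻ x, ((A ∩ S).indicator 1 x + A.indicator (fun _ => ENNReal.ofReal (q / 2)) x) ∂P := by
          refine lintegral_mono fun x => ?_
          by_cases hx : x ∈ A
          · rw [Set.indicator_of_mem hx, Set.indicator_of_mem hx]
            by_cases hxS : x ∈ S
            · rw [Set.indicator_of_mem (show x ∈ A ∩ S from ⟨hx, hxS⟩)]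
              refine le_trans ?_ le_self_add
              calc ENNReal.ofReal (RR ω β h a b T x) ≤ ENNReal.ofReal 1 :=
                    ENNReal.ofReal_le_ofReal (RR_le_one hd β h a b T x)
                _ = _ := by rw [ENNReal.ofReal_one]; rfl
            · refine le_trans (ENNReal.ofReal_le_ofReal ?_) le_add_self
              exact (not_le.1 hxS).le
          · rw [Set.indicator_of_notMem hx]
            exact bot_le
      _ = _ := by
          rw [lintegral_add_left ((measurable_one).indicator (hA'.inter hSm)),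
            lintegral_indicator_one (hA'.inter hSm), lintegral_indicator_const hA']
  rw [hmean] at hub
  have h1 : (ENNReal.ofReal q * P A).toReal = q * P.real A := by
    rw [ENNReal.toReal_mul, ENNReal.toReal_ofReal hq0]
    rfl
  have h2 : (P (A ∩ S) + ENNReal.ofReal (q / 2) * P A).toReal =
      P.real (A ∩ S) + q / 2 * P.real A := by
    rw [ENNReal.toReal_add (measure_ne_top _ _)
      (ENNReal.mul_ne_top ENNReal.ofReal_ne_top (measure_ne_top _ _)), ENNReal.toReal_mul,
      ENNReal.toReal_ofReal (by linarith)]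
    rfl
  have h3 : (P (A ∩ S) + ENNReal.ofReal (q / 2) * P A) ≠ ∞ :=
    ENNReal.add_ne_top.2 ⟨measure_ne_top _ _,
      ENNReal.mul_ne_top ENNReal.ofReal_ne_top (measure_ne_top _ _)⟩
  have h4 := ENNReal.toReal_mono h3 hub
  rw [h1, h2] at h4
  linarith

/-- no success in the first `K` trials -/
def noSucc (ω : ℕ → (Fin d → ℤ) → Ω → ℝ) (β : ℝ) (h : Fin d → ℝ) (b : ℕ) (T : ℝ) (K : ℕ) :
    Set Ω :=
  {x | ∀ j < K, lw ω β h 0 0 ((j + 1) * b) x < lw ω β h 0 0 (j * b) x + T}

lemma lo_mono {m n : ℕ} (hmn : m ≤ n) : lo ω m ≤ lo ω n :=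
  iSup₂_le fun s hs => le_iSup₂_of_le s (by
    simp only [Set.mem_setOf_eq] at hs ⊢
    omega) le_rfl

lemma noSucc_meas (β : ℝ) (h : Fin d → ℝ) (b : ℕ) (T : ℝ) (K : ℕ) :
    MeasurableSet[lo ω (K * b)] (noSucc ω β h b T K) := by
  have h1 : noSucc ω β h b T K = ⋂ j ∈ Finset.range K,
      {x | lw ω β h 0 0 ((j + 1) * b) x < lw ω β h 0 0 (j * b) x + T} := by
    ext x
    simp only [noSucc, Set.mem_setOf_eq, Set.mem_iInter, Finset.mem_range]
  rw [h1]
  refine Finset.measurableSet_biInter _ fun j hj => ?_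
  rw [Finset.mem_range] at hj
  have m1 : Measurable[lo ω (K * b)] (lw ω β h 0 0 ((j + 1) * b)) :=
    (meas_lw_lo β h _).mono (lo_mono (Nat.mul_le_mul_right b (by omega))) le_rfl
  have m2 : Measurable[lo ω (K * b)] (lw ω β h 0 0 (j * b)) :=
    (meas_lw_lo β h _).mono (lo_mono (Nat.mul_le_mul_right b (by omega))) le_rfl
  exact measurableSet_lt m1 (m2.add_const T)

/-- the probability that there is no success -/
lemma noSucc_le (hi' : S_ID) (hd : 1 ≤ d) (he : IsEnv P ω) (β : ℝ) (h : Fin d → ℝ)
    (b : ℕ) (T : ℝ) {q : ℝ} (hq0 : 0 < q) (hq1 : q ≤ 1)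
    (hq : q = P.real {x | T ≤ lw ω β h 0 0 b x}) (K : ℕ) :
    P.real (noSucc ω β h b (T + Real.log (q / 2)) K) ≤ (1 - q / 2) ^ K := by
  induction K with
  | zero =>
    rw [pow_zero]
    exact measureReal_le_one
  | succ K ih =>
    have hAm := noSucc_meas (ω := ω) β h b (T + Real.log (q / 2)) K
    set A := noSucc ω β h b (T + Real.log (q / 2)) K with hA
    have h1 := trial_prob hi' hd he β h (K * b) b T hAm hq0.le hq
    set S : Set Ω := {x | q / 2 ≤ RR ω β h (K * b) b T x} with hS
    have h2 : noSucc ω β h b (T + Real.log (q / 2)) (K + 1) ⊆ A \ (A ∩ S) := by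
      intro x hx
      refine ⟨fun j hj => hx j (by omega), fun hxS => ?_⟩
      have h3 := succ_pt hd β h (K * b) b T x (by positivity) hxS.2
      have h4 := hx K (by omega)
      have e : (K + 1) * b = K * b + b := by ring
      rw [e] at h4
      linarith
    have hA' : MeasurableSet A := lo_le he _ A hAm
    have hRm : Measurable (RR ω β h (K * b) b T) := by
      unfold RR
      refine Finset.measurable_sum _ fun u _ => ?_
      refine ((pu_meas β h (K * b) u).mono (lo_le he (K * b)) le_rfl).mul ?_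
      have h1 : Measurable (fun t : ℝ => if T ≤ t then (1 : ℝ) else 0) :=
        Measurable.ite (measurableSet_le measurable_const measurable_id) measurable_const
          measurable_const
      exact h1.comp ((meas_lw_hi β h (K * b) (pos u (K * b)) b).mono (hi_le he (K * b)) le_rfl)
    have hSm : MeasurableSet S := measurableSet_le measurable_const hRm
    calc P.real (noSucc ω β h b (T + Real.log (q / 2)) (K + 1))
        ≤ P.real (A \ (A ∩ S)) := measureReal_mono h2 (measure_ne_top _ _)
      _ = P.real A - P.real (A ∩ S) :=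
          measureReal_diff Set.inter_subset_left (hA'.inter hSm)
      _ ≤ (1 - q / 2) * P.real A := by linarith
      _ ≤ (1 - q / 2) * (1 - q / 2) ^ K := mul_le_mul_of_nonneg_left ih (by linarith)
      _ = _ := by ring

end

end Pool.Agent.Run7.h208.WT
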