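import Pool.Agent.Run7.h208.WT.Trial

/-!
# Directed polymers: the upper tail from the lower tail
-/

set_option autoImplicit false

open MeasureTheory ProbabilityTheory Filter Topology
open scoped ENNReal

namespace Pool.Agent.Run7.h208.WT

open TH967.DP
open Pool.Agent.N662.SE

variable {d : ℕ}

lemma pos_mem_Box {a L : ℕ} (haL : a ≤ L) (u : Fin a → Step d) : pos u a ∈ Box d L := by
  rw [Box, Fintype.mem_piFinset]
  intro k
  rw [Finset.mem_Icc]
  have h3 := abs_le.1 (abs_pos_le u a k)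
  have h4 : (a : ℤ) ≤ L := by exact_mod_cast haL
  constructor <;> linarith [h3.1, h3.2]

section
variable {Ω : Type} [mΩ : MeasurableSpace Ω] {P : Measure Ω} [IsProbabilityMeasure P]
  {ω : ℕ → (Fin d → ℤ) → Ω → ℝ}

lemma low_shift (hi' : S_ID) (hd : 1 ≤ d) (he : IsEnv P ω) (β : ℝ) (h : Fin d → ℝ)
    (m : ℕ) (z : Fin d → ℤ) (n : ℕ) (t : ℝ) :
    P.real {x | lw ω β h m z n x < t} = P.real {x | lw ω β h 0 0 n x < t} := by
  have h1 := (hi' d hd Ω P ω he β h m z n).measure_mem_eq (measurableSet_Iio (a := t))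
  unfold Measure.real
  congr 1

/-- the events that the lower bounds fail -/
lemma bad_le (hi' : S_ID) (hd : 1 ≤ d) (he : IsEnv P ω) (β : ℝ) (h : Fin d → ℝ) (φ r ε : ℝ)
    (L : ℕ) (hlow : ∀ n ≤ L, P.real {x | lw ω β h 0 0 n x < n * φ - r} ≤ ε) :
    P.real (⋃ t ∈ Finset.range (L + 1), {x | lw ω β h 0 0 t x < t * φ - r}) ≤ (L + 1) * ε ∧
    P.real (⋃ t ∈ Finset.range (L + 1), ⋃ z ∈ Box d L,
      {x | lw ω β h t z (L - t) x < (L - t : ℕ) * φ - r}) ≤ (L + 1) * ((2 * L + 1) ^ d * ε) := by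
  constructor
  · refine (measureReal_biUnion_finset_le _ _).trans ?_
    refine (Finset.sum_le_card_nsmul _ _ ε fun t ht => ?_).trans (le_of_eq ?_)
    · exact hlow t (by rw [Finset.mem_range] at ht; omega)
    · rw [Finset.card_range, nsmul_eq_mul]
      push_cast
      ring
  · refine (measureReal_biUnion_finset_le _ _).trans ?_
    refine (Finset.sum_le_card_nsmul _ _ ((2 * L + 1) ^ d * ε) fun t ht => ?_).trans
      (le_of_eq ?_)
    · refine (measureReal_biUnion_finset_le _ _).trans ?_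
      refine (Finset.sum_le_card_nsmul _ _ ε fun z _ => ?_).trans (le_of_eq ?_)
      · rw [low_shift hi' hd he]
        exact hlow (L - t) (by omega)
      · rw [nsmul_eq_mul, card_Box]
    · rw [Finset.card_range, nsmul_eq_mul]
      push_cast
      ring

/-- the trials -/
lemma trial_main (hi' : S_ID) (hd : 1 ≤ d) (he : IsEnv P ω) (β : ℝ) (h : Fin d → ℝ)
    (φ : ℝ) {b K L : ℕ} (hL : L = K * b) {s r r' ε q : ℝ} (hq0 : 0 < q)
    (hq : q = P.real {x | b * φ + s ≤ lw ω β h 0 0 b x})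
    (hlow : ∀ n ≤ L, P.real {x | lw ω β h 0 0 n x < n * φ - r} ≤ ε)
    (hs : r' + 2 * r ≤ s + Real.log (q / 2)) :
    1 ≤ (1 - q / 2) ^ K + (L + 1) * ε + (L + 1) * ((2 * L + 1) ^ d * ε) +
      P.real {x | L * φ + r' ≤ lw ω β h 0 0 L x} := by
  obtain ⟨hE1, hE2⟩ := bad_le hi' hd he β h φ r ε L hlow
  set E1 := ⋃ t ∈ Finset.range (L + 1), {x | lw ω β h 0 0 t x < t * φ - r} with hE1d
  set E2 := ⋃ t ∈ Finset.range (L + 1), ⋃ z ∈ Box d L,
      {x | lw ω β h t z (L - t) x < (L - t : ℕ) * φ - r} with hE2d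
  set G := {x | L * φ + r' ≤ lw ω β h 0 0 L x} with hG
  have hq1 : q ≤ 1 := by rw [hq]; exact measureReal_le_one
  have hN := noSucc_le hi' hd he β h b (b * φ + s) hq0 hq1 hq K
  set N := noSucc ω β h b (b * φ + s + Real.log (q / 2)) K with hNd
  have hcov : (Set.univ : Set Ω) ⊆ ((N ∪ E1) ∪ E2) ∪ G := by
    intro x _
    by_contra hx
    simp only [Set.mem_union, not_or] at hx
    obtain ⟨⟨⟨hxN, hx1⟩, hx2⟩, hxG⟩ := hx
    have hxN' : ¬ ∀ j < K, lw ω β h 0 0 ((j + 1) * b) x <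
        lw ω β h 0 0 (j * b) x + (b * φ + s + Real.log (q / 2)) := hxN
    push Not at hxN'
    obtain ⟨j, hj, hjs⟩ := hxN'
    have hjL : (j + 1) * b ≤ L := by
      rw [hL]
      exact Nat.mul_le_mul_right b (by omega)
    have hjL2 : j * b ≤ L := le_trans (Nat.mul_le_mul_right b (by omega)) hjL
    have h1 : (j * b : ℕ) * φ - r ≤ lw ω β h 0 0 (j * b) x := by
      by_contra hc
      apply hx1
      rw [hE1d, Set.mem_iUnion₂]
      exact ⟨j * b, Finset.mem_range.2 (by omega), not_le.1 hc⟩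
    have h2 : ∀ u : Fin ((j + 1) * b) → Step d, (L - (j + 1) * b : ℕ) * φ - r ≤
        lw ω β h ((j + 1) * b) (pos u ((j + 1) * b)) (L - (j + 1) * b) x := by
      intro u
      by_contra hc
      apply hx2
      rw [hE2d, Set.mem_iUnion₂]
      refine ⟨(j + 1) * b, Finset.mem_range.2 (by omega), ?_⟩
      rw [Set.mem_iUnion₂]
      exact ⟨pos u ((j + 1) * b), pos_mem_Box hjL u, not_le.1 hc⟩
    have h3 := chain_pt hd β h ((j + 1) * b) (L - (j + 1) * b) _ x h2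
    have e : (j + 1) * b + (L - (j + 1) * b) = L := by omega
    rw [e] at h3
    apply hxG
    show L * φ + r' ≤ lw ω β h 0 0 L x
    have e2 : ((L - (j + 1) * b : ℕ) : ℝ) = L - (j + 1) * b := by
      rw [Nat.cast_sub hjL]
      push_cast
      ring
    rw [e2] at h3
    push_cast at h1 h3
    nlinarith
  have h0 : P.real (Set.univ : Set Ω) = 1 := probReal_univ
  calc (1 : ℝ) = P.real (Set.univ : Set Ω) := h0.symm
    _ ≤ P.real (((N ∪ E1) ∪ E2) ∪ G) := measureReal_mono hcov (measure_ne_top _ _)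
    _ ≤ P.real ((N ∪ E1) ∪ E2) + P.real G := measureReal_union_le _ _
    _ ≤ (P.real (N ∪ E1) + P.real E2) + P.real G := by
        gcongr
        exact measureReal_union_le _ _
    _ ≤ ((P.real N + P.real E1) + P.real E2) + P.real G := by
        gcongr
        exact measureReal_union_le _ _
    _ ≤ _ := by
        gcongr

/-- Markov for the exponential moment of the lower part -/
lemma LL_markov (hm : ∀ (β : ℝ) (h : Fin d → ℝ) (n : ℕ), Measurable (lw ω β h 0 0 n))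
    (β : ℝ) (h : Fin d → ℝ) (φ l : ℝ) (hl : 0 ≤ l) (n : ℕ) (r : ℝ)
    (H : LL P ω β h φ l n ≤ ENNReal.ofReal 3) :
    P.real {x | lw ω β h 0 0 n x < n * φ - r} ≤ 3 * Real.exp (-(l * r)) := by
  have hY : Measurable fun x => EX (l * max (n * φ - lw ω β h 0 0 n x) 0) :=
    measurable_EX.comp ((((hm β h n).const_sub (n * φ)).max measurable_const).const_mul l)
  have hsub : {x | lw ω β h 0 0 n x < n * φ - r} ⊆
      {x | EX (l * r) ≤ EX (l * max (n * φ - lw ω β h 0 0 n x) 0)} := by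
    intro x hx
    have hx' : lw ω β h 0 0 n x < n * φ - r := hx
    show EX (l * r) ≤ EX (l * max (n * φ - lw ω β h 0 0 n x) 0)
    apply EX_mono
    apply mul_le_mul_of_nonneg_left _ hl
    have := le_max_left (n * φ - lw ω β h 0 0 n x) 0
    linarith
  have h1 : P {x | lw ω β h 0 0 n x < n * φ - r} ≤ ENNReal.ofReal (3 * Real.exp (-(l * r))) := by
    refine (measure_mono hsub).trans ?_
    refine (meas_ge_le_lintegral_div hY.aemeasurable
      (ENNReal.ofReal_pos.2 (Real.exp_pos _)).ne' ENNReal.ofReal_ne_top).trans ?_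
    refine (ENNReal.div_le_div_right H _).trans ?_
    rw [← ENNReal.ofReal_div_of_pos (Real.exp_pos _)]
    apply ENNReal.ofReal_le_ofReal
    rw [div_eq_mul_inv, ← Real.exp_neg]
  exact ENNReal.toReal_le_of_le_ofReal (by positivity) h1

/-- asymptotics of the error terms -/
lemma asy_err (d : ℕ) {α ζ1 ζ B : ℝ} (hα : 0 < α) (h1 : ζ1 < ζ) :
    ∃ L0 : ℕ, ∀ L : ℕ, L0 ≤ L →
      (L + 1 : ℝ) * (3 * Real.exp (-(α * (L : ℝ) ^ (-ζ1) * (L : ℝ) ^ ζ))) +
        (L + 1) * ((2 * L + 1) ^ d * (3 * Real.exp (-(α * (L : ℝ) ^ (-ζ1) * (L : ℝ) ^ ζ)))) ≤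
        1 / 4 ∧ B * (L : ℝ) ^ ζ1 ≤ 1 / 4 * (L : ℝ) ^ ζ := by
  obtain ⟨K, hK0, hK⟩ := exp_small (q := (d : ℝ) + 2) hα (by linarith : 0 < ζ - ζ1)
  have hlim : Tendsto (fun L : ℕ => 12 * K * 3 ^ d * (L : ℝ) ^ (-(1 : ℝ))) atTop
      (𝓝 (12 * K * 3 ^ d * 0)) :=
    ((tendsto_rpow_neg_atTop one_pos).comp tendsto_natCast_atTop_atTop).const_mul _
  rw [mul_zero] at hlim
  have h2 := pow_dom' h1 (4 * B)
  obtain ⟨L0, hL0⟩ := eventually_atTop.1 (((hlim.eventually
    (ge_mem_nhds (by norm_num : (0 : ℝ) < 1 / 4))).and h2).and (eventually_ge_atTop 1))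
  refine ⟨L0, fun L hL => ?_⟩
  obtain ⟨⟨h3, h4⟩, h5⟩ := hL0 L hL
  have hL1 : (1 : ℝ) ≤ L := by exact_mod_cast h5
  have hLp : (0 : ℝ) < L := by linarith
  constructor
  · have e1 : α * (L : ℝ) ^ (-ζ1) * (L : ℝ) ^ ζ = α * (L : ℝ) ^ (ζ - ζ1) := by
      rw [mul_assoc, ← Real.rpow_add hLp]
      congr 2
      ring
    rw [e1]
    refine le_trans ?_ h3
    have h6 := hK L h5
    have h7 : (L + 1 : ℝ) ≤ 2 * L := by linarith
    have h8 : ((2 : ℝ) * L + 1) ^ d ≤ (3 * L) ^ d :=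
      pow_le_pow_left₀ (by positivity) (by linarith) d
    have h9 : (1 : ℝ) ≤ (3 * L) ^ d := one_le_pow₀ (by linarith)
    have hKL : 0 ≤ K * (L : ℝ) ^ (-((d : ℝ) + 2)) :=
      mul_nonneg hK0 (Real.rpow_nonneg hLp.le _)
    calc (L + 1 : ℝ) * (3 * Real.exp (-(α * (L : ℝ) ^ (ζ - ζ1)))) +
          (L + 1) * ((2 * L + 1) ^ d * (3 * Real.exp (-(α * (L : ℝ) ^ (ζ - ζ1)))))
        ≤ (2 * L) * (3 * (K * (L : ℝ) ^ (-((d : ℝ) + 2)))) +
          (2 * L) * ((3 * L) ^ d * (3 * (K * (L : ℝ) ^ (-((d : ℝ) + 2))))) := by gcongr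
      _ ≤ (2 * L) * ((3 * L) ^ d * (3 * (K * (L : ℝ) ^ (-((d : ℝ) + 2))))) +
          (2 * L) * ((3 * L) ^ d * (3 * (K * (L : ℝ) ^ (-((d : ℝ) + 2))))) := by
          have h10 : 3 * (K * (L : ℝ) ^ (-((d : ℝ) + 2))) ≤
              (3 * L) ^ d * (3 * (K * (L : ℝ) ^ (-((d : ℝ) + 2)))) :=
            le_mul_of_one_le_left (by positivity) h9
          exact add_le_add (mul_le_mul_of_nonneg_left h10 (by positivity)) le_rfl
      _ = 12 * K * 3 ^ d * (L * (L : ℝ) ^ d * (L : ℝ) ^ (-((d : ℝ) + 2))) := by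
          rw [mul_pow]
          ring
      _ = 12 * K * 3 ^ d * (L : ℝ) ^ (-(1 : ℝ)) := by
          congr 1
          nth_rewrite 1 [← Real.rpow_one (L : ℝ)]
          rw [← Real.rpow_natCast (L : ℝ) d, ← Real.rpow_add hLp, ← Real.rpow_add hLp]
          congr 1
          ring
  · linarith

/-- the upper tail -/
theorem up_tail (hi' : S_ID) (hd : 1 ≤ d) (he : IsEnv P ω)
    (hm : ∀ (β : ℝ) (h : Fin d → ℝ) (n : ℕ), Measurable (lw ω β h 0 0 n))
    (hint : ∀ (β : ℝ) (h : Fin d → ℝ) (n : ℕ), Integrable (lw ω β h 0 0 n) P)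
    (β : ℝ) (U : Set (Fin d → ℝ)) (φ : (Fin d → ℝ) → ℝ) {α ζ1 ζ B : ℝ} (hα : 0 < α)
    (hζ1 : 0 < ζ1) (hζ : ζ1 < ζ)
    (hLL : ∀ h ∈ U, ∀ n : ℕ, 1 ≤ n →
      LL P ω β h (φ h) (α * (n : ℝ) ^ (-ζ1)) n ≤ ENNReal.ofReal 3)
    (hL1 : ∀ h ∈ U, ∀ n : ℕ, 1 ≤ n → ∫ x, |lw ω β h 0 0 n x - n * φ h| ∂P ≤ B * (n : ℝ) ^ ζ1) :
    ∃ C : ℝ, 0 < C ∧ ∀ h ∈ U, ∀ n : ℕ, 1 ≤ n → ∀ s : ℝ, 0 < s →
      P.real {x | n * φ h + s ≤ lw ω β h 0 0 n x} ≤ C * n * s ^ (-(1 / ζ)) := by
  have hζ0 : 0 < ζ := by linarith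
  have hζi : 0 < 1 / ζ := by positivity
  obtain ⟨L0, hL0⟩ := asy_err d (B := B) hα hζ
  -- the size of `s`
  obtain ⟨s1, hs1, hs1'⟩ : ∃ s1 : ℝ, 0 < s1 ∧ ∀ s : ℝ, s1 ≤ s →
      Real.log (2 * s ^ (1 / ζ)) ≤ s / 4 := by
    have h1 : Tendsto (fun s : ℝ => Real.log s / s) atTop (𝓝 0) := by
      have := Real.isLittleO_log_id_atTop.tendsto_div_nhds_zero
      simpa using this
    have h2 : Tendsto (fun s : ℝ => Real.log 2 / s + 1 / ζ * (Real.log s / s)) atTop
        (𝓝 (0 + 1 / ζ * 0)) :=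
      (tendsto_const_nhds.div_atTop tendsto_id).add (h1.const_mul _)
    rw [mul_zero, add_zero] at h2
    obtain ⟨s1, hs1⟩ := eventually_atTop.1 ((h2.eventually
      (ge_mem_nhds (by norm_num : (0 : ℝ) < 1 / 4))).and (eventually_ge_atTop 1))
    refine ⟨max s1 1, by positivity, fun s hs => ?_⟩
    obtain ⟨h3, h4⟩ := hs1 s (le_trans (le_max_left _ _) hs)
    have hsp : 0 < s := by linarith
    rw [Real.log_mul (by norm_num) (Real.rpow_pos_of_pos hsp _).ne', Real.log_rpow hsp]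
    have h5 : (Real.log 2 / s + 1 / ζ * (Real.log s / s)) * s =
        Real.log 2 + 1 / ζ * Real.log s := by
      field_simp
    have h6 := mul_le_mul_of_nonneg_right h3 hsp.le
    rw [h5] at h6
    linarith
  set c4 : ℝ := (4 : ℝ) ^ (1 / ζ) with hc4
  have hc40 : 0 < c4 := Real.rpow_pos_of_pos (by norm_num) _
  set C : ℝ := s1 ^ (1 / ζ) + c4 * (2 * L0) + c4 * 4 + 1 with hC
  have hs1p : 0 < s1 ^ (1 / ζ) := Real.rpow_pos_of_pos hs1 _
  have hL0n : (0 : ℝ) ≤ L0 := Nat.cast_nonneg _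
  have hC1 : 1 ≤ C := by
    have : 0 ≤ c4 * (2 * L0) := by positivity
    rw [hC]; nlinarith
  refine ⟨C, by linarith, fun h hh b hb s hs => ?_⟩
  have hbR : (1 : ℝ) ≤ b := by exact_mod_cast hb
  set q : ℝ := P.real {x | b * φ h + s ≤ lw ω β h 0 0 b x} with hq
  have hq1 : q ≤ 1 := measureReal_le_one
  have hsp : 0 < s ^ (1 / ζ) := Real.rpow_pos_of_pos hs _
  have hsi : s ^ (-(1 / ζ)) = (s ^ (1 / ζ))⁻¹ := Real.rpow_neg hs.le _
  -- it suffices that `q s^(1/ζ) ≤ C b`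
  suffices hsuf : q * s ^ (1 / ζ) ≤ C * b by
    rw [hsi, ← div_eq_mul_inv, le_div_iff₀ hsp]
    exact hsuf
  have htriv : ∀ A : ℝ, s ^ (1 / ζ) ≤ A → A ≤ C * b → q * s ^ (1 / ζ) ≤ C * b := by
    intro A hA hAC
    calc q * s ^ (1 / ζ) ≤ 1 * s ^ (1 / ζ) := mul_le_mul_of_nonneg_right hq1 hsp.le
      _ ≤ C * b := by linarith
  by_cases hcs : s < s1
  · apply htriv (s1 ^ (1 / ζ)) (Real.rpow_le_rpow hs.le hcs.le hζi.le)
    have h1 : s1 ^ (1 / ζ) ≤ C := by
      have : 0 ≤ c4 * (2 * L0) := by positivity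
      rw [hC]; nlinarith
    nlinarith
  push Not at hcs
  set y : ℝ := (s / 4) ^ (1 / ζ) with hy
  have hy0 : 0 < y := Real.rpow_pos_of_pos (by positivity) _
  have hsy : s ^ (1 / ζ) = c4 * y := by
    rw [hc4, hy, ← Real.mul_rpow (by norm_num) (by positivity)]
    congr 1
    ring
  by_cases hcy : y < 2 * L0
  · apply htriv (c4 * (2 * L0))
    · rw [hsy]
      exact mul_le_mul_of_nonneg_left hcy.le hc40.le
    · have h1 : c4 * (2 * L0) ≤ C := by rw [hC]; nlinarith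
      have : 0 ≤ c4 * (2 * L0) := by positivity
      nlinarith
  push Not at hcy
  by_cases hcb : y < b
  · apply htriv (c4 * b)
    · rw [hsy]
      exact mul_le_mul_of_nonneg_left hcb.le hc40.le
    · have h1 : c4 ≤ C := by
        have : 0 ≤ c4 * (2 * L0) := by positivity
        rw [hC]; nlinarith
      exact mul_le_mul_of_nonneg_right h1 (by linarith)
  push Not at hcb
  by_cases hcq : q ≤ s ^ (-(1 / ζ))
  · calc q * s ^ (1 / ζ) ≤ s ^ (-(1 / ζ)) * s ^ (1 / ζ) :=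
          mul_le_mul_of_nonneg_right hcq hsp.le
      _ = 1 := by rw [hsi, inv_mul_cancel₀ hsp.ne']
      _ ≤ C * b := by nlinarith
  push Not at hcq
  have hsn : 0 < s ^ (-(1 / ζ)) := Real.rpow_pos_of_pos hs _
  have hq0 : 0 < q := by linarith
  -- the number of trials
  set K : ℕ := ⌊y / b⌋₊ with hK
  have hyb : 1 ≤ y / b := by rwa [one_le_div (by linarith)]
  have hK1 : 1 ≤ K := by
    rw [hK]
    exact (Nat.one_le_floor_iff _).2 hyb
  have hKle : (K : ℝ) ≤ y / b := Nat.floor_le (by positivity)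
  have hKge : y / b / 2 ≤ K := by
    have h1 : y / b < K + 1 := Nat.lt_floor_add_one _
    have h2 : (1 : ℝ) ≤ K := by exact_mod_cast hK1
    linarith
  set L : ℕ := K * b with hL
  have hLy : (L : ℝ) ≤ y := by
    rw [hL]
    push_cast
    rw [le_div_iff₀ (by linarith)] at hKle
    exact hKle
  have hLy2 : y / 2 ≤ L := by
    rw [hL]
    push_cast
    have h1 : y / b / 2 * b ≤ K * b := mul_le_mul_of_nonneg_right hKge (by linarith)
    have h2 : y / b / 2 * b = y / 2 := by field_simp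
    linarith
  have hLL0 : L0 ≤ L := by
    have : (L0 : ℝ) ≤ L := by linarith
    exact_mod_cast this
  obtain ⟨herr, hB⟩ := hL0 L hLL0
  have hL1' : 1 ≤ L := by
    rw [hL]
    exact Nat.one_le_iff_ne_zero.2 (Nat.mul_ne_zero (by omega) (by omega))
  have hLp : (0 : ℝ) < L := by exact_mod_cast hL1'
  have hLζ : (L : ℝ) ^ ζ ≤ s / 4 := by
    calc (L : ℝ) ^ ζ ≤ y ^ ζ := Real.rpow_le_rpow hLp.le hLy hζ0.le
      _ = s / 4 := by
          rw [hy, ← Real.rpow_mul (by positivity), one_div, inv_mul_cancel₀ hζ0.ne',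
            Real.rpow_one]
  have hLζ0 : 0 < (L : ℝ) ^ ζ := Real.rpow_pos_of_pos hLp _
  have hlogq : -(s / 4) ≤ Real.log (q / 2) := by
    have h1 : Real.log (s ^ (-(1 / ζ)) / 2) ≤ Real.log (q / 2) :=
      Real.log_le_log (by positivity) (by linarith)
    have h2 : s ^ (-(1 / ζ)) / 2 = (2 * s ^ (1 / ζ))⁻¹ := by
      rw [hsi, mul_inv, div_eq_mul_inv, mul_comm]
    rw [h2, Real.log_inv] at h1
    have h3 := hs1' s hcs
    linarith
  have hlow : ∀ n ≤ L, P.real {x | lw ω β h 0 0 n x < n * φ h - (L : ℝ) ^ ζ} ≤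
      3 * Real.exp (-(α * (L : ℝ) ^ (-ζ1) * (L : ℝ) ^ ζ)) := by
    intro n hn
    rcases Nat.eq_zero_or_pos n with rfl | hn0
    · have e : {x | lw ω β h 0 0 0 x < (0 : ℕ) * φ h - (L : ℝ) ^ ζ} = ∅ := by
        ext x
        simp only [Set.mem_setOf_eq, Set.mem_empty_iff_false, iff_false, not_lt]
        rw [lw_zero, Nat.cast_zero, zero_mul]
        linarith
      rw [e]
      simp only [measureReal_empty]
      positivity
    · have hnp : (0 : ℝ) < n := by exact_mod_cast hn0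
      have h1 := LL_markov hm β h (φ h) (α * (n : ℝ) ^ (-ζ1))
        (mul_pos hα (Real.rpow_pos_of_pos hnp _)).le n ((L : ℝ) ^ ζ) (hLL h hh n hn0)
      refine h1.trans ?_
      have h2 : (L : ℝ) ^ (-ζ1) ≤ (n : ℝ) ^ (-ζ1) :=
        Real.rpow_le_rpow_of_nonpos hnp (by exact_mod_cast hn) (by linarith)
      gcongr
  have htop : P.real {x | L * φ h + (L : ℝ) ^ ζ ≤ lw ω β h 0 0 L x} ≤ 1 / 4 := by
    have hi2 : Integrable (fun x => |lw ω β h 0 0 L x - L * φ h|) P :=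
      ((hint β h L).sub (integrable_const _)).abs
    have h1 := mul_meas_ge_le_integral_of_nonneg (μ := P)
      (Eventually.of_forall fun x => abs_nonneg (lw ω β h 0 0 L x - L * φ h)) hi2 ((L : ℝ) ^ ζ)
    have h2 : P.real {x | L * φ h + (L : ℝ) ^ ζ ≤ lw ω β h 0 0 L x} ≤
        P.real {x | (L : ℝ) ^ ζ ≤ |lw ω β h 0 0 L x - L * φ h|} := by
      refine measureReal_mono (fun x hx => ?_) (measure_ne_top _ _)
      have hx' : L * φ h + (L : ℝ) ^ ζ ≤ lw ω β h 0 0 L x := hx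
      show (L : ℝ) ^ ζ ≤ |lw ω β h 0 0 L x - L * φ h|
      exact le_trans (by linarith) (le_abs_self _)
    have h3 := h1.trans ((hL1 h hh L hL1').trans hB)
    have h4 : (L : ℝ) ^ ζ * P.real {x | (L : ℝ) ^ ζ ≤ |lw ω β h 0 0 L x - L * φ h|} ≤
        (L : ℝ) ^ ζ * (1 / 4) := by
      rw [mul_comm _ (1 / 4 : ℝ)]
      exact h3
    exact h2.trans (le_of_mul_le_mul_left h4 hLζ0)
  have hmain := trial_main hi' hd he β h (φ h) (K := K) (L := L) hL (r := (L : ℝ) ^ ζ)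
    (r' := (L : ℝ) ^ ζ) hq0 hq hlow (by linarith)
  have hpow : (1 : ℝ) / 2 ≤ (1 - q / 2) ^ K := by linarith
  have hexp : (1 - q / 2) ^ K ≤ Real.exp (-(q / 2) * K) := by
    calc (1 - q / 2) ^ K ≤ (Real.exp (-(q / 2))) ^ K := by
          apply pow_le_pow_left₀ (by linarith)
          have := Real.add_one_le_exp (-(q / 2))
          linarith
      _ = Real.exp (-(q / 2) * K) := by
          rw [← Real.exp_nat_mul]
          congr 1
          ring
  have hqK : q * K ≤ 2 := by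
    have h1 : Real.exp (-1) < 1 / 2 := by
      have := Real.exp_neg_one_lt_d9
      linarith
    have h2 : Real.exp (-1) < Real.exp (-(q / 2) * K) := by linarith
    have h3 := Real.exp_lt_exp.1 h2
    linarith
  rw [hsy]
  have h5 : q * (y / b / 2) ≤ 2 := by
    calc q * (y / b / 2) ≤ q * K := mul_le_mul_of_nonneg_left hKge hq0.le
      _ ≤ 2 := hqK
  have h6 : q * y ≤ 4 * b := by
    have h7 : q * (y / b / 2) * (2 * b) = q * y := by field_simp
    have h8 : q * (y / b / 2) * (2 * b) ≤ 2 * (2 * b) :=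
      mul_le_mul_of_nonneg_right h5 (by linarith)
    linarith
  calc q * (c4 * y) = c4 * (q * y) := by ring
    _ ≤ c4 * (4 * b) := mul_le_mul_of_nonneg_left h6 hc40.le
    _ = (c4 * 4) * b := by ring
    _ ≤ C * b := by
        apply mul_le_mul_of_nonneg_right _ (by linarith)
        have : 0 ≤ c4 * (2 * L0) := by positivity
        rw [hC]; nlinarith

end

end Pool.Agent.Run7.h208.WT
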